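import Mathlib

set_option autoImplicit false

namespace Pool.Agent.Helper209.AC.AlmostPL

open Set Metric

/-- Phragmén–Lindelöf for almost holomorphic functions, via the maximum principle on unit discs. -/
theorem almost_PL (S T : Set ℂ) (B : ℂ → ℂ) (w : ℂ → ℝ) (η C0 C1 : ℝ) (hη : 0 < η) (hC0 : 0 ≤ C0)
    (hC1 : 0 ≤ C1)
    (hloc : ∀ ζ₀ ∈ S, ∃ b h : ℂ → ℂ, DiffContOnCl ℂ b (ball ζ₀ 1) ∧ DiffContOnCl ℂ h (ball ζ₀ 1) ∧
      b ζ₀ = B ζ₀ ∧ (h ζ₀).re = w ζ₀ ∧ ∀ ζ ∈ sphere ζ₀ 1, ζ ∈ S ∪ T ∧ (h ζ).re ≤ w ζ - η ∧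
        ‖b ζ - B ζ‖ ≤ C0 * Real.exp (-w ζ))
    (hT : ∀ ζ ∈ T, ‖B ζ‖ ≤ C1 * Real.exp (-w ζ))
    (hS : ∃ M, ∀ ζ ∈ S, ‖B ζ‖ ≤ M * Real.exp (-w ζ)) :
    ∀ ζ ∈ S, ‖B ζ‖ ≤ max C1 (C0 / (Real.exp η - 1)) * Real.exp (-w ζ) := by
  intro ζ₁ hζ₁
  obtain ⟨M, hM⟩ := hS
  set A : Set ℝ := (fun ζ => ‖B ζ‖ * Real.exp (w ζ)) '' S with hA
  have hbdd : BddAbove A := by
    refine ⟨M, ?_⟩
    rintro _ ⟨ζ, hζ, rfl⟩
    have h1 := hM ζ hζ
    calc ‖B ζ‖ * Real.exp (w ζ) ≤ M * Real.exp (-w ζ) * Real.exp (w ζ) := by gcongr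
      _ = M := by rw [mul_assoc, ← Real.exp_add, neg_add_cancel, Real.exp_zero, mul_one]
  have hle : ∀ ζ ∈ S, ‖B ζ‖ ≤ sSup A * Real.exp (-w ζ) := by
    intro ζ hζ
    have h1 : ‖B ζ‖ * Real.exp (w ζ) ≤ sSup A := le_csSup hbdd ⟨ζ, hζ, rfl⟩
    calc ‖B ζ‖ = ‖B ζ‖ * Real.exp (w ζ) * Real.exp (-w ζ) := by
          rw [mul_assoc, ← Real.exp_add, add_neg_cancel, Real.exp_zero, mul_one]
      _ ≤ sSup A * Real.exp (-w ζ) := by gcongr
  have hkey : ∀ ζ₀ ∈ S, ‖B ζ₀‖ * Real.exp (w ζ₀) ≤ (max (sSup A) C1 + C0) * Real.exp (-η) := by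
    intro ζ₀ hζ₀
    obtain ⟨b, h, hb, hh, hb0, hh0, hs⟩ := hloc ζ₀ hζ₀
    have hF : DiffContOnCl ℂ (fun ζ => Complex.exp (h ζ) • b ζ) (ball ζ₀ 1) :=
      (Complex.differentiable_exp.comp_diffContOnCl hh).smul hb
    have hfr : ∀ ζ ∈ frontier (ball ζ₀ (1 : ℝ)), ‖(fun ζ => Complex.exp (h ζ) • b ζ) ζ‖
        ≤ (max (sSup A) C1 + C0) * Real.exp (-η) := by
      intro ζ hζ
      rw [frontier_ball ζ₀ one_ne_zero] at hζ
      obtain ⟨hmem, hre, hbB⟩ := hs ζ hζ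
      have hB : ‖B ζ‖ ≤ max (sSup A) C1 * Real.exp (-w ζ) := by
        rcases hmem with hmem | hmem
        · exact (hle ζ hmem).trans (by gcongr; exact le_max_left _ _)
        · exact (hT ζ hmem).trans (by gcongr; exact le_max_right _ _)
      have hbn : ‖b ζ‖ ≤ (max (sSup A) C1 + C0) * Real.exp (-w ζ) := by
        calc ‖b ζ‖ = ‖(b ζ - B ζ) + B ζ‖ := by rw [sub_add_cancel]
          _ ≤ ‖b ζ - B ζ‖ + ‖B ζ‖ := norm_add_le _ _
          _ ≤ C0 * Real.exp (-w ζ) + max (sSup A) C1 * Real.exp (-w ζ) := add_le_add hbB hB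
          _ = _ := by ring
      have hmax0 : 0 ≤ max (sSup A) C1 + C0 := add_nonneg (hC1.trans (le_max_right _ _)) hC0
      simp only
      rw [norm_smul, Complex.norm_exp]
      calc Real.exp (h ζ).re * ‖b ζ‖
          ≤ Real.exp (w ζ - η) * ((max (sSup A) C1 + C0) * Real.exp (-w ζ)) := by
            gcongr
        _ = (max (sSup A) C1 + C0) * (Real.exp (w ζ - η) * Real.exp (-w ζ)) := by ring
        _ = (max (sSup A) C1 + C0) * Real.exp (-η) := by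
            rw [← Real.exp_add]; congr 2; ring
    have h1 := Complex.norm_le_of_forall_mem_frontier_norm_le isBounded_ball hF hfr
      (subset_closure (mem_ball_self one_pos))
    rw [norm_smul, Complex.norm_exp, hb0, hh0] at h1
    linarith [mul_comm (Real.exp (w ζ₀)) ‖B ζ₀‖]
  have hsup : sSup A ≤ (max (sSup A) C1 + C0) * Real.exp (-η) := by
    apply csSup_le (Set.Nonempty.image _ ⟨ζ₁, hζ₁⟩)
    rintro _ ⟨ζ, hζ, rfl⟩
    exact hkey ζ hζ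
  have hE : 0 < Real.exp η - 1 := by
    have := Real.add_one_lt_exp hη.ne'
    linarith
  have hfin : sSup A ≤ max C1 (C0 / (Real.exp η - 1)) := by
    rcases le_or_gt (sSup A) C1 with hc | hc
    · exact hc.trans (le_max_left _ _)
    · refine le_trans ?_ (le_max_right _ _)
      rw [max_eq_left hc.le] at hsup
      rw [le_div_iff₀ hE]
      have h1 : sSup A * Real.exp η ≤ sSup A + C0 := by
        calc sSup A * Real.exp η ≤ ((sSup A + C0) * Real.exp (-η)) * Real.exp η := by gcongr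
          _ = sSup A + C0 := by
            rw [mul_assoc, ← Real.exp_add, neg_add_cancel, Real.exp_zero, mul_one]
      linarith
  exact (hle ζ₁ hζ₁).trans (by gcongr)

/-- the argument changes little on unit discs far out in the closed upper right region -/
theorem arg_close (δ : ℝ) (hδ : 0 < δ) : ∃ R : ℝ, 2 ≤ R ∧ ∀ ζ₀ ζ : ℂ, R ≤ ‖ζ₀‖ → ‖ζ - ζ₀‖ ≤ 1 →
    0 ≤ ζ₀.re → 0 ≤ ζ₀.im → |ζ.arg - ζ₀.arg| ≤ δ := by
  have hpi := Real.pi_pos
  have hcont : ContinuousAt Complex.arg 1 := Complex.continuousAt_arg (by simp [Complex.slitPlane])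
  have hm : 0 < min δ (Real.pi / 2) := lt_min hδ (by positivity)
  obtain ⟨ρ, hρ, hρ'⟩ := Metric.continuousAt_iff.mp hcont (min δ (Real.pi / 2)) hm
  refine ⟨max 2 (2 / ρ), le_max_left _ _, ?_⟩
  intro ζ₀ ζ hR hd hre him
  have h2 : (2 : ℝ) ≤ ‖ζ₀‖ := (le_max_left _ _).trans hR
  have h2' : 2 / ρ ≤ ‖ζ₀‖ := (le_max_right _ _).trans hR
  have hpos : 0 < ‖ζ₀‖ := by linarith
  have hne : ζ₀ ≠ 0 := norm_pos_iff.mp hpos
  set v : ℂ := ζ / ζ₀ with hv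
  have hvd : dist v 1 < ρ := by
    rw [dist_eq_norm, hv, div_sub_one hne, norm_div, div_lt_iff₀ hpos]
    rw [div_le_iff₀ hρ] at h2'
    nlinarith
  have hv1 := hρ' hvd
  rw [Complex.arg_one, Real.dist_eq, sub_zero] at hv1
  have hv2 : |v.arg| < δ := hv1.trans_le (min_le_left _ _)
  have hv3 : |v.arg| < Real.pi / 2 := hv1.trans_le (min_le_right _ _)
  have hvne : v ≠ 0 := by
    intro h0
    rw [hv, div_eq_zero_iff] at h0
    rcases h0 with h0 | h0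
    · rw [h0, zero_sub, norm_neg] at hd
      linarith
    · exact hne h0
  have ha0 : 0 ≤ ζ₀.arg := Complex.arg_nonneg_iff.mpr him
  have ha1 : ζ₀.arg ≤ Real.pi / 2 := by
    have := Complex.abs_arg_le_pi_div_two_iff.mpr hre
    exact (abs_le.mp this).2
  have hz : ζ = ζ₀ * v := by rw [hv, mul_div_cancel₀ _ hne]
  have hsum : ζ₀.arg + v.arg ∈ Ioc (-Real.pi) Real.pi := by
    have h3 := abs_lt.mp hv3
    constructor <;> linarith [h3.1, h3.2]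
  rw [hz, Complex.arg_mul hne hvne hsum, add_sub_cancel_left]
  exact hv2.le

end Pool.Agent.Helper209.AC.AlmostPL
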