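import Pool.Agent.Helper209.AC.Coer

set_option autoImplicit false

namespace Pool.Agent.Helper209.AC

open MeasureTheory Set

variable {V ψ ψ' χ χ' φ φ' : ℝ → ℂ}

/-- constant in the trace inequalities -/
def CK (K : ℝ) : ℝ := 2 * (1 + K)

lemma sqrt_trick {E A δ : ℝ} (hE : 0 ≤ E) (hA : 0 ≤ A) (hδ : 0 < δ) (h : δ * E ≤ A * Real.sqrt E) :
    E ≤ (A / δ) ^ 2 := by
  have h1 : Real.sqrt E * Real.sqrt E = E := Real.mul_self_sqrt hE
  have h2 : Real.sqrt E ≤ A / δ := by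
    rw [le_div_iff₀ hδ]
    by_cases h0 : Real.sqrt E = 0
    · rw [h0]; simpa using hA
    · have hpos : 0 < Real.sqrt E := lt_of_le_of_ne (Real.sqrt_nonneg _) (Ne.symm h0)
      have : δ * (Real.sqrt E * Real.sqrt E) ≤ A * Real.sqrt E := by rw [h1]; exact h
      have h3 : (Real.sqrt E * δ) * Real.sqrt E ≤ A * Real.sqrt E := by linarith
      exact le_of_mul_le_mul_right h3 hpos
  calc E = Real.sqrt E ^ 2 := by rw [sq, h1]
    _ ≤ _ := pow_le_pow_left₀ (Real.sqrt_nonneg _) h2 2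

lemma IsSol.traceK (h : IsSol V ψ ψ') {a b K : ℝ} (hK0 : 0 ≤ K) (hb : b ∈ Icc a (a + 1)) :
    ‖ψ b‖ ≤ CK K * Real.sqrt (∫ x in a..(a + 1), en ψ ψ' x) := by
  have h1 := h.trace hb
  have hE : 0 ≤ ∫ x in a..(a + 1), en ψ ψ' x :=
    intervalIntegral.integral_nonneg (by linarith) (fun _ _ => en_nonneg _ _ _)
  apply le_of_sq_le_sq _ (by unfold CK; positivity)
  rw [mul_pow, Real.sq_sqrt hE]
  refine h1.trans ?_
  apply mul_le_mul_of_nonneg_right _ hE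
  unfold CK; nlinarith
where
  le_of_sq_le_sq {x y : ℝ} (h : x ^ 2 ≤ y ^ 2) (hy : 0 ≤ y) : x ≤ y := by
    exact le_of_abs_le (by rw [← abs_of_nonneg hy]; exact sq_le_sq.1 h) |>.trans' (le_refl _)

lemma IsSol.traceK' (hV : Continuous V) (h : IsSol V ψ ψ') {a b K : ℝ} (hK0 : 0 ≤ K)
    (hb : b ∈ Icc a (a + 1)) (hK : ∀ x ∈ Icc a (a + 1), ‖V x‖ ≤ K) :
    ‖ψ' b‖ ≤ CK K * Real.sqrt (∫ x in a..(a + 1), en ψ ψ' x) := by
  have h1 := h.trace' hV hb hK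
  have hE : 0 ≤ ∫ x in a..(a + 1), en ψ ψ' x :=
    intervalIntegral.integral_nonneg (by linarith) (fun _ _ => en_nonneg _ _ _)
  apply le_of_abs_le
  have : |‖ψ' b‖| ≤ |CK K * Real.sqrt (∫ x in a..(a + 1), en ψ ψ' x)| := by
    apply sq_le_sq.1
    rw [mul_pow, Real.sq_sqrt hE]
    refine h1.trans ?_
    apply mul_le_mul_of_nonneg_right _ hE
    unfold CK; nlinarith
  rwa [abs_of_nonneg (a := CK K * _) (by unfold CK; positivity)] at this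

/-- solution with nonnegative current at `0`: everything is controlled by the value at the right end -/
lemma left_bounds {w : ℂ} {δ y K : ℝ} (hy : 1 ≤ y) (hV : Continuous V) (h : IsSol V φ φ')
    (hc : Coer V w δ (Icc 0 y)) (hK0 : 0 ≤ K) (hK : ∀ x ∈ Icc (y - 1) y, ‖V x‖ ≤ K)
    (h0 : 0 ≤ JJ w φ φ' 0) :
    (∫ x in (0:ℝ)..y, en φ φ' x) ≤ (CK K / δ) ^ 2 * ‖φ y‖ ^ 2 ∧ δ / 2 * ‖φ y‖ ^ 2 ≤ JJ w φ φ' y := by
  have hδ := hc.pos
  set E := ∫ x in (0:ℝ)..y, en φ φ' x with hE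
  set E' := ∫ x in (y - 1)..(y - 1 + 1), en φ φ' x with hE'
  have hE'0 : 0 ≤ E' := intervalIntegral.integral_nonneg (by linarith) (fun _ _ => en_nonneg _ _ _)
  have hE'E : E' ≤ E := by
    rw [hE, hE', sub_add_cancel]
    apply intervalIntegral.integral_mono_interval (by linarith) (by linarith) le_rfl
    · exact Filter.Eventually.of_forall fun _ => en_nonneg _ _ _
    · exact (en_cont h).intervalIntegrable _ _
  have hyy : y ∈ Icc (y - 1) (y - 1 + 1) := ⟨by linarith, by linarith⟩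
  have hK' : ∀ x ∈ Icc (y - 1) (y - 1 + 1), ‖V x‖ ≤ K := by simpa using hK
  have t2 := h.traceK' hV hK0 hyy hK'
  rw [← hE'] at t2
  have hm := JJ_mono h (by linarith) hc
  rw [← hE] at hm
  have hJ := (le_abs_self _).trans (abs_JJ_le hc.le φ φ' y)
  have hs : Real.sqrt E' ≤ Real.sqrt E := Real.sqrt_le_sqrt hE'E
  have hE0 : 0 ≤ E := hE'0.trans hE'E
  have hCK : 0 ≤ CK K := by unfold CK; positivity
  have h1 : δ * E ≤ (‖φ y‖ * CK K) * Real.sqrt E := by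
    calc δ * E ≤ JJ w φ φ' y := by linarith
      _ ≤ ‖φ y‖ * ‖φ' y‖ := hJ
      _ ≤ ‖φ y‖ * (CK K * Real.sqrt E) := by
          apply mul_le_mul_of_nonneg_left _ (norm_nonneg _)
          exact t2.trans (mul_le_mul_of_nonneg_left hs hCK)
      _ = _ := by ring
  refine ⟨?_, ?_⟩
  · have := sqrt_trick hE0 (by positivity) hδ h1
    calc E ≤ _ := this
      _ = _ := by ring
  · have t1 := h.trace hyy
    rw [← hE'] at t1
    nlinarith

/-- right solution, finite interval, nonpositive current at the right end -/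
lemma right_bounds {w : ℂ} {δ y Y K : ℝ} (hy : y + 1 ≤ Y) (hV : Continuous V) (h : IsSol V ψ ψ')
    (hc : Coer V w δ (Icc y Y)) (hK0 : 0 ≤ K) (hK : ∀ x ∈ Icc y (y + 1), ‖V x‖ ≤ K)
    (h0 : JJ w ψ ψ' Y ≤ 0) :
    (∫ x in y..Y, en ψ ψ' x) ≤ (CK K / δ) ^ 2 * ‖ψ y‖ ^ 2 ∧ JJ w ψ ψ' y ≤ -(δ / 2 * ‖ψ y‖ ^ 2)
      ∧ ‖ψ' y‖ ≤ CK K ^ 2 / δ * ‖ψ y‖ := by
  have hδ := hc.pos
  set E := ∫ x in y..Y, en ψ ψ' x with hE
  set E' := ∫ x in y..(y + 1), en ψ ψ' x with hE'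
  have hE'0 : 0 ≤ E' := intervalIntegral.integral_nonneg (by linarith) (fun _ _ => en_nonneg _ _ _)
  have hE'E : E' ≤ E := by
    rw [hE, hE']
    apply intervalIntegral.integral_mono_interval le_rfl (by linarith) hy
    · exact Filter.Eventually.of_forall fun _ => en_nonneg _ _ _
    · exact (en_cont h).intervalIntegrable _ _
  have hyy : y ∈ Icc y (y + 1) := ⟨by linarith, by linarith⟩
  have t2 := h.traceK' hV hK0 hyy hK
  rw [← hE'] at t2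
  have hm := JJ_mono h (by linarith) hc
  rw [← hE] at hm
  have hJ := (neg_le_abs _).trans (abs_JJ_le hc.le ψ ψ' y)
  have hs : Real.sqrt E' ≤ Real.sqrt E := Real.sqrt_le_sqrt hE'E
  have hE0 : 0 ≤ E := hE'0.trans hE'E
  have hCK : 0 ≤ CK K := by unfold CK; positivity
  have h1 : δ * E ≤ (‖ψ y‖ * CK K) * Real.sqrt E := by
    calc δ * E ≤ -JJ w ψ ψ' y := by linarith
      _ ≤ ‖ψ y‖ * ‖ψ' y‖ := hJ
      _ ≤ ‖ψ y‖ * (CK K * Real.sqrt E) := by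
          apply mul_le_mul_of_nonneg_left _ (norm_nonneg _)
          exact t2.trans (mul_le_mul_of_nonneg_left hs hCK)
      _ = _ := by ring
  have h2 := sqrt_trick hE0 (by positivity) hδ h1
  have h3 : E ≤ (CK K / δ * ‖ψ y‖) ^ 2 := by
    calc E ≤ _ := h2
      _ = _ := by ring
  refine ⟨?_, ?_, ?_⟩
  · calc E ≤ _ := h3
      _ = _ := by ring
  · have t1 := h.trace hyy
    rw [← hE'] at t1
    nlinarith
  · calc ‖ψ' y‖ ≤ CK K * Real.sqrt E' := t2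
      _ ≤ CK K * Real.sqrt ((CK K / δ * ‖ψ y‖) ^ 2) := by
          apply mul_le_mul_of_nonneg_left _ hCK
          exact Real.sqrt_le_sqrt (hE'E.trans h3)
      _ = _ := by
          rw [Real.sqrt_sq (by positivity)]; ring

/-- an `H¹` solution has nonpositive current -/
lemma JJ_nonpos {w : ℂ} {δ y : ℝ} (h : IsSol V ψ ψ')
    (hc : Coer V w δ (Ici y)) (hint : IntegrableOn (en ψ ψ') (Ioi y)) {x : ℝ} (hx : y ≤ x) :
    JJ w ψ ψ' x ≤ 0 := by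
  by_contra hcon
  push Not at hcon
  have hge : ∀ t, x ≤ t → 2 * JJ w ψ ψ' x ≤ en ψ ψ' t := by
    intro t ht
    have h1 := JJ_mono h ht (hc.mono (fun s hs => hx.trans hs.1))
    have h2 : 0 ≤ ∫ s in x..t, en ψ ψ' s :=
      intervalIntegral.integral_nonneg ht (fun _ _ => en_nonneg _ _ _)
    have h3 : JJ w ψ ψ' x ≤ JJ w ψ ψ' t := by nlinarith [hc.pos]
    have h4 := (le_abs_self _).trans (abs_JJ_le hc.le ψ ψ' t)
    have h5 := two_mul_norm_le_en ψ ψ' t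
    linarith
  have hint2 : IntegrableOn (en ψ ψ') (Ioi x) := hint.mono_set (Ioi_subset_Ioi hx)
  have hcst : IntegrableOn (fun _ : ℝ => 2 * JJ w ψ ψ' x) (Ioi x) := by
    apply Integrable.mono' hint2 aestronglyMeasurable_const
    rw [ae_restrict_iff' measurableSet_Ioi]
    refine Filter.Eventually.of_forall fun t ht => ?_
    rw [Real.norm_of_nonneg (by linarith)]
    exact hge t (le_of_lt ht)
  rw [integrableOn_const_iff] at hcst
  rcases hcst with h0 | h0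
  · linarith [show (2 * JJ w ψ ψ' x) = 0 from by simpa using h0]
  · simp at h0

/-- right solution, infinite interval -/
lemma right_bounds_inf {w : ℂ} {δ y K : ℝ} (hV : Continuous V) (h : IsSol V ψ ψ')
    (hc : Coer V w δ (Ici y)) (hK0 : 0 ≤ K) (hK : ∀ x ∈ Icc y (y + 1), ‖V x‖ ≤ K)
    (hint : IntegrableOn (en ψ ψ') (Ioi y)) :
    (∫ x in Ioi y, en ψ ψ' x) ≤ (CK K / δ) ^ 2 * ‖ψ y‖ ^ 2 ∧ JJ w ψ ψ' y ≤ -(δ / 2 * ‖ψ y‖ ^ 2)
      ∧ ‖ψ' y‖ ≤ CK K ^ 2 / δ * ‖ψ y‖ := by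
  have hfin : ∀ Y, y + 1 ≤ Y → _ := fun Y hY =>
    right_bounds hY hV h (hc.mono (fun s hs => hs.1)) hK0 hK (JJ_nonpos h hc hint (by linarith))
  refine ⟨?_, (hfin (y + 1) le_rfl).2.1, (hfin (y + 1) le_rfl).2.2⟩
  have ht := intervalIntegral_tendsto_integral_Ioi y hint Filter.tendsto_id
  apply le_of_tendsto ht
  filter_upwards [Filter.eventually_ge_atTop (y + 1)] with Y hY using (hfin Y hY).1

/-- product bound (diagonal of the Green function) -/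
lemma prod_bound {w : ℂ} {δ y : ℝ} (hδ : 0 < δ) (hw : ‖w‖ ≤ 1) (hW : ψ y * φ' y - ψ' y * φ y = 1)
    (h1 : δ / 2 * ‖φ y‖ ^ 2 ≤ JJ w φ φ' y) (h2 : JJ w ψ ψ' y ≤ 0) : ‖φ y‖ * ‖ψ y‖ ≤ 2 / δ := by
  have e : JJ w φ φ' y * ‖ψ y‖ ^ 2 - JJ w ψ ψ' y * ‖φ y‖ ^ 2 = (w * starRingEnd ℂ (φ y * ψ y)).re := by
    have e1 : ((‖ψ y‖ ^ 2 : ℝ) : ℂ) = starRingEnd ℂ (ψ y) * ψ y := by
      rw [mul_comm, Complex.mul_conj, Complex.normSq_eq_norm_sq]
    have e2 : ((‖φ y‖ ^ 2 : ℝ) : ℂ) = starRingEnd ℂ (φ y) * φ y := by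
      rw [mul_comm, Complex.mul_conj, Complex.normSq_eq_norm_sq]
    unfold JJ
    rw [← Complex.re_mul_ofReal, ← Complex.re_mul_ofReal, ← Complex.sub_re, e1, e2]
    congr 1
    have : w * starRingEnd ℂ (φ y * ψ y) = w * starRingEnd ℂ (φ y * ψ y) * 1 := by ring
    rw [this, ← hW, map_mul]
    ring
  have h3 : (w * starRingEnd ℂ (φ y * ψ y)).re ≤ ‖φ y‖ * ‖ψ y‖ := by
    calc (w * starRingEnd ℂ (φ y * ψ y)).re ≤ ‖w * starRingEnd ℂ (φ y * ψ y)‖ := Complex.re_le_norm _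
      _ = ‖w‖ * (‖φ y‖ * ‖ψ y‖) := by rw [norm_mul, RCLike.norm_conj, norm_mul]
      _ ≤ 1 * (‖φ y‖ * ‖ψ y‖) := by apply mul_le_mul_of_nonneg_right hw; positivity
      _ = _ := one_mul _
  set P := ‖φ y‖ * ‖ψ y‖ with hP
  have hP0 : 0 ≤ P := by positivity
  have h4 : δ / 2 * P ^ 2 ≤ P := by
    have a1 : δ / 2 * ‖φ y‖ ^ 2 * ‖ψ y‖ ^ 2 ≤ JJ w φ φ' y * ‖ψ y‖ ^ 2 :=
      mul_le_mul_of_nonneg_right h1 (by positivity)
    have a2 : JJ w ψ ψ' y * ‖φ y‖ ^ 2 ≤ 0 := mul_nonpos_of_nonpos_of_nonneg h2 (by positivity)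
    have a3 : δ / 2 * P ^ 2 = δ / 2 * ‖φ y‖ ^ 2 * ‖ψ y‖ ^ 2 := by rw [hP]; ring
    linarith
  rw [le_div_iff₀ hδ]
  by_cases hz : P = 0
  · rw [hz]; norm_num
  · have hpos : 0 < P := lt_of_le_of_ne hP0 (Ne.symm hz)
    have : (P * δ) * P ≤ 2 * P := by nlinarith
    exact le_of_mul_le_mul_right this hpos

/-- two `H¹` solutions are proportional -/
lemma wronsk_zero (h1 : IsSol V ψ ψ') (h2 : IsSol V χ χ') {X : ℝ}
    (i1 : IntegrableOn (en ψ ψ') (Ioi X)) (i2 : IntegrableOn (en χ χ') (Ioi X)) (x : ℝ) :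
    ψ x * χ' x - ψ' x * χ x = 0 := by
  set W := ψ x * χ' x - ψ' x * χ x with hW
  by_contra hne
  have hpos : 0 < ‖W‖ := norm_pos_iff.2 hne
  have hcst : IntegrableOn (fun _ : ℝ => ‖W‖) (Ioi X) := by
    apply Integrable.mono' (i1.add i2) aestronglyMeasurable_const
    refine Filter.Eventually.of_forall fun t => ?_
    rw [norm_norm, hW, h1.wronsk h2 x t]
    have a1 : ‖ψ t * χ' t - ψ' t * χ t‖ ≤ ‖ψ t‖ * ‖χ' t‖ + ‖ψ' t‖ * ‖χ t‖ := by
      calc _ ≤ ‖ψ t * χ' t‖ + ‖ψ' t * χ t‖ := norm_sub_le _ _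
        _ = _ := by rw [norm_mul, norm_mul]
    simp only [Pi.add_apply, en]
    nlinarith [sq_nonneg (‖ψ t‖ - ‖χ' t‖), sq_nonneg (‖ψ' t‖ - ‖χ t‖), sq_nonneg (‖ψ t‖), sq_nonneg (‖χ' t‖), sq_nonneg (‖ψ' t‖), sq_nonneg (‖χ t‖)]
  rw [integrableOn_const_iff] at hcst
  rcases hcst with h0 | h0
  · exact hpos.ne' (by simpa using h0)
  · simp at h0

end Pool.Agent.Helper209.AC
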