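import Pool.Agent.Helper209.AC.Frame

set_option autoImplicit false

namespace Pool.Agent.Helper209.AC.EntireF

open MeasureTheory Set


/-- holomorphic families of Weyl solutions for the potentials `c|x|^α - m` -/
def WeylPotStmt (α : ℝ) : Prop := ∀ R : ℝ, 1 ≤ R → ∃ X : ℝ, 0 < X ∧
    ∀ (U : Set ℂ), IsOpen U → ∀ (c m : ℂ → ℂ), DifferentiableOn ℂ c U → DifferentiableOn ℂ m U →
      (∀ z ∈ U, 1 / 2 ≤ (Complex.exp (-((Real.pi / 4 : ℝ) : ℂ) * Complex.I) * c z).re ∧ ‖c z‖ ≤ 2 ∧ ‖m z‖ ≤ R) →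
      ∃ (Ψ Ψ' : ℂ → ℝ → ℂ) (C : ℝ), 0 < C ∧
        (∀ z ∈ U, IsSol (pot α (c z) (m z)) (Ψ z) (Ψ' z) ∧ Ψ z X = 1 ∧
          IntegrableOn (en (Ψ z) (Ψ' z)) (Ioi 0) ∧
          ∀ x, 0 ≤ x → ‖Ψ z x‖ ≤ C * Real.exp (-(1 / 2) * x)) ∧
        (∀ x, DifferentiableOn ℂ (fun z => Ψ z x) U) ∧ (∀ x, DifferentiableOn ℂ (fun z => Ψ' z x) U)

/-- bound for the Weyl coefficient away from the eigenvalue ray -/
def MStmt (α : ℝ) : Prop := ∃ (C : ℝ) (N : ℕ), 0 < C ∧ ∀ (μ : ℂ) (ψ ψ' : ℝ → ℂ),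
    IsSol (pot α Complex.I μ) ψ ψ' → IntegrableOn (en ψ ψ') (Ioi 0) →
      dray α μ * ‖ψ 0‖ ≤ C * (1 + ‖μ‖) ^ N * ‖ψ' 0‖ ∧ dray α μ * ‖ψ' 0‖ ≤ C * (1 + ‖μ‖) ^ N * ‖ψ 0‖

section J8
open Filter Topology

lemma Vz_cont {α : ℝ} (hα : 0 < α) (ζ : ℂ) : Continuous (Vz α ζ) := pot_cont hα _ _

lemma en_smul (a : ℂ) (ψ ψ' : ℝ → ℂ) (x : ℝ) :
    en (fun x => a * ψ x) (fun x => a * ψ' x) x = ‖a‖ ^ 2 * en ψ ψ' x := by
  simp only [en, norm_mul, mul_pow]; ring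

lemma dray_nonneg (α : ℝ) (μ : ℂ) : 0 ≤ dray α μ := le_min zero_le_one (abs_nonneg _)

/-- a coercive direction -/
lemma exists_coer {α : ℝ} {ζ : ℂ} (hζ : ζ.re ≤ 0 ∨ ζ.im ≤ 0) :
    ∃ w δ, Coer (Vz α ζ) w δ (Ici 0) := by
  rcases hζ with h | h
  · refine ⟨1, 1, ⟨one_pos, by simp, by simp, ?_⟩⟩
    intro x _
    simp only [Vz, pot, one_mul, Complex.sub_re, Complex.mul_re, Complex.I_re, Complex.I_im,
      Complex.ofReal_re, Complex.ofReal_im, Complex.one_re]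
    linarith
  · set μ : ℂ := ζ - 1 - Complex.I with hμ
    set δ : ℝ := 1 / (4 * (1 + ‖μ‖)) with hδ
    have hn : 0 ≤ ‖μ‖ := norm_nonneg _
    have hδ0 : 0 < δ := by positivity
    have hδm : δ * (1 + ‖μ‖) = 1 / 4 := by rw [hδ]; field_simp
    have hδ1 : δ ≤ 1 / 4 := by nlinarith
    refine ⟨(δ : ℂ) - Complex.I / 2, δ, ⟨hδ0, by simp, ?_, ?_⟩⟩
    · have h1 : ‖(δ : ℂ) - Complex.I / 2‖ ≤ ‖(δ : ℂ)‖ + ‖Complex.I / 2‖ := norm_sub_le _ _
      have h2 : ‖(δ : ℂ)‖ = δ := by simp [abs_of_pos hδ0]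
      have h3 : ‖Complex.I / 2‖ = 1 / 2 := by simp
      linarith
    · intro x _
      have hx : 0 ≤ |x| ^ α := Real.rpow_nonneg (abs_nonneg x) α
      have hre : |μ.re| ≤ ‖μ‖ := Complex.abs_re_le_norm μ
      have hre2 := abs_le.1 hre
      have him : μ.im = ζ.im - 1 := by simp [hμ]
      have e : (((δ : ℂ) - Complex.I / 2) * Vz α ζ x).re
          = -(δ * μ.re) + (1 / 2) * (|x| ^ α - μ.im) := by
        simp only [Vz, pot, ← hμ]
        have hI2 : (Complex.I / 2).re = 0 := by simp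
        have hI3 : (Complex.I / 2).im = 1 / 2 := by simp
        simp only [Complex.sub_re, Complex.mul_re, Complex.sub_im, Complex.mul_im, Complex.I_re,
          Complex.I_im, Complex.ofReal_re, Complex.ofReal_im, hI2, hI3]
        ring
      rw [e, him]
      nlinarith

/-- either boundary value being zero forces both to vanish -/
lemma both_zero {α : ℝ} (hα : 0 < α) (hM : MStmt α) {ζ : ℂ}
    (hζ : dray α (ζ - 1 - Complex.I) ≠ 0 ∨ ζ.re ≤ 0 ∨ ζ.im ≤ 0) {ψ ψ' : ℝ → ℂ}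
    (h : IsSol (Vz α ζ) ψ ψ') (hi : IntegrableOn (en ψ ψ') (Ioi 0)) (h0 : ψ 0 = 0 ∨ ψ' 0 = 0) :
    ψ 0 = 0 ∧ ψ' 0 = 0 := by
  rcases hζ with hd | hc
  · obtain ⟨C, N, hC, hM⟩ := hM
    have hpos : 0 < dray α (ζ - 1 - Complex.I) := lt_of_le_of_ne (dray_nonneg _ _) (Ne.symm hd)
    obtain ⟨h1, h2⟩ := hM _ ψ ψ' h hi
    rcases h0 with h0 | h0
    · refine ⟨h0, ?_⟩
      rw [h0, norm_zero, mul_zero] at h2
      have : ‖ψ' 0‖ ≤ 0 := by
        by_contra hcon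
        push Not at hcon
        have := mul_pos hpos hcon
        linarith
      exact norm_le_zero_iff.1 this
    · refine ⟨?_, h0⟩
      rw [h0, norm_zero, mul_zero] at h1
      have : ‖ψ 0‖ ≤ 0 := by
        by_contra hcon
        push Not at hcon
        have := mul_pos hpos hcon
        linarith
      exact norm_le_zero_iff.1 this
  · obtain ⟨w, δ, hco⟩ := exists_coer (α := α) hc
    obtain ⟨K, hK⟩ := (isCompact_Icc (a := (0:ℝ)) (b := 0 + 1)).exists_bound_of_continuousOn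
      (Vz_cont hα ζ).continuousOn
    have hK0 : 0 ≤ K := (norm_nonneg _).trans (hK 0 ⟨le_rfl, by norm_num⟩)
    obtain ⟨_, hJ, hb⟩ := right_bounds_inf (Vz_cont hα ζ) h hco hK0 hK hi
    rcases h0 with h0 | h0
    · refine ⟨h0, ?_⟩
      rw [h0, norm_zero, mul_zero] at hb
      exact norm_le_zero_iff.1 hb
    · refine ⟨?_, h0⟩
      have e : JJ w ψ ψ' 0 = 0 := by simp [JJ, h0]
      rw [e] at hJ
      have hδ := hco.pos
      have h3 : ‖ψ 0‖ ^ 2 ≤ 0 := by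
        by_contra hcon
        push Not at hcon
        have := mul_pos (half_pos hδ) hcon
        linarith
      have h4 : ‖ψ 0‖ ^ 2 = 0 := le_antisymm h3 (sq_nonneg _)
      exact norm_eq_zero.1 (pow_eq_zero_iff two_ne_zero |>.1 h4)

lemma ne_of_X {α : ℝ} (hα : 0 < α) {ζ : ℂ} {ψ ψ' : ℝ → ℂ} (h : IsSol (Vz α ζ) ψ ψ') {X : ℝ}
    (hX : ψ X = 1) : ¬ (ψ 0 = 0 ∧ ψ' 0 = 0) := by
  rintro ⟨h1, h2⟩
  have := h.zero_of_en (Vz_cont hα ζ) (X := 0) (by simp [en, h1, h2]) X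
  simp only [en, hX] at this
  have h3 := sq_nonneg ‖ψ' X‖
  norm_num at this
  linarith

lemma pval_cases {α : ℝ} (P : Pack α) (a b : ℂ) (h : a * P.p1 - b * P.p0 = 0) :
    a = 0 ∨ b = 0 := by
  rcases P.hp with ⟨h0, h1⟩ | ⟨h0, h1⟩
  · left; simpa [h0, h1] using h
  · right; simpa [h0, h1] using h

lemma weyl_of_p {α : ℝ} (P : Pack α) {ζ : ℂ} {ψ ψ' : ℝ → ℂ} (h : IsSol (Vz α ζ) ψ ψ')
    (hi : IntegrableOn (en ψ ψ') (Ioi 0)) (hp : ψ 0 * P.p1 - ψ' 0 * P.p0 ≠ 0) :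
    IsWeyl P ζ (fun x => (ψ 0 * P.p1 - ψ' 0 * P.p0)⁻¹ * ψ x)
      (fun x => (ψ 0 * P.p1 - ψ' 0 * P.p0)⁻¹ * ψ' x) := by
  refine ⟨h.smul _, ?_, ?_⟩
  · have : en (fun x => (ψ 0 * P.p1 - ψ' 0 * P.p0)⁻¹ * ψ x)
      (fun x => (ψ 0 * P.p1 - ψ' 0 * P.p0)⁻¹ * ψ' x)
      = fun x => ‖(ψ 0 * P.p1 - ψ' 0 * P.p0)⁻¹‖ ^ 2 * en ψ ψ' x := by
      funext x; exact en_smul _ _ _ _
    rw [this]
    exact hi.const_mul _
  · simp only
    field_simp

lemma weyl_unique {α : ℝ} (hα : 0 < α) (P : Pack α) {ζ : ℂ} {ψ ψ' χ χ' : ℝ → ℂ}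
    (h1 : IsWeyl P ζ ψ ψ') (h2 : IsWeyl P ζ χ χ') (x : ℝ) : ψ x = χ x := by
  have hw := wronsk_zero h1.1 h2.1 h1.2.1 h2.2.1 0
  have e1 := h1.2.2
  have e2 := h2.2.2
  have : ψ 0 = χ 0 ∧ ψ' 0 = χ' 0 := by
    rcases P.hp with ⟨h0, h1⟩ | ⟨h0, h1⟩
    · simp only [h0, h1, Complex.ofReal_one, Complex.ofReal_zero, mul_one, mul_zero, sub_zero] at e1 e2
      rw [e1, e2] at hw
      refine ⟨by rw [e1, e2], ?_⟩
      linear_combination -hw
    · simp only [h0, h1, Complex.ofReal_one, Complex.ofReal_zero, mul_one, mul_zero, zero_sub] at e1 e2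
      have a1 : ψ' 0 = -1 := by linear_combination -e1
      have a2 : χ' 0 = -1 := by linear_combination -e2
      rw [a1, a2] at hw
      refine ⟨?_, by rw [a1, a2]⟩
      linear_combination -hw
  exact (h1.1.unique (Vz_cont hα ζ) h2.1 this.1 this.2 x).1

lemma no_weyl {α : ℝ} (hα : 0 < α) (P : Pack α) {ζ : ℂ} {ψ ψ' χ χ' : ℝ → ℂ} {X : ℝ}
    (h : IsSol (Vz α ζ) ψ ψ') (hi : IntegrableOn (en ψ ψ') (Ioi 0)) (hX : ψ X = 1)
    (hp : ψ 0 * P.p1 - ψ' 0 * P.p0 = 0) (h2 : IsWeyl P ζ χ χ') : False := by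
  have hw := wronsk_zero h h2.1 hi h2.2.1 0
  have e2 := h2.2.2
  apply ne_of_X hα h hX
  rcases P.hp with ⟨h0, h1⟩ | ⟨h0, h1⟩
  · simp only [h0, h1, Complex.ofReal_one, Complex.ofReal_zero, mul_one, mul_zero, sub_zero] at e2 hp
    rw [e2, hp] at hw
    refine ⟨hp, ?_⟩
    linear_combination -hw
  · simp only [h0, h1, Complex.ofReal_one, Complex.ofReal_zero, mul_one, mul_zero, zero_sub] at e2 hp
    have a1 : ψ' 0 = 0 := by linear_combination -hp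
    have a2 : χ' 0 = -1 := by linear_combination -e2
    rw [a1, a2] at hw
    refine ⟨?_, a1⟩
    linear_combination -hw

lemma local_family {α : ℝ} (hW : WeylPotStmt α) {R : ℝ} (hR : 1 ≤ R) : ∃ X : ℝ, 0 < X ∧
    ∃ (Ψ Ψ' : ℂ → ℝ → ℂ) (C : ℝ), 0 < C ∧
        (∀ z ∈ Metric.ball (1 + Complex.I) R, IsSol (Vz α z) (Ψ z) (Ψ' z) ∧ Ψ z X = 1 ∧
          IntegrableOn (en (Ψ z) (Ψ' z)) (Ioi 0) ∧
          ∀ x, 0 ≤ x → ‖Ψ z x‖ ≤ C * Real.exp (-(1 / 2) * x)) ∧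
        (∀ x, DifferentiableOn ℂ (fun z => Ψ z x) (Metric.ball (1 + Complex.I) R)) ∧
        (∀ x, DifferentiableOn ℂ (fun z => Ψ' z x) (Metric.ball (1 + Complex.I) R)) := by
  obtain ⟨X, hX, h⟩ := hW R hR
  refine ⟨X, hX, ?_⟩
  have hd : DifferentiableOn ℂ (fun z : ℂ => z - 1 - Complex.I) (Metric.ball (1 + Complex.I) R) := by
    fun_prop
  obtain ⟨Ψ, Ψ', C, hC, h1, h2, h3⟩ := h (Metric.ball (1 + Complex.I) R) Metric.isOpen_ball
    (fun _ => Complex.I) (fun z => z - 1 - Complex.I) (differentiableOn_const _) hd (by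
      intro z hz
      refine ⟨?_, by simp, ?_⟩
      · have e : Complex.exp (-((Real.pi / 4 : ℝ) : ℂ) * Complex.I)
            = (Real.cos (Real.pi / 4) : ℂ) - (Real.sin (Real.pi / 4) : ℂ) * Complex.I := by
          rw [← Complex.ofReal_neg, Complex.exp_mul_I, ← Complex.ofReal_cos, ← Complex.ofReal_sin,
            Real.cos_neg, Real.sin_neg]
          push_cast; ring
        rw [e, Real.cos_pi_div_four, Real.sin_pi_div_four]
        have : (((√2 / 2 : ℝ) : ℂ) - ((√2 / 2 : ℝ) : ℂ) * Complex.I) * Complex.I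
            = ((√2 / 2 : ℝ) : ℂ) * Complex.I + ((√2 / 2 : ℝ) : ℂ) := by
          ring_nf; rw [Complex.I_sq]; ring
        rw [this]
        simp only [Complex.add_re, Complex.mul_re, Complex.ofReal_re, Complex.ofReal_im,
          Complex.I_re, Complex.I_im]
        have h2 : 1 ≤ √2 := Real.one_le_sqrt.2 (by norm_num)
        linarith
      · rw [Metric.mem_ball, dist_eq_norm] at hz
        have : z - 1 - Complex.I = z - (1 + Complex.I) := by ring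
        rw [this]; exact hz.le)
  exact ⟨Ψ, Ψ', C, hC, fun z hz => h1 z hz, h2, h3⟩

lemma bound_mul {C : ℝ} {g : ℝ → ℂ} (hg : MemLp g 2 (volume.restrict (Ioi (0:ℝ)))) :
    Integrable (fun x => ‖g x‖ * (C * Real.exp (-(1 / 2) * x))) (volume.restrict (Ioi (0:ℝ))) := by
  have h1 : MemLp (fun x : ℝ => C * Real.exp (-(1 / 2) * x)) 2 (volume.restrict (Ioi (0:ℝ))) := by
    have hm : AEStronglyMeasurable (fun x : ℝ => C * Real.exp (-(1 / 2) * x))
        (volume.restrict (Ioi (0:ℝ))) := by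
      apply Continuous.aestronglyMeasurable; fun_prop
    rw [memLp_two_iff_integrable_sq hm]
    have e : (fun x : ℝ => (C * Real.exp (-(1 / 2) * x)) ^ 2) = fun x => C ^ 2 * Real.exp (-x) := by
      funext x
      rw [mul_pow, ← Real.exp_nat_mul]
      congr 2; push_cast; ring
    rw [e]
    exact (integrableOn_exp_neg_Ioi 0).const_mul _
  exact hg.norm.integrable_mul h1

lemma diff_integral {U : Set ℂ} (hU : IsOpen U) {Ψ : ℂ → ℝ → ℂ} {C : ℝ}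
    (hcont : ∀ z ∈ U, Continuous (Ψ z))
    (hb : ∀ z ∈ U, ∀ x, 0 ≤ x → ‖Ψ z x‖ ≤ C * Real.exp (-(1 / 2) * x))
    (hd : ∀ x, DifferentiableOn ℂ (fun z => Ψ z x) U) {g : ℝ → ℂ}
    (hg : MemLp g 2 (volume.restrict (Ioi (0:ℝ)))) :
    DifferentiableOn ℂ (fun z => ∫ x in Ioi (0:ℝ), g x * Ψ z x) U := by
  intro z0 hz0
  apply DifferentiableAt.differentiableWithinAt
  obtain ⟨r, hr, hrU⟩ := Metric.isOpen_iff.1 hU z0 hz0
  set s := Metric.ball z0 (r / 2) with hs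
  have hsU : ∀ z ∈ s, Metric.closedBall z (r / 4) ⊆ U := by
    intro z hz y hy
    apply hrU
    rw [Metric.mem_ball] at hz ⊢
    rw [Metric.mem_closedBall] at hy
    have := dist_triangle y z z0
    linarith
  have hsU' : ∀ z ∈ s, z ∈ U := fun z hz => hsU z hz (Metric.mem_closedBall_self (by linarith))
  have hs0 : s ∈ 𝓝 z0 := Metric.ball_mem_nhds z0 (by linarith)
  have hder : ∀ x, ∀ z ∈ s, HasDerivAt (fun z => Ψ z x) (deriv (fun z => Ψ z x) z) z := by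
    intro x z hz
    exact ((hd x).differentiableAt (hU.mem_nhds (hsU' z hz))).hasDerivAt
  have hbd : ∀ x, 0 ≤ x → ∀ z ∈ s, ‖deriv (fun z => Ψ z x) z‖
      ≤ C * Real.exp (-(1 / 2) * x) / (r / 4) := by
    intro x hx z hz
    apply Complex.norm_deriv_le_of_forall_mem_sphere_norm_le (by linarith)
    · exact (hd x).diffContOnCl_ball (hsU z hz)
    · intro y hy
      exact hb y (hsU z hz (Metric.sphere_subset_closedBall hy)) x hx
  have hmeas : AEStronglyMeasurable (fun x => deriv (fun z => Ψ z x) z0)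
      (volume.restrict (Ioi (0:ℝ))) := by
    let u : ℕ → ℂ := fun n => z0 + ((r / 4 / ((n : ℝ) + 1) : ℝ) : ℂ)
    have hupos : ∀ n : ℕ, 0 < r / 4 / ((n : ℝ) + 1) := fun n => by positivity
    have hu1 : ∀ n, u n ∈ s := by
      intro n
      rw [hs, Metric.mem_ball, dist_eq_norm]
      have : u n - z0 = ((r / 4 / ((n : ℝ) + 1) : ℝ) : ℂ) := by simp [u]
      rw [this, Complex.norm_real, Real.norm_of_nonneg (hupos n).le]
      have : r / 4 / ((n : ℝ) + 1) ≤ r / 4 := by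
        apply div_le_self (by linarith)
        have : (0:ℝ) ≤ n := Nat.cast_nonneg n
        linarith
      linarith
    have hu2 : ∀ n, u n ≠ z0 := by
      intro n h
      have : u n - z0 = 0 := by rw [h, sub_self]
      have h2 : u n - z0 = ((r / 4 / ((n : ℝ) + 1) : ℝ) : ℂ) := by simp [u]
      rw [h2] at this
      exact (hupos n).ne' (by exact_mod_cast this)
    have hu3 : Tendsto u atTop (𝓝[≠] z0) := by
      rw [tendsto_nhdsWithin_iff]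
      refine ⟨?_, Eventually.of_forall hu2⟩
      have h1 : Tendsto (fun n : ℕ => r / 4 / ((n : ℝ) + 1)) atTop (𝓝 0) := by
        have := (tendsto_one_div_add_atTop_nhds_zero_nat (𝕜 := ℝ)).const_mul (r / 4)
        simpa [div_eq_mul_inv] using this
      have h2 : Tendsto (fun n : ℕ => ((r / 4 / ((n : ℝ) + 1) : ℝ) : ℂ)) atTop (𝓝 ((0:ℝ) : ℂ)) :=
        (Complex.continuous_ofReal.tendsto 0).comp h1
      have h3 := h2.const_add z0
      simpa [u] using h3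
    apply aestronglyMeasurable_of_tendsto_ae atTop (f := fun n x => slope (fun z => Ψ z x) z0 (u n))
    · intro n
      apply Continuous.aestronglyMeasurable
      simp only [slope_def_field]
      exact ((hcont _ (hsU' _ (hu1 n))).sub (hcont _ hz0)).div_const _
    · refine Eventually.of_forall fun x => ?_
      have h1 := hasDerivAt_iff_tendsto_slope.1 (hder x z0 (mem_of_mem_nhds hs0))
      exact h1.comp hu3
  have key := hasDerivAt_integral_of_dominated_loc_of_deriv_le (μ := volume.restrict (Ioi (0:ℝ)))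
    (F := fun z x => g x * Ψ z x) (F' := fun z x => g x * deriv (fun z => Ψ z x) z)
    (bound := fun x => ‖g x‖ * ((C / (r / 4)) * Real.exp (-(1 / 2) * x))) (x₀ := z0) (s := s) hs0
    (by
      filter_upwards [hs0] with z hz
      exact hg.1.mul (hcont z (hsU' z hz)).aestronglyMeasurable)
    (by
      refine Integrable.mono' (bound_mul (C := C) hg)
        (hg.1.mul (hcont z0 hz0).aestronglyMeasurable) ?_
      rw [ae_restrict_iff' measurableSet_Ioi]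
      refine Eventually.of_forall fun x hx => ?_
      rw [norm_mul]
      exact mul_le_mul_of_nonneg_left (hb z0 hz0 x (le_of_lt hx)) (norm_nonneg _))
    (hg.1.mul hmeas)
    (by
      rw [ae_restrict_iff' measurableSet_Ioi]
      refine Eventually.of_forall fun x hx z hz => ?_
      rw [norm_mul]
      apply mul_le_mul_of_nonneg_left _ (norm_nonneg _)
      have := hbd x (le_of_lt hx) z hz
      calc _ ≤ _ := this
        _ = _ := by ring)
    (bound_mul hg)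
    (by
      refine Eventually.of_forall fun x z hz => ?_
      exact (hder x z hz).const_mul _)
  exact key.2.differentiableAt

/-- the value along the normal of the ray -/
lemma dray_line {α : ℝ} {μ : ℂ} (h : dray α μ = 0) {t : ℝ} (ht : 0 < t) (ht1 : t ≤ 1) :
    dray α (μ + (t : ℂ) * (Complex.I * Complex.exp (((Real.pi / (2 + α) : ℝ) : ℂ) * Complex.I))) = t := by
  unfold dray at h ⊢
  have h0 : (μ * Complex.exp (-((Real.pi / (2 + α) : ℝ) : ℂ) * Complex.I)).im = 0 := by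
    rcases min_choice 1 |(μ * Complex.exp (-((Real.pi / (2 + α) : ℝ) : ℂ) * Complex.I)).im| with h1 | h1
    · rw [h1] at h; norm_num at h
    · rw [h1] at h; exact abs_eq_zero.1 h
  have e : (μ + (t : ℂ) * (Complex.I * Complex.exp (((Real.pi / (2 + α) : ℝ) : ℂ) * Complex.I)))
      * Complex.exp (-((Real.pi / (2 + α) : ℝ) : ℂ) * Complex.I)
      = μ * Complex.exp (-((Real.pi / (2 + α) : ℝ) : ℂ) * Complex.I) + (t : ℂ) * Complex.I := by
    have : Complex.exp (((Real.pi / (2 + α) : ℝ) : ℂ) * Complex.I)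
        * Complex.exp (-((Real.pi / (2 + α) : ℝ) : ℂ) * Complex.I) = 1 := by
      rw [← Complex.exp_add]; ring_nf; simp
    linear_combination (t : ℂ) * Complex.I * this
  rw [e, Complex.add_im, h0]
  simp only [Complex.mul_im, Complex.ofReal_re, Complex.I_im, Complex.ofReal_im, Complex.I_re]
  rw [zero_add, mul_one, zero_mul, add_zero, abs_of_pos ht]
  exact min_eq_right ht1

lemma int_smul (g ψ : ℝ → ℂ) (a : ℂ) :
    ∫ x in Ioi (0:ℝ), g x * (a * ψ x) = a * ∫ x in Ioi (0:ℝ), g x * ψ x := by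
  rw [← integral_const_mul]
  congr 1; funext x; ring

/-- simple zeros -/
lemma simple_zero {α : ℝ} {U : Set ℂ} (hU : IsOpen U)
    {ζ0 : ℂ} (hζ0 : ζ0 ∈ U) {p n : ℂ → ℂ} (hp : DifferentiableOn ℂ p U) (hn : DifferentiableOn ℂ n U)
    (hbd : ∃ (C : ℝ) (N : ℕ), 0 < C ∧ ∀ ζ ∈ U, dray α (ζ - 1 - Complex.I) * ‖n ζ‖
      ≤ C * (1 + ‖ζ - 1 - Complex.I‖) ^ N * ‖p ζ‖)
    (hd0 : dray α (ζ0 - 1 - Complex.I) = 0) (hp0 : p ζ0 = 0) (hn0 : n ζ0 ≠ 0) : deriv p ζ0 ≠ 0 := by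
  intro hder
  obtain ⟨C, N, hC, hbd⟩ := hbd
  have hpd : HasDerivAt p 0 ζ0 := by
    have := (hp.differentiableAt (hU.mem_nhds hζ0)).hasDerivAt
    rwa [hder] at this
  have hnc : ContinuousAt n ζ0 := (hn.differentiableAt (hU.mem_nhds hζ0)).continuousAt
  set v : ℂ := Complex.I * Complex.exp (((Real.pi / (2 + α) : ℝ) : ℂ) * Complex.I) with hv
  have hvn : ‖v‖ = 1 := by
    rw [hv, norm_mul, Complex.norm_I, one_mul, Complex.norm_exp_ofReal_mul_I]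
  have hv0 : v ≠ 0 := by
    intro h; rw [h, norm_zero] at hvn; norm_num at hvn
  -- the approach
  have hL : Tendsto (fun t : ℝ => ζ0 + (t : ℂ) * v) (𝓝[>] 0) (𝓝[≠] ζ0) := by
    rw [tendsto_nhdsWithin_iff]
    constructor
    · have : Continuous (fun t : ℝ => ζ0 + (t : ℂ) * v) := by fun_prop
      have h := this.tendsto 0
      simp only [Complex.ofReal_zero, zero_mul, add_zero] at h
      exact h.mono_left nhdsWithin_le_nhds
    · filter_upwards [self_mem_nhdsWithin] with t ht h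
      have ht : 0 < t := ht
      have : (t : ℂ) * v = 0 := by
        have h' : ζ0 + (t : ℂ) * v = ζ0 := h
        linear_combination h'
      rcases mul_eq_zero.1 this with h1 | h1
      · exact ht.ne' (by exact_mod_cast h1)
      · exact hv0 h1
  have hslope := (hasDerivAt_iff_tendsto_slope.1 hpd).comp hL
  have hslope2 : Tendsto (fun t : ℝ => ‖p (ζ0 + (t : ℂ) * v)‖ / t) (𝓝[>] 0) (𝓝 0) := by
    have h1 := hslope.norm
    rw [norm_zero] at h1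
    apply h1.congr'
    filter_upwards [self_mem_nhdsWithin] with t ht
    have ht : 0 < t := ht
    simp only [Function.comp, slope_def_field, hp0, sub_zero, norm_div, add_sub_cancel_left, norm_mul,
      hvn, mul_one, Complex.norm_real, Real.norm_of_nonneg ht.le]
  have hnlim : Tendsto (fun t : ℝ => ‖n (ζ0 + (t : ℂ) * v)‖) (𝓝[>] 0) (𝓝 ‖n ζ0‖) :=
    (hnc.tendsto.comp (hL.mono_right nhdsWithin_le_nhds)).norm
  have hpol : Tendsto (fun t : ℝ => C * (1 + ‖ζ0 + (t : ℂ) * v - 1 - Complex.I‖) ^ N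
      * (‖p (ζ0 + (t : ℂ) * v)‖ / t)) (𝓝[>] 0) (𝓝 (C * (1 + ‖ζ0 - 1 - Complex.I‖) ^ N * 0)) := by
    apply Tendsto.mul _ hslope2
    have : Continuous (fun z : ℂ => C * (1 + ‖z - 1 - Complex.I‖) ^ N) := by fun_prop
    exact (this.tendsto ζ0).comp (hL.mono_right nhdsWithin_le_nhds)
  rw [mul_zero] at hpol
  have hle : ‖n ζ0‖ ≤ 0 := by
    apply le_of_tendsto_of_tendsto hnlim hpol
    have hU' : ∀ᶠ t : ℝ in 𝓝[>] 0, ζ0 + (t : ℂ) * v ∈ U :=
      (hL.mono_right nhdsWithin_le_nhds).eventually (hU.mem_nhds hζ0)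
    filter_upwards [hU', self_mem_nhdsWithin,
      (Ioc_mem_nhdsGT (show (0:ℝ) < 1 by norm_num))] with t h1 h2 h3
    have ht : 0 < t := h2
    have hb := hbd _ h1
    have e : ζ0 + (t : ℂ) * v - 1 - Complex.I = (ζ0 - 1 - Complex.I) + (t : ℂ) * v := by ring
    rw [e, hv, dray_line hd0 ht h3.2, ← hv, ← e] at hb
    have : ‖n (ζ0 + (t : ℂ) * v)‖ * t ≤ C * (1 + ‖ζ0 + (t : ℂ) * v - 1 - Complex.I‖) ^ N
      * ‖p (ζ0 + (t : ℂ) * v)‖ := by linarith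
    calc ‖n (ζ0 + (t : ℂ) * v)‖ ≤ C * (1 + ‖ζ0 + (t : ℂ) * v - 1 - Complex.I‖) ^ N
      * ‖p (ζ0 + (t : ℂ) * v)‖ / t := by rwa [le_div_iff₀ ht]
      _ = _ := by ring
  exact hn0 (norm_le_zero_iff.1 hle)

lemma local_rep {α : ℝ} (hα : 0 < α) (hW : WeylPotStmt α) (hM : MStmt α) (P : Pack α)
    (g : ℝ → ℂ) (hg : MemLp g 2 (volume.restrict (Ioi (0:ℝ))))
    (horth : ∀ (μ : ℂ) (ψ ψ' : ℝ → ℂ), IsSol (pot α Complex.I μ) ψ ψ' → IntegrableOn (en ψ ψ') (Ioi 0) →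
      ψ 0 * P.p1 - ψ' 0 * P.p0 = 0 → ∫ x in Ioi (0:ℝ), g x * ψ x = 0) (ζ0 : ℂ) :
    ∃ h : ℂ → ℂ, DifferentiableAt ℂ h ζ0 ∧
      (∀ᶠ ζ in 𝓝[≠] ζ0, ∃ ψ ψ', IsWeyl P ζ ψ ψ' ∧ h ζ = ∫ x in Ioi (0:ℝ), g x * ψ x) ∧
      (∀ ψ ψ', IsWeyl P ζ0 ψ ψ' → h ζ0 = ∫ x in Ioi (0:ℝ), g x * ψ x) := by
  obtain ⟨X, hX, Ψ, Ψ', C, hC, h1, h2, h3⟩ := local_family hW
    (show (1:ℝ) ≤ ‖ζ0 - (1 + Complex.I)‖ + 1 by linarith [norm_nonneg (ζ0 - (1 + Complex.I))])
  set U := Metric.ball (1 + Complex.I) (‖ζ0 - (1 + Complex.I)‖ + 1) with hUdef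
  have hU : IsOpen U := Metric.isOpen_ball
  have hζU : ζ0 ∈ U := by rw [hUdef, Metric.mem_ball, dist_eq_norm]; linarith
  set p : ℂ → ℂ := fun z => Ψ z 0 * P.p1 - Ψ' z 0 * P.p0 with hpdef
  set D : ℂ → ℂ := fun z => ∫ x in Ioi (0:ℝ), g x * Ψ z x with hDdef
  have hpd : DifferentiableOn ℂ p U := ((h2 0).mul_const _).sub ((h3 0).mul_const _)
  have hDd : DifferentiableOn ℂ D U :=
    diff_integral hU (fun z hz => (h1 z hz).1.cont) (fun z hz => (h1 z hz).2.2.2) h2 hg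
  have hweyl : ∀ z ∈ U, p z ≠ 0 → ∃ ψ ψ', IsWeyl P z ψ ψ' ∧ D z / p z = ∫ x in Ioi (0:ℝ), g x * ψ x := by
    intro z hz hpz
    refine ⟨_, _, weyl_of_p P (h1 z hz).1 (h1 z hz).2.2.1 hpz, ?_⟩
    rw [int_smul, div_eq_inv_mul]
  by_cases hp0 : p ζ0 = 0
  · -- zero of p
    have hns : ¬ (Ψ ζ0 0 = 0 ∧ Ψ' ζ0 0 = 0) := ne_of_X hα (h1 ζ0 hζU).1 (h1 ζ0 hζU).2.1
    have hcases := pval_cases P _ _ hp0
    have hd0 : dray α (ζ0 - 1 - Complex.I) = 0 := by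
      by_contra hcon
      exact hns (both_zero hα hM (Or.inl hcon) (h1 ζ0 hζU).1 (h1 ζ0 hζU).2.2.1 hcases)
    have hderiv : deriv p ζ0 ≠ 0 := by
      rcases P.hp with ⟨q0, q1⟩ | ⟨q0, q1⟩
      · have hpe : p = fun z => Ψ z 0 := by funext z; simp [hpdef, q0, q1]
        have hz0 : Ψ ζ0 0 = 0 := by rw [hpe] at hp0; exact hp0
        apply simple_zero hU hζU hpd (h3 0) _ hd0 hp0 (fun h => hns ⟨hz0, h⟩)
        obtain ⟨C', N, hC', hM'⟩ := hM
        refine ⟨C', N, hC', fun ζ hζ => ?_⟩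
        rw [hpe]
        exact (hM' _ _ _ (h1 ζ hζ).1 (h1 ζ hζ).2.2.1).2
      · have hpe : p = fun z => -Ψ' z 0 := by funext z; simp [hpdef, q0, q1]
        have hz0 : Ψ' ζ0 0 = 0 := by rw [hpe] at hp0; exact neg_eq_zero.1 hp0
        apply simple_zero hU hζU hpd (h2 0) _ hd0 hp0 (fun h => hns ⟨h, hz0⟩)
        obtain ⟨C', N, hC', hM'⟩ := hM
        refine ⟨C', N, hC', fun ζ hζ => ?_⟩
        rw [hpe]
        simp only [norm_neg]
        exact (hM' _ _ _ (h1 ζ hζ).1 (h1 ζ hζ).2.2.1).1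
    have hD0 : D ζ0 = 0 := horth _ _ _ (h1 ζ0 hζU).1 (h1 ζ0 hζU).2.2.1 hp0
    have hUn : U ∈ 𝓝 ζ0 := hU.mem_nhds hζU
    have hp1 : DifferentiableOn ℂ (dslope p ζ0) U := (Complex.differentiableOn_dslope hUn).2 hpd
    have hD1 : DifferentiableOn ℂ (dslope D ζ0) U := (Complex.differentiableOn_dslope hUn).2 hDd
    have hne : dslope p ζ0 ζ0 ≠ 0 := by rwa [dslope_same]
    refine ⟨fun z => dslope D ζ0 z / dslope p ζ0 z, ?_, ?_, ?_⟩
    · exact (hD1.differentiableAt hUn).div (hp1.differentiableAt hUn) hne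
    · have hev : ∀ᶠ z in 𝓝 ζ0, dslope p ζ0 z ≠ 0 :=
        (hp1.differentiableAt hUn).continuousAt.eventually_ne hne
      filter_upwards [self_mem_nhdsWithin, nhdsWithin_le_nhds hUn, nhdsWithin_le_nhds hev] with z z1 z2 z3
      have z1 : z ≠ ζ0 := z1
      have ep : p z = (z - ζ0) * dslope p ζ0 z := by
        rw [dslope_of_ne _ z1, slope_def_field, hp0, sub_zero, mul_div_cancel₀ _ (sub_ne_zero.2 z1)]
      have eD : D z = (z - ζ0) * dslope D ζ0 z := by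
        rw [dslope_of_ne _ z1, slope_def_field, hD0, sub_zero, mul_div_cancel₀ _ (sub_ne_zero.2 z1)]
      have hpz : p z ≠ 0 := by
        rw [ep]; exact mul_ne_zero (sub_ne_zero.2 z1) z3
      obtain ⟨ψ, ψ', w1, w2⟩ := hweyl z z2 hpz
      refine ⟨ψ, ψ', w1, ?_⟩
      rw [← w2, ep, eD, mul_div_mul_left _ _ (sub_ne_zero.2 z1)]
    · intro ψ ψ' hw
      exact (no_weyl hα P (h1 ζ0 hζU).1 (h1 ζ0 hζU).2.2.1 (h1 ζ0 hζU).2.1 hp0 hw).elim
  · have hUn : U ∈ 𝓝 ζ0 := hU.mem_nhds hζU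
    refine ⟨fun z => D z / p z, (hDd.differentiableAt hUn).div (hpd.differentiableAt hUn) hp0, ?_, ?_⟩
    · have hev : ∀ᶠ z in 𝓝 ζ0, p z ≠ 0 :=
        (hpd.differentiableAt hUn).continuousAt.eventually_ne hp0
      filter_upwards [nhdsWithin_le_nhds hUn, nhdsWithin_le_nhds hev] with z z2 z3
      exact hweyl z z2 z3
    · intro ψ ψ' hw
      obtain ⟨χ, χ', w1, w2⟩ := hweyl ζ0 hζU hp0
      refine w2.trans ?_
      congr 1; funext x
      rw [weyl_unique hα P w1 hw x]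

end J8

theorem exists_weyl (α : ℝ) (hα : 0 < α) (hα1 : α < 1) (hW : WeylPotStmt α) (hM : MStmt α) (P : Pack α) (ζ : ℂ)
    (hζ : dray α (ζ - 1 - Complex.I) ≠ 0 ∨ ζ.re ≤ 0 ∨ ζ.im ≤ 0) : ∃ ψ ψ', IsWeyl P ζ ψ ψ' := by
  obtain ⟨X, hX, Ψ, Ψ', C, hC, h1, h2, h3⟩ := local_family hW
    (show (1:ℝ) ≤ ‖ζ - (1 + Complex.I)‖ + 1 by linarith [norm_nonneg (ζ - (1 + Complex.I))])
  have hζU : ζ ∈ Metric.ball (1 + Complex.I) (‖ζ - (1 + Complex.I)‖ + 1) := by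
    rw [Metric.mem_ball, dist_eq_norm]; linarith
  refine ⟨_, _, weyl_of_p P (h1 ζ hζU).1 (h1 ζ hζU).2.2.1 ?_⟩
  intro hp
  exact ne_of_X hα (h1 ζ hζU).1 (h1 ζ hζU).2.1
    (both_zero hα hM hζ (h1 ζ hζU).1 (h1 ζ hζU).2.2.1 (pval_cases P _ _ hp))

theorem entireF (α : ℝ) (hα : 0 < α) (hα1 : α < 1) (hW : WeylPotStmt α) (hM : MStmt α) (P : Pack α)
    (g : ℝ → ℂ) (hg : MemLp g 2 (volume.restrict (Ioi (0:ℝ))))
    (horth : ∀ (μ : ℂ) (ψ ψ' : ℝ → ℂ), IsSol (pot α Complex.I μ) ψ ψ' → IntegrableOn (en ψ ψ') (Ioi 0) →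
      ψ 0 * P.p1 - ψ' 0 * P.p0 = 0 → ∫ x in Ioi (0:ℝ), g x * ψ x = 0) :
    ∃ F : ℂ → ℂ, Differentiable ℂ F ∧ ∀ ζ ψ ψ', IsWeyl P ζ ψ ψ' → F ζ = ∫ x in Ioi (0:ℝ), g x * ψ x := by
  choose h hd hev hval using fun ζ0 => local_rep hα hW hM P g hg horth ζ0
  refine ⟨fun ζ => h ζ ζ, ?_, fun ζ ψ ψ' hw => hval ζ ψ ψ' hw⟩
  intro ζ0
  apply (hd ζ0).congr_of_eventuallyEq
  have := hev ζ0
  rw [eventually_nhdsWithin_iff] at this
  filter_upwards [this] with z hz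
  by_cases hzz : z = ζ0
  · subst hzz; rfl
  · obtain ⟨ψ, ψ', w1, w2⟩ := hz hzz
    rw [w2]
    exact hval z ψ ψ' w1

end Pool.Agent.Helper209.AC.EntireF
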