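import Pool.Agent.Helper209.AC.Frame

set_option autoImplicit false

namespace Pool.Agent.Helper209.AC.GrowthF

open MeasureTheory Set


/-- bound for the Weyl coefficient away from the eigenvalue ray -/
def MStmt (α : ℝ) : Prop := ∃ (C : ℝ) (N : ℕ), 0 < C ∧ ∀ (μ : ℂ) (ψ ψ' : ℝ → ℂ),
    IsSol (pot α Complex.I μ) ψ ψ' → IntegrableOn (en ψ ψ') (Ioi 0) →
      dray α μ * ‖ψ 0‖ ≤ C * (1 + ‖μ‖) ^ N * ‖ψ' 0‖ ∧ dray α μ * ‖ψ' 0‖ ≤ C * (1 + ‖μ‖) ^ N * ‖ψ 0‖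

/-- crude growth bound (proved elsewhere) -/
def CrudeStmt (α : ℝ) : Prop := ∃ C : ℝ, 0 < C ∧ ∀ (ζ : ℂ) (φ φ' : ℝ → ℂ) (x : ℝ), 1 ≤ ‖ζ‖ → 0 ≤ x →
      x ^ α ≤ 4 * ‖ζ‖ + 4 → IsSol (Vz α ζ) φ φ' → ‖φ 0‖ ≤ 1 → ‖φ' 0‖ ≤ 1 →
      ‖φ x‖ ≤ C * Real.exp (C * ‖ζ‖ ^ (1 / α + 1 / 2)) ∧ ‖φ' x‖ ≤ C * Real.exp (C * ‖ζ‖ ^ (1 / α + 1 / 2))

/-- removing the singular line (proved elsewhere) -/
def RemoveLineStmt : Prop := ∀ (F : ℂ → ℂ), Differentiable ℂ F → ∀ (ρ C θ : ℝ) (b : ℂ), 1 ≤ ρ →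
    (∀ ζ, min 1 |((ζ - b) * Complex.exp (-(θ : ℂ) * Complex.I)).im| * ‖F ζ‖ ≤ C * Real.exp (C * ‖ζ‖ ^ ρ)) →
    ∃ C' : ℝ, ∀ ζ, ‖F ζ‖ ≤ C' * Real.exp (C' * ‖ζ‖ ^ ρ)

lemma weyl_repr {α : ℝ} (hα : 0 < α) (P : Pack α) {ζ : ℂ} {ψ ψ' : ℝ → ℂ} (h : IsWeyl P ζ ψ ψ') :
    ∃ M : ℂ, (∀ x, ψ x = P.χ ζ x + M * P.φ ζ x) ∧
      ((M = ψ' 0 ∧ ψ 0 = 1) ∨ (M = ψ 0 ∧ ψ' 0 = -1)) := by
  obtain ⟨hs, hi, hn⟩ := h
  have hVc : Continuous (Vz α ζ) := pot_cont hα _ _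
  rcases P.hp with ⟨h0, h1⟩ | ⟨h0, h1⟩
  · have hψ0 : ψ 0 = 1 := by
      rw [h0, h1] at hn
      simpa using hn
    refine ⟨ψ' 0, ?_, Or.inl ⟨rfl, hψ0⟩⟩
    have hcomb := (P.solχ ζ).comb (P.solφ ζ) 1 (ψ' 0)
    intro x
    have := (hs.unique hVc hcomb (X := 0) (by
      rw [P.χ0, P.φ0, h0, h1, hψ0]; simp) (by
      rw [P.χ0', P.φ0', h0, h1]; simp) x).1
    simpa using this
  · have hψ0 : ψ' 0 = -1 := by
      rw [h0, h1] at hn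
      have : - ψ' 0 = 1 := by simpa using hn
      rw [← this]; ring
    refine ⟨ψ 0, ?_, Or.inr ⟨rfl, hψ0⟩⟩
    have hcomb := (P.solχ ζ).comb (P.solφ ζ) 1 (ψ 0)
    intro x
    have := (hs.unique hVc hcomb (X := 0) (by
      rw [P.χ0, P.φ0, h0, h1]; simp) (by
      rw [P.χ0', P.φ0', h0, h1, hψ0]; simp) x).1
    simpa using this

lemma dray_nonneg (α : ℝ) (μ : ℂ) : 0 ≤ dray α μ := le_min zero_le_one (abs_nonneg _)

lemma dray_le_one (α : ℝ) (μ : ℂ) : dray α μ ≤ 1 := min_le_left _ _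

/-- Cauchy-Schwarz on the half line -/
lemma cs_half {g ψ : ℝ → ℂ} (hg : MemLp g 2 (volume.restrict (Ioi (0:ℝ))))
    (hψ : MemLp ψ 2 (volume.restrict (Ioi (0:ℝ)))) :
    ‖∫ x in Ioi (0:ℝ), g x * ψ x‖ ≤ Real.sqrt (∫ x in Ioi (0:ℝ), ‖g x‖ ^ 2)
      * Real.sqrt (∫ x in Ioi (0:ℝ), ‖ψ x‖ ^ 2) := by
  have h1 : ‖∫ x in Ioi (0:ℝ), g x * ψ x‖ ≤ ∫ x in Ioi (0:ℝ), ‖g x‖ * ‖ψ x‖ := by
    refine (norm_integral_le_integral_norm _).trans (le_of_eq ?_)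
    simp only [norm_mul]
  have h2 := integral_mul_norm_le_Lp_mul_Lq (p := 2) (q := 2) (μ := volume.restrict (Ioi (0:ℝ)))
    (f := g) (g := ψ) Real.HolderConjugate.two_two (by simpa using hg) (by simpa using hψ)
  simp only [Real.rpow_ofNat] at h2
  rw [← Real.sqrt_eq_rpow, ← Real.sqrt_eq_rpow] at h2
  exact h1.trans h2

/-- coercivity to the right of `x1` -/
lemma coer_right {α : ℝ} (hα : 0 < α) {ζ : ℂ} {x1 : ℝ} (hx1 : 0 ≤ x1)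
    (h : x1 ^ α = 2 * ‖ζ‖ + 2) :
    Coer (Vz α ζ) ((1 - Complex.I) / 2) (1 / 2) (Ici x1) := by
  have hre : ((1 - Complex.I) / 2 : ℂ).re = 1 / 2 := by simp
  have him : ((1 - Complex.I) / 2 : ℂ).im = -1 / 2 := by simp
  refine ⟨by norm_num, by rw [hre], ?_, ?_⟩
  · rw [← Real.sqrt_one]
    rw [Complex.norm_eq_sqrt_sq_add_sq, hre, him]
    apply Real.sqrt_le_sqrt
    norm_num
  · intro x hx
    have hx' : x1 ≤ x := hx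
    have hx0 : 0 ≤ x := hx1.trans hx'
    have hpow : 2 * ‖ζ‖ + 2 ≤ x ^ α := by
      rw [← h]; exact Real.rpow_le_rpow hx1 hx' hα.le
    have hV : Vz α ζ x = Complex.I * ((x ^ α : ℝ) : ℂ) - (ζ - 1 - Complex.I) := by
      unfold Vz pot
      rw [abs_of_nonneg hx0]
    rw [hV, Complex.mul_re, hre, him]
    have e1 : (Complex.I * ((x ^ α : ℝ) : ℂ) - (ζ - 1 - Complex.I)).re = 1 - ζ.re := by
      simp
    have e2 : (Complex.I * ((x ^ α : ℝ) : ℂ) - (ζ - 1 - Complex.I)).im = x ^ α - ζ.im + 1 := by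
      simp [Complex.sub_im, Complex.mul_im]
      ring
    rw [e1, e2]
    have h1 := Complex.re_le_norm ζ
    have h2 := Complex.im_le_norm ζ
    linarith

lemma Vz_bound {α : ℝ} (hα : 0 < α) (hα1 : α < 1) {ζ : ℂ} (hζ : 1 ≤ ‖ζ‖) {x1 : ℝ} (hx1 : 1 ≤ x1)
    (h : x1 ^ α = 2 * ‖ζ‖ + 2) : ∀ x ∈ Icc x1 (x1 + 1), ‖Vz α ζ x‖ ≤ 12 * ‖ζ‖ := by
  intro x hx
  have hx0 : 0 ≤ x := by linarith [hx.1]
  have hV : Vz α ζ x = Complex.I * ((x ^ α : ℝ) : ℂ) - (ζ - 1 - Complex.I) := by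
    unfold Vz pot
    rw [abs_of_nonneg hx0]
  have hpow : x ^ α ≤ 2 * (2 * ‖ζ‖ + 2) := by
    calc x ^ α ≤ (2 * x1) ^ α := Real.rpow_le_rpow hx0 (by linarith [hx.2]) hα.le
      _ = 2 ^ α * x1 ^ α := Real.mul_rpow (by norm_num) (by linarith)
      _ ≤ 2 ^ (1:ℝ) * x1 ^ α := by
          apply mul_le_mul_of_nonneg_right _ (by positivity)
          exact Real.rpow_le_rpow_of_exponent_le (by norm_num) hα1.le
      _ = 2 * (2 * ‖ζ‖ + 2) := by rw [Real.rpow_one, h]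
  have hx0' : 0 ≤ x ^ α := by positivity
  have hn1 : ‖(1 : ℂ) + Complex.I‖ ≤ 2 := by
    refine (norm_add_le _ _).trans ?_
    simp; norm_num
  calc ‖Vz α ζ x‖ = ‖Complex.I * ((x ^ α : ℝ) : ℂ) - ζ + (1 + Complex.I)‖ := by
        rw [hV]; congr 1; ring
    _ ≤ ‖Complex.I * ((x ^ α : ℝ) : ℂ) - ζ‖ + ‖(1 : ℂ) + Complex.I‖ := norm_add_le _ _
    _ ≤ (‖Complex.I * ((x ^ α : ℝ) : ℂ)‖ + ‖ζ‖) + 2 := by
        gcongr
        exact norm_sub_le _ _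
    _ = x ^ α + ‖ζ‖ + 2 := by
        rw [norm_mul, Complex.norm_I, one_mul, Complex.norm_real, Real.norm_of_nonneg hx0']
    _ ≤ 12 * ‖ζ‖ := by linarith

/-- the L2 norm of a Weyl solution -/
lemma weyl_l2 {α : ℝ} (hα : 0 < α) (hα1 : α < 1) (P : Pack α) {ζ : ℂ} {ψ ψ' : ℝ → ℂ}
    (h : IsWeyl P ζ ψ ψ') (hζ : 1 ≤ ‖ζ‖) {x1 B : ℝ} (hx1 : 1 ≤ x1)
    (hx1α : x1 ^ α = 2 * ‖ζ‖ + 2) (hB : ∀ x ∈ Icc 0 x1, ‖ψ x‖ ≤ B) :
    MemLp ψ 2 (volume.restrict (Ioi (0:ℝ))) ∧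
    Real.sqrt (∫ x in Ioi (0:ℝ), ‖ψ x‖ ^ 2) ≤ (x1 + 52 * ‖ζ‖) * B := by
  obtain ⟨hs, hi, hn⟩ := h
  have hVc : Continuous (Vz α ζ) := pot_cont hα _ _
  have hB0 : 0 ≤ B := (norm_nonneg _).trans (hB 0 ⟨le_rfl, by linarith⟩)
  have hle : ∀ x, ‖ψ x‖ ^ 2 ≤ en ψ ψ' x := fun x => by
    unfold en; nlinarith [sq_nonneg ‖ψ' x‖]
  have hint : IntegrableOn (fun x => ‖ψ x‖ ^ 2) (Ioi (0:ℝ)) := by
    apply Integrable.mono' hi (hs.cont.norm.pow 2).aestronglyMeasurable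
    refine Filter.Eventually.of_forall fun x => ?_
    have h0 : (0:ℝ) ≤ ‖ψ x‖ ^ 2 := by positivity
    show ‖(‖ψ x‖ ^ 2 : ℝ)‖ ≤ _
    rw [Real.norm_of_nonneg h0]
    exact hle x
  refine ⟨(memLp_two_iff_integrable_sq_norm hs.cont.aestronglyMeasurable).2 hint, ?_⟩
  have hx10 : (0:ℝ) ≤ x1 := by linarith
  have hi1 : IntegrableOn (en ψ ψ') (Ioi x1) := hi.mono_set (Ioi_subset_Ioi hx10)
  have hr := (right_bounds_inf (K := 12 * ‖ζ‖) hVc hs (coer_right hα hx10 hx1α) (by positivity)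
    (Vz_bound hα hα1 hζ hx1 hx1α) hi1).1
  have hsplit : ∫ x in Ioi (0:ℝ), ‖ψ x‖ ^ 2
      = (∫ x in Ioc 0 x1, ‖ψ x‖ ^ 2) + ∫ x in Ioi x1, ‖ψ x‖ ^ 2 := by
    rw [← Ioc_union_Ioi_eq_Ioi hx10]
    apply setIntegral_union
    · rw [Set.disjoint_left]
      intro x hx hx'
      exact absurd hx.2 (not_le.2 hx')
    · exact measurableSet_Ioi
    · exact hint.mono_set (fun x hx => hx.1)
    · exact hint.mono_set (Ioi_subset_Ioi hx10)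
  have h1 : ∫ x in Ioc 0 x1, ‖ψ x‖ ^ 2 ≤ x1 * B ^ 2 := by
    have := norm_setIntegral_le_of_norm_le_const (μ := volume) (s := Ioc 0 x1)
      (f := fun x => ‖ψ x‖ ^ 2) (C := B ^ 2) (by simp) (by
        intro x hx
        rw [Real.norm_of_nonneg (by positivity)]
        exact pow_le_pow_left₀ (norm_nonneg _) (hB x ⟨hx.1.le, hx.2⟩) 2)
    have h2 := (le_abs_self _).trans this
    have h3 : volume.real (Ioc 0 x1) = x1 := by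
      simp [Measure.real, hx10]
    rw [h3] at h2
    linarith
  have h2 : ∫ x in Ioi x1, ‖ψ x‖ ^ 2 ≤ (CK (12 * ‖ζ‖) / (1 / 2)) ^ 2 * B ^ 2 := by
    calc ∫ x in Ioi x1, ‖ψ x‖ ^ 2 ≤ ∫ x in Ioi x1, en ψ ψ' x := by
          apply setIntegral_mono_on (hint.mono_set (Ioi_subset_Ioi hx10)) hi1 measurableSet_Ioi
          exact fun x _ => hle x
      _ ≤ (CK (12 * ‖ζ‖) / (1 / 2)) ^ 2 * ‖ψ x1‖ ^ 2 := hr
      _ ≤ _ := by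
          apply mul_le_mul_of_nonneg_left _ (by positivity)
          exact pow_le_pow_left₀ (norm_nonneg _) (hB x1 ⟨hx10, le_rfl⟩) 2
  have h3 : CK (12 * ‖ζ‖) / (1 / 2) ≤ 52 * ‖ζ‖ := by
    unfold CK; linarith
  have h30 : 0 ≤ CK (12 * ‖ζ‖) / (1 / 2) := by unfold CK; positivity
  have h4 : (CK (12 * ‖ζ‖) / (1 / 2)) ^ 2 ≤ (52 * ‖ζ‖) ^ 2 := pow_le_pow_left₀ h30 h3 2
  rw [← Real.sqrt_sq (by positivity : 0 ≤ (x1 + 52 * ‖ζ‖) * B)]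
  apply Real.sqrt_le_sqrt
  rw [hsplit]
  have h5 : (CK (12 * ‖ζ‖) / (1 / 2)) ^ 2 * B ^ 2 ≤ (52 * ‖ζ‖) ^ 2 * B ^ 2 :=
    mul_le_mul_of_nonneg_right h4 (by positivity)
  have h6 : x1 * B ^ 2 ≤ x1 ^ 2 * B ^ 2 := by
    apply mul_le_mul_of_nonneg_right _ (by positivity)
    nlinarith
  have h7 : 0 ≤ 2 * (x1 * (52 * ‖ζ‖)) * B ^ 2 := by positivity
  nlinarith

/-- polynomial factors -/
lemma poly_le (n : ℕ) {r ρ : ℝ} (hr : 1 ≤ r) (hρ : 1 ≤ ρ) :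
    (4 * r) ^ n ≤ (n.factorial : ℝ) * Real.exp (4 * r ^ ρ) := by
  have h1 := Real.pow_div_factorial_le_exp (x := 4 * r) (by linarith) n
  have h2 : r ≤ r ^ ρ := by
    calc r = r ^ (1:ℝ) := (Real.rpow_one r).symm
      _ ≤ r ^ ρ := Real.rpow_le_rpow_of_exponent_le hr hρ
  have h3 : (0:ℝ) < n.factorial := by exact_mod_cast n.factorial_pos
  rw [div_le_iff₀ h3] at h1
  calc (4 * r) ^ n ≤ Real.exp (4 * r) * n.factorial := h1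
    _ ≤ Real.exp (4 * r ^ ρ) * n.factorial := by gcongr
    _ = _ := mul_comm _ _

/-- `F` is of finite order -/
theorem growthF (α : ℝ) (hα : 0 < α) (hα1 : α < 1) (hM : MStmt α) (hCr : CrudeStmt α) (hRL : RemoveLineStmt)
    (P : Pack α) (g : ℝ → ℂ) (hg : MemLp g 2 (volume.restrict (Ioi (0:ℝ)))) (F : ℂ → ℂ) (hF : Differentiable ℂ F)
    (hFe : ∀ ζ ψ ψ', IsWeyl P ζ ψ ψ' → F ζ = ∫ x in Ioi (0:ℝ), g x * ψ x)
    (hex : ∀ ζ : ℂ, dray α (ζ - 1 - Complex.I) ≠ 0 → ∃ ψ ψ', IsWeyl P ζ ψ ψ') :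
    ∃ C : ℝ, ∀ ζ, ‖F ζ‖ ≤ C * Real.exp (C * ‖ζ‖ ^ (1 / α + 1 / 2)) := by
  set ρ : ℝ := 1 / α + 1 / 2 with hρ
  have hα' : 1 ≤ 1 / α := by rw [le_div_iff₀ hα]; linarith
  have hρ1 : 1 ≤ ρ := by rw [hρ]; linarith
  obtain ⟨CM, N, hCM, hMs⟩ := hM
  obtain ⟨C1, hC1, hCs⟩ := hCr
  obtain ⟨B0, hB0⟩ := (isCompact_closedBall (0:ℂ) 1).exists_bound_of_continuousOn hF.continuous.continuousOn
  set m : ℕ := ⌈1 / α⌉₊ with hm
  have hmα : 1 / α ≤ (m:ℝ) := Nat.le_ceil _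
  set G := Real.sqrt (∫ x in Ioi (0:ℝ), ‖g x‖ ^ 2) with hG
  have hG0 : 0 ≤ G := Real.sqrt_nonneg _
  -- main estimate
  have main : ∀ ζ : ℂ, 1 ≤ ‖ζ‖ → dray α (ζ - 1 - Complex.I) * ‖F ζ‖
      ≤ G * (14 * (4 * ‖ζ‖) ^ (m + 1)) * ((1 + CM) * (4 * ‖ζ‖) ^ N * (C1 * Real.exp (C1 * ‖ζ‖ ^ ρ))) := by
    intro ζ hζ
    set d := dray α (ζ - 1 - Complex.I) with hd
    have hd0 : 0 ≤ d := dray_nonneg _ _
    have hd1 : d ≤ 1 := dray_le_one _ _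
    by_cases hdz : d = 0
    · rw [hdz, zero_mul]; positivity
    have hdpos : 0 < d := lt_of_le_of_ne hd0 (Ne.symm hdz)
    obtain ⟨ψ, ψ', hW⟩ := hex ζ hdz
    obtain ⟨M, hrep, hMc⟩ := weyl_repr hα P hW
    have hMb := hMs (ζ - 1 - Complex.I) ψ ψ' hW.1 hW.2.1
    have hμ : 1 + ‖ζ - 1 - Complex.I‖ ≤ 4 * ‖ζ‖ := by
      have h1 : ‖ζ - 1 - Complex.I‖ ≤ ‖ζ‖ + 1 + 1 := by
        calc ‖ζ - 1 - Complex.I‖ ≤ ‖ζ - 1‖ + ‖Complex.I‖ := norm_sub_le _ _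
          _ ≤ (‖ζ‖ + ‖(1:ℂ)‖) + ‖Complex.I‖ := by gcongr; exact norm_sub_le _ _
          _ = _ := by simp
      linarith
    have hdM : d * ‖M‖ ≤ CM * (4 * ‖ζ‖) ^ N := by
      have h1 : d * ‖M‖ ≤ CM * (1 + ‖ζ - 1 - Complex.I‖) ^ N := by
        rcases hMc with ⟨h1, h2⟩ | ⟨h1, h2⟩
        · have := hMb.2
          rw [h2, norm_one, mul_one] at this
          rw [h1]; exact this
        · have := hMb.1
          rw [h2, norm_neg, norm_one, mul_one] at this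
          rw [h1]; exact this
      refine h1.trans ?_
      gcongr
    set x1 : ℝ := (2 * ‖ζ‖ + 2) ^ (1 / α) with hx1
    have hx1α : x1 ^ α = 2 * ‖ζ‖ + 2 := by
      rw [hx1, ← Real.rpow_mul (by positivity), one_div_mul_cancel hα.ne', Real.rpow_one]
    have hx11 : 1 ≤ x1 := by
      rw [hx1]; exact Real.one_le_rpow (by linarith) (by positivity)
    have hx1m : x1 ≤ (4 * ‖ζ‖) ^ m := by
      calc x1 ≤ (4 * ‖ζ‖) ^ (1 / α) := by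
            rw [hx1]; exact Real.rpow_le_rpow (by positivity) (by linarith) (by positivity)
        _ ≤ (4 * ‖ζ‖) ^ (m:ℝ) := Real.rpow_le_rpow_of_exponent_le (by linarith) hmα
        _ = _ := Real.rpow_natCast _ _
    -- pointwise bound
    have hp01 : ‖(P.p0 : ℂ)‖ ≤ 1 ∧ ‖(P.p1 : ℂ)‖ ≤ 1 := by
      rcases P.hp with ⟨h0, h1⟩ | ⟨h0, h1⟩ <;> rw [h0, h1] <;> simp
    have hpt : ∀ x ∈ Icc 0 x1, ‖ψ x‖ ≤ ((1 + CM) * (4 * ‖ζ‖) ^ N * (C1 * Real.exp (C1 * ‖ζ‖ ^ ρ))) / d := by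
      intro x hx
      have hxα : x ^ α ≤ 4 * ‖ζ‖ + 4 := by
        calc x ^ α ≤ x1 ^ α := Real.rpow_le_rpow hx.1 hx.2 hα.le
          _ ≤ _ := by rw [hx1α]; linarith [norm_nonneg ζ]
      have hφ := (hCs ζ (P.φ ζ) (P.φ' ζ) x hζ hx.1 hxα (P.solφ ζ) (by rw [P.φ0]; exact hp01.1)
        (by rw [P.φ0']; exact hp01.2)).1
      have hχ := (hCs ζ (P.χ ζ) (P.χ' ζ) x hζ hx.1 hxα (P.solχ ζ) (by rw [P.χ0]; exact hp01.2)
        (by rw [P.χ0', norm_neg]; exact hp01.1)).1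
      rw [← hρ] at hφ hχ
      set E := C1 * Real.exp (C1 * ‖ζ‖ ^ ρ) with hE
      have hE0 : 0 ≤ E := by positivity
      rw [le_div_iff₀ hdpos]
      have h4 : 1 ≤ (4 * ‖ζ‖) ^ N := one_le_pow₀ (by linarith)
      calc ‖ψ x‖ * d = d * ‖P.χ ζ x + M * P.φ ζ x‖ := by rw [hrep x, mul_comm]
        _ ≤ d * (‖P.χ ζ x‖ + ‖M‖ * ‖P.φ ζ x‖) := by
            gcongr
            refine (norm_add_le _ _).trans ?_
            rw [norm_mul]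
        _ ≤ d * (E + ‖M‖ * E) := by gcongr
        _ = d * E + (d * ‖M‖) * E := by ring
        _ ≤ 1 * E + (CM * (4 * ‖ζ‖) ^ N) * E := by gcongr
        _ ≤ (4 * ‖ζ‖) ^ N * E + (CM * (4 * ‖ζ‖) ^ N) * E := by gcongr
        _ = _ := by ring
    obtain ⟨hmem, hl2⟩ := weyl_l2 hα hα1 P hW hζ hx11 hx1α hpt
    have hcs := cs_half hg hmem
    rw [← hFe ζ ψ ψ' hW, ← hG] at hcs
    set T := (1 + CM) * (4 * ‖ζ‖) ^ N * (C1 * Real.exp (C1 * ‖ζ‖ ^ ρ)) with hT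
    have hT0 : 0 ≤ T := by positivity
    have hfac : x1 + 52 * ‖ζ‖ ≤ 14 * (4 * ‖ζ‖) ^ (m + 1) := by
      have h4 : 1 ≤ (4 * ‖ζ‖) ^ m := one_le_pow₀ (by linarith)
      rw [pow_succ]
      nlinarith
    calc d * ‖F ζ‖ ≤ d * (G * ((x1 + 52 * ‖ζ‖) * (T / d))) := by
          gcongr
          exact hcs.trans (by gcongr)
      _ = G * (x1 + 52 * ‖ζ‖) * T := by field_simp
      _ ≤ _ := by gcongr
  -- conclusion
  set A : ℝ := G * 14 * (1 + CM) * C1 * ((m + 1 + N).factorial : ℝ) with hA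
  have hA0 : 0 ≤ A := by positivity
  have hB00 : 0 ≤ B0 := (norm_nonneg _).trans (hB0 0 (by simp))
  set C := A + (4 + C1) + B0 with hC
  have hC0 : 0 ≤ C := by positivity
  have key : ∀ ζ, min 1 |((ζ - (1 + Complex.I)) *
      Complex.exp (-((Real.pi / (2 + α) : ℝ) : ℂ) * Complex.I)).im| * ‖F ζ‖
      ≤ C * Real.exp (C * ‖ζ‖ ^ ρ) := by
    intro ζ
    have e : min 1 |((ζ - (1 + Complex.I)) *
      Complex.exp (-((Real.pi / (2 + α) : ℝ) : ℂ) * Complex.I)).im| = dray α (ζ - 1 - Complex.I) := by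
      unfold dray
      rw [sub_sub]
    rw [e]
    have hexp1 : 1 ≤ Real.exp (C * ‖ζ‖ ^ ρ) := Real.one_le_exp (by positivity)
    rcases le_total ‖ζ‖ 1 with h | h
    · have h1 : ‖F ζ‖ ≤ B0 := hB0 ζ (by simpa using h)
      calc dray α (ζ - 1 - Complex.I) * ‖F ζ‖ ≤ 1 * B0 := by
            gcongr
            exact dray_le_one _ _
        _ ≤ C * 1 := by rw [hC]; linarith [hC1.le]
        _ ≤ _ := by gcongr
    · refine (main ζ h).trans ?_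
      have hp := poly_le (m + 1 + N) h hρ1
      have hζρ : 0 ≤ ‖ζ‖ ^ ρ := by positivity
      calc G * (14 * (4 * ‖ζ‖) ^ (m + 1)) * ((1 + CM) * (4 * ‖ζ‖) ^ N * (C1 * Real.exp (C1 * ‖ζ‖ ^ ρ)))
          = G * 14 * (1 + CM) * C1 * (4 * ‖ζ‖) ^ (m + 1 + N) * Real.exp (C1 * ‖ζ‖ ^ ρ) := by
            rw [pow_add]; ring
        _ ≤ G * 14 * (1 + CM) * C1 * (((m + 1 + N).factorial : ℝ) * Real.exp (4 * ‖ζ‖ ^ ρ))
              * Real.exp (C1 * ‖ζ‖ ^ ρ) := by gcongr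
        _ = A * Real.exp ((4 + C1) * ‖ζ‖ ^ ρ) := by
            rw [hA, add_mul, Real.exp_add]; ring
        _ ≤ C * Real.exp (C * ‖ζ‖ ^ ρ) := by
            have hAC : A ≤ C := by rw [hC]; linarith
            have hCC : 4 + C1 ≤ C := by rw [hC]; linarith
            gcongr
  obtain ⟨C', hC'⟩ := hRL F hF ρ C (Real.pi / (2 + α)) (1 + Complex.I) hρ1 key
  exact ⟨C', hC'⟩

end Pool.Agent.Helper209.AC.GrowthF
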