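import Mathlib

set_option autoImplicit false

namespace Pool.Agent.Helper209.AC.KCalc

open MeasureTheory Set

/-- `|Im √z|` -/
noncomputable def imsq (z : ℂ) : ℝ := Real.sqrt ((‖z‖ - z.re) / 2)

/-- the exponent `k(θ)` -/
noncomputable def kk (α θ : ℝ) : ℝ :=
  ∫ t in (0:ℝ)..(Real.sin θ) ^ (1 / α),
    imsq (Complex.exp ((θ : ℂ) * Complex.I) - Complex.I * ((t ^ α : ℝ) : ℂ))

noncomputable def nn (α θ u : ℝ) : ℝ :=
  Real.sqrt (Real.cos θ ^ 2 + (Real.sin θ * (1 - u ^ α)) ^ 2)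
noncomputable def fA (α θ u : ℝ) : ℝ := Real.sqrt ((nn α θ u - Real.cos θ) / 2)
noncomputable def fB (α θ u : ℝ) : ℝ := Real.sqrt ((nn α θ u + Real.cos θ) / 2)

lemma cont_pow (α : ℝ) (hα : 0 < α) : Continuous (fun u : ℝ => u ^ α) :=
  Real.continuous_rpow_const hα.le

lemma cont_nn (α : ℝ) (hα : 0 < α) : Continuous (fun p : ℝ × ℝ => nn α p.1 p.2) := by
  unfold nn
  have h := (cont_pow α hα).comp (continuous_snd (X := ℝ) (Y := ℝ))
  have h' : Continuous (fun p : ℝ × ℝ => p.2 ^ α) := h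
  fun_prop

lemma cont_fA (α : ℝ) (hα : 0 < α) : Continuous (fun p : ℝ × ℝ => fA α p.1 p.2) := by
  unfold fA
  have := cont_nn α hα
  fun_prop

lemma cont_fA1 (α : ℝ) (hα : 0 < α) (θ : ℝ) : Continuous (fun u : ℝ => fA α θ u) := by
  have h : Continuous (fun u : ℝ => ((θ, u) : ℝ × ℝ)) := by fun_prop
  have h2 := (cont_fA α hα).comp h
  rw [Function.comp_def] at h2
  exact h2

lemma cont_fB (α : ℝ) (hα : 0 < α) : Continuous (fun p : ℝ × ℝ => fB α p.1 p.2) := by
  unfold fB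
  have := cont_nn α hα
  fun_prop

lemma cont_fB1 (α : ℝ) (hα : 0 < α) (θ : ℝ) : Continuous (fun u : ℝ => fB α θ u) := by
  have h : Continuous (fun u : ℝ => ((θ, u) : ℝ × ℝ)) := by fun_prop
  have h2 := (cont_fB α hα).comp h
  rw [Function.comp_def] at h2
  exact h2

lemma kk_eq (α : ℝ) (hα : 0 < α) (θ : ℝ) (hθ : θ ∈ Icc 0 (Real.pi / 2)) :
    kk α θ = Real.sin θ ^ (1 / α) * ∫ u in (0:ℝ)..1, fA α θ u := by
  have hs : 0 ≤ Real.sin θ := Real.sin_nonneg_of_nonneg_of_le_pi hθ.1 (by linarith [hθ.2, Real.pi_pos])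
  unfold kk
  have h := intervalIntegral.smul_integral_comp_mul_left (a := 0) (b := 1)
    (fun t : ℝ => imsq (Complex.exp ((θ : ℂ) * Complex.I) - Complex.I * ((t ^ α : ℝ) : ℂ)))
    (Real.sin θ ^ (1 / α))
  rw [mul_zero, mul_one] at h
  rw [← h, smul_eq_mul]
  congr 1
  apply intervalIntegral.integral_congr
  intro u hu
  rw [uIcc_of_le zero_le_one] at hu
  have hp : (Real.sin θ ^ (1 / α) * u) ^ α = Real.sin θ * u ^ α := by
    rw [Real.mul_rpow (Real.rpow_nonneg hs _) hu.1, ← Real.rpow_mul hs, one_div,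
      inv_mul_cancel₀ hα.ne', Real.rpow_one]
  simp only
  rw [hp]
  unfold imsq fA nn
  have e : Complex.exp ((θ : ℂ) * Complex.I) - Complex.I * ((Real.sin θ * u ^ α : ℝ) : ℂ)
      = ((Real.cos θ : ℝ) : ℂ) + ((Real.sin θ * (1 - u ^ α) : ℝ) : ℂ) * Complex.I := by
    rw [Complex.exp_mul_I]
    push_cast
    ring
  rw [e, Complex.norm_add_mul_I]
  simp only [Complex.add_re, Complex.ofReal_re, Complex.mul_re, Complex.I_re, Complex.ofReal_im,
    Complex.I_im, mul_zero, zero_mul, sub_zero, add_zero]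

/-- monotonicity of the integrand -/
lemma fA_mono (α : ℝ) (hα : 0 < α) (θ₁ θ₂ : ℝ) (h1 : 0 ≤ θ₁) (h12 : θ₁ ≤ θ₂) (h2 : θ₂ ≤ Real.pi / 2)
    (u : ℝ) (hu0 : 0 ≤ u) (hu1 : u ≤ 1) : fA α θ₁ u ≤ fA α θ₂ u := by
  have hpi := Real.pi_pos
  have hw : 0 ≤ 1 - u ^ α := by
    have := Real.rpow_le_one hu0 hu1 hα.le
    linarith
  have hs1 : 0 ≤ Real.sin θ₁ := Real.sin_nonneg_of_nonneg_of_le_pi h1 (by linarith)
  have hs : Real.sin θ₁ ≤ Real.sin θ₂ := by
    apply Real.sin_le_sin_of_le_of_le_pi_div_two <;> linarith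
  have hc : Real.cos θ₂ ≤ Real.cos θ₁ := by
    apply Real.cos_le_cos_of_nonneg_of_le_pi <;> linarith
  have hc2 : 0 ≤ Real.cos θ₂ := Real.cos_nonneg_of_neg_pi_div_two_le_of_le (by linarith) h2
  unfold fA
  apply Real.sqrt_le_sqrt
  have hs1' : 0 ≤ Real.sin θ₁ * (1 - u ^ α) := mul_nonneg hs1 hw
  have hs' : Real.sin θ₁ * (1 - u ^ α) ≤ Real.sin θ₂ * (1 - u ^ α) :=
    mul_le_mul_of_nonneg_right hs hw
  have : nn α θ₁ u ≤ nn α θ₂ u + (Real.cos θ₁ - Real.cos θ₂) := by
    unfold nn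
    generalize Real.sin θ₁ * (1 - u ^ α) = s1 at *
    generalize Real.sin θ₂ * (1 - u ^ α) = s2 at *
    generalize Real.cos θ₁ = c1 at *
    generalize Real.cos θ₂ = c2 at *
    apply Real.sqrt_le_iff.mpr
    have hc2' : c2 ≤ Real.sqrt (c2 ^ 2 + s2 ^ 2) := Real.le_sqrt_of_sq_le (by nlinarith)
    have hsq := Real.sq_sqrt (show 0 ≤ c2 ^ 2 + s2 ^ 2 by positivity)
    constructor
    · linarith
    · nlinarith
  linarith

/-- strict monotonicity -/
lemma kk_strict (α : ℝ) (hα : 0 < α) : StrictMonoOn (kk α) (Icc 0 (Real.pi / 2)) := by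
  intro θ₁ h1 θ₂ h2 h12
  have hpi := Real.pi_pos
  have hcontA : ∀ θ, Continuous (fun u => fA α θ u) := cont_fA1 α hα
  have hint : ∀ θ, IntervalIntegrable (fun u => fA α θ u) volume 0 1 := fun θ =>
    (hcontA θ).intervalIntegrable _ _
  have hm : ∫ u in (0:ℝ)..1, fA α θ₁ u ≤ ∫ u in (0:ℝ)..1, fA α θ₂ u := by
    apply intervalIntegral.integral_mono_on zero_le_one (hint _) (hint _)
    intro u hu
    exact fA_mono α hα θ₁ θ₂ h1.1 h12.le h2.2 u hu.1 hu.2
  have hs1 : 0 ≤ Real.sin θ₁ := Real.sin_nonneg_of_nonneg_of_le_pi h1.1 (by linarith [h1.2])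
  have hs : Real.sin θ₁ < Real.sin θ₂ := by
    apply Real.sin_lt_sin_of_lt_of_le_pi_div_two <;> linarith [h1.1, h2.2]
  have hp : Real.sin θ₁ ^ (1 / α) < Real.sin θ₂ ^ (1 / α) :=
    Real.rpow_lt_rpow hs1 hs (by positivity)
  have hp1 : 0 ≤ Real.sin θ₁ ^ (1 / α) := Real.rpow_nonneg hs1 _
  have hpos : 0 < ∫ u in (0:ℝ)..1, fA α θ₂ u := by
    apply intervalIntegral.intervalIntegral_pos_of_pos_on (hint _) _ zero_lt_one
    intro u hu
    unfold fA
    apply Real.sqrt_pos.mpr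
    have hw : 0 < 1 - u ^ α := by
      have := Real.rpow_lt_one hu.1.le hu.2 hα
      linarith
    have hsp : 0 < Real.sin θ₂ * (1 - u ^ α) := mul_pos (by linarith) hw
    have : Real.cos θ₂ < nn α θ₂ u := by
      unfold nn
      apply Real.lt_sqrt_of_sq_lt
      have := pow_pos hsp 2
      linarith
    linarith
  calc kk α θ₁ = Real.sin θ₁ ^ (1 / α) * ∫ u in (0:ℝ)..1, fA α θ₁ u := kk_eq α hα θ₁ h1
    _ ≤ Real.sin θ₁ ^ (1 / α) * ∫ u in (0:ℝ)..1, fA α θ₂ u := mul_le_mul_of_nonneg_left hm hp1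
    _ < Real.sin θ₂ ^ (1 / α) * ∫ u in (0:ℝ)..1, fA α θ₂ u := mul_lt_mul_of_pos_right hp hpos
    _ = kk α θ₂ := (kk_eq α hα θ₂ h2).symm

/-- the complex root -/
noncomputable def cf (α θ u : ℝ) : ℂ :=
  ((Real.cos θ : ℂ) + ((Real.sin θ * (1 - u ^ α) : ℝ) : ℂ) * Complex.I) ^ ((2 : ℂ)⁻¹)

lemma cf_eq (α : ℝ) (hα : 0 < α) (θ : ℝ) (hθ : θ ∈ Icc 0 (Real.pi / 2)) (u : ℝ) (hu0 : 0 ≤ u)
    (hu1 : u ≤ 1) : cf α θ u = (fB α θ u : ℂ) + (fA α θ u : ℂ) * Complex.I := by
  have hs : 0 ≤ Real.sin θ := Real.sin_nonneg_of_nonneg_of_le_pi hθ.1 (by linarith [hθ.2, Real.pi_pos])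
  have hw : 0 ≤ 1 - u ^ α := by
    have := Real.rpow_le_one hu0 hu1 hα.le
    linarith
  have him : 0 ≤ ((Real.cos θ : ℂ) + ((Real.sin θ * (1 - u ^ α) : ℝ) : ℂ) * Complex.I).im := by
    simp only [Complex.add_im, Complex.ofReal_im, Complex.mul_im, Complex.I_im, Complex.I_re,
      Complex.ofReal_re]
    have := mul_nonneg hs hw
    linarith
  apply Complex.ext
  · rw [cf, Complex.cpow_inv_two_re]
    rw [Complex.norm_add_mul_I]
    simp only [fB, nn, Complex.add_re, Complex.ofReal_re, Complex.mul_re, Complex.I_re, Complex.ofReal_im,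
      Complex.I_im, mul_zero, zero_mul, sub_zero, add_zero]
  · rw [cf, Complex.cpow_inv_two_im_eq_sqrt him]
    rw [Complex.norm_add_mul_I]
    simp only [fA, nn, Complex.add_re, Complex.add_im, Complex.ofReal_re, Complex.mul_re, Complex.mul_im,
      Complex.I_re, Complex.ofReal_im,
      Complex.I_im, mul_zero, zero_mul, sub_zero, add_zero, mul_one, zero_add]

lemma z_slit (α θ : ℝ) (hθ : 0 < Real.cos θ) (u : ℝ) :
    ((Real.cos θ : ℂ) + ((Real.sin θ * (1 - u ^ α) : ℝ) : ℂ) * Complex.I) ∈ Complex.slitPlane := by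
  left
  simp only [Complex.add_re, Complex.ofReal_re, Complex.mul_re, Complex.I_re, Complex.ofReal_im,
      Complex.I_im, mul_zero, zero_mul, sub_zero, add_zero]
  exact hθ

lemma cf_sq (α θ : ℝ) (u : ℝ) :
    cf α θ u ^ 2 = ((Real.cos θ : ℂ) + ((Real.sin θ * (1 - u ^ α) : ℝ) : ℂ) * Complex.I) := by
  unfold cf
  rw [← Complex.cpow_nat_mul]
  norm_num

lemma cf_ne (α θ : ℝ) (hθ : 0 < Real.cos θ) (u : ℝ) : cf α θ u ≠ 0 := by
  intro h
  have h2 := cf_sq α θ u
  rw [h] at h2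
  have := Complex.slitPlane_ne_zero (z_slit α θ hθ u)
  apply this
  rw [← h2]; norm_num

lemma cf_norm (α θ : ℝ) (s : ℝ) (hs0 : 0 < s) (hs1 : s ≤ 1) (hθ : s ≤ Real.cos θ) (u : ℝ) :
    s ≤ ‖cf α θ u‖ := by
  have h2 := congrArg norm (cf_sq α θ u)
  rw [norm_pow] at h2
  have h3 := Complex.abs_re_le_norm ((Real.cos θ : ℂ) + ((Real.sin θ * (1 - u ^ α) : ℝ) : ℂ) * Complex.I)
  simp only [Complex.add_re, Complex.ofReal_re, Complex.mul_re, Complex.I_re, Complex.ofReal_im,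
      Complex.I_im, mul_zero, zero_mul, sub_zero, add_zero] at h3
  have h4 := le_abs_self (Real.cos θ)
  have h5 := norm_nonneg (cf α θ u)
  nlinarith

lemma cont_cf (α : ℝ) (hα : 0 < α) (θ : ℝ) (hθ : 0 < Real.cos θ) :
    Continuous (fun u : ℝ => cf α θ u) := by
  unfold cf
  have h := cont_pow α hα
  apply Continuous.cpow _ continuous_const
  · intro u; exact z_slit α θ hθ u
  · fun_prop

lemma cont_cfi (α : ℝ) (hα : 0 < α) (θ : ℝ) (hθ : 0 < Real.cos θ) :
    Continuous (fun u : ℝ => (2 * cf α θ u)⁻¹) := by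
  have h := cont_cf α hα θ hθ
  apply Continuous.inv₀ (by fun_prop)
  intro u
  exact mul_ne_zero two_ne_zero (cf_ne α θ hθ u)

lemma root_deriv (g : ℝ → ℂ) (g' : ℂ) (x : ℝ) (hg : HasDerivAt g g' x)
    (hz : g x ∈ Complex.slitPlane) :
    HasDerivAt (fun x => g x ^ ((2 : ℂ)⁻¹)) (g' * (2 * g x ^ ((2 : ℂ)⁻¹))⁻¹) x := by
  have h1 := (hasDerivAt_id (g x)).cpow_const (c := (2 : ℂ)⁻¹) hz
  have h2 := HasDerivAt.comp x h1 hg
  have h4 : (g x) ^ ((2 : ℂ)⁻¹ - 1) = ((g x) ^ ((2 : ℂ)⁻¹))⁻¹ := by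
    rw [← Complex.cpow_neg]
    norm_num
  refine HasDerivAt.congr_deriv h2 ?_
  simp only [id]
  rw [h4, mul_inv]
  ring

lemma cf_deriv_u (α : ℝ) (hα : 0 < α) (θ : ℝ) (hθ : 0 < Real.cos θ) (u : ℝ) (hu : 0 < u) :
    HasDerivAt (fun u : ℝ => cf α θ u)
      (-(α * u ^ (α - 1) * Real.sin θ : ℝ) * Complex.I * (2 * cf α θ u)⁻¹) u := by
  have h1 : HasDerivAt (fun u : ℝ => Real.sin θ * (1 - u ^ α))
      (-(α * u ^ (α - 1) * Real.sin θ)) u := by
    have := ((Real.hasDerivAt_rpow_const (p := α) (Or.inl hu.ne')).const_sub 1).const_mul (Real.sin θ)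
    refine HasDerivAt.congr_deriv this ?_
    ring
  have h2 := (h1.ofReal_comp.mul_const Complex.I).const_add (Real.cos θ : ℂ)
  refine HasDerivAt.congr_deriv (root_deriv _ _ u h2 (z_slit α θ hθ u)) ?_
  unfold cf
  push_cast
  ring

lemma cf_deriv_θ (α : ℝ) (θ : ℝ) (hθ : 0 < Real.cos θ) (u : ℝ) :
    HasDerivAt (fun θ : ℝ => cf α θ u)
      ((-(Real.sin θ : ℂ) + (Real.cos θ * (1 - u ^ α) : ℝ) * Complex.I) * (2 * cf α θ u)⁻¹) θ := by
  have h0 := (Real.hasDerivAt_cos θ).ofReal_comp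
  have h1 := ((Real.hasDerivAt_sin θ).mul_const (1 - u ^ α)).ofReal_comp.mul_const Complex.I
  have h2 := HasDerivAt.fun_add h0 h1
  refine HasDerivAt.congr_deriv (root_deriv _ _ θ h2 (z_slit α θ hθ u)) ?_
  unfold cf
  push_cast
  ring

noncomputable def FF (α θ : ℝ) : ℂ := ∫ u in (0:ℝ)..1, cf α θ u
noncomputable def GG (α θ : ℝ) : ℂ := ∫ u in (0:ℝ)..1, (2 * cf α θ u)⁻¹
noncomputable def HH (α θ : ℝ) : ℂ := ∫ u in (0:ℝ)..1, ((u ^ α : ℝ) : ℂ) * (2 * cf α θ u)⁻¹

lemma FF_alg (α : ℝ) (hα : 0 < α) (θ : ℝ) (hθ : 0 < Real.cos θ) :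
    FF α θ = 2 * ((Real.cos θ + Real.sin θ * Complex.I) * GG α θ
      - Complex.I * Real.sin θ * HH α θ) := by
  have hc := cont_cfi α hα θ hθ
  have hp := cont_pow α hα
  have hp' : Continuous (fun u : ℝ => ((u ^ α : ℝ) : ℂ)) := Complex.continuous_ofReal.comp hp
  unfold FF GG HH
  rw [← intervalIntegral.integral_const_mul, ← intervalIntegral.integral_const_mul,
    ← intervalIntegral.integral_sub ((by fun_prop : Continuous _).intervalIntegrable _ _)
      ((by fun_prop : Continuous _).intervalIntegrable _ _), ← intervalIntegral.integral_const_mul]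
  apply intervalIntegral.integral_congr
  intro u _
  have h1 := cf_sq α θ u
  have h2 := cf_ne α θ hθ u
  simp only
  field_simp
  rw [h1]
  push_cast
  ring

lemma FF_ftc (α : ℝ) (hα : 0 < α) (θ : ℝ) (hθ : 0 < Real.cos θ) :
    FF α θ - Complex.I * α * Real.sin θ * HH α θ = (Real.sqrt (Real.cos θ) : ℂ) := by
  have hc := cont_cfi α hα θ hθ
  have hcf := cont_cf α hα θ hθ
  have hp := cont_pow α hα
  have hp' : Continuous (fun u : ℝ => ((u ^ α : ℝ) : ℂ)) := Complex.continuous_ofReal.comp hp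
  have key : ∫ u in (0:ℝ)..1, (cf α θ u - Complex.I * α * Real.sin θ *
      (((u ^ α : ℝ) : ℂ) * (2 * cf α θ u)⁻¹)) = (1 : ℝ) * cf α θ 1 - (0 : ℝ) * cf α θ 0 := by
    apply intervalIntegral.integral_eq_sub_of_hasDerivAt_of_le (f := fun u : ℝ => (u : ℂ) * cf α θ u)
      zero_le_one
    · apply Continuous.continuousOn
      fun_prop
    · intro u hu
      have h1 := (hasDerivAt_id u).ofReal_comp.mul (cf_deriv_u α hα θ hθ u hu.1)
      refine HasDerivAt.congr_deriv (HasDerivAt.congr_of_eventuallyEq h1 (Filter.Eventually.of_forall fun _ => rfl)) ?_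
      have h2 : (u : ℂ) * ((u ^ (α - 1) : ℝ) : ℂ) = ((u ^ α : ℝ) : ℂ) := by
        rw [← Complex.ofReal_mul]
        congr 1
        rw [Real.rpow_sub_one hu.1.ne']
        have := hu.1.ne'
        field_simp
      have hid : ((id u : ℝ) : ℂ) = (u : ℂ) := rfl
      rw [hid]
      push_cast at h2 ⊢
      linear_combination (-Complex.I * α * Complex.sin θ * (2 * cf α θ u)⁻¹) * h2
    · exact (by fun_prop : Continuous _).intervalIntegrable _ _
  rw [intervalIntegral.integral_sub (hcf.intervalIntegrable _ _)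
      ((by fun_prop : Continuous _).intervalIntegrable _ _), intervalIntegral.integral_const_mul] at key
  unfold FF HH
  rw [key]
  have h1 : cf α θ 1 = (Real.sqrt (Real.cos θ) : ℂ) := by
    unfold cf
    rw [Real.one_rpow, sub_self, mul_zero, Complex.ofReal_zero, zero_mul, add_zero, Real.sqrt_eq_rpow,
      Complex.ofReal_cpow hθ.le]
    norm_num
  rw [h1]
  simp

lemma FF_deriv (α : ℝ) (hα : 0 < α) (θ : ℝ) (h0 : 0 < θ) (h1 : θ < Real.pi / 2) :
    HasDerivAt (FF α) (-(Real.sin θ : ℂ) * GG α θ + Real.cos θ * Complex.I * (GG α θ - HH α θ)) θ := by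
  have hpi := Real.pi_pos
  have hcθ : 0 < Real.cos θ := Real.cos_pos_of_mem_Ioo ⟨by linarith, h1⟩
  obtain ⟨θ', h2, h3⟩ := exists_between h1
  have hc' : 0 < Real.cos θ' := Real.cos_pos_of_mem_Ioo ⟨by linarith, h3⟩
  have hmem : ∀ x ∈ Ioo 0 θ', Real.cos θ' ≤ Real.cos x := by
    intro x hx
    apply Real.cos_le_cos_of_nonneg_of_le_pi <;> linarith [hx.1, hx.2]
  have hp := cont_pow α hα
  have hp' : Continuous (fun u : ℝ => ((u ^ α : ℝ) : ℂ)) := Complex.continuous_ofReal.comp hp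
  have hnhds : Ioo 0 θ' ∈ nhds θ := Ioo_mem_nhds h0 h2
  have hci := cont_cfi α hα θ hcθ
  have key := intervalIntegral.hasDerivAt_integral_of_dominated_loc_of_deriv_le (μ := volume)
    (F := fun θ u => cf α θ u)
    (F' := fun θ u => (-(Real.sin θ : ℂ) + (Real.cos θ * (1 - u ^ α) : ℝ) * Complex.I) *
      (2 * cf α θ u)⁻¹) (x₀ := θ) (a := 0) (b := 1) (s := Ioo 0 θ')
    (bound := fun _ => 2 * (2 * Real.cos θ')⁻¹) hnhds
    (by
      filter_upwards [hnhds] with x hx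
      exact (cont_cf α hα x (lt_of_lt_of_le hc' (hmem x hx))).aestronglyMeasurable)
    ((cont_cf α hα θ hcθ).intervalIntegrable _ _)
    ((by fun_prop : Continuous _).aestronglyMeasurable)
    (by
      refine Filter.Eventually.of_forall ?_
      intro u hu x hx
      rw [uIoc_of_le zero_le_one] at hu
      rw [norm_mul, norm_inv, norm_mul]
      have hn := cf_norm α x (Real.cos θ') hc' (Real.cos_le_one _) (hmem x hx) u
      have hw : 0 ≤ 1 - u ^ α := by
        have := Real.rpow_le_one hu.1.le hu.2 hα.le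
        linarith
      have hw1 : 1 - u ^ α ≤ 1 := by
        have := Real.rpow_nonneg hu.1.le α
        linarith
      apply mul_le_mul
      · calc ‖-(Real.sin x : ℂ) + (Real.cos x * (1 - u ^ α) : ℝ) * Complex.I‖
            ≤ ‖-(Real.sin x : ℂ)‖ + ‖((Real.cos x * (1 - u ^ α) : ℝ) : ℂ) * Complex.I‖ := norm_add_le _ _
          _ = |Real.sin x| + |Real.cos x| * |1 - u ^ α| := by
              rw [norm_neg, norm_mul, Complex.norm_I, mul_one, Complex.norm_real, Complex.norm_real,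
                Real.norm_eq_abs, Real.norm_eq_abs, abs_mul]
          _ ≤ 1 + 1 * 1 := by
              gcongr
              · exact Real.abs_sin_le_one x
              · exact Real.abs_cos_le_one x
              · rw [abs_of_nonneg hw]; exact hw1
          _ = 2 := by norm_num
      · rw [Complex.norm_two]
        gcongr
      · positivity
      · norm_num)
    (by simp)
    (by
      refine Filter.Eventually.of_forall ?_
      intro u hu x hx
      exact cf_deriv_θ α x (lt_of_lt_of_le hc' (hmem x hx)) u)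
  have h5 := key.2
  refine HasDerivAt.congr_deriv (HasDerivAt.congr_of_eventuallyEq h5 (Filter.Eventually.of_forall fun _ => rfl)) ?_
  unfold GG HH
  rw [← intervalIntegral.integral_sub (hci.intervalIntegrable _ _)
    ((by fun_prop : Continuous _).intervalIntegrable _ _), ← intervalIntegral.integral_const_mul,
    ← intervalIntegral.integral_const_mul, ← intervalIntegral.integral_add
    ((by fun_prop : Continuous _).intervalIntegrable _ _)
    ((by fun_prop : Continuous _).intervalIntegrable _ _)]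
  apply intervalIntegral.integral_congr
  intro u _
  simp only
  push_cast
  ring

/-- `∫ Re √` -/
noncomputable def XX (α θ : ℝ) : ℝ := Real.sin θ ^ (1 / α) * ∫ u in (0:ℝ)..1, fB α θ u

lemma FF_eq (α : ℝ) (hα : 0 < α) (θ : ℝ) (hθ : θ ∈ Icc 0 (Real.pi / 2)) :
    FF α θ = ((∫ u in (0:ℝ)..1, fB α θ u : ℝ) : ℂ) + ((∫ u in (0:ℝ)..1, fA α θ u : ℝ) : ℂ) * Complex.I := by
  have hA := cont_fA1 α hα θ
  have hB := cont_fB1 α hα θ
  have hA' : Continuous (fun u : ℝ => (fA α θ u : ℂ)) := Complex.continuous_ofReal.comp hA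
  have hB' : Continuous (fun u : ℝ => (fB α θ u : ℂ)) := Complex.continuous_ofReal.comp hB
  rw [← intervalIntegral.integral_ofReal, ← intervalIntegral.integral_ofReal,
    ← intervalIntegral.integral_mul_const, ← intervalIntegral.integral_add
      (hB'.intervalIntegrable _ _) ((by fun_prop : Continuous _).intervalIntegrable _ _)]
  unfold FF
  apply intervalIntegral.integral_congr
  intro u hu
  rw [uIcc_of_le zero_le_one] at hu
  exact cf_eq α hα θ hθ u hu.1 hu.2

noncomputable def II (α θ : ℝ) : ℂ := ((Real.sin θ ^ (1 / α) : ℝ) : ℂ) * FF α θ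

lemma II_eq (α : ℝ) (hα : 0 < α) (θ : ℝ) (hθ : θ ∈ Icc 0 (Real.pi / 2)) :
    II α θ = (XX α θ : ℂ) + (kk α θ : ℂ) * Complex.I := by
  unfold II XX
  rw [FF_eq α hα θ hθ, kk_eq α hα θ hθ]
  push_cast
  ring

lemma II_deriv (α : ℝ) (hα : 0 < α) (θ : ℝ) (h0 : 0 < θ) (h1 : θ < Real.pi / 2) :
    HasDerivAt (II α) (Complex.I * ((1 / α + 1 / 2 : ℝ) : ℂ) * II α θ +
      ((1 / α * Real.sin θ ^ (1 / α - 1) * Real.sqrt (Real.cos θ) : ℝ) : ℂ) *
        (Real.cos θ - Complex.I * Real.sin θ)) θ := by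
  have hpi := Real.pi_pos
  have hs : 0 < Real.sin θ := Real.sin_pos_of_pos_of_lt_pi h0 (by linarith)
  have hc : 0 < Real.cos θ := Real.cos_pos_of_mem_Ioo ⟨by linarith, h1⟩
  have hd1 := ((Real.hasDerivAt_sin θ).rpow_const (p := 1 / α) (Or.inl hs.ne')).ofReal_comp
  have hd2 := HasDerivAt.fun_mul hd1 (FF_deriv α hα θ h0 h1)
  refine HasDerivAt.congr_deriv hd2 ?_
  have hA := FF_alg α hα θ hc
  have hB := FF_ftc α hα θ hc
  have hC : ((1 / α : ℝ) : ℂ) * (α : ℂ) = 1 := by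
    rw [← Complex.ofReal_mul, one_div, inv_mul_cancel₀ hα.ne', Complex.ofReal_one]
  have hP : ((Real.sin θ ^ (1 / α) : ℝ) : ℂ) = (Real.sin θ : ℂ) * ((Real.sin θ ^ (1 / α - 1) : ℝ) : ℂ) := by
    rw [← Complex.ofReal_mul]
    congr 1
    rw [Real.rpow_sub_one hs.ne']
    field_simp
  unfold II
  rw [hP]
  simp only [Complex.ofReal_mul, Complex.ofReal_add]
  generalize ((1 / α : ℝ) : ℂ) = c at *
  generalize ((Real.sin θ ^ (1 / α - 1) : ℝ) : ℂ) = P at *
  generalize ((Real.sin θ : ℝ) : ℂ) = τ at *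
  generalize ((Real.cos θ : ℝ) : ℂ) = σ at *
  generalize FF α θ = F at *
  generalize GG α θ = G at *
  generalize HH α θ = H at *
  generalize ((Real.sqrt (Real.cos θ) : ℝ) : ℂ) = q at *
  push_cast
  have hI := Complex.I_sq
  linear_combination P * (-(Complex.I * τ / 2)) * hA + P * (σ - Complex.I * τ) * c * hB
    + P * (σ - Complex.I * τ) * Complex.I * τ * H * hC
    + (-(P * G * τ ^ 2)) * hI

theorem kk_main (α : ℝ) (hα : 0 < α) (hα2 : α ≤ 2 / 3) :
    ContinuousOn (kk α) (Icc 0 (Real.pi / 2)) ∧ StrictMonoOn (kk α) (Icc 0 (Real.pi / 2)) ∧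
    ∃ k1 : ℝ → ℝ, ContinuousOn k1 (Icc 0 (Real.pi / 2)) ∧ (∀ θ ∈ Icc 0 (Real.pi / 2), 0 ≤ k1 θ) ∧
      ∀ θ ∈ Ioo 0 (Real.pi / 2), HasDerivAt (kk α) (k1 θ) θ ∧
        HasDerivAt k1 (-(1 / α + 1 / 2) ^ 2 * kk α θ
          + (1 / (2 * α)) * (Real.sin θ) ^ (1 / α - 1) / Real.sqrt (Real.cos θ)) θ := by
  have hpi := Real.pi_pos
  have hpow : Continuous (fun θ : ℝ => Real.sin θ ^ (1 / α)) := by
    have := (Real.continuous_rpow_const (q := 1 / α) (by positivity)).comp Real.continuous_sin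
    rw [Function.comp_def] at this
    exact this
  have hiA : Continuous (fun θ : ℝ => ∫ u in (0:ℝ)..1, fA α θ u) :=
    intervalIntegral.continuous_parametric_intervalIntegral_of_continuous' (cont_fA α hα) 0 1
  have hiB : Continuous (fun θ : ℝ => ∫ u in (0:ℝ)..1, fB α θ u) :=
    intervalIntegral.continuous_parametric_intervalIntegral_of_continuous' (cont_fB α hα) 0 1
  have hcontX : Continuous (XX α) := by
    unfold XX
    exact hpow.mul hiB
  have hkc : ContinuousOn (kk α) (Icc 0 (Real.pi / 2)) := by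
    apply ContinuousOn.congr (hpow.mul hiA).continuousOn
    intro θ hθ
    exact kk_eq α hα θ hθ
  have hkm := kk_strict α hα
  set k1 : ℝ → ℝ := fun θ => (1 / α + 1 / 2) * XX α θ
    - 1 / α * Real.sin θ ^ (1 / α) * Real.sqrt (Real.cos θ) with hk1
  have hk1c : Continuous k1 := by
    rw [hk1]
    have : Continuous (fun θ : ℝ => Real.sqrt (Real.cos θ)) := by fun_prop
    exact (continuous_const.mul hcontX).sub ((continuous_const.mul hpow).mul this)
  have hnhds : ∀ θ ∈ Ioo 0 (Real.pi / 2), ∀ᶠ x in nhds θ, x ∈ Icc 0 (Real.pi / 2) := by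
    intro θ hθ
    exact Icc_mem_nhds hθ.1 hθ.2
  have hder : ∀ θ ∈ Ioo 0 (Real.pi / 2), HasDerivAt (kk α) (k1 θ) θ ∧
      HasDerivAt (XX α) (-(1 / α + 1 / 2) * kk α θ
        + 1 / α * Real.sin θ ^ (1 / α - 1) * Real.sqrt (Real.cos θ) * Real.cos θ) θ := by
    intro θ hθ
    have hs : 0 < Real.sin θ := Real.sin_pos_of_pos_of_lt_pi hθ.1 (by linarith [hθ.2])
    have hI := II_deriv α hα θ hθ.1 hθ.2
    rw [II_eq α hα θ ⟨hθ.1.le, hθ.2.le⟩] at hI
    have h1 := Complex.imCLM.hasFDerivAt.comp_hasDerivAt θ hI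
    have h2 := Complex.reCLM.hasFDerivAt.comp_hasDerivAt θ hI
    constructor
    · refine HasDerivAt.congr_deriv (HasDerivAt.congr_of_eventuallyEq h1 ?_) ?_
      · filter_upwards [hnhds θ hθ] with x hx
        rw [Function.comp_apply, II_eq α hα x hx, Complex.imCLM_apply]
        simp only [Complex.add_im, Complex.ofReal_im, Complex.mul_im, Complex.ofReal_re,
          Complex.I_im, Complex.I_re]
        ring
      · have hP : Real.sin θ ^ (1 / α) = Real.sin θ * Real.sin θ ^ (1 / α - 1) := by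
          rw [Real.rpow_sub_one hs.ne']
          field_simp
        rw [hk1]
        simp only
        rw [hP, Complex.imCLM_apply]
        simp only [Complex.add_im, Complex.ofReal_im, Complex.mul_im, Complex.ofReal_re,
          Complex.I_im, Complex.I_re, Complex.add_re, Complex.mul_re, Complex.sub_im, Complex.sub_re]
        ring
    · refine HasDerivAt.congr_deriv (HasDerivAt.congr_of_eventuallyEq h2 ?_) ?_
      · filter_upwards [hnhds θ hθ] with x hx
        rw [Function.comp_apply, II_eq α hα x hx, Complex.reCLM_apply]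
        simp only [Complex.add_re, Complex.ofReal_im, Complex.mul_re, Complex.ofReal_re,
          Complex.I_im, Complex.I_re]
        ring
      · rw [Complex.reCLM_apply]
        simp only [Complex.add_im, Complex.ofReal_im, Complex.mul_im, Complex.ofReal_re,
          Complex.I_im, Complex.I_re, Complex.add_re, Complex.mul_re, Complex.sub_im, Complex.sub_re]
        ring
  have hpos : ∀ θ ∈ Ioo 0 (Real.pi / 2), 0 ≤ k1 θ := by
    intro θ hθ
    have hd := (hder θ hθ).1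
    by_contra hcon
    push Not at hcon
    have hslope := hasDerivAt_iff_tendsto_slope.mp hd
    have hev : ∀ᶠ x in nhdsWithin θ {θ}ᶜ, slope (kk α) θ x < 0 := hslope.eventually (Iio_mem_nhds hcon)
    have hev2 : ∀ᶠ x in nhdsWithin θ {θ}ᶜ, x ∈ Icc 0 (Real.pi / 2) :=
      (hnhds θ hθ).filter_mono nhdsWithin_le_nhds
    have hev3 : ∀ᶠ x in nhdsWithin θ {θ}ᶜ, x ≠ θ := eventually_mem_nhdsWithin
    obtain ⟨x, hx1, hx2, hx3⟩ := (hev.and (hev2.and hev3)).exists
    rw [slope_def_field] at hx1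
    have hθ' : θ ∈ Icc 0 (Real.pi / 2) := ⟨hθ.1.le, hθ.2.le⟩
    rcases lt_or_gt_of_ne hx3 with h | h
    · have h4 := hkm hx2 hθ' h
      have : 0 < (kk α x - kk α θ) / (x - θ) := div_pos_of_neg_of_neg (by linarith) (by linarith)
      linarith
    · have h4 := hkm hθ' hx2 h
      have : 0 < (kk α x - kk α θ) / (x - θ) := div_pos (by linarith) (by linarith)
      linarith
  refine ⟨hkc, hkm, k1, hk1c.continuousOn, ?_, ?_⟩
  · have hcl : IsClosed {θ | 0 ≤ k1 θ} := isClosed_le continuous_const hk1c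
    have : Icc 0 (Real.pi / 2) ⊆ {θ | 0 ≤ k1 θ} := by
      rw [← closure_Ioo (by linarith : (0:ℝ) ≠ Real.pi / 2)]
      exact hcl.closure_subset_iff.mpr hpos
    exact this
  · intro θ hθ
    refine ⟨(hder θ hθ).1, ?_⟩
    have hs : 0 < Real.sin θ := Real.sin_pos_of_pos_of_lt_pi hθ.1 (by linarith [hθ.2])
    have hc : 0 < Real.cos θ := Real.cos_pos_of_mem_Ioo ⟨by linarith [hθ.1], hθ.2⟩
    have h1 := ((hder θ hθ).2).const_mul (1 / α + 1 / 2)
    have h2 := ((Real.hasDerivAt_sin θ).rpow_const (p := 1 / α) (Or.inl hs.ne')).const_mul (1 / α)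
    have h3 := (Real.hasDerivAt_cos θ).sqrt hc.ne'
    have h4 := HasDerivAt.fun_sub h1 (HasDerivAt.fun_mul h2 h3)
    refine HasDerivAt.congr_deriv h4 ?_
    have hP : Real.sin θ ^ (1 / α) = Real.sin θ * Real.sin θ ^ (1 / α - 1) := by
      rw [Real.rpow_sub_one hs.ne']
      field_simp
    have hsq := Real.sq_sqrt hc.le
    have hsp := Real.sqrt_pos.mpr hc
    have hsc := Real.sin_sq_add_cos_sq θ
    rw [hP]
    generalize Real.sin θ ^ (1 / α - 1) = P at *
    generalize Real.sqrt (Real.cos θ) = q at *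
    generalize kk α θ = K at *
    generalize Real.sin θ = τ at *
    rw [← hsq] at hsc ⊢
    field_simp
    linear_combination 2 * α * P * hsc

end Pool.Agent.Helper209.AC.KCalc
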