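import Mathlib

set_option autoImplicit false

namespace Pool.Agent.Helper209.AC.KKScale

open MeasureTheory Set

/-- `|Im √z|` -/
noncomputable def imsq (z : ℂ) : ℝ := Real.sqrt ((‖z‖ - z.re) / 2)

/-- the exponent `k(θ)` -/
noncomputable def kk (α θ : ℝ) : ℝ :=
  ∫ t in (0:ℝ)..(Real.sin θ) ^ (1 / α),
    imsq (Complex.exp ((θ : ℂ) * Complex.I) - Complex.I * ((t ^ α : ℝ) : ℂ))

/-- exponent function -/
noncomputable def KK (α : ℝ) (ζ : ℂ) : ℝ :=
  ∫ t in (0:ℝ)..(ζ.im) ^ (1 / α), imsq (ζ - Complex.I * ((t ^ α : ℝ) : ℂ))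

theorem imsq_smul (r : ℝ) (hr : 0 ≤ r) (z : ℂ) : imsq ((r : ℂ) * z) = Real.sqrt r * imsq z := by
  unfold imsq
  rw [← Real.sqrt_mul hr, norm_mul, Complex.norm_real, Real.norm_of_nonneg hr, Complex.re_ofReal_mul]
  congr 1
  ring

theorem KK_scale (α : ℝ) (hα : 0 < α) (r θ : ℝ) (hr : 0 < r) (hθ0 : 0 ≤ θ) (hθ1 : θ ≤ Real.pi / 2) :
    KK α ((r : ℂ) * Complex.exp ((θ : ℂ) * Complex.I)) = r ^ (1 / α + 1 / 2) * kk α θ := by
  have hs : 0 ≤ Real.sin θ := Real.sin_nonneg_of_nonneg_of_le_pi hθ0 (by linarith [Real.pi_pos])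
  have him : ((r : ℂ) * Complex.exp ((θ : ℂ) * Complex.I)).im = r * Real.sin θ := by
    rw [Complex.im_ofReal_mul, Complex.exp_ofReal_mul_I_im]
  unfold KK
  rw [him, Real.mul_rpow hr.le hs]
  have key := intervalIntegral.mul_integral_comp_mul_left (a := 0) (b := Real.sin θ ^ (1 / α))
    (f := fun t : ℝ => imsq ((r : ℂ) * Complex.exp ((θ : ℂ) * Complex.I) - Complex.I * ((t ^ α : ℝ) : ℂ)))
    (c := r ^ (1 / α))
  rw [mul_zero] at key
  rw [← key]
  have hcongr : (∫ x in (0:ℝ)..Real.sin θ ^ (1 / α),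
      imsq ((r : ℂ) * Complex.exp ((θ : ℂ) * Complex.I) - Complex.I * (((r ^ (1 / α) * x) ^ α : ℝ) : ℂ)))
      = ∫ x in (0:ℝ)..Real.sin θ ^ (1 / α),
        Real.sqrt r * imsq (Complex.exp ((θ : ℂ) * Complex.I) - Complex.I * ((x ^ α : ℝ) : ℂ)) := by
    apply intervalIntegral.integral_congr
    intro x hx
    rw [uIcc_of_le (Real.rpow_nonneg hs _)] at hx
    have h1 : (r ^ (1 / α) * x) ^ α = r * x ^ α := by
      rw [Real.mul_rpow (Real.rpow_nonneg hr.le _) hx.1, ← Real.rpow_mul hr.le, one_div,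
        inv_mul_cancel₀ hα.ne', Real.rpow_one]
    show imsq _ = _
    simp only [h1]
    rw [← imsq_smul r hr.le]
    congr 1
    push_cast
    ring
  rw [hcongr, intervalIntegral.integral_const_mul, ← mul_assoc, Real.rpow_add hr, ← Real.sqrt_eq_rpow]
  rfl

/-- version with `arg` -/
theorem KK_arg (α : ℝ) (hα : 0 < α) (ζ : ℂ) (hre : 0 ≤ ζ.re) (him : 0 < ζ.im) :
    KK α ζ = ‖ζ‖ ^ (1 / α + 1 / 2) * kk α ζ.arg := by
  have hz : ζ ≠ 0 := by
    rintro rfl
    simp at him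
  have h := KK_scale α hα ‖ζ‖ ζ.arg (norm_pos_iff.2 hz) (Complex.arg_nonneg_iff.2 him.le)
    (Complex.arg_le_pi_div_two_iff.2 (Or.inl hre))
  rw [Complex.norm_mul_exp_arg_mul_I] at h
  exact h

theorem imsq_mono (x s : ℝ) (hx : x ≤ 0) :
    imsq (Complex.I * (s : ℂ)) ≤ imsq ((x : ℂ) + Complex.I * (s : ℂ)) := by
  unfold imsq
  apply Real.sqrt_le_sqrt
  have h1 : (Complex.I * (s : ℂ)).re = 0 := by simp
  have h2 : ((x : ℂ) + Complex.I * (s : ℂ)).re = x := by simp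
  have h3 : ‖Complex.I * (s : ℂ)‖ = |s| := by simp
  have h4 : ((x : ℂ) + Complex.I * (s : ℂ)).im = s := by simp
  have h5 : |s| ≤ ‖(x : ℂ) + Complex.I * (s : ℂ)‖ := by
    have := Complex.abs_im_le_norm ((x : ℂ) + Complex.I * (s : ℂ))
    rwa [h4] at this
  rw [h1, h2, h3]
  linarith

theorem imsq_cont : Continuous imsq := by
  unfold imsq
  fun_prop

theorem KK_neg (α : ℝ) (hα : 0 < α) (ζ : ℂ) (hre : ζ.re ≤ 0) (him : 0 < ζ.im) :
    ζ.im ^ (1 / α + 1 / 2) * kk α (Real.pi / 2) ≤ KK α ζ := by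
  have h := KK_scale α hα ζ.im (Real.pi / 2) him (by positivity) le_rfl
  rw [← h]
  have hI : Complex.exp (((Real.pi / 2 : ℝ) : ℂ) * Complex.I) = Complex.I := by
    push_cast
    exact Complex.exp_pi_div_two_mul_I
  rw [hI]
  have him2 : ((ζ.im : ℂ) * Complex.I).im = ζ.im := by simp
  unfold KK
  rw [him2]
  have hpow : Continuous fun t : ℝ => ((t ^ α : ℝ) : ℂ) :=
    Complex.continuous_ofReal.comp (Real.continuous_rpow_const hα.le)
  apply intervalIntegral.integral_mono_on (Real.rpow_nonneg him.le _)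
  · apply Continuous.intervalIntegrable
    exact imsq_cont.comp (continuous_const.sub (continuous_const.mul hpow))
  · apply Continuous.intervalIntegrable
    exact imsq_cont.comp (continuous_const.sub (continuous_const.mul hpow))
  · intro t ht
    have e1 : (ζ.im : ℂ) * Complex.I - Complex.I * ((t ^ α : ℝ) : ℂ)
        = Complex.I * ((ζ.im - t ^ α : ℝ) : ℂ) := by
      push_cast; ring
    have e2 : ζ - Complex.I * ((t ^ α : ℝ) : ℂ)
        = (ζ.re : ℂ) + Complex.I * ((ζ.im - t ^ α : ℝ) : ℂ) := by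
      conv_lhs => rw [← Complex.re_add_im ζ]
      push_cast; ring
    rw [e1, e2]
    exact imsq_mono _ _ hre

end Pool.Agent.Helper209.AC.KKScale
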