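import Pool.Agent.Helper209.AC.Frame

set_option autoImplicit false

namespace Pool.Agent.Helper209.AC.LowerP2

open MeasureTheory Set


/-- WKB lower bound (proved elsewhere) -/
def WkbLowStmt (α : ℝ) : Prop := ∀ κ : ℝ, 0 < κ →
    ∃ R C : ℝ, 0 < R ∧ 0 < C ∧ ∀ (μ : ℂ) (y : ℝ) (φ φ' : ℝ → ℂ), R ≤ ‖μ‖ → 1 ≤ y →
      κ * ‖μ‖ ≤ μ.im - y ^ α → IsSol (pot α Complex.I μ) φ φ' →
      ((φ 0 = 0 ∧ φ' 0 = 1) ∨ (φ 0 = 1 ∧ φ' 0 = 0)) →
      Real.exp (∫ x in (0:ℝ)..y, imsq (μ - Complex.I * ((x ^ α : ℝ) : ℂ))) ≤ C * ‖μ‖ * ‖φ y‖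

lemma imsq_sq (z : ℂ) : imsq z ^ 2 = (‖z‖ - z.re) / 2 := by
  unfold imsq
  rw [Real.sq_sqrt]
  have := Complex.re_le_norm z
  linarith

lemma imsq_nonneg (z : ℂ) : 0 ≤ imsq z := Real.sqrt_nonneg _

lemma imsq_le (z : ℂ) {A : ℝ} (hA : ‖z‖ ≤ A) : imsq z ≤ Real.sqrt A := by
  unfold imsq
  apply Real.sqrt_le_sqrt
  have := Complex.abs_re_le_norm z
  have := neg_abs_le z.re
  linarith

lemma imsq_sub_le (z z' : ℂ) (h : ‖z - z'‖ ≤ 2) : imsq z - 2 ≤ imsq z' := by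
  by_contra hc
  push Not at hc
  have h1 := imsq_sq z
  have h2 := imsq_sq z'
  have h3 := imsq_nonneg z'
  have h4 : ‖z‖ - ‖z'‖ ≤ ‖z - z'‖ := norm_sub_norm_le z z'
  have h5 : |(z - z').re| ≤ ‖z - z'‖ := Complex.abs_re_le_norm _
  rw [Complex.sub_re] at h5
  have h6 := neg_abs_le (z.re - z'.re)
  nlinarith

lemma imsq_cont {α : ℝ} (hα : 0 < α) (ζ : ℂ) :
    Continuous (fun t : ℝ => imsq (ζ - Complex.I * ((t ^ α : ℝ) : ℂ))) := by
  unfold imsq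
  have : Continuous fun t : ℝ => t ^ α := Real.continuous_rpow_const hα.le
  fun_prop

lemma norm_one_add_I_le : ‖(1 : ℂ) + Complex.I‖ ≤ 2 := by
  calc ‖(1 : ℂ) + Complex.I‖ ≤ ‖(1 : ℂ)‖ + ‖Complex.I‖ := norm_add_le _ _
    _ = 2 := by rw [norm_one, Complex.norm_I]; norm_num

set_option maxHeartbeats 1000000 in
/-- sharp lower bound for `φ` -/
theorem lowerP2 (α : ℝ) (hα : 0 < α) (hα1 : α < 1) (hL : WkbLowStmt α) (P : Pack α)
    (κ ε : ℝ) (hκ : 0 < κ) (hε : 0 < ε) :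
    ∃ η : ℝ, 0 < η ∧ η < 1 / 4 ∧ ∃ R : ℝ, 1 ≤ R ∧ ∀ (ζ : ℂ) (y : ℝ), R ≤ ‖ζ‖ → κ * ‖ζ‖ ≤ ζ.im → 0 ≤ y →
      (1 - 2 * η) * ζ.im ≤ y ^ α → y ^ α ≤ (1 - η / 2) * ζ.im →
      Real.exp (KK α ζ - ε * ‖ζ‖ ^ (1 / α + 1 / 2)) ≤ ‖P.φ ζ y‖ := by
  -- choice of η
  obtain ⟨η, hη0, hη1, hη2⟩ : ∃ η : ℝ, 0 < η ∧ η < 1 / 4 ∧
      Real.sqrt 2 * (1 - (1 - 2 * η) ^ (1 / α)) ≤ ε / 4 := by
    have hc : Filter.Tendsto (fun η : ℝ => Real.sqrt 2 * (1 - (1 - 2 * η) ^ (1 / α)))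
        (nhds 0) (nhds (Real.sqrt 2 * (1 - (1 - 2 * 0) ^ (1 / α)))) := by
      have : Continuous (fun η : ℝ => Real.sqrt 2 * (1 - (1 - 2 * η) ^ (1 / α))) := by
        have h1 : Continuous (fun η : ℝ => (1 - 2 * η) ^ (1 / α)) :=
          (Real.continuous_rpow_const (by positivity)).comp (by fun_prop)
        fun_prop
      exact this.tendsto 0
    have e0 : Real.sqrt 2 * (1 - (1 - 2 * 0) ^ (1 / α)) = 0 := by simp
    rw [e0] at hc
    have h1 := hc.eventually (ge_mem_nhds (show (0 : ℝ) < ε / 4 by positivity))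
    have h2 : ∀ᶠ η in nhdsWithin (0 : ℝ) (Set.Ioi 0), Real.sqrt 2 * (1 - (1 - 2 * η) ^ (1 / α)) ≤ ε / 4 :=
      h1.filter_mono nhdsWithin_le_nhds
    have h3 : ∀ᶠ η in nhdsWithin (0 : ℝ) (Set.Ioi 0), η ∈ Set.Ioo (0 : ℝ) (1 / 4) :=
      Ioo_mem_nhdsGT (by norm_num)
    obtain ⟨η, ha, hb⟩ := (h2.and h3).exists
    exact ⟨η, hb.1, hb.2, ha⟩
  refine ⟨η, hη0, hη1, ?_⟩
  obtain ⟨R', C, hR', hC, hW⟩ := hL (η * κ / 8) (by positivity)
  refine ⟨max (max (max 2 (2 / κ)) (max (R' + 2) (4 / (η * κ))))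
    (max ((8 / ε) ^ 2) (16 * C / ε ^ 2)), ?_, ?_⟩
  · exact le_trans (by norm_num) ((le_max_left (2 : ℝ) (2 / κ)).trans
      ((le_max_left _ _).trans (le_max_left _ _)))
  intro ζ y hr hb hy hy1 hy2
  set r := ‖ζ‖ with hrdef
  set b := ζ.im with hbdef
  have r1 : 2 ≤ r := ((le_max_left (2 : ℝ) (2 / κ)).trans
      ((le_max_left _ _).trans (le_max_left _ _))).trans hr
  have r2 : 2 / κ ≤ r := ((le_max_right (2 : ℝ) (2 / κ)).trans
      ((le_max_left _ _).trans (le_max_left _ _))).trans hr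
  have r3 : R' + 2 ≤ r := ((le_max_left (R' + 2) (4 / (η * κ))).trans
      ((le_max_right _ _).trans (le_max_left _ _))).trans hr
  have r4 : 4 / (η * κ) ≤ r := ((le_max_right (R' + 2) (4 / (η * κ))).trans
      ((le_max_right _ _).trans (le_max_left _ _))).trans hr
  have r5 : (8 / ε) ^ 2 ≤ r := ((le_max_left _ _).trans (le_max_right _ _)).trans hr
  have r6 : 16 * C / ε ^ 2 ≤ r := ((le_max_right _ _).trans (le_max_right _ _)).trans hr
  have r0 : 0 < r := by linarith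
  have hb0 : 0 < b := lt_of_lt_of_le (by positivity) hb
  have hbr : b ≤ r := (le_abs_self _).trans (Complex.abs_im_le_norm ζ)
  rw [div_le_iff₀ hκ] at r2
  rw [div_le_iff₀ (by positivity)] at r4
  rw [div_le_iff₀ (by positivity)] at r6
  -- y ≥ 1
  have hy1' : 1 ≤ y := by
    by_contra hc
    push Not at hc
    have h1 : y ^ α < 1 := Real.rpow_lt_one hy hc hα
    nlinarith
  set μ := ζ - 1 - Complex.I with hμ
  have hμζ : ζ - μ = 1 + Complex.I := by rw [hμ]; ring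
  have hμn : ‖μ‖ ≤ r + 2 := by
    have : μ = ζ - (1 + Complex.I) := by rw [hμ]; ring
    rw [this]
    exact (norm_sub_le _ _).trans (by linarith [norm_one_add_I_le])
  have hμn2 : r - 2 ≤ ‖μ‖ := by
    have : ‖ζ‖ ≤ ‖μ‖ + ‖(1 : ℂ) + Complex.I‖ := by
      calc ‖ζ‖ = ‖μ + (1 + Complex.I)‖ := by congr 1; rw [hμ]; ring
        _ ≤ _ := norm_add_le _ _
    linarith [norm_one_add_I_le]
  have hμim : μ.im = b - 1 := by
    rw [hμ]; simp [hbdef]
  have hμ0 : 0 < ‖μ‖ := by linarith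
  have hlow := hW μ y (P.φ ζ) (P.φ' ζ) (by linarith) hy1' (by
      rw [hμim]
      have e1 : η * κ / 8 * ‖μ‖ ≤ η * κ / 8 * (2 * r) := by
        apply mul_le_mul_of_nonneg_left _ (by positivity)
        linarith
      have e2 : η / 2 * (κ * r) ≤ η / 2 * b := mul_le_mul_of_nonneg_left hb (by positivity)
      nlinarith) (P.solφ ζ) (by
      rcases P.hp with ⟨h1, h2⟩ | ⟨h1, h2⟩
      · left; rw [P.φ0, P.φ0', h1, h2]; simp
      · right; rw [P.φ0, P.φ0', h1, h2]; simp)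
  -- exponent comparison
  set x0 := b ^ (1 / α) with hx0
  have hyx0 : y ≤ x0 := by
    have h1 : y ^ α ≤ b := by nlinarith
    calc y = (y ^ α) ^ (1 / α) := by
          rw [← Real.rpow_mul hy, mul_one_div_cancel hα.ne', Real.rpow_one]
      _ ≤ b ^ (1 / α) := Real.rpow_le_rpow (by positivity) h1 (by positivity)
  have hx0r : x0 ≤ r ^ (1 / α) := Real.rpow_le_rpow hb0.le hbr (by positivity)
  have hx00 : 0 < x0 := Real.rpow_pos_of_pos hb0 _
  have hyge : (1 - 2 * η) ^ (1 / α) * x0 ≤ y := by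
    calc (1 - 2 * η) ^ (1 / α) * x0 = ((1 - 2 * η) * b) ^ (1 / α) := by
          rw [Real.mul_rpow (by linarith) hb0.le]
      _ ≤ (y ^ α) ^ (1 / α) := Real.rpow_le_rpow (mul_nonneg (by linarith) hb0.le) hy1 (by positivity)
      _ = y := by rw [← Real.rpow_mul hy, mul_one_div_cancel hα.ne', Real.rpow_one]
  have hcz := imsq_cont hα ζ
  have hcm := imsq_cont hα μ
  have hI1 : (∫ x in (0:ℝ)..y, imsq (ζ - Complex.I * ((x ^ α : ℝ) : ℂ))) - 2 * y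
      ≤ ∫ x in (0:ℝ)..y, imsq (μ - Complex.I * ((x ^ α : ℝ) : ℂ)) := by
    have e1 : (∫ x in (0:ℝ)..y, imsq (ζ - Complex.I * ((x ^ α : ℝ) : ℂ))) - 2 * y
        = ∫ x in (0:ℝ)..y, (imsq (ζ - Complex.I * ((x ^ α : ℝ) : ℂ)) - 2) := by
      rw [intervalIntegral.integral_sub (hcz.intervalIntegrable _ _)
        (intervalIntegrable_const)]
      simp; ring
    rw [e1]
    apply intervalIntegral.integral_mono_on hy
    · exact (hcz.sub continuous_const).intervalIntegrable _ _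
    · exact hcm.intervalIntegrable _ _
    · intro t _
      apply imsq_sub_le
      have : ζ - Complex.I * ((t ^ α : ℝ) : ℂ) - (μ - Complex.I * ((t ^ α : ℝ) : ℂ)) = 1 + Complex.I := by
        rw [← hμζ]; ring
      rw [this]
      exact norm_one_add_I_le
  have hI2 : KK α ζ - (x0 - y) * Real.sqrt (2 * r) ≤
      ∫ x in (0:ℝ)..y, imsq (ζ - Complex.I * ((x ^ α : ℝ) : ℂ)) := by
    have e1 : KK α ζ = (∫ x in (0:ℝ)..y, imsq (ζ - Complex.I * ((x ^ α : ℝ) : ℂ)))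
        + ∫ x in y..x0, imsq (ζ - Complex.I * ((x ^ α : ℝ) : ℂ)) := by
      unfold KK
      rw [intervalIntegral.integral_add_adjacent_intervals (hcz.intervalIntegrable _ _)
        (hcz.intervalIntegrable _ _)]
    have e2 : (∫ x in y..x0, imsq (ζ - Complex.I * ((x ^ α : ℝ) : ℂ)))
        ≤ ∫ x in y..x0, Real.sqrt (2 * r) := by
      apply intervalIntegral.integral_mono_on hyx0
      · exact hcz.intervalIntegrable _ _
      · exact intervalIntegrable_const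
      · intro t ht
        apply imsq_le
        have ht0 : 0 ≤ t := hy.trans ht.1
        have h1 : t ^ α ≤ b := by
          calc t ^ α ≤ x0 ^ α := Real.rpow_le_rpow ht0 ht.2 hα.le
            _ = b := by
              rw [hx0, ← Real.rpow_mul hb0.le, one_div_mul_cancel hα.ne', Real.rpow_one]
        calc ‖ζ - Complex.I * ((t ^ α : ℝ) : ℂ)‖ ≤ ‖ζ‖ + ‖Complex.I * ((t ^ α : ℝ) : ℂ)‖ := norm_sub_le _ _
          _ = r + t ^ α := by
            rw [norm_mul, Complex.norm_I, one_mul, Complex.norm_real, Real.norm_of_nonneg (by positivity)]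
          _ ≤ 2 * r := by linarith
    rw [intervalIntegral.integral_const, smul_eq_mul] at e2
    linarith
  set ρ := 1 / α + 1 / 2 with hρ
  have hrρ : r ^ ρ = r ^ (1 / α) * Real.sqrt r := by
    rw [hρ, Real.rpow_add r0, Real.sqrt_eq_rpow]
  have hI3 : (x0 - y) * Real.sqrt (2 * r) ≤ ε / 4 * r ^ ρ := by
    have h1 : x0 - y ≤ (1 - (1 - 2 * η) ^ (1 / α)) * x0 := by linarith
    have h2 : 0 ≤ 1 - (1 - 2 * η) ^ (1 / α) := by
      have : (1 - 2 * η) ^ (1 / α) ≤ 1 := Real.rpow_le_one (by linarith) (by linarith) (by positivity)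
      linarith
    have h3 : x0 - y ≤ (1 - (1 - 2 * η) ^ (1 / α)) * r ^ (1 / α) :=
      h1.trans (mul_le_mul_of_nonneg_left hx0r h2)
    calc (x0 - y) * Real.sqrt (2 * r)
        ≤ ((1 - (1 - 2 * η) ^ (1 / α)) * r ^ (1 / α)) * Real.sqrt (2 * r) :=
          mul_le_mul_of_nonneg_right h3 (Real.sqrt_nonneg _)
      _ = (Real.sqrt 2 * (1 - (1 - 2 * η) ^ (1 / α))) * (r ^ (1 / α) * Real.sqrt r) := by
          rw [Real.sqrt_mul (by norm_num)]; ring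
      _ ≤ ε / 4 * (r ^ (1 / α) * Real.sqrt r) := by
          apply mul_le_mul_of_nonneg_right hη2 (by positivity)
      _ = _ := by rw [hrρ]
  have hI4 : 2 * y ≤ ε / 4 * r ^ ρ := by
    have h1 : 8 / ε ≤ Real.sqrt r := by
      apply Real.le_sqrt_of_sq_le r5
    have h2 : 2 ≤ ε / 4 * Real.sqrt r := by
      rw [div_le_iff₀ hε] at h1
      linarith
    have h3 : 2 * y ≤ 2 * r ^ (1 / α) := by linarith
    have h4 : 0 ≤ r ^ (1 / α) := by positivity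
    rw [hrρ]
    nlinarith
  have hρ1 : 1 ≤ ρ := by
    have : 1 ≤ 1 / α := by rw [le_div_iff₀ hα]; linarith
    rw [hρ]; linarith
  have hrr : r ≤ r ^ ρ := by
    calc r = r ^ (1 : ℝ) := (Real.rpow_one r).symm
      _ ≤ r ^ ρ := Real.rpow_le_rpow_of_exponent_le (by linarith) hρ1
  have hI5 : C * ‖μ‖ ≤ Real.exp (ε / 2 * r ^ ρ) := by
    have h1 : C * ‖μ‖ ≤ 2 * C * r := by nlinarith
    have h2 := Real.quadratic_le_exp_of_nonneg (show 0 ≤ ε / 2 * r by positivity)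
    have h3 : Real.exp (ε / 2 * r) ≤ Real.exp (ε / 2 * r ^ ρ) := by
      apply Real.exp_le_exp.mpr
      exact mul_le_mul_of_nonneg_left hrr (by positivity)
    have h4 : 2 * C * r ≤ (ε / 2 * r) ^ 2 / 2 := by
      have h := mul_le_mul_of_nonneg_right r6 r0.le
      have e : (ε / 2 * r) ^ 2 / 2 = (r * ε ^ 2 * r) / 8 := by ring
      rw [e]; linarith
    have h5 : 0 ≤ ε / 2 * r := by positivity
    linarith
  have hfin : Real.exp (KK α ζ - ε / 2 * r ^ ρ) ≤ C * ‖μ‖ * ‖P.φ ζ y‖ := by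
    refine le_trans (Real.exp_le_exp.mpr ?_) hlow
    linarith
  have hexp : Real.exp (KK α ζ - ε * r ^ ρ) * Real.exp (ε / 2 * r ^ ρ)
      = Real.exp (KK α ζ - ε / 2 * r ^ ρ) := by
    rw [← Real.exp_add]; congr 1; ring
  have hCμ : 0 < C * ‖μ‖ := by positivity
  have h7 : Real.exp (KK α ζ - ε * r ^ ρ) * (C * ‖μ‖) ≤ C * ‖μ‖ * ‖P.φ ζ y‖ := by
    calc Real.exp (KK α ζ - ε * r ^ ρ) * (C * ‖μ‖)
        ≤ Real.exp (KK α ζ - ε * r ^ ρ) * Real.exp (ε / 2 * r ^ ρ) :=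
          mul_le_mul_of_nonneg_left hI5 (Real.exp_pos _).le
      _ ≤ _ := by rw [hexp]; exact hfin
  have h8 : (C * ‖μ‖) * Real.exp (KK α ζ - ε * r ^ ρ) ≤ (C * ‖μ‖) * ‖P.φ ζ y‖ := by linarith
  exact le_of_mul_le_mul_left h8 hCμ

/-- weighted Gronwall growth bound -/
lemma IsSol.growthW {V ψ ψ' : ℝ → ℂ} (h : IsSol V ψ ψ') {X x K s L : ℝ} (hx : X ≤ x) (hs : 0 < s)
    (hL : K + s ^ 2 ≤ L * s) (hK : ∀ t ∈ Icc X x, ‖V t‖ ≤ K) :
    ‖ψ' x‖ ^ 2 + s ^ 2 * ‖ψ x‖ ^ 2 ≤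
      (‖ψ' X‖ ^ 2 + s ^ 2 * ‖ψ X‖ ^ 2) * Real.exp (L * (x - X)) := by
  set n : ℝ → ℝ := fun t => ‖ψ' t‖ ^ 2 + s ^ 2 * ‖ψ t‖ ^ 2 with hn
  have hnd : ∀ t, HasDerivAt n (2 * (starRingEnd ℂ (ψ' t) * (V t * ψ t)).re
      + s ^ 2 * (2 * (starRingEnd ℂ (ψ t) * ψ' t).re)) t := fun t =>
    (hasDerivAt_normSq (h t).2).add ((hasDerivAt_normSq (h t).1).const_mul (s ^ 2))
  have hanti : AntitoneOn (fun t => n t * Real.exp (-L * (t - X))) (Icc X x) := by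
    have hd : ∀ t, HasDerivAt (fun t => n t * Real.exp (-L * (t - X)))
        ((2 * (starRingEnd ℂ (ψ' t) * (V t * ψ t)).re
          + s ^ 2 * (2 * (starRingEnd ℂ (ψ t) * ψ' t).re))
          * Real.exp (-L * (t - X))
          + n t * (Real.exp (-L * (t - X)) * (-L))) t := by
      intro t
      have e1 : HasDerivAt (fun t : ℝ => -L * (t - X)) (-L) t := by
        simpa using ((hasDerivAt_id t).sub_const X).const_mul (-L)
      exact (hnd t).mul e1.exp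
    apply antitoneOn_of_deriv_nonpos (convex_Icc X x)
    · exact (continuous_iff_continuousAt.2 fun t => (hd t).continuousAt).continuousOn
    · exact fun t _ => (hd t).differentiableAt.differentiableWithinAt
    · intro t ht
      rw [interior_Icc] at ht
      rw [(hd t).deriv]
      have hVt := hK t ⟨ht.1.le, ht.2.le⟩
      have h1 : (starRingEnd ℂ (ψ t) * ψ' t).re ≤ ‖ψ t‖ * ‖ψ' t‖ := re_le_mul
      have h2 : (starRingEnd ℂ (ψ' t) * (V t * ψ t)).re ≤ K * (‖ψ t‖ * ‖ψ' t‖) := by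
        calc (starRingEnd ℂ (ψ' t) * (V t * ψ t)).re ≤ ‖ψ' t‖ * ‖V t * ψ t‖ := re_le_mul
          _ = ‖V t‖ * (‖ψ t‖ * ‖ψ' t‖) := by rw [norm_mul]; ring
          _ ≤ K * (‖ψ t‖ * ‖ψ' t‖) := by
            apply mul_le_mul_of_nonneg_right hVt; positivity
      have hK0 : 0 ≤ K := (norm_nonneg _).trans hVt
      have hE := Real.exp_pos (-L * (t - X))
      have hL0 : 0 ≤ L := by
        by_contra hc
        push Not at hc
        nlinarith
      have hQ : 0 ≤ ‖ψ t‖ * ‖ψ' t‖ := by positivity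
      have h3 : 2 * s * (‖ψ t‖ * ‖ψ' t‖) ≤ n t := by
        simp only [hn]
        nlinarith [sq_nonneg (‖ψ' t‖ - s * ‖ψ t‖)]
      have h4 : (2 * (starRingEnd ℂ (ψ' t) * (V t * ψ t)).re
          + s ^ 2 * (2 * (starRingEnd ℂ (ψ t) * ψ' t).re)) ≤ L * n t := by
        calc (2 * (starRingEnd ℂ (ψ' t) * (V t * ψ t)).re
          + s ^ 2 * (2 * (starRingEnd ℂ (ψ t) * ψ' t).re))
            ≤ 2 * (K * (‖ψ t‖ * ‖ψ' t‖)) + s ^ 2 * (2 * (‖ψ t‖ * ‖ψ' t‖)) := by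
              have := mul_le_mul_of_nonneg_left h1 (sq_nonneg s)
              nlinarith
          _ = (K + s ^ 2) * (2 * (‖ψ t‖ * ‖ψ' t‖)) := by ring
          _ ≤ (L * s) * (2 * (‖ψ t‖ * ‖ψ' t‖)) := mul_le_mul_of_nonneg_right hL (by positivity)
          _ = L * (2 * s * (‖ψ t‖ * ‖ψ' t‖)) := by ring
          _ ≤ L * n t := mul_le_mul_of_nonneg_left h3 hL0
      nlinarith
  have := hanti (left_mem_Icc.2 hx) (right_mem_Icc.2 hx) hx
  simp only [sub_self, mul_zero, Real.exp_zero, mul_one] at this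
  have hE := Real.exp_pos (L * (x - X))
  calc n x = (n x * Real.exp (-L * (x - X))) * Real.exp (L * (x - X)) := by
        rw [mul_assoc, ← Real.exp_add]; ring_nf; simp
    _ ≤ _ := by apply mul_le_mul_of_nonneg_right this hE.le

set_option maxHeartbeats 1000000 in
/-- crude growth bound for all solutions on `[0, y]`, `y^α` comparable with `‖ζ‖` -/
theorem crude (α : ℝ) (hα : 0 < α) (hα1 : α < 1) :
    ∃ C : ℝ, 0 < C ∧ ∀ (ζ : ℂ) (φ φ' : ℝ → ℂ) (x : ℝ), 1 ≤ ‖ζ‖ → 0 ≤ x → x ^ α ≤ 4 * ‖ζ‖ + 4 →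
      IsSol (Vz α ζ) φ φ' → ‖φ 0‖ ≤ 1 → ‖φ' 0‖ ≤ 1 →
      ‖φ x‖ ≤ C * Real.exp (C * ‖ζ‖ ^ (1 / α + 1 / 2)) ∧ ‖φ' x‖ ≤ C * Real.exp (C * ‖ζ‖ ^ (1 / α + 1 / 2)) := by
  set D : ℝ := (8 : ℝ) ^ (1 / α) with hD
  have hD0 : 0 < D := by positivity
  refine ⟨12 * D + 2, by positivity, ?_⟩
  intro ζ φ φ' x hr hx hxa hsol h0 h0'
  set r := ‖ζ‖ with hrdef
  have r0 : 0 < r := by linarith
  have hs0 : 0 < Real.sqrt r := Real.sqrt_pos.mpr r0
  have hs2 : Real.sqrt r ^ 2 = r := Real.sq_sqrt r0.le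
  have hV : ∀ t ∈ Icc 0 x, ‖Vz α ζ t‖ ≤ 11 * r := by
    intro t ht
    unfold Vz pot
    have e1 : ‖Complex.I * ((|t| ^ α : ℝ) : ℂ)‖ ≤ 4 * r + 4 := by
      rw [norm_mul, Complex.norm_I, one_mul, Complex.norm_real, Real.norm_of_nonneg (by positivity),
        abs_of_nonneg ht.1]
      exact (Real.rpow_le_rpow ht.1 ht.2 hα.le).trans hxa
    have e2 : ‖ζ - 1 - Complex.I‖ ≤ r + 2 := by
      have : ζ - 1 - Complex.I = ζ - (1 + Complex.I) := by ring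
      rw [this]
      exact (norm_sub_le _ _).trans (by linarith [norm_one_add_I_le])
    calc _ ≤ ‖Complex.I * ((|t| ^ α : ℝ) : ℂ)‖ + ‖ζ - 1 - Complex.I‖ := norm_sub_le _ _
      _ ≤ _ := by linarith
  have hg := IsSol.growthW hsol hx hs0 (L := 12 * Real.sqrt r) (by rw [hs2]; nlinarith) hV
  rw [hs2, sub_zero] at hg
  set ρ := 1 / α + 1 / 2 with hρ
  have hrρ : r ^ ρ = r ^ (1 / α) * Real.sqrt r := by
    rw [hρ, Real.rpow_add r0, Real.sqrt_eq_rpow]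
  have hxD : x ≤ D * r ^ (1 / α) := by
    calc x = (x ^ α) ^ (1 / α) := by
          rw [← Real.rpow_mul hx, mul_one_div_cancel hα.ne', Real.rpow_one]
      _ ≤ (8 * r) ^ (1 / α) := Real.rpow_le_rpow (by positivity) (by linarith) (by positivity)
      _ = D * r ^ (1 / α) := by rw [Real.mul_rpow (by norm_num) r0.le]
  have hexp : 12 * Real.sqrt r * x ≤ 12 * D * r ^ ρ := by
    rw [hrρ]
    have := mul_le_mul_of_nonneg_left hxD (show 0 ≤ 12 * Real.sqrt r by positivity)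
    linarith
  have hn0 : ‖φ' 0‖ ^ 2 + r * ‖φ 0‖ ^ 2 ≤ 2 * r := by
    have e1 : ‖φ' 0‖ ^ 2 ≤ 1 := pow_le_one₀ (norm_nonneg _) h0'
    have e2 : ‖φ 0‖ ^ 2 ≤ 1 := pow_le_one₀ (norm_nonneg _) h0
    nlinarith
  have hn : ‖φ' x‖ ^ 2 + r * ‖φ x‖ ^ 2 ≤ 2 * r * Real.exp (12 * D * r ^ ρ) := by
    refine hg.trans ?_
    apply mul_le_mul hn0 (Real.exp_le_exp.mpr hexp) (Real.exp_pos _).le (by positivity)
  have hρ1 : 1 ≤ ρ := by
    have : 1 ≤ 1 / α := by rw [le_div_iff₀ hα]; linarith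
    rw [hρ]; linarith
  have hrr : r ≤ r ^ ρ := by
    calc r = r ^ (1 : ℝ) := (Real.rpow_one r).symm
      _ ≤ r ^ ρ := Real.rpow_le_rpow_of_exponent_le (by linarith) hρ1
  have hre : r ≤ Real.exp (r ^ ρ) := by
    have := Real.add_one_le_exp (r ^ ρ)
    linarith
  have hfinal : 2 * r * Real.exp (12 * D * r ^ ρ) ≤
      ((12 * D + 2) * Real.exp ((12 * D + 2) * r ^ ρ)) ^ 2 := by
    have e1 : ((12 * D + 2) * Real.exp ((12 * D + 2) * r ^ ρ)) ^ 2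
        = (12 * D + 2) ^ 2 * (Real.exp ((12 * D + 2) * r ^ ρ) * Real.exp ((12 * D + 2) * r ^ ρ)) := by
      ring
    have e2 : Real.exp (r ^ ρ) ≤ Real.exp ((12 * D + 2) * r ^ ρ) := by
      apply Real.exp_le_exp.mpr
      have : 0 ≤ r ^ ρ := by positivity
      nlinarith
    have e3 : Real.exp (12 * D * r ^ ρ) ≤ Real.exp ((12 * D + 2) * r ^ ρ) := by
      apply Real.exp_le_exp.mpr
      have : 0 ≤ r ^ ρ := by positivity
      nlinarith
    rw [e1]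
    have e4 : r * Real.exp (12 * D * r ^ ρ) ≤
        Real.exp ((12 * D + 2) * r ^ ρ) * Real.exp ((12 * D + 2) * r ^ ρ) :=
      mul_le_mul (hre.trans e2) e3 (Real.exp_pos _).le (Real.exp_pos _).le
    have e5 : 2 ≤ (12 * D + 2) ^ 2 := by nlinarith
    have e6 : 0 ≤ Real.exp ((12 * D + 2) * r ^ ρ) * Real.exp ((12 * D + 2) * r ^ ρ) := by positivity
    nlinarith
  have hB : 0 ≤ (12 * D + 2) * Real.exp ((12 * D + 2) * r ^ ρ) := by positivity
  constructor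
  · apply le_of_sq_le_sq' _ hB
    have : ‖φ x‖ ^ 2 ≤ 2 * r * Real.exp (12 * D * r ^ ρ) := by
      have a1 := sq_nonneg ‖φ' x‖
      have a2 := mul_le_mul_of_nonneg_right hr (sq_nonneg ‖φ x‖)
      linarith
    exact this.trans hfinal
  · apply le_of_sq_le_sq' _ hB
    have : ‖φ' x‖ ^ 2 ≤ 2 * r * Real.exp (12 * D * r ^ ρ) := by
      have a2 := mul_nonneg r0.le (sq_nonneg ‖φ x‖)
      linarith
    exact this.trans hfinal
where
  le_of_sq_le_sq' {x y : ℝ} (h : x ^ 2 ≤ y ^ 2) (hy : 0 ≤ y) : x ≤ y := by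
    exact le_of_abs_le (by rw [← abs_of_nonneg hy]; exact sq_le_sq.1 h)

end Pool.Agent.Helper209.AC.LowerP2
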