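import Pool.Agent.Helper209.AC.Frame

set_option autoImplicit false

namespace Pool.Agent.Helper209.AC.MBound

open MeasureTheory Set


/-- holomorphic families of Weyl solutions for the potentials `c|x|^α - m` -/
def WeylPotStmt (α : ℝ) : Prop := ∀ R : ℝ, 1 ≤ R → ∃ X : ℝ, 0 < X ∧
    ∀ (U : Set ℂ), IsOpen U → ∀ (c m : ℂ → ℂ), DifferentiableOn ℂ c U → DifferentiableOn ℂ m U →
      (∀ z ∈ U, 1 / 2 ≤ (Complex.exp (-((Real.pi / 4 : ℝ) : ℂ) * Complex.I) * c z).re ∧ ‖c z‖ ≤ 2 ∧ ‖m z‖ ≤ R) →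
      ∃ (Ψ Ψ' : ℂ → ℝ → ℂ) (C : ℝ), 0 < C ∧
        (∀ z ∈ U, IsSol (pot α (c z) (m z)) (Ψ z) (Ψ' z) ∧ Ψ z X = 1 ∧
          IntegrableOn (en (Ψ z) (Ψ' z)) (Ioi 0) ∧
          ∀ x, 0 ≤ x → ‖Ψ z x‖ ≤ C * Real.exp (-(1 / 2) * x)) ∧
        (∀ x, DifferentiableOn ℂ (fun z => Ψ z x) U) ∧ (∀ x, DifferentiableOn ℂ (fun z => Ψ' z x) U)

/-- bound for the Weyl coefficient away from the eigenvalue ray -/
def MStmt (α : ℝ) : Prop := ∃ (C : ℝ) (N : ℕ), 0 < C ∧ ∀ (μ : ℂ) (ψ ψ' : ℝ → ℂ),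
    IsSol (pot α Complex.I μ) ψ ψ' → IntegrableOn (en ψ ψ') (Ioi 0) →
      dray α μ * ‖ψ 0‖ ≤ C * (1 + ‖μ‖) ^ N * ‖ψ' 0‖ ∧ dray α μ * ‖ψ' 0‖ ≤ C * (1 + ‖μ‖) ^ N * ‖ψ 0‖

lemma pot_norm_le_one (α : ℝ) (hα : 0 < α) (E : ℂ) {x : ℝ} (hx : x ∈ Icc (0:ℝ) (0 + 1)) :
    ‖pot α 1 E x‖ ≤ 1 + ‖E‖ := by
  unfold pot
  rw [one_mul]
  refine (norm_sub_le _ _).trans ?_
  gcongr
  rw [Complex.norm_real, Real.norm_of_nonneg (by positivity), abs_of_nonneg hx.1]
  exact Real.rpow_le_one hx.1 (by linarith [hx.2]) hα.le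

/-- the self-adjoint side -/
lemma sa_bound (α : ℝ) (hα : 0 < α) (E : ℂ) (hE : E.im ≠ 0) {ψ ψ' : ℝ → ℂ}
    (h : IsSol (pot α 1 E) ψ ψ') (hint : IntegrableOn (en ψ ψ') (Ioi 0)) :
    min 1 |E.im| * ‖ψ 0‖ ≤ 64 * (1 + ‖E‖) ^ 3 * ‖ψ' 0‖ ∧
    min 1 |E.im| * ‖ψ' 0‖ ≤ 64 * (1 + ‖E‖) ^ 3 * ‖ψ 0‖ := by
  set m := min 1 |E.im| with hm
  have hm0 : 0 < m := lt_min one_pos (abs_pos.mpr hE)
  have hm1 : m ≤ 1 := min_le_left _ _
  have hmE : m ≤ |E.im| := min_le_right _ _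
  have hEn := norm_nonneg E
  have hN : 0 < 1 + ‖E‖ := by positivity
  set δ := m / (4 * (1 + ‖E‖)) with hδ
  have hδm : δ * (4 * (1 + ‖E‖)) = m := by rw [hδ]; field_simp
  have hδ0 : 0 < δ := by positivity
  have hδ1 : δ ≤ 1 / 4 := by nlinarith
  obtain ⟨b, hb1, hb2⟩ : ∃ b : ℝ, b ^ 2 = 1 / 4 ∧ b * E.im = |E.im| / 2 := by
    rcases lt_or_gt_of_ne hE with h | h
    · exact ⟨-1 / 2, by norm_num, by rw [abs_of_neg h]; ring⟩
    · exact ⟨1 / 2, by norm_num, by rw [abs_of_pos h]; ring⟩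
  have hc : Coer (pot α 1 E) ⟨δ, b⟩ δ (Ici 0) := by
    refine ⟨hδ0, le_rfl, ?_, ?_⟩
    · have h1 : ‖(⟨δ, b⟩ : ℂ)‖ ^ 2 ≤ 1 := by
        rw [Complex.sq_norm, Complex.normSq_apply]
        simp only
        nlinarith
      exact (sq_le_one_iff₀ (norm_nonneg _)).mp h1
    · intro x _
      have hre : ((⟨δ, b⟩ : ℂ) * pot α 1 E x).re = δ * (|x| ^ α - E.re) + b * E.im := by
        unfold pot
        rw [Complex.mul_re]
        simp only [one_mul, Complex.sub_re, Complex.sub_im, Complex.ofReal_re, Complex.ofReal_im]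
        ring
      rw [hre, hb2]
      have h1 : E.re ≤ ‖E‖ := Complex.re_le_norm E
      have h2 : (0:ℝ) ≤ |x| ^ α := by positivity
      have h3 : δ * (|x| ^ α - E.re) ≥ -(δ * ‖E‖) := by nlinarith
      nlinarith
  have hK : ∀ x ∈ Icc (0:ℝ) (0 + 1), ‖pot α 1 E x‖ ≤ 1 + ‖E‖ :=
    fun x hx => pot_norm_le_one α hα E hx
  obtain ⟨-, h2, h3⟩ := right_bounds_inf (pot_cont hα 1 E) h hc hN.le hK hint
  have hψ := norm_nonneg (ψ 0)
  have hψ' := norm_nonneg (ψ' 0)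
  constructor
  · have h4 := (neg_le_abs _).trans (abs_JJ_le hc.le ψ ψ' 0)
    have h5 : δ / 2 * ‖ψ 0‖ ^ 2 ≤ ‖ψ 0‖ * ‖ψ' 0‖ := by linarith
    have h6 : δ * ‖ψ 0‖ ≤ 2 * ‖ψ' 0‖ := by
      rcases hψ.eq_or_lt with h0 | h0
      · rw [← h0]; simp
      · have : ‖ψ 0‖ * (δ * ‖ψ 0‖) ≤ ‖ψ 0‖ * (2 * ‖ψ' 0‖) := by nlinarith
        exact le_of_mul_le_mul_left this h0
    have h7 : m * ‖ψ 0‖ ≤ 8 * (1 + ‖E‖) * ‖ψ' 0‖ := by
      rw [← hδm]
      have := mul_le_mul_of_nonneg_left h6 (by positivity : 0 ≤ 4 * (1 + ‖E‖))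
      nlinarith
    refine h7.trans ?_
    apply mul_le_mul_of_nonneg_right _ hψ'
    nlinarith [sq_nonneg ‖E‖, mul_nonneg hEn (sq_nonneg ‖E‖)]
  · have hCK : CK (1 + ‖E‖) ^ 2 ≤ 16 * (1 + ‖E‖) ^ 2 := by
      unfold CK
      nlinarith [sq_nonneg ‖E‖]
    have h4 : δ * ‖ψ' 0‖ ≤ CK (1 + ‖E‖) ^ 2 * ‖ψ 0‖ := by
      have := mul_le_mul_of_nonneg_left h3 hδ0.le
      refine this.trans (le_of_eq ?_)
      field_simp
    have h5 : δ * ‖ψ' 0‖ ≤ 16 * (1 + ‖E‖) ^ 2 * ‖ψ 0‖ :=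
      h4.trans (mul_le_mul_of_nonneg_right hCK hψ)
    rw [← hδm]
    have := mul_le_mul_of_nonneg_left h5 (by positivity : 0 ≤ 4 * (1 + ‖E‖))
    calc δ * (4 * (1 + ‖E‖)) * ‖ψ' 0‖ = 4 * (1 + ‖E‖) * (δ * ‖ψ' 0‖) := by ring
      _ ≤ 4 * (1 + ‖E‖) * (16 * (1 + ‖E‖) ^ 2 * ‖ψ 0‖) := this
      _ = _ := by ring

/-- scaling a solution by a real factor -/
lemma IsSol.scale {α : ℝ} {E : ℂ} {ψ ψ' : ℝ → ℂ} (h : IsSol (pot α 1 E) ψ ψ') (s : ℝ) :
    IsSol (pot α (Complex.exp ((2 + α : ℝ) * s)) (Complex.exp (2 * s) * E))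
      (fun x => ψ (Real.exp s * x)) (fun x => Complex.exp s * ψ' (Real.exp s * x)) := by
  intro x
  have hl : HasDerivAt (fun x : ℝ => Real.exp s * x) (Real.exp s) x := by
    simpa using (hasDerivAt_id x).const_mul (Real.exp s)
  have h1 := (h (Real.exp s * x)).1.scomp x hl
  have h2 := ((h (Real.exp s * x)).2.scomp x hl).const_mul (Complex.exp s)
  refine ⟨h1.congr_deriv ?_, h2.congr_deriv ?_⟩
  · rw [Complex.real_smul, Complex.ofReal_exp]
  · rw [Complex.real_smul, Complex.ofReal_exp]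
    unfold pot
    have e1 : |Real.exp s * x| ^ α = Real.exp (α * s) * |x| ^ α := by
      rw [abs_mul, abs_of_pos (Real.exp_pos s), Real.mul_rpow (Real.exp_pos s).le (abs_nonneg x),
        ← Real.exp_mul, mul_comm s α]
    rw [e1]
    have e2 : Complex.exp ((2 + α : ℝ) * s) = Complex.exp s * Complex.exp s *
        ((Real.exp (α * s) : ℝ) : ℂ) := by
      rw [Complex.ofReal_exp, ← Complex.exp_add, ← Complex.exp_add]
      congr 1
      push_cast
      ring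
    have e3 : Complex.exp (2 * s) = Complex.exp s * Complex.exp s := by
      rw [← Complex.exp_add]; congr 1; ring
    rw [e2, e3]
    push_cast
    ring

lemma scale_int {ψ ψ' : ℝ → ℂ} (s : ℝ) (hψ : Continuous ψ) (hψ' : Continuous ψ')
    (hint : IntegrableOn (en ψ ψ') (Ioi 0)) :
    IntegrableOn (en (fun x => ψ (Real.exp s * x))
      (fun x => Complex.exp s * ψ' (Real.exp s * x))) (Ioi 0) := by
  have h1 : IntegrableOn (fun x => en ψ ψ' (Real.exp s * x)) (Ioi 0) := by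
    rw [integrableOn_Ioi_comp_mul_left_iff (en ψ ψ') 0 (Real.exp_pos s), mul_zero]
    exact hint
  refine Integrable.mono' (h1.const_mul (1 + Real.exp s ^ 2)) ?_ ?_
  · apply Continuous.aestronglyMeasurable
    unfold en
    fun_prop
  · refine Filter.Eventually.of_forall fun x => ?_
    rw [Real.norm_of_nonneg (en_nonneg _ _ _)]
    unfold en
    rw [norm_mul, Complex.norm_exp, Complex.ofReal_re, mul_pow]
    nlinarith [sq_nonneg ‖ψ (Real.exp s * x)‖, sq_nonneg ‖ψ' (Real.exp s * x)‖,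
      mul_nonneg (sq_nonneg (Real.exp s)) (sq_nonneg ‖ψ (Real.exp s * x)‖)]

/-- the algebra of proportionality -/
lemma prop_bound {p q a b A B e : ℂ} {m C : ℝ} (hm : 0 < m) (he : ‖e‖ = 1)
    (hAB : ¬ (A = 0 ∧ B = 0)) (hab : ¬ (a = 0 ∧ b = 0))
    (h1 : p * B - q * A = 0) (h2 : A * (e * b) - B * a = 0)
    (b1 : m * ‖a‖ ≤ C * ‖b‖) (b2 : m * ‖b‖ ≤ C * ‖a‖) :
    m * ‖p‖ ≤ C * ‖q‖ ∧ m * ‖q‖ ≤ C * ‖p‖ := by
  have ha : a ≠ 0 := by
    intro h0
    apply hab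
    refine ⟨h0, ?_⟩
    rw [h0, norm_zero, mul_zero] at b2
    have : ‖b‖ ≤ 0 := by
      by_contra hcon
      push Not at hcon
      nlinarith
    exact norm_le_zero_iff.mp this
  have hb : b ≠ 0 := by
    intro h0
    apply hab
    refine ⟨?_, h0⟩
    rw [h0, norm_zero, mul_zero] at b1
    have : ‖a‖ ≤ 0 := by
      by_contra hcon
      push Not at hcon
      nlinarith
    exact norm_le_zero_iff.mp this
  have key : p * (e * b) = q * a := by
    by_cases hA : A = 0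
    · have hB : B ≠ 0 := fun hB => hAB ⟨hA, hB⟩
      apply mul_left_cancel₀ hB
      linear_combination (e * b) * h1 + q * h2
    · apply mul_left_cancel₀ hA
      linear_combination a * h1 + p * h2
  have hn : ‖p‖ * ‖b‖ = ‖q‖ * ‖a‖ := by
    have := congrArg norm key
    rw [norm_mul, norm_mul, norm_mul, he, one_mul] at this
    exact this
  have ha' : 0 < ‖a‖ := norm_pos_iff.mpr ha
  have hb' : 0 < ‖b‖ := norm_pos_iff.mpr hb
  have hp' := norm_nonneg p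
  have hq' := norm_nonneg q
  constructor
  · have : ‖b‖ * (m * ‖p‖) ≤ ‖b‖ * (C * ‖q‖) := by
      calc ‖b‖ * (m * ‖p‖) = m * (‖p‖ * ‖b‖) := by ring
        _ = (m * ‖a‖) * ‖q‖ := by rw [hn]; ring
        _ ≤ (C * ‖b‖) * ‖q‖ := mul_le_mul_of_nonneg_right b1 hq'
        _ = _ := by ring
    exact le_of_mul_le_mul_left this hb'
  · have : ‖a‖ * (m * ‖q‖) ≤ ‖a‖ * (C * ‖p‖) := by
      calc ‖a‖ * (m * ‖q‖) = m * (‖q‖ * ‖a‖) := by ring
        _ = (m * ‖b‖) * ‖p‖ := by rw [← hn]; ring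
        _ ≤ (C * ‖a‖) * ‖p‖ := mul_le_mul_of_nonneg_right b2 hp'
        _ = _ := by ring
    exact le_of_mul_le_mul_left this ha'

/-- the scaling family satisfies the hypotheses of `WeylPotStmt` -/
lemma family_bounds (α : ℝ) (hα : 0 < α) (hα1 : α < 1) (E : ℂ) (z : ℂ)
    (h1 : -(1 / 30) < z.re) (h2 : z.re < 1 / 30) (h3 : -(1 / 30) < z.im)
    (h4 : z.im < Real.pi / (2 + α) / 2 + 1 / 30) :
    1 / 2 ≤ (Complex.exp (-((Real.pi / 4 : ℝ) : ℂ) * Complex.I) *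
      Complex.exp ((2 + α : ℝ) * z)).re ∧ ‖Complex.exp ((2 + α : ℝ) * z)‖ ≤ 2 ∧
      ‖Complex.exp (2 * z) * E‖ ≤ 2 * ‖E‖ + 1 := by
  have hpi1 := Real.pi_gt_three
  have hpi2 := Real.pi_lt_d4
  have h2α : 0 < 2 + α := by linarith
  have hth : (2 + α) * (Real.pi / (2 + α) / 2) = Real.pi / 2 := by field_simp
  have e1 : ((2 + α : ℝ) * z : ℂ).re = (2 + α) * z.re := by
    rw [Complex.re_ofReal_mul]
  have e2 : ((2 + α : ℝ) * z : ℂ).im = (2 + α) * z.im := by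
    rw [Complex.im_ofReal_mul]
  refine ⟨?_, ?_, ?_⟩
  · rw [← Complex.exp_add, Complex.exp_re]
    have r1 : (-((Real.pi / 4 : ℝ) : ℂ) * Complex.I + (2 + α : ℝ) * z).re = (2 + α) * z.re := by
      rw [Complex.add_re, e1]; simp
    have r2 : (-((Real.pi / 4 : ℝ) : ℂ) * Complex.I + (2 + α : ℝ) * z).im =
        (2 + α) * z.im - Real.pi / 4 := by
      rw [Complex.add_im, e2]; simp; ring
    rw [r1, r2]
    have hexp : (9 / 10 : ℝ) ≤ Real.exp ((2 + α) * z.re) := by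
      have := Real.add_one_le_exp ((2 + α) * z.re)
      nlinarith
    have hcos : (3 / 5 : ℝ) ≤ Real.cos ((2 + α) * z.im - Real.pi / 4) := by
      have := Real.one_sub_sq_div_two_le_cos (x := (2 + α) * z.im - Real.pi / 4)
      have k1 : (2 + α) * z.im - Real.pi / 4 ≤ 887 / 1000 := by
        have : (2 + α) * z.im ≤ (2 + α) * (Real.pi / (2 + α) / 2 + 1 / 30) :=
          mul_le_mul_of_nonneg_left h4.le h2α.le
        rw [mul_add, hth] at this
        linarith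
      have k2 : -(887 / 1000) ≤ (2 + α) * z.im - Real.pi / 4 := by
        have : (2 + α) * (-(1 / 30)) ≤ (2 + α) * z.im := mul_le_mul_of_nonneg_left h3.le h2α.le
        linarith
      have k3 : ((2 + α) * z.im - Real.pi / 4) ^ 2 ≤ (887 / 1000) ^ 2 := by
        apply sq_le_sq' <;> linarith
      norm_num at k3
      linarith
    nlinarith
  · rw [Complex.norm_exp, e1]
    have : (2 + α) * z.re ≤ 1 / 10 := by nlinarith
    have h5 : Real.exp ((2 + α) * z.re) ≤ Real.exp (1 / 10) := Real.exp_le_exp.mpr this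
    have h6 : Real.exp (1 / 10) ≤ 2 := by
      have h7 := Real.add_one_le_exp (-(1 / 10) : ℝ)
      have h8 : Real.exp (1 / 10) * Real.exp (-(1 / 10)) = 1 := by
        rw [← Real.exp_add]; simp
      nlinarith [Real.exp_pos (1 / 10 : ℝ)]
    linarith
  · rw [norm_mul, Complex.norm_exp]
    have r1 : (2 * z).re = 2 * z.re := by simp
    rw [r1]
    have : 2 * z.re ≤ 1 / 10 := by linarith
    have h5 : Real.exp (2 * z.re) ≤ Real.exp (1 / 10) := Real.exp_le_exp.mpr this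
    have h6 : Real.exp (1 / 10) ≤ 2 := by
      have h7 := Real.add_one_le_exp (-(1 / 10) : ℝ)
      have h8 : Real.exp (1 / 10) * Real.exp (-(1 / 10)) = 1 := by
        rw [← Real.exp_add]; simp
      nlinarith [Real.exp_pos (1 / 10 : ℝ)]
    nlinarith [norm_nonneg E]

theorem mbound (α : ℝ) (hα : 0 < α) (hα1 : α < 1) (hW : WeylPotStmt α) : MStmt α := by
  refine ⟨64, 3, by norm_num, ?_⟩
  intro μ ψ ψ' hsol hint
  set th : ℝ := Real.pi / (2 + α) with hth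
  set E : ℂ := μ * Complex.exp (-((th : ℝ) : ℂ) * Complex.I) with hE
  have hdray : dray α μ = min 1 |E.im| := rfl
  have hnexp : ‖Complex.exp (-((th : ℝ) : ℂ) * Complex.I)‖ = 1 := by
    rw [Complex.norm_exp]; simp
  have hnE : ‖E‖ = ‖μ‖ := by rw [hE, norm_mul, hnexp, mul_one]
  rw [hdray]
  by_cases hEim : E.im = 0
  · rw [hEim, abs_zero, min_eq_right zero_le_one, zero_mul, zero_mul]
    constructor <;> positivity
  have h2α : 0 < 2 + α := by linarith
  have hthpos : 0 < th := div_pos Real.pi_pos h2α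
  -- the domain
  set U : Set ℂ := Ioo (-(1 / 30) : ℝ) (1 / 30) ×ℂ Ioo (-(1 / 30) : ℝ) (th / 2 + 1 / 30) with hU
  have hUo : IsOpen U := isOpen_Ioo.reProdIm isOpen_Ioo
  have hUc : Convex ℝ U := ((convex_Ioo _ _).linear_preimage Complex.reLm).inter
    ((convex_Ioo _ _).linear_preimage Complex.imLm)
  have hUp : IsPreconnected U := hUc.isPreconnected
  obtain ⟨X, hX0, hX⟩ := hW (2 * ‖E‖ + 1) (by linarith [norm_nonneg E])
  obtain ⟨Ψ, Ψ', C, hC, hΨ, hdΨ, hdΨ'⟩ := hX U hUo (fun z => Complex.exp ((2 + α : ℝ) * z))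
    (fun z => Complex.exp (2 * z) * E)
    (by apply Differentiable.differentiableOn; fun_prop)
    (by apply Differentiable.differentiableOn; fun_prop)
    (fun z hz => by
      rw [hU, Complex.mem_reProdIm] at hz
      exact family_bounds α hα hα1 E z hz.1.1 hz.1.2 hz.2.1 hz.2.2)
  have h0U : (0 : ℂ) ∈ U := by
    rw [hU, Complex.mem_reProdIm]
    constructor
    · simp
    · simp only [Complex.zero_im, mem_Ioo]; constructor <;> linarith
  have hs0U : ((th / 2 : ℝ) : ℂ) * Complex.I ∈ U := by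
    rw [hU, Complex.mem_reProdIm]
    constructor
    · simp
    · simp only [Complex.mul_im, Complex.ofReal_re, Complex.I_im, mul_one, Complex.ofReal_im,
        Complex.I_re, mul_zero, add_zero, mem_Ioo]
      constructor <;> linarith
  obtain ⟨hsol0, hX1, hint0, -⟩ := hΨ 0 h0U
  simp only [mul_zero, Complex.exp_zero, one_mul] at hsol0
  -- holomorphic relation
  let G : ℂ → ℂ := fun z => Ψ z 0 * (Complex.exp z * Ψ' 0 0) - Ψ' z 0 * Ψ 0 0
  have hGd : DifferentiableOn ℂ G U := by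
    apply DifferentiableOn.sub
    · exact (hdΨ 0).mul (Differentiable.differentiableOn (by fun_prop))
    · exact (hdΨ' 0).mul_const _
  have hGa : AnalyticOnNhd ℂ G U := hGd.analyticOnNhd hUo
  have hGreal : ∀ s : ℝ, (s : ℂ) ∈ U → G s = 0 := by
    intro s hs
    obtain ⟨hsols, -, hints, -⟩ := hΨ s hs
    have hsc := IsSol.scale hsol0 s
    have hsi := scale_int s hsol0.cont hsol0.cont' hint0
    have := wronsk_zero hsols hsc hints hsi 0
    simp only [mul_zero] at this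
    exact this
  have hGfreq : ∃ᶠ z in nhdsWithin (0 : ℂ) {0}ᶜ, G z = 0 := by
    have ht : Filter.Tendsto (fun s : ℝ => (s : ℂ)) (nhdsWithin (0 : ℝ) {0}ᶜ)
        (nhdsWithin (0 : ℂ) {0}ᶜ) := by
      apply tendsto_nhdsWithin_of_tendsto_nhds_of_eventually_within
      · have := Complex.continuous_ofReal.tendsto 0
        simp only [Complex.ofReal_zero] at this
        exact this.mono_left nhdsWithin_le_nhds
      · filter_upwards [self_mem_nhdsWithin] with s hs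
        simp only [mem_compl_iff, mem_singleton_iff] at hs ⊢
        exact_mod_cast hs
    apply ht.frequently
    apply Filter.Eventually.frequently
    have h1 : ∀ᶠ z in nhdsWithin (0 : ℂ) {0}ᶜ, z ∈ U :=
      nhdsWithin_le_nhds (hUo.mem_nhds h0U)
    filter_upwards [ht.eventually h1] with s hs using hGreal s hs
  have hG0 := hGa.eqOn_zero_of_preconnected_of_frequently_eq_zero hUp h0U hGfreq
  -- evaluate at `s0`
  set s0 : ℂ := ((th / 2 : ℝ) : ℂ) * Complex.I with hs0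
  have hGs0 : G s0 = 0 := hG0 hs0U
  obtain ⟨hsols, hXs, hints, -⟩ := hΨ s0 hs0U
  have hc0 : Complex.exp ((2 + α : ℝ) * s0) = Complex.I := by
    have : ((2 + α : ℝ) : ℂ) * s0 = ((Real.pi / 2 : ℝ) : ℂ) * Complex.I := by
      rw [hs0, ← mul_assoc, ← Complex.ofReal_mul]
      congr 2
      rw [hth]; field_simp
    rw [this]
    push_cast
    exact Complex.exp_pi_div_two_mul_I
  have hm0 : Complex.exp (2 * s0) * E = μ := by
    have : Complex.exp (2 * s0) * Complex.exp (-((th : ℝ) : ℂ) * Complex.I) = 1 := by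
      rw [← Complex.exp_add]
      have : 2 * s0 + -((th : ℝ) : ℂ) * Complex.I = 0 := by
        rw [hs0]; push_cast; ring
      rw [this, Complex.exp_zero]
    rw [hE]
    linear_combination μ * this
  simp only [hc0, hm0] at hsols
  have hw := wronsk_zero hsol hsols hint hints 0
  obtain ⟨b1, b2⟩ := sa_bound α hα E hEim hsol0 hint0
  have hne : ∀ {V f f' : ℝ → ℂ}, Continuous V → IsSol V f f' → f X = 1 →
      ¬ (f 0 = 0 ∧ f' 0 = 0) := by
    rintro V f f' hV hf hfX ⟨e1, e2⟩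
    have := hf.zero_of_en hV (X := 0) (by simp [en, e1, e2]) X
    simp only [en, hfX, norm_one] at this
    nlinarith [sq_nonneg ‖f' X‖]
  have he : ‖Complex.exp s0‖ = 1 := by
    rw [Complex.norm_exp, hs0]; simp
  rw [← hnE]
  exact prop_bound (lt_min one_pos (abs_pos.mpr hEim)) he
    (hne (pot_cont hα _ _) hsols hXs) (hne (pot_cont hα _ _) hsol0 hX1) hw hGs0 b1 b2

end Pool.Agent.Helper209.AC.MBound
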