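import Mathlib

set_option autoImplicit false

namespace Pool.Agent.Helper209.AC.ParamODE

open MeasureTheory Set

/-- `ψ' ' = V ψ` on the whole line (`ψ'` is the derivative of `ψ`). -/
def IsSol (V ψ ψ' : ℝ → ℂ) : Prop :=
  ∀ x, HasDerivAt ψ (ψ' x) x ∧ HasDerivAt ψ' (V x * ψ x) x

namespace LinOde

/-- bounded continuous functions -/
abbrev EB : Type := BoundedContinuousFunction ℝ ℂ

/-- clamp to `[X - L, X + L]` -/
def cl (X L y : ℝ) : ℝ := max (X - L) (min (X + L) y)

theorem cl_cont (X L : ℝ) : Continuous (cl X L) := by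
  unfold cl
  fun_prop

theorem cl_abs {X L : ℝ} (hL : 0 ≤ L) (y : ℝ) : |cl X L y - X| ≤ L := by
  unfold cl
  rw [abs_le]
  constructor
  · have := le_max_left (X - L) (min (X + L) y)
    linarith
  · have : max (X - L) (min (X + L) y) ≤ X + L := max_le (by linarith) (min_le_left _ _)
    linarith

theorem cl_eq {X L y : ℝ} (h : |y - X| ≤ L) : cl X L y = y := by
  rw [abs_le] at h
  unfold cl
  rw [min_eq_right (by linarith), max_eq_right (by linarith)]

/-- the integration operator, underlying function -/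
noncomputable def Jfun (X L : ℝ) (hL : 0 ≤ L) (f : EB) : EB :=
  BoundedContinuousFunction.ofNormedAddCommGroup
    (fun y => ∫ t in X..cl X L y, f t)
    ((intervalIntegral.continuous_primitive
      (fun a b => f.continuous.intervalIntegrable a b) X).comp (cl_cont X L))
    (L * ‖f‖)
    (fun y => by
      have h := intervalIntegral.norm_integral_le_of_norm_le_const
        (a := X) (b := cl X L y) (f := fun t => f t) (C := ‖f‖)
        (fun t _ => f.norm_coe_le_norm t)
      rw [mul_comm] at h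
      exact h.trans (mul_le_mul_of_nonneg_right (cl_abs hL y) (norm_nonneg _)))

theorem Jfun_apply (X L : ℝ) (hL : 0 ≤ L) (f : EB) (y : ℝ) :
    Jfun X L hL f y = ∫ t in X..cl X L y, f t := rfl

theorem Jfun_norm (X L : ℝ) (hL : 0 ≤ L) (f : EB) : ‖Jfun X L hL f‖ ≤ L * ‖f‖ :=
  BoundedContinuousFunction.norm_ofNormedAddCommGroup_le _ (mul_nonneg hL (norm_nonneg _)) _

/-- the integration operator -/
noncomputable def Jop (X L : ℝ) (hL : 0 ≤ L) : EB →L[ℂ] EB :=
  LinearMap.mkContinuous
    { toFun := Jfun X L hL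
      map_add' := by
        intro f g
        ext y
        exact intervalIntegral.integral_add (f.continuous.intervalIntegrable _ _)
          (g.continuous.intervalIntegrable _ _)
      map_smul' := by
        intro c f
        ext y
        exact intervalIntegral.integral_smul c (fun t => f t) }
    L (Jfun_norm X L hL)

theorem Jop_apply (X L : ℝ) (hL : 0 ≤ L) (f : EB) (y : ℝ) :
    Jop X L hL f y = ∫ t in X..cl X L y, f t := rfl

/-- the weight -/
noncomputable def wt (X L : ℝ) (hL : 0 ≤ L) (k : ℝ) : EB :=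
  BoundedContinuousFunction.ofNormedAddCommGroup
    (fun y => ((Real.exp (k * |cl X L y - X|) : ℝ) : ℂ))
    (by
      have := cl_cont X L
      fun_prop)
    (Real.exp (|k| * L))
    (fun y => by
      rw [Complex.norm_real, Real.norm_of_nonneg (Real.exp_pos _).le]
      apply Real.exp_le_exp.2
      calc k * |cl X L y - X| ≤ |k| * |cl X L y - X| :=
            mul_le_mul_of_nonneg_right (le_abs_self k) (abs_nonneg _)
        _ ≤ |k| * L := mul_le_mul_of_nonneg_left (cl_abs hL y) (abs_nonneg _))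

theorem wt_apply (X L : ℝ) (hL : 0 ≤ L) (k y : ℝ) :
    wt X L hL k y = ((Real.exp (k * |cl X L y - X|) : ℝ) : ℂ) := rfl

theorem wt_mul (X L : ℝ) (hL : 0 ≤ L) (k : ℝ) : wt X L hL k * wt X L hL (-k) = 1 := by
  ext y
  rw [BoundedContinuousFunction.mul_apply, wt_apply, wt_apply, ← Complex.ofReal_mul, ← Real.exp_add]
  simp

/-- multiplication operator -/
noncomputable def mop (g : EB) : EB →L[ℂ] EB := ContinuousLinearMap.mul ℂ EB g

theorem mop_apply (g f : EB) (y : ℝ) : mop g f y = g y * f y := rfl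

theorem mop_mul (g h : EB) : mop g * mop h = mop (g * h) := by
  ext f y
  show g y * (h y * f y) = (g y * h y) * f y
  ring

theorem mop_one : mop (1 : EB) = 1 := by
  ext f y
  show (1 : ℂ) * f y = f y
  ring

theorem exp_int {X L : ℝ} (hL : 0 ≤ L) {k : ℝ} (hk : 0 < k) (f : EB) {x : ℝ} (hx : |x - X| ≤ L) :
    ‖∫ t in X..x, (wt X L hL k t * f t)‖ ≤ Real.exp (k * |x - X|) / k * ‖f‖ := by
  rcases le_total X x with h | h
  · have hb : ∀ t ∈ Set.Ioc X x, ‖wt X L hL k t * f t‖ ≤ Real.exp (k * (t - X)) * ‖f‖ := by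
      intro t ht
      have h1 : |t - X| ≤ L := by
        rw [abs_of_nonneg (by linarith)] at hx
        rw [abs_of_nonneg (by linarith [ht.1])]
        linarith [ht.2]
      rw [norm_mul, wt_apply, cl_eq h1, Complex.norm_real, Real.norm_of_nonneg (Real.exp_pos _).le,
        abs_of_nonneg (by linarith [ht.1] : (0 : ℝ) ≤ t - X)]
      exact mul_le_mul_of_nonneg_left (f.norm_coe_le_norm t) (Real.exp_pos _).le
    have hc : Continuous fun t : ℝ => Real.exp (k * (t - X)) * ‖f‖ := by fun_prop
    have h2 := intervalIntegral.norm_integral_le_of_norm_le h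
      (Filter.Eventually.of_forall hb) (hc.intervalIntegrable (μ := volume) X x)
    refine h2.trans ?_
    rw [intervalIntegral.integral_mul_const]
    refine mul_le_mul_of_nonneg_right ?_ (norm_nonneg _)
    have h3 : ∫ t in X..x, Real.exp (k * (t - X)) = Real.exp (k * (x - X)) / k -
        Real.exp (k * (X - X)) / k := by
      apply intervalIntegral.integral_eq_sub_of_hasDerivAt (f := fun t => Real.exp (k * (t - X)) / k)
      · intro t _
        have h4 : HasDerivAt (fun t : ℝ => k * (t - X)) (k * 1) t :=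
          ((hasDerivAt_id t).sub_const X).const_mul k
        have h5 := h4.exp.div_const k
        have h6 : Real.exp (k * (t - X)) * (k * 1) / k = Real.exp (k * (t - X)) := by
          field_simp
        rwa [h6] at h5
      · exact (by fun_prop : Continuous fun t : ℝ => Real.exp (k * (t - X))).intervalIntegrable _ _
    rw [h3, abs_of_nonneg (by linarith : (0 : ℝ) ≤ x - X)]
    have : 0 ≤ Real.exp (k * (X - X)) / k := by positivity
    linarith
  · have hb : ∀ t ∈ Set.Ioc x X, ‖wt X L hL k t * f t‖ ≤ Real.exp (k * (X - t)) * ‖f‖ := by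
      intro t ht
      have h1 : |t - X| ≤ L := by
        rw [abs_of_nonpos (by linarith)] at hx
        rw [abs_of_nonpos (by linarith [ht.2])]
        linarith [ht.1]
      rw [norm_mul, wt_apply, cl_eq h1, Complex.norm_real, Real.norm_of_nonneg (Real.exp_pos _).le,
        abs_of_nonpos (by linarith [ht.2] : t - X ≤ 0), neg_sub]
      exact mul_le_mul_of_nonneg_left (f.norm_coe_le_norm t) (Real.exp_pos _).le
    have hc : Continuous fun t : ℝ => Real.exp (k * (X - t)) * ‖f‖ := by fun_prop
    have h2 := intervalIntegral.norm_integral_le_of_norm_le h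
      (Filter.Eventually.of_forall hb) (hc.intervalIntegrable (μ := volume) x X)
    rw [intervalIntegral.integral_symm, norm_neg]
    refine h2.trans ?_
    rw [intervalIntegral.integral_mul_const]
    refine mul_le_mul_of_nonneg_right ?_ (norm_nonneg _)
    have h3 : ∫ t in x..X, Real.exp (k * (X - t)) = -(Real.exp (k * (X - X)) / k) -
        -(Real.exp (k * (X - x)) / k) := by
      apply intervalIntegral.integral_eq_sub_of_hasDerivAt
        (f := fun t => -(Real.exp (k * (X - t)) / k))
      · intro t _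
        have h4 : HasDerivAt (fun t : ℝ => k * (X - t)) (k * (-1)) t :=
          ((hasDerivAt_id t).const_sub X).const_mul k
        have h5 := (h4.exp.div_const k).neg
        have h6 : -(Real.exp (k * (X - t)) * (k * -1) / k) = Real.exp (k * (X - t)) := by
          field_simp
        rwa [h6] at h5
      · exact (by fun_prop : Continuous fun t : ℝ => Real.exp (k * (X - t))).intervalIntegrable _ _
    rw [h3, abs_of_nonpos (by linarith : x - X ≤ 0), neg_sub]
    have : 0 ≤ Real.exp (k * (X - X)) / k := by positivity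
    linarith

theorem conj_norm {X L : ℝ} (hL : 0 ≤ L) {k : ℝ} (hk : 0 < k) :
    ‖mop (wt X L hL (-k)) * Jop X L hL * mop (wt X L hL k)‖ ≤ 1 / k := by
  apply ContinuousLinearMap.opNorm_le_bound _ (by positivity)
  intro f
  rw [BoundedContinuousFunction.norm_le (by positivity)]
  intro y
  have h1 : (mop (wt X L hL (-k)) * Jop X L hL * mop (wt X L hL k)) f y =
      wt X L hL (-k) y * ∫ t in X..cl X L y, (wt X L hL k t * f t) := rfl
  rw [h1, norm_mul, wt_apply, Complex.norm_real, Real.norm_of_nonneg (Real.exp_pos _).le]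
  have h2 := exp_int hL hk f (cl_abs (X := X) hL y)
  have h3 : Real.exp (-k * |cl X L y - X|) * Real.exp (k * |cl X L y - X|) = 1 := by
    rw [← Real.exp_add]
    simp
  calc Real.exp (-k * |cl X L y - X|) * ‖∫ t in X..cl X L y, (wt X L hL k t * f t)‖
      ≤ Real.exp (-k * |cl X L y - X|) * (Real.exp (k * |cl X L y - X|) / k * ‖f‖) :=
        mul_le_mul_of_nonneg_left h2 (Real.exp_pos _).le
    _ = (Real.exp (-k * |cl X L y - X|) * Real.exp (k * |cl X L y - X|)) / k * ‖f‖ := by ring
    _ = 1 / k * ‖f‖ := by rw [h3]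

theorem isUnit_one_sub {X L : ℝ} (hL : 0 ≤ L) (g : EB) :
    IsUnit (1 - Jop X L hL * Jop X L hL * mop g) := by
  set k : ℝ := ‖mop g‖ + 1 with hk
  have hk1 : 1 ≤ k := by rw [hk]; linarith [norm_nonneg (mop g)]
  have hk0 : 0 < k := by linarith
  set U := mop (wt X L hL k) with hU
  set U' := mop (wt X L hL (-k)) with hU'
  set J := Jop X L hL with hJ
  set M := mop g with hM
  have h1 : U * U' = 1 := by rw [hU, hU', mop_mul, wt_mul, mop_one]
  have h2 : U' * U = 1 := by rw [hU, hU', mop_mul, mul_comm (wt X L hL (-k)), wt_mul, mop_one]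
  have h3 : U * M = M * U := by rw [hU, hM, mop_mul, mop_mul, mul_comm]
  set A := U' * J * U with hA
  have hAn : ‖A‖ ≤ 1 / k := conj_norm hL hk0
  have h4 : ‖A * A * M‖ < 1 := by
    have h5 : ‖A * A * M‖ ≤ 1 / k * (1 / k) * ‖M‖ := by
      refine (norm_mul_le _ _).trans (mul_le_mul_of_nonneg_right ?_ (norm_nonneg _))
      exact (norm_mul_le _ _).trans (mul_le_mul hAn hAn (norm_nonneg _) (by positivity))
    have h6 : ‖M‖ < k := by rw [hk]; linarith
    refine h5.trans_lt ?_
    have h7 : 1 / k * (1 / k) * ‖M‖ = ‖M‖ / (k * k) := by field_simp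
    rw [h7, div_lt_one (by positivity)]
    nlinarith
  have h5 : IsUnit ((1 : EB →L[ℂ] EB) - A * A * M) := isUnit_one_sub_of_norm_lt_one (x := A * A * M) h4
  have h6 : (1 - J * J * M) = U * (1 - A * A * M) * U' := by
    have h7 : U * (A * A * M) * U' = J * J * M := by
      calc U * (A * A * M) * U' = (U * U') * J * (U * U') * J * (U * M) * U' := by
            rw [hA]; simp only [mul_assoc]
        _ = J * J * (M * U) * U' := by rw [h1, h3, one_mul, mul_one]
        _ = J * J * M * (U * U') := by simp only [mul_assoc]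
        _ = J * J * M := by rw [h1, mul_one]
    rw [mul_sub, sub_mul, h7, mul_one, h1]
  rw [h6]
  have hUu : IsUnit U := ⟨⟨U, U', h1, h2⟩, rfl⟩
  have hUu' : IsUnit U' := ⟨⟨U', U, h2, h1⟩, rfl⟩
  exact (hUu.mul h5).mul hUu'

theorem exists_Q (q : ℝ → ℝ) (hq : Continuous q) (X L : ℝ) (hL : 0 ≤ L) :
    ∃ Q : EB, ∀ y, Q y = (q (cl X L y) : ℂ) := by
  obtain ⟨C, hC⟩ := (isCompact_Icc (a := X - L) (b := X + L)).exists_bound_of_continuousOn
    hq.continuousOn
  refine ⟨BoundedContinuousFunction.ofNormedAddCommGroup (fun y => (q (cl X L y) : ℂ)) ?_ C ?_,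
    fun y => rfl⟩
  · have := cl_cont X L
    fun_prop
  · intro y
    rw [Complex.norm_real]
    apply hC
    have := cl_abs (X := X) hL y
    rw [abs_le] at this
    constructor <;> linarith

theorem exists_I (X L : ℝ) (hL : 0 ≤ L) :
    ∃ Q : EB, ∀ y, Q y = ((cl X L y - X : ℝ) : ℂ) := by
  refine ⟨BoundedContinuousFunction.ofNormedAddCommGroup
    (fun y => ((cl X L y - X : ℝ) : ℂ)) ?_ L ?_, fun y => rfl⟩
  · have := cl_cont X L
    fun_prop
  · intro y
    rw [Complex.norm_real]
    exact cl_abs hL y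

theorem exists_inv {R E : Type*} [NormedRing R] [NormedAlgebra ℂ R] [CompleteSpace R]
    [NormedAddCommGroup E] [NormedSpace ℂ E] (K : E → R) (hK : Differentiable ℂ K)
    (hu : ∀ z, IsUnit (K z)) :
    ∃ N : E → R, Differentiable ℂ N ∧ (∀ z, K z * N z = 1) ∧ (∀ z, N z * K z = 1) := by
  refine ⟨fun z => Ring.inverse (K z), ?_, fun z => Ring.mul_inverse_cancel _ (hu z),
    fun z => Ring.inverse_mul_cancel _ (hu z)⟩
  intro z
  exact (differentiableAt_inverse (hu z)).comp z (hK z)

/-- main lemma on `[X - L, X + L]` -/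
theorem exists_psi (q : ℝ → ℝ) (hq : Continuous q) (X L : ℝ) (hL : 0 ≤ L) :
    ∃ P : (ℂ × ℂ) × (ℂ × ℂ) → EB, Differentiable ℂ P ∧
      Differentiable ℂ (fun z => Jop X L hL (mop (z.1.1 • (exists_Q q hq X L hL).choose -
        z.1.2 • (1 : EB)) (P z))) ∧
      (∀ z x, |x - X| ≤ L → P z x = z.2.1 + z.2.2 * (x - X) +
        ∫ s in X..x, ∫ t in X..s, (z.1.1 * q t - z.1.2) * P z t) ∧
      (∀ z (G : ℝ → ℂ), Continuous G → (∀ x, |x - X| ≤ L → G x = z.2.1 + z.2.2 * (x - X) +
        ∫ s in X..x, ∫ t in X..s, (z.1.1 * q t - z.1.2) * G t) → ∀ x, |x - X| ≤ L → G x = P z x) := by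
  set Q := (exists_Q q hq X L hL).choose with hQdef
  have hQ : ∀ y, Q y = (q (cl X L y) : ℂ) := (exists_Q q hq X L hL).choose_spec
  obtain ⟨I, hI⟩ := exists_I X L hL
  set J := Jop X L hL with hJ
  let g : (ℂ × ℂ) × (ℂ × ℂ) → EB := fun z => z.1.1 • Q - z.1.2 • (1 : EB)
  let v : (ℂ × ℂ) × (ℂ × ℂ) → EB := fun z => z.2.1 • (1 : EB) + z.2.2 • I
  let Kz : (ℂ × ℂ) × (ℂ × ℂ) → (EB →L[ℂ] EB) := fun z => 1 - J * J * mop (g z)
  have hu : ∀ z, IsUnit (Kz z) := fun z => isUnit_one_sub hL (g z)
  have hgd : Differentiable ℂ g := by fun_prop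
  have hvd : Differentiable ℂ v := by fun_prop
  have hmd : Differentiable ℂ (fun z => mop (g z)) :=
    (ContinuousLinearMap.mul ℂ EB).differentiable.comp hgd
  have hKd : Differentiable ℂ Kz := (hmd.const_mul (J * J)).const_sub (1 : EB →L[ℂ] EB)
  obtain ⟨N, hNd, hN1, hN2⟩ := exists_inv Kz hKd hu
  let P : (ℂ × ℂ) × (ℂ × ℂ) → EB := fun z => N z (v z)
  have hPd : Differentiable ℂ P := hNd.clm_apply hvd
  have hg : ∀ z t, |t - X| ≤ L → g z t = z.1.1 * q t - z.1.2 := by
    intro z t ht
    show z.1.1 * Q t - z.1.2 * 1 = _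
    rw [hQ, cl_eq ht, mul_one]
  have habs : ∀ x s : ℝ, |x - X| ≤ L → s ∈ Set.uIcc X x → |s - X| ≤ L := by
    intro x s hx hs
    have := Set.abs_sub_left_of_mem_uIcc hs
    exact this.trans hx
  -- the double integral
  have hdbl : ∀ (z : (ℂ × ℂ) × (ℂ × ℂ)) (f : EB) (x : ℝ), |x - X| ≤ L →
      (J * J * mop (g z)) f x = ∫ s in X..x, ∫ t in X..s, (z.1.1 * q t - z.1.2) * f t := by
    intro z f x hx
    have e1 : (J * J * mop (g z)) f x = ∫ s in X..cl X L x, ∫ t in X..cl X L s, g z t * f t := rfl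
    rw [e1, cl_eq hx]
    apply intervalIntegral.integral_congr
    intro s hs
    have hs' := habs x s hx hs
    show (∫ t in X..cl X L s, g z t * f t) = _
    rw [cl_eq hs']
    apply intervalIntegral.integral_congr
    intro t ht
    show g z t * f t = _
    rw [hg z t (habs s t hs' ht)]
  have hv : ∀ z x, |x - X| ≤ L → v z x = z.2.1 + z.2.2 * (x - X) := by
    intro z x hx
    show z.2.1 * 1 + z.2.2 * I x = _
    rw [hI, cl_eq hx, mul_one]
    push_cast
    ring
  refine ⟨P, hPd, ?_, ?_, ?_⟩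
  · exact J.differentiable.comp (hmd.clm_apply hPd)
  · intro z x hx
    have h1 : (Kz z * N z) (v z) = v z := by
      rw [hN1]
      rfl
    have h2 : P z x - (J * J * mop (g z)) (P z) x = v z x := by
      have := congrArg (fun f : EB => f x) h1
      exact this
    rw [hdbl z _ x hx, hv z x hx] at h2
    rw [← h2]
    ring
  · intro z G hG hGe x hx
    let Gb : EB := BoundedContinuousFunction.ofNormedAddCommGroup (fun y => G (cl X L y))
      (hG.comp (cl_cont X L))
      ((isCompact_Icc (a := X - L) (b := X + L)).exists_bound_of_continuousOn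
        hG.continuousOn).choose
      (fun y => (isCompact_Icc (a := X - L) (b := X + L)).exists_bound_of_continuousOn
        hG.continuousOn |>.choose_spec _ (by
          have := cl_abs (X := X) hL y
          rw [abs_le] at this
          constructor <;> linarith))
    have hGb : ∀ y, Gb y = G (cl X L y) := fun y => rfl
    have h1 : Kz z Gb = v z := by
      ext y
      have e1 : Kz z Gb y = Gb y - (J * J * mop (g z)) Gb y := rfl
      have e2 : (J * J * mop (g z)) Gb y = (J * J * mop (g z)) Gb (cl X L y) := by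
        show (∫ s in X..cl X L y, ∫ t in X..cl X L s, g z t * Gb t) =
          ∫ s in X..cl X L (cl X L y), ∫ t in X..cl X L s, g z t * Gb t
        rw [cl_eq (cl_abs (X := X) hL y)]
      have e3 : v z y = v z (cl X L y) := by
        show z.2.1 * 1 + z.2.2 * I y = z.2.1 * 1 + z.2.2 * I (cl X L y)
        rw [hI, hI, cl_eq (cl_abs (X := X) hL y)]
      rw [e1, e2, e3, hdbl z Gb _ (cl_abs hL y), hv z _ (cl_abs hL y), hGb,
        hGe _ (cl_abs hL y)]
      have e4 : (∫ s in X..cl X L y, ∫ t in X..s, (z.1.1 * q t - z.1.2) * G t) =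
          ∫ s in X..cl X L y, ∫ t in X..s, (z.1.1 * q t - z.1.2) * Gb t := by
        apply intervalIntegral.integral_congr
        intro s hs
        have hs' := habs _ s (cl_abs hL y) hs
        apply intervalIntegral.integral_congr
        intro t ht
        show (z.1.1 * q t - z.1.2) * G t = (z.1.1 * q t - z.1.2) * Gb t
        rw [hGb, cl_eq (habs s t hs' ht)]
      rw [e4]
      ring
    have h2 : Gb = P z := by
      have h3 : (N z * Kz z) Gb = Gb := by
        rw [hN2]
        rfl
      rw [← h3]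
      show N z (Kz z Gb) = _
      rw [h1]
    rw [← h2, hGb, cl_eq hx]

end LinOde

open LinOde in
/-- Linear ODE `ψ'' = (c q(x) - m) ψ`, `ψ(X) = a`, `ψ'(X) = b`: global existence on `ℝ` and
holomorphic dependence on the parameters `z = ((c, m), (a, b))`. -/
theorem exists_sol_param (q : ℝ → ℝ) (hq : Continuous q) (X : ℝ) :
    ∃ S T : (ℂ × ℂ) × (ℂ × ℂ) → ℝ → ℂ,
      (∀ z, IsSol (fun x => z.1.1 * (q x : ℂ) - z.1.2) (S z) (T z) ∧ S z X = z.2.1 ∧ T z X = z.2.2) ∧
      (∀ x, Differentiable ℂ (fun z => S z x)) ∧ (∀ x, Differentiable ℂ (fun z => T z x)) := by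
  have hL : ∀ x : ℝ, 0 ≤ |x - X| + 1 := fun x => by positivity
  choose! P hP using fun (L : ℝ) (h : 0 ≤ L) => exists_psi q hq X L h
  -- consistency
  have hcons : ∀ L L' : ℝ, 0 ≤ L → L ≤ L' → ∀ z x, |x - X| ≤ L → P L z x = P L' z x := by
    intro L L' h0 h1 z x hx
    have h2 := (hP L h0).2.2.2 z (fun t => P L' z t) (P L' z).continuous (fun y hy =>
      (hP L' (h0.trans h1)).2.2.1 z y (hy.trans h1)) x hx
    exact h2.symm
  let S : (ℂ × ℂ) × (ℂ × ℂ) → ℝ → ℂ := fun z x => P (|x - X| + 1) z x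
  have hS : ∀ L x z, 0 ≤ L → |x - X| ≤ L → P L z x = S z x := by
    intro L x z h0 hx
    rcases le_total L (|x - X| + 1) with h | h
    · exact hcons L _ h0 h z x hx
    · exact (hcons _ L (hL x) h z x (by linarith)).symm
  let T : (ℂ × ℂ) × (ℂ × ℂ) → ℝ → ℂ := fun z x =>
    z.2.2 + ∫ t in X..x, (z.1.1 * q t - z.1.2) * S z t
  have hSc : ∀ z, Continuous (S z) := by
    intro z
    rw [continuous_iff_continuousAt]
    intro x
    have h1 : ContinuousAt (fun y => P (|x - X| + 1) z y) x := (P (|x - X| + 1) z).continuous.continuousAt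
    refine h1.congr ?_
    filter_upwards [Metric.ball_mem_nhds x one_pos] with y hy
    rw [Metric.mem_ball, Real.dist_eq] at hy
    refine hS _ _ _ (hL x) ?_
    have : |y - X| ≤ |y - x| + |x - X| := abs_sub_le y x X
    linarith
  have habs : ∀ x s : ℝ, s ∈ Set.uIcc X x → |s - X| ≤ |x - X| := by
    intro x s hs
    exact Set.abs_sub_left_of_mem_uIcc hs
  have hSe : ∀ z x, S z x = z.2.1 + z.2.2 * (x - X) +
        ∫ s in X..x, ∫ t in X..s, (z.1.1 * q t - z.1.2) * S z t := by
    intro z x
    have h1 := (hP (|x - X| + 1) (hL x)).2.2.1 z x (by linarith)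
    show P (|x - X| + 1) z x = _
    rw [h1]
    congr 1
    apply intervalIntegral.integral_congr
    intro s hs
    have hs' := habs x s hs
    apply intervalIntegral.integral_congr
    intro t ht
    have ht' := habs s t ht
    show (z.1.1 * q t - z.1.2) * P (|x - X| + 1) z t = (z.1.1 * q t - z.1.2) * S z t
    rw [hS _ t z (hL x) (by linarith)]
  have hgc : ∀ z, Continuous fun t => (z.1.1 * (q t : ℂ) - z.1.2) * S z t := by
    intro z
    have := hSc z
    fun_prop
  have hTd : ∀ z x, HasDerivAt (T z) ((z.1.1 * (q x : ℂ) - z.1.2) * S z x) x := by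
    intro z x
    exact ((hgc z).integral_hasStrictDerivAt X x).hasDerivAt.const_add z.2.2
  have hTc : ∀ z, Continuous (fun s => ∫ t in X..s, (z.1.1 * (q t : ℂ) - z.1.2) * S z t) := by
    intro z
    exact intervalIntegral.continuous_primitive (fun a b => (hgc z).intervalIntegrable a b) X
  refine ⟨S, T, ?_, ?_, ?_⟩
  · intro z
    refine ⟨fun x => ⟨?_, hTd z x⟩, ?_, ?_⟩
    · have h1 : HasDerivAt (fun x : ℝ => z.2.1 + z.2.2 * ((x : ℂ) - X) +
        ∫ s in X..x, ∫ t in X..s, (z.1.1 * (q t : ℂ) - z.1.2) * S z t)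
          (z.2.2 + ∫ t in X..x, (z.1.1 * (q t : ℂ) - z.1.2) * S z t) x := by
        refine HasDerivAt.add ?_ ((hTc z).integral_hasStrictDerivAt X x).hasDerivAt
        have h2 : HasDerivAt (fun x : ℝ => ((x : ℂ) - X)) 1 x :=
          (Complex.ofRealCLM.hasDerivAt (x := x)).sub_const (X : ℂ)
        have h3 := (h2.const_mul z.2.2).const_add z.2.1
        rwa [mul_one] at h3
      have h2 : S z = fun x : ℝ => z.2.1 + z.2.2 * ((x : ℂ) - X) +
        ∫ s in X..x, ∫ t in X..s, (z.1.1 * (q t : ℂ) - z.1.2) * S z t := funext (hSe z)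
      rw [h2]
      exact h1
    · rw [hSe]
      simp
    · show z.2.2 + ∫ t in X..X, (z.1.1 * (q t : ℂ) - z.1.2) * S z t = _
      simp
  · intro x
    have h1 := (hP (|x - X| + 1) (hL x)).1
    exact (BoundedContinuousFunction.evalCLM ℂ x).differentiable.comp h1
  · intro x
    have h1 := (hP (|x - X| + 1) (hL x)).2.1
    have h2 := (BoundedContinuousFunction.evalCLM ℂ x).differentiable.comp h1
    have h3 : Differentiable ℂ (fun z : (ℂ × ℂ) × (ℂ × ℂ) => z.2.2) := by fun_prop
    have h4 := h3.add h2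
    suffices h6 : ∀ z, T z x = ((fun z : (ℂ × ℂ) × (ℂ × ℂ) => z.2.2) +
        ⇑(BoundedContinuousFunction.evalCLM ℂ x) ∘ fun z =>
          (Jop X (|x - X| + 1) (hL x)) ((mop (z.1.1 • (exists_Q q hq X (|x - X| + 1) (hL x)).choose -
            z.1.2 • 1)) (P (|x - X| + 1) z))) z by
      rw [show (fun z => T z x) = _ from funext h6]
      exact h4
    intro z
    have hQ := (exists_Q q hq X (|x - X| + 1) (hL x)).choose_spec
    set Q := (exists_Q q hq X (|x - X| + 1) (hL x)).choose
    show z.2.2 + ∫ t in X..x, (z.1.1 * (q t : ℂ) - z.1.2) * S z t =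
      z.2.2 + ∫ t in X..cl X (|x - X| + 1) x, (z.1.1 * Q t - z.1.2 * 1) * P (|x - X| + 1) z t
    rw [cl_eq (by linarith : |x - X| ≤ |x - X| + 1)]
    congr 1
    apply intervalIntegral.integral_congr
    intro t ht
    have ht' := habs x t ht
    show (z.1.1 * (q t : ℂ) - z.1.2) * S z t = (z.1.1 * Q t - z.1.2 * 1) * P (|x - X| + 1) z t
    rw [hQ, cl_eq (by linarith : |t - X| ≤ |x - X| + 1), mul_one,
      hS _ t z (hL x) (by linarith : |t - X| ≤ |x - X| + 1)]

end Pool.Agent.Helper209.AC.ParamODE
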