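import Mathlib

set_option autoImplicit false

namespace Pool.Agent.Helper209.AC.SectorFinal

/-- Phragmén–Lindelöf in a sector of opening `θf < π/ρ`, polynomial version -/
theorem sector_final (F : ℂ → ℂ) (hF : Differentiable ℂ F) (ρ θf C : ℝ) (N : ℕ) (hρ : 1 < ρ) (hθ0 : 0 < θf)
    (hθ1 : θf < Real.pi / ρ) (hθ2 : θf ≤ Real.pi / 2)
    (hgrow : ∀ ζ, ‖F ζ‖ ≤ C * Real.exp (C * ‖ζ‖ ^ ρ))
    (hout : ∀ ζ : ℂ, (ζ.re ≤ 0 ∨ ζ.im ≤ 0 ∨ θf ≤ ζ.arg) → ‖F ζ‖ ≤ C * (1 + ‖ζ‖) ^ N) :
    ∃ C' : ℝ, ∀ ζ, ‖F ζ‖ ≤ C' * (1 + ‖ζ‖) ^ N := by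
  have hpi := Real.pi_pos
  have hC : 0 ≤ C := by
    have h0 := (norm_nonneg _).trans (hout 0 (Or.inl (by simp)))
    simpa using h0
  set p : ℝ := 2 * θf / Real.pi with hp
  have hp0 : 0 < p := by positivity
  have hp1 : p ≤ 1 := by
    rw [hp, div_le_one hpi]; linarith
  have hpθ : p * (Real.pi / 2) = θf := by
    rw [hp]; field_simp
  have hpρ : p * ρ < 2 := by
    rw [hp, div_mul_eq_mul_div, div_lt_iff₀ hpi]
    have : θf * ρ < Real.pi := by
      rwa [lt_div_iff₀ (by linarith)] at hθ1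
    nlinarith
  -- polar form of z ^ p
  have hpolar : ∀ z : ℂ, z ≠ 0 → z ^ (p : ℂ) = ((‖z‖ ^ p : ℝ) : ℂ) * Complex.exp ((p * z.arg : ℝ) * Complex.I) := by
    intro z hz
    rw [Complex.cpow_def_of_ne_zero hz, Complex.log]
    have hn : 0 < ‖z‖ := norm_pos_iff.mpr hz
    have : ((‖z‖ ^ p : ℝ) : ℂ) = Complex.exp ((Real.log ‖z‖ : ℂ) * p) := by
      rw [Real.rpow_def_of_pos hn]; push_cast; rfl
    rw [this, ← Complex.exp_add]
    congr 1
    push_cast
    ring
  have hre : ∀ z : ℂ, z ≠ 0 → (z ^ (p : ℂ)).re = ‖z‖ ^ p * Real.cos (p * z.arg) := by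
    intro z hz
    rw [hpolar z hz, Complex.re_ofReal_mul, Complex.exp_ofReal_mul_I_re]
  have hnorm : ∀ z : ℂ, ‖z ^ (p : ℂ)‖ = ‖z‖ ^ p := fun z => Complex.norm_cpow_real z p
  have hquad : ∀ z : ℂ, 0 ≤ z.re → 0 ≤ z.im → 0 ≤ (z ^ (p : ℂ)).re := by
    intro z h1 h2
    by_cases hz : z = 0
    · subst hz
      rw [Complex.zero_cpow (by exact_mod_cast hp0.ne')]; simp
    · rw [hre z hz]
      have ha0 : 0 ≤ z.arg := Complex.arg_nonneg_iff.mpr h2
      have ha1 : z.arg ≤ Real.pi / 2 := by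
        have := Complex.abs_arg_le_pi_div_two_iff.mpr h1
        exact (le_abs_self _).trans this
      apply mul_nonneg (by positivity)
      apply Real.cos_nonneg_of_mem_Icc
      constructor
      · nlinarith
      · nlinarith
  have hone : ∀ w : ℂ, 0 ≤ w.re → (1 + ‖w‖) / 2 ≤ ‖1 + w‖ ∧ 1 ≤ ‖1 + w‖ := by
    intro w hw
    have h1 : ‖1 + w‖ ^ 2 = 1 + 2 * w.re + ‖w‖ ^ 2 := by
      rw [← Complex.normSq_eq_norm_sq, ← Complex.normSq_eq_norm_sq, Complex.normSq_apply, Complex.normSq_apply]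
      simp
      ring
    have h2 := norm_nonneg w
    have h3 := norm_nonneg (1 + w)
    constructor
    · nlinarith [sq_nonneg (1 - ‖w‖)]
    · nlinarith
  let f : ℂ → ℂ := fun z => F (z ^ (p : ℂ)) / (1 + z ^ (p : ℂ)) ^ N
  have hden : ∀ z : ℂ, 0 ≤ z.re → 0 ≤ z.im → 1 + z ^ (p : ℂ) ≠ 0 := by
    intro z h1 h2 h3
    have := (hone _ (hquad z h1 h2)).2
    rw [h3, norm_zero] at this
    linarith
  have hfle : ∀ z : ℂ, 0 ≤ z.re → 0 ≤ z.im → ‖f z‖ ≤ ‖F (z ^ (p : ℂ))‖ := by
    intro z h1 h2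
    have h3 := (hone _ (hquad z h1 h2)).2
    simp only [f, norm_div, norm_pow]
    apply div_le_self (norm_nonneg _)
    exact one_le_pow₀ h3
  have hbd : ∀ z : ℂ, 0 ≤ z.re → 0 ≤ z.im → ‖F (z ^ (p : ℂ))‖ ≤ C * (1 + ‖z ^ (p : ℂ)‖) ^ N →
      ‖f z‖ ≤ C * 2 ^ N := by
    intro z h1 h2 h3
    have h4 := hone _ (hquad z h1 h2)
    simp only [f, norm_div, norm_pow]
    rw [div_le_iff₀ (by have := h4.2; positivity)]
    refine h3.trans ?_
    rw [mul_assoc, ← mul_pow]
    apply mul_le_mul_of_nonneg_left _ hC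
    apply pow_le_pow_left₀ (by positivity)
    linarith [h4.1]
  have hclos : closure (Set.Ioi (0 : ℝ) ×ℂ Set.Ioi (0 : ℝ)) = Set.Ici (0 : ℝ) ×ℂ Set.Ici (0 : ℝ) := by
    rw [Complex.closure_reProdIm, closure_Ioi]
  have hd : DiffContOnCl ℂ f (Set.Ioi (0 : ℝ) ×ℂ Set.Ioi (0 : ℝ)) := by
    constructor
    · intro z hz
      obtain ⟨h1, h2⟩ := hz
      simp only [Set.mem_preimage, Set.mem_Ioi] at h1 h2
      have hsl : z ∈ Complex.slitPlane := Or.inl h1
      have hdz : DifferentiableAt ℂ (fun z : ℂ => z ^ (p : ℂ)) z :=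
        (differentiableAt_id).cpow_const hsl
      apply DifferentiableAt.differentiableWithinAt
      apply DifferentiableAt.div
      · exact (hF _).comp z hdz
      · exact ((differentiableAt_const _).add hdz).pow N
      · exact pow_ne_zero _ (hden z h1.le h2.le)
    · rw [hclos]
      intro z hz
      obtain ⟨h1, h2⟩ := hz
      simp only [Set.mem_preimage, Set.mem_Ici] at h1 h2
      have hcz : ContinuousAt (fun z : ℂ => z ^ (p : ℂ)) z :=
        Complex.continuousAt_cpow_const_of_re_pos (Or.inl h1) (by simpa using hp0)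
      apply ContinuousAt.continuousWithinAt
      apply ContinuousAt.div
      · exact (hF.continuous.continuousAt).comp hcz
      · exact (continuousAt_const.add hcz).pow N
      · exact pow_ne_zero _ (hden z h1 h2)
  have key : ∀ z : ℂ, 0 ≤ z.re → 0 ≤ z.im → ‖f z‖ ≤ C * 2 ^ N := by
    intro z hz1 hz2
    apply PhragmenLindelof.quadrant_I hd _ _ _ hz1 hz2
    · refine ⟨p * ρ, hpρ, C, ?_⟩
      apply Asymptotics.IsBigO.of_bound C
      refine Filter.eventually_inf_principal.mpr (Filter.Eventually.of_forall ?_)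
      intro w hw
      obtain ⟨h1, h2⟩ := hw
      simp only [Set.mem_preimage, Set.mem_Ioi] at h1 h2
      refine (hfle w h1.le h2.le).trans ((hgrow _).trans ?_)
      rw [hnorm, ← Real.rpow_mul (norm_nonneg w), Real.norm_of_nonneg (Real.exp_pos _).le]
    · intro x hx
      apply hbd _ (by simpa using hx) (by simp)
      apply hout
      right; left
      have : ((x : ℂ)) ^ (p : ℂ) = ((x ^ p : ℝ) : ℂ) := (Complex.ofReal_cpow hx p).symm
      rw [this]; simp
    · intro x hx
      apply hbd _ (by simp) (by simpa using hx)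
      apply hout
      rcases hx.eq_or_lt with h0 | h0
      · left
        rw [← h0]
        simp only [Complex.ofReal_zero, zero_mul]
        rw [Complex.zero_cpow (by exact_mod_cast hp0.ne')]; simp
      · right; right
        have hne : (x : ℂ) * Complex.I ≠ 0 := by
          simp [h0.ne']
        rw [hpolar _ hne]
        have harg : ((x : ℂ) * Complex.I).arg = Real.pi / 2 := by
          rw [Complex.arg_real_mul _ h0, Complex.arg_I]
        rw [harg, hpθ]
        have hpos : 0 < ‖(x : ℂ) * Complex.I‖ ^ p := by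
          apply Real.rpow_pos_of_pos
          exact norm_pos_iff.mpr hne
        rw [Complex.arg_real_mul _ hpos, Complex.arg_exp_mul_I]
        rw [toIocMod_eq_self (by positivity) |>.mpr]
        constructor
        · linarith
        · linarith
  refine ⟨C * 2 ^ N, fun ζ => ?_⟩
  have hCN : C * (1 + ‖ζ‖) ^ N ≤ C * 2 ^ N * (1 + ‖ζ‖) ^ N := by
    have h2 : (1 : ℝ) ≤ 2 ^ N := one_le_pow₀ (by norm_num)
    have h3 : 0 ≤ C * (1 + ‖ζ‖) ^ N := by positivity
    nlinarith
  by_cases hcase : ζ.re ≤ 0 ∨ ζ.im ≤ 0 ∨ θf ≤ ζ.arg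
  · exact (hout ζ hcase).trans hCN
  · push Not at hcase
    obtain ⟨h1, h2, h3⟩ := hcase
    have hζ : ζ ≠ 0 := by
      intro h; rw [h] at h1; simp at h1
    have harg0 : 0 ≤ ζ.arg := Complex.arg_nonneg_iff.mpr h2.le
    have hargle : ζ.arg / p ≤ Real.pi / 2 := by
      rw [div_le_iff₀ hp0]; linarith
    have harg0' : 0 ≤ ζ.arg / p := by positivity
    have hlogim : (Complex.log ζ * ((1 / p : ℝ) : ℂ)).im = ζ.arg / p := by
      rw [Complex.im_mul_ofReal, Complex.log_im]; ring
    set z : ℂ := ζ ^ (((1 / p : ℝ)) : ℂ) with hz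
    have hzp : z ^ (p : ℂ) = ζ := by
      rw [hz, ← Complex.cpow_mul]
      · rw [← Complex.ofReal_mul]
        have : 1 / p * p = 1 := by field_simp
        rw [this]; simp
      · rw [hlogim]; linarith
      · rw [hlogim]; linarith
    have hzform : z = ((‖ζ‖ ^ (1 / p) : ℝ) : ℂ) * Complex.exp ((ζ.arg / p : ℝ) * Complex.I) := by
      rw [hz, Complex.cpow_def_of_ne_zero hζ, Complex.log]
      have hn : 0 < ‖ζ‖ := norm_pos_iff.mpr hζ
      have : ((‖ζ‖ ^ (1 / p) : ℝ) : ℂ) = Complex.exp ((Real.log ‖ζ‖ : ℂ) * ((1 / p : ℝ) : ℂ)) := by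
        rw [Real.rpow_def_of_pos hn]; push_cast; rfl
      rw [this, ← Complex.exp_add]
      congr 1
      push_cast
      ring
    have hzre : 0 ≤ z.re := by
      rw [hzform, Complex.re_ofReal_mul, Complex.exp_ofReal_mul_I_re]
      apply mul_nonneg (by positivity)
      apply Real.cos_nonneg_of_mem_Icc
      constructor <;> linarith
    have hzim : 0 ≤ z.im := by
      rw [hzform, Complex.im_ofReal_mul, Complex.exp_ofReal_mul_I_im]
      apply mul_nonneg (by positivity)
      apply Real.sin_nonneg_of_nonneg_of_le_pi harg0'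
      linarith
    have h5 := key z hzre hzim
    simp only [f] at h5
    rw [hzp, norm_div, norm_pow] at h5
    have h6 := hone ζ h1.le
    rw [div_le_iff₀ (by have := h6.2; positivity)] at h5
    refine h5.trans ?_
    apply mul_le_mul_of_nonneg_left _ (by positivity)
    apply pow_le_pow_left₀ (by positivity)
    calc ‖1 + ζ‖ ≤ ‖(1 : ℂ)‖ + ‖ζ‖ := norm_add_le _ _
      _ = 1 + ‖ζ‖ := by simp

/-- an entire function with `d(ζ)‖F ζ‖ ≤ C exp(C‖ζ‖^ρ)`, `d` the distance-like function to a line, is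
bounded by `C' exp(C'‖ζ‖^ρ)` -/
theorem remove_line (F : ℂ → ℂ) (hF : Differentiable ℂ F) (ρ C θ : ℝ) (b : ℂ) (hρ : 1 ≤ ρ)
    (h : ∀ ζ, min 1 |((ζ - b) * Complex.exp (-(θ : ℂ) * Complex.I)).im| * ‖F ζ‖ ≤ C * Real.exp (C * ‖ζ‖ ^ ρ)) :
    ∃ C' : ℝ, ∀ ζ, ‖F ζ‖ ≤ C' * Real.exp (C' * ‖ζ‖ ^ ρ) := by
  have hC : 0 ≤ C := by
    have h0 := (mul_nonneg (le_min zero_le_one (abs_nonneg _)) (norm_nonneg _)).trans (h 0)
    by_contra hneg
    push Not at hneg
    have := mul_neg_of_neg_of_pos hneg (Real.exp_pos (C * ‖(0:ℂ)‖ ^ ρ))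
    linarith
  set u : ℂ := Complex.exp ((θ : ℂ) * Complex.I) with hu
  set v : ℂ := Complex.exp (-(θ : ℂ) * Complex.I) with hv
  have huv : u * v = 1 := by
    rw [hu, hv, ← Complex.exp_add]; simp
  have hun : ‖u‖ = 1 := by rw [hu]; exact Complex.norm_exp_ofReal_mul_I θ
  have hvn : ‖v‖ = 1 := by
    have := congrArg norm huv
    rw [norm_mul, hun, one_mul, norm_one] at this
    exact this
  set K : ℝ := C * 4 ^ ρ with hK
  have h4 : (1 : ℝ) ≤ 4 ^ ρ := Real.one_le_rpow (by norm_num) (by linarith)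
  have hKC : C ≤ K := by rw [hK]; nlinarith
  have hK0 : 0 ≤ K := hC.trans hKC
  refine ⟨2 * C * Real.exp K + K, fun ζ => ?_⟩
  have hr0 : 0 ≤ ‖ζ‖ ^ ρ := by positivity
  have hE : 0 ≤ 2 * C * Real.exp K := by positivity
  have hexp1 : (1:ℝ) ≤ Real.exp K := Real.one_le_exp hK0
  set z0 : ℂ := (ζ - b) * v with hz0
  by_cases hcase : 1 ≤ |z0.im|
  · have h1 := h ζ
    rw [← hz0, min_eq_left hcase, one_mul] at h1
    refine h1.trans ?_
    apply mul_le_mul
    · nlinarith
    · apply Real.exp_le_exp.mpr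
      apply mul_le_mul_of_nonneg_right _ hr0
      linarith
    · exact (Real.exp_pos _).le
    · linarith
  · push Not at hcase
    set x0 : ℝ := z0.re with hx0
    let g : ℂ → ℂ := fun z => F (b + z * u) * ((z - x0) ^ 2 - 4)
    have hg : Differentiable ℂ g := by
      apply Differentiable.mul
      · exact hF.comp ((differentiable_const _).add (differentiable_id.mul_const _))
      · exact (((differentiable_id.sub_const _).pow 2).sub_const _)
    have hmem : z0 ∈ closure (Metric.ball (x0 : ℂ) 2) := by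
      apply subset_closure
      rw [Metric.mem_ball, Complex.dist_eq]
      have : z0 - x0 = (z0.im : ℂ) * Complex.I := by
        apply Complex.ext <;> simp [hx0]
      rw [this]
      simp only [norm_mul, Complex.norm_I, mul_one, Complex.norm_real, Real.norm_eq_abs]
      linarith
    have hmax := Complex.norm_le_of_forall_mem_frontier_norm_le (f := g)
      (C := 8 * C * Real.exp (C * (‖ζ‖ + 3) ^ ρ)) Metric.isBounded_ball hg.diffContOnCl (z := z0) ?_ hmem
    · have hfac : ‖(z0 - x0) ^ 2 - 4‖ ≥ 4 := by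
        have : (z0 - x0) ^ 2 - 4 = ((-(z0.im ^ 2 + 4) : ℝ) : ℂ) := by
          have h1 : z0 - x0 = (z0.im : ℂ) * Complex.I := by
            apply Complex.ext <;> simp [hx0]
          rw [h1, mul_pow, Complex.I_sq]
          push_cast
          ring
        rw [this, Complex.norm_real, Real.norm_eq_abs, abs_neg, abs_of_nonneg (by positivity)]
        nlinarith [sq_nonneg z0.im]
      have hback : b + z0 * u = ζ := by
        rw [hz0, mul_assoc, mul_comm v u, huv]; ring
      have h5 : ‖F ζ‖ * 4 ≤ 8 * C * Real.exp (C * (‖ζ‖ + 3) ^ ρ) := by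
        refine le_trans ?_ hmax
        simp only [g]
        rw [hback, norm_mul]
        exact mul_le_mul_of_nonneg_left hfac (norm_nonneg _)
      have h6 : (‖ζ‖ + 3) ^ ρ ≤ 4 ^ ρ * (‖ζ‖ ^ ρ + 1) := by
        have h7 : ‖ζ‖ + 3 ≤ 4 * max ‖ζ‖ 1 := by
          have := le_max_left ‖ζ‖ 1
          have := le_max_right ‖ζ‖ 1
          linarith
        refine (Real.rpow_le_rpow (by positivity) h7 (by linarith)).trans ?_
        rw [Real.mul_rpow (by norm_num) (by positivity)]
        apply mul_le_mul_of_nonneg_left _ (by positivity)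
        rcases le_total ‖ζ‖ 1 with h8 | h8
        · rw [max_eq_right h8, Real.one_rpow]; linarith
        · rw [max_eq_left h8]; linarith
      have h9 : Real.exp (C * (‖ζ‖ + 3) ^ ρ) ≤ Real.exp K * Real.exp (K * ‖ζ‖ ^ ρ) := by
        rw [← Real.exp_add]
        apply Real.exp_le_exp.mpr
        calc C * (‖ζ‖ + 3) ^ ρ ≤ C * (4 ^ ρ * (‖ζ‖ ^ ρ + 1)) := mul_le_mul_of_nonneg_left h6 hC
          _ = K + K * ‖ζ‖ ^ ρ := by rw [hK]; ring
      have h10 : ‖F ζ‖ ≤ 2 * C * Real.exp K * Real.exp (K * ‖ζ‖ ^ ρ) := by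
        have : ‖F ζ‖ ≤ 2 * C * Real.exp (C * (‖ζ‖ + 3) ^ ρ) := by linarith
        refine this.trans ?_
        calc 2 * C * Real.exp (C * (‖ζ‖ + 3) ^ ρ) ≤ 2 * C * (Real.exp K * Real.exp (K * ‖ζ‖ ^ ρ)) :=
              mul_le_mul_of_nonneg_left h9 (by positivity)
          _ = _ := by ring
      refine h10.trans ?_
      apply mul_le_mul
      · linarith
      · apply Real.exp_le_exp.mpr
        apply mul_le_mul_of_nonneg_right _ hr0
        linarith
      · exact (Real.exp_pos _).le
      · linarith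
    · intro z hz
      rw [frontier_ball _ (by norm_num), mem_sphere_iff_norm] at hz
      set w : ℂ := z - x0 with hw
      have hwim : w.im = z.im := by simp [hw]
      have hnsq : w.re * w.re + w.im * w.im = 4 := by
        rw [← Complex.normSq_apply, Complex.normSq_eq_norm_sq, hz]; norm_num
      have hw4 : ‖w ^ 2 - 4‖ = 4 * |z.im| := by
        have h1 : ‖w ^ 2 - 4‖ ^ 2 = (4 * |z.im|) ^ 2 := by
          rw [← Complex.normSq_eq_norm_sq, Complex.normSq_apply, mul_pow, sq_abs, ← hwim]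
          have e1 : (w ^ 2 - 4).re = w.re * w.re - w.im * w.im - 4 := by
            simp [pow_two]
          have e2 : (w ^ 2 - 4).im = 2 * (w.re * w.im) := by
            simp [pow_two]; ring
          rw [e1, e2]
          have e3 : w.re * w.re = 4 - w.im * w.im := by linarith
          have e4 : 2 * (w.re * w.im) * (2 * (w.re * w.im)) = 4 * (w.re * w.re) * (w.im * w.im) := by ring
          rw [e4, e3]
          ring
        exact (sq_eq_sq₀ (norm_nonneg _) (by positivity)).mp h1
      have himle : |z.im| ≤ 2 := by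
        rw [← hwim]
        have := Complex.abs_im_le_norm w
        rw [hz] at this
        exact this
      have hback : ((b + z * u) - b) * v = z := by
        have : ((b + z * u) - b) * v = z * (u * v) := by ring
        rw [this, huv, mul_one]
      have h1 := h (b + z * u)
      rw [hback] at h1
      have h2 : |z.im| ≤ 2 * min 1 |z.im| := by
        rcases le_total 1 |z.im| with h3 | h3
        · rw [min_eq_left h3]; linarith
        · rw [min_eq_right h3]; linarith [abs_nonneg z.im]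
      have hdist : ‖b + z * u‖ ≤ ‖ζ‖ + 3 := by
        have e1 : b + z * u = ζ + (z - z0) * u := by
          have : z0 * u = ζ - b := by rw [hz0, mul_assoc, mul_comm v u, huv, mul_one]
          rw [sub_mul, this]; ring
        rw [e1]
        refine (norm_add_le _ _).trans ?_
        rw [norm_mul, hun, mul_one]
        have e2 : z - z0 = w - (z0 - x0) := by rw [hw]; ring
        have e3 : ‖z0 - x0‖ ≤ 1 := by
          have : z0 - x0 = (z0.im : ℂ) * Complex.I := by
            apply Complex.ext <;> simp [hx0]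
          rw [this]
          simp only [norm_mul, Complex.norm_I, mul_one, Complex.norm_real, Real.norm_eq_abs]
          exact hcase.le
        rw [e2]
        have := norm_sub_le w (z0 - x0)
        rw [hz] at this
        linarith
      have h3 : C * Real.exp (C * ‖b + z * u‖ ^ ρ) ≤ C * Real.exp (C * (‖ζ‖ + 3) ^ ρ) := by
        apply mul_le_mul_of_nonneg_left _ hC
        apply Real.exp_le_exp.mpr
        apply mul_le_mul_of_nonneg_left _ hC
        exact Real.rpow_le_rpow (norm_nonneg _) hdist (by linarith)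
      simp only [g]
      rw [norm_mul, hw4]
      have hFn := norm_nonneg (F (b + z * u))
      have hmin : 0 ≤ min 1 |z.im| := le_min zero_le_one (abs_nonneg _)
      calc ‖F (b + z * u)‖ * (4 * |z.im|) ≤ ‖F (b + z * u)‖ * (4 * (2 * min 1 |z.im|)) := by
            apply mul_le_mul_of_nonneg_left _ hFn
            linarith
        _ = 8 * (min 1 |z.im| * ‖F (b + z * u)‖) := by ring
        _ ≤ 8 * (C * Real.exp (C * (‖ζ‖ + 3) ^ ρ)) := by linarith
        _ = 8 * C * Real.exp (C * (‖ζ‖ + 3) ^ ρ) := by ring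

end Pool.Agent.Helper209.AC.SectorFinal
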