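import Mathlib

set_option autoImplicit false

namespace Pool.Agent.Helper209.AC.TrigCmp

open Set Real

/-- trigonometric comparison: `k'' + ρ² k = m ≥ ρ² ε` implies that `k - ε` lies above its tangent sinusoids
of frequency `ρ`, within distance `π/ρ`. -/
theorem trig_cmp (ρ ε θlo : ℝ) (k k1 m : ℝ → ℝ) (hρ : 2 ≤ ρ)
    (hk : ContinuousOn k (Icc 0 (π / 2))) (hk1 : ContinuousOn k1 (Icc 0 (π / 2)))
    (hd : ∀ θ ∈ Ioo 0 (π / 2), HasDerivAt k (k1 θ) θ ∧ HasDerivAt k1 (-ρ ^ 2 * k θ + m θ) θ)
    (hθlo : 0 ≤ θlo) (hm : ∀ θ ∈ Ioo θlo (π / 2), ρ ^ 2 * ε ≤ m θ) :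
    ∀ θt ∈ Icc θlo (π / 2), ∀ θ ∈ Icc θlo (π / 2), |θ - θt| ≤ π / ρ →
      (k θt - ε) * cos (ρ * (θ - θt)) + (k1 θt / ρ) * sin (ρ * (θ - θt)) ≤ k θ - ε := by
  intro t ht u hu habs
  have hρ0 : 0 < ρ := by linarith
  set A : ℝ := k t - ε with hA
  set B : ℝ := k1 t with hB
  have hw : ρ * |u - t| ≤ π := by
    have := mul_le_mul_of_nonneg_left habs hρ0.le
    rwa [mul_div_cancel₀ _ hρ0.ne'] at this
  let W : ℝ → ℝ := fun s => k s - ε - (A * cos (ρ * (s - t)) + (B / ρ) * sin (ρ * (s - t)))
  let W1 : ℝ → ℝ := fun s => k1 s + ρ * A * sin (ρ * (s - t)) - B * cos (ρ * (s - t))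
  let h : ℝ → ℝ := fun s => W1 s * sin (ρ * (u - s)) + ρ * (W s * cos (ρ * (u - s)))
  have hcont : ContinuousOn h (Icc 0 (π / 2)) := by
    have c1 : Continuous fun s : ℝ => sin (ρ * (u - s)) := by fun_prop
    have c2 : Continuous fun s : ℝ => cos (ρ * (u - s)) := by fun_prop
    have c3 : Continuous fun s : ℝ => A * cos (ρ * (s - t)) + (B / ρ) * sin (ρ * (s - t)) := by fun_prop
    have c4 : Continuous fun s : ℝ => ρ * A * sin (ρ * (s - t)) := by fun_prop
    have c5 : Continuous fun s : ℝ => B * cos (ρ * (s - t)) := by fun_prop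
    exact (((hk1.add c4.continuousOn).sub c5.continuousOn).mul c1.continuousOn).add
      (continuousOn_const.mul (((hk.sub continuousOn_const).sub c3.continuousOn).mul c2.continuousOn))
  have hderiv : ∀ s ∈ Ioo 0 (π / 2), HasDerivAt h ((m s - ρ ^ 2 * ε) * sin (ρ * (u - s))) s := by
    intro s hs
    obtain ⟨h1, h2⟩ := hd s hs
    have l1 : HasDerivAt (fun s : ℝ => ρ * (s - t)) ρ s := by
      simpa using ((hasDerivAt_id s).sub_const t).const_mul ρ
    have l2 : HasDerivAt (fun s : ℝ => ρ * (u - s)) (-ρ) s := by
      simpa using ((hasDerivAt_id s).const_sub u).const_mul ρ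
    have hW : HasDerivAt W (W1 s) s := by
      have := (h1.sub_const ε).sub ((l1.cos.const_mul A).add (l1.sin.const_mul (B / ρ)))
      refine HasDerivAt.congr_deriv this ?_
      simp only [W1]
      field_simp
      ring
    have hW1 : HasDerivAt W1 (m s - ρ ^ 2 * ε - ρ ^ 2 * W s) s := by
      have := (h2.add (l1.sin.const_mul (ρ * A))).sub (l1.cos.const_mul B)
      refine HasDerivAt.congr_deriv this ?_
      simp only [W]
      field_simp
      ring
    have := (hW1.mul l2.sin).add ((hW.mul l2.cos).const_mul ρ)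
    refine HasDerivAt.congr_deriv this ?_
    ring
  have hW0 : W t = 0 := by simp [W, hA]
  have hW10 : W1 t = 0 := by simp [W1, hB]
  have hht : h t = 0 := by simp [h, hW0, hW10]
  have hhu : h u = ρ * W u := by simp [h]
  have key : 0 ≤ h u := by
    rcases le_total t u with htu | hut
    · have hmono : MonotoneOn h (Icc t u) := by
        apply monotoneOn_of_deriv_nonneg (convex_Icc _ _)
        · exact hcont.mono (Icc_subset_Icc (hθlo.trans ht.1) hu.2)
        · rw [interior_Icc]
          intro s hs
          exact (hderiv s ⟨(hθlo.trans ht.1).trans_lt hs.1, hs.2.trans_le hu.2⟩).differentiableAt.differentiableWithinAt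
        · rw [interior_Icc]
          intro s hs
          rw [(hderiv s ⟨(hθlo.trans ht.1).trans_lt hs.1, hs.2.trans_le hu.2⟩).deriv]
          apply mul_nonneg
          · have := hm s ⟨ht.1.trans_lt hs.1, hs.2.trans_le hu.2⟩
            linarith
          · apply sin_nonneg_of_nonneg_of_le_pi
            · exact mul_nonneg hρ0.le (by linarith [hs.2])
            · refine le_trans ?_ hw
              apply mul_le_mul_of_nonneg_left _ hρ0.le
              rw [abs_of_nonneg (by linarith)]
              linarith [hs.1]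
      have := hmono (left_mem_Icc.2 htu) (right_mem_Icc.2 htu) htu
      rwa [hht] at this
    · have hanti : AntitoneOn h (Icc u t) := by
        apply antitoneOn_of_deriv_nonpos (convex_Icc _ _)
        · exact hcont.mono (Icc_subset_Icc (hθlo.trans hu.1) ht.2)
        · rw [interior_Icc]
          intro s hs
          exact (hderiv s ⟨(hθlo.trans hu.1).trans_lt hs.1, hs.2.trans_le ht.2⟩).differentiableAt.differentiableWithinAt
        · rw [interior_Icc]
          intro s hs
          rw [(hderiv s ⟨(hθlo.trans hu.1).trans_lt hs.1, hs.2.trans_le ht.2⟩).deriv]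
          apply mul_nonpos_of_nonneg_of_nonpos
          · have := hm s ⟨hu.1.trans_lt hs.1, hs.2.trans_le ht.2⟩
            linarith
          · apply sin_nonpos_of_nonpos_of_neg_pi_le
            · exact mul_nonpos_of_nonneg_of_nonpos hρ0.le (by linarith [hs.1])
            · have h3 : ρ * (t - s) ≤ π := by
                refine le_trans ?_ hw
                apply mul_le_mul_of_nonneg_left _ hρ0.le
                rw [abs_of_nonpos (by linarith)]
                linarith [hs.1]
              have h4 : ρ * (s - u) ≤ ρ * (t - u) := mul_le_mul_of_nonneg_left (by linarith [hs.2]) hρ0.le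
              have h5 : ρ * (t - u) ≤ π := by
                refine le_trans ?_ hw
                apply mul_le_mul_of_nonneg_left _ hρ0.le
                rw [abs_of_nonpos (by linarith)]
                linarith
              nlinarith
      have := hanti (left_mem_Icc.2 hut) (right_mem_Icc.2 hut) hut
      rwa [hht] at this
  rw [hhu] at key
  have hWu : 0 ≤ W u := by
    by_contra hneg
    push Not at hneg
    have := mul_neg_of_pos_of_neg hρ0 hneg
    linarith
  simp only [W] at hWu
  linarith

end Pool.Agent.Helper209.AC.TrigCmp
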