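import Pool.Agent.Helper209.AC.Frame

set_option autoImplicit false

namespace Pool.Agent.Helper209.AC.Trunc

open MeasureTheory Set



section TruncAux

/-- the `L²` norm -/
noncomputable def GN (g : ℝ → ℂ) : ℝ := Real.sqrt (∫ x in Ioi (0:ℝ), ‖g x‖ ^ 2)

lemma GN_nonneg (g : ℝ → ℂ) : 0 ≤ GN g := Real.sqrt_nonneg _

lemma CSset {g : ℝ → ℂ} (hg : MemLp g 2 (volume.restrict (Ioi (0:ℝ)))) {s : Set ℝ}
    (hs : s ⊆ Ioi 0) {ψ ψ' : ℝ → ℂ} (hψ : Continuous ψ)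
    (hi : IntegrableOn (en ψ ψ') s) :
    IntegrableOn (fun x => g x * ψ x) s ∧
      ‖∫ x in s, g x * ψ x‖ ≤ GN g * Real.sqrt (∫ x in s, en ψ ψ' x) := by
  have hg' : MemLp g 2 (volume.restrict s) := hg.mono_measure (Measure.restrict_mono hs le_rfl)
  have hψm : AEStronglyMeasurable ψ (volume.restrict s) := hψ.aestronglyMeasurable
  have hle : ∀ x, ‖ψ x‖ ^ 2 ≤ en ψ ψ' x := by
    intro x
    unfold en
    nlinarith [sq_nonneg ‖ψ' x‖]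
  have hi2 : Integrable (fun x => ‖ψ x‖ ^ 2) (volume.restrict s) := by
    refine Integrable.mono' hi (hψm.norm.pow 2) (Filter.Eventually.of_forall fun x => ?_)
    rw [Real.norm_of_nonneg (by positivity)]
    exact hle x
  have hψ2 : MemLp ψ 2 (volume.restrict s) := (memLp_two_iff_integrable_sq_norm hψm).2 hi2
  refine ⟨hg'.integrable_mul hψ2, ?_⟩
  have hH : (2 : ℝ).HolderConjugate 2 := Real.HolderConjugate.two_two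
  have h1 := integral_mul_norm_le_Lp_mul_Lq (μ := volume.restrict s) (f := g) (g := ψ) hH
    (by simpa using hg') (by simpa using hψ2)
  have e1 : (∫ x in s, ‖g x‖ ^ (2:ℝ)) ^ (1 / (2:ℝ)) = Real.sqrt (∫ x in s, ‖g x‖ ^ 2) := by
    rw [Real.sqrt_eq_rpow]
    simp only [Real.rpow_two]
  have e2 : (∫ x in s, ‖ψ x‖ ^ (2:ℝ)) ^ (1 / (2:ℝ)) = Real.sqrt (∫ x in s, ‖ψ x‖ ^ 2) := by
    rw [Real.sqrt_eq_rpow]
    simp only [Real.rpow_two]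
  rw [e1, e2] at h1
  have hg2 : Integrable (fun x => ‖g x‖ ^ 2) (volume.restrict (Ioi (0:ℝ))) :=
    (memLp_two_iff_integrable_sq_norm hg.1).1 hg
  calc ‖∫ x in s, g x * ψ x‖ ≤ ∫ x in s, ‖g x * ψ x‖ := norm_integral_le_integral_norm _
    _ = ∫ x in s, ‖g x‖ * ‖ψ x‖ := by simp only [norm_mul]
    _ ≤ Real.sqrt (∫ x in s, ‖g x‖ ^ 2) * Real.sqrt (∫ x in s, ‖ψ x‖ ^ 2) := h1
    _ ≤ GN g * Real.sqrt (∫ x in s, en ψ ψ' x) := by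
        apply mul_le_mul _ _ (Real.sqrt_nonneg _) (GN_nonneg g)
        · unfold GN
          apply Real.sqrt_le_sqrt
          exact setIntegral_mono_set hg2 (Filter.Eventually.of_forall fun x => sq_nonneg _)
            hs.eventuallyLE
        · apply Real.sqrt_le_sqrt
          exact integral_mono hi2 hi hle

lemma CSint {g : ℝ → ℂ} (hg : MemLp g 2 (volume.restrict (Ioi (0:ℝ)))) {V ψ ψ' : ℝ → ℂ}
    (h : IsSol V ψ ψ') {a b : ℝ} (ha : 0 ≤ a) (hab : a ≤ b) :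
    IntervalIntegrable (fun x => g x * ψ x) volume a b ∧
      ‖∫ x in a..b, g x * ψ x‖ ≤ GN g * Real.sqrt (∫ x in a..b, en ψ ψ' x) := by
  have hs : Ioc a b ⊆ Ioi 0 := fun x hx => lt_of_le_of_lt ha hx.1
  have hi : IntegrableOn (en ψ ψ') (Ioc a b) :=
    ((en_cont h).intervalIntegrable a b).1
  have := CSset hg hs h.cont hi
  rw [intervalIntegral.integral_of_le hab, intervalIntegral.integral_of_le hab,
    intervalIntegrable_iff_integrableOn_Ioc_of_le hab]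
  exact this

lemma Vz_cont {α : ℝ} (hα : 0 < α) (ζ : ℂ) : Continuous (Vz α ζ) := by
  unfold Vz
  exact pot_cont hα _ _

lemma Vz_re (α : ℝ) (ζ : ℂ) (x : ℝ) : (Vz α ζ x).re = 1 - ζ.re := by
  unfold Vz pot
  simp only [Complex.sub_re, Complex.mul_re, Complex.I_re, Complex.I_im, Complex.ofReal_re,
    Complex.ofReal_im, Complex.one_re]
  ring

lemma Vz_im (α : ℝ) (ζ : ℂ) (x : ℝ) : (Vz α ζ x).im = |x| ^ α + 1 - ζ.im := by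
  unfold Vz pot
  simp only [Complex.sub_im, Complex.mul_im, Complex.I_re, Complex.I_im, Complex.ofReal_re,
    Complex.ofReal_im, Complex.one_im]
  ring

lemma Vz_norm (α : ℝ) (ζ : ℂ) (x : ℝ) : ‖Vz α ζ x‖ ≤ |x| ^ α + ‖ζ‖ + 2 := by
  unfold Vz pot
  have h0 : 0 ≤ |x| ^ α := Real.rpow_nonneg (abs_nonneg x) α
  calc ‖Complex.I * ((|x| ^ α : ℝ) : ℂ) - (ζ - 1 - Complex.I)‖
      ≤ ‖Complex.I * ((|x| ^ α : ℝ) : ℂ)‖ + ‖ζ - 1 - Complex.I‖ := norm_sub_le _ _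
    _ ≤ |x| ^ α + (‖ζ‖ + 1 + 1) := by
        apply add_le_add
        · rw [norm_mul, Complex.norm_I, one_mul, Complex.norm_real, Real.norm_of_nonneg h0]
        · calc ‖ζ - 1 - Complex.I‖ ≤ ‖ζ - 1‖ + ‖Complex.I‖ := norm_sub_le _ _
            _ ≤ (‖ζ‖ + ‖(1:ℂ)‖) + ‖Complex.I‖ := by
                have := norm_sub_le ζ 1
                linarith
            _ = ‖ζ‖ + 1 + 1 := by rw [Complex.norm_I, norm_one]
    _ = _ := by ring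

lemma rpow_succ_le {α : ℝ} (hα : 0 < α) (hα1 : α < 1) {y : ℝ} (hy : 0 ≤ y) :
    (y + 1) ^ α ≤ y ^ α + 1 := by
  have := NNReal.rpow_add_le_add_rpow ⟨y, hy⟩ 1 hα.le hα1.le
  rw [NNReal.one_rpow] at this
  exact_mod_cast this

/-- bound of the potential on a unit interval to the right -/
lemma Vz_right {α : ℝ} (hα : 0 < α) (hα1 : α < 1) (ζ : ℂ) {a : ℝ} (ha : 0 ≤ a)
    (haz : a ^ α ≤ ‖ζ‖) : ∀ x ∈ Icc a (a + 1), ‖Vz α ζ x‖ ≤ 3 * (1 + ‖ζ‖) := by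
  intro x hx
  have h1 := Vz_norm α ζ x
  have h2 : |x| ^ α ≤ (a + 1) ^ α := by
    apply Real.rpow_le_rpow (abs_nonneg x) _ hα.le
    rw [abs_of_nonneg (ha.trans hx.1)]
    exact hx.2
  have h3 := rpow_succ_le hα hα1 ha
  have h4 := norm_nonneg ζ
  linarith

lemma Vz_left {α : ℝ} (hα : 0 < α) (ζ : ℂ) {y : ℝ} (hy : 1 ≤ y)
    (haz : y ^ α ≤ ‖ζ‖) : ∀ x ∈ Icc (y - 1) y, ‖Vz α ζ x‖ ≤ 3 * (1 + ‖ζ‖) := by
  intro x hx
  have h1 := Vz_norm α ζ x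
  have h2 : |x| ^ α ≤ y ^ α := by
    apply Real.rpow_le_rpow (abs_nonneg x) _ hα.le
    rw [abs_of_nonneg (by linarith [hx.1])]
    exact hx.2
  have h4 := norm_nonneg ζ
  linarith

/-- the coercivity constant -/
noncomputable def dl (ζ : ℂ) : ℝ := 1 / (8 * (1 + ‖ζ‖))

lemma dl_pos (ζ : ℂ) : 0 < dl ζ := by
  unfold dl
  positivity

lemma dl_le (ζ : ℂ) : dl ζ ≤ 1 / 8 := by
  unfold dl
  apply one_div_le_one_div_of_le (by norm_num)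
  have := norm_nonneg ζ
  linarith

lemma coer_aux {V : ℝ → ℂ} {s : Set ℝ} {m δ ε : ℝ} (hδ : 0 < δ) (hm : 0 ≤ m)
    (hδm : δ * (1 + m) ≤ 1 / 4) (hε : ε ^ 2 = 1) (hre : ∀ x ∈ s, |(V x).re| ≤ m)
    (him : ∀ x ∈ s, 1 ≤ ε * (V x).im) : ∃ w, Coer V w δ s := by
  have hδ4 : δ ≤ 1 / 4 := by nlinarith
  obtain ⟨σ, hσ⟩ : ∃ σ, σ = Real.sqrt (1 - δ ^ 2) := ⟨_, rfl⟩
  have hσ2 : σ ^ 2 = 1 - δ ^ 2 := by
    rw [hσ]; apply Real.sq_sqrt; nlinarith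
  have hσ0 : 0 ≤ σ := by rw [hσ]; exact Real.sqrt_nonneg _
  have hσ4 : 1 / 4 ≤ σ := by
    by_contra hcon
    push Not at hcon
    nlinarith
  refine ⟨⟨δ, -ε * σ⟩, hδ, le_rfl, ?_, ?_⟩
  · have h1 : ‖(⟨δ, -ε * σ⟩ : ℂ)‖ ^ 2 = 1 := by
      rw [← Complex.normSq_eq_norm_sq, Complex.normSq_mk]
      have : δ * δ + -ε * σ * (-ε * σ) = δ ^ 2 + ε ^ 2 * σ ^ 2 := by ring
      rw [this, hε, hσ2]; ring
    have h2 := norm_nonneg (⟨δ, -ε * σ⟩ : ℂ)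
    nlinarith
  · intro x hx
    have h1 := hre x hx
    have h2 := him x hx
    rw [Complex.mul_re]
    show δ ≤ δ * (V x).re - -ε * σ * (V x).im
    have h3 : -m ≤ (V x).re := by
      have := neg_abs_le (V x).re
      linarith
    have h4 : σ * 1 ≤ σ * (ε * (V x).im) := mul_le_mul_of_nonneg_left h2 hσ0
    have h5 : δ * (-m) ≤ δ * (V x).re := mul_le_mul_of_nonneg_left h3 hδ.le
    nlinarith

lemma dl_aux (ζ : ℂ) : dl ζ * (1 + (1 + ‖ζ‖)) ≤ 1 / 4 := by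
  unfold dl
  have h := norm_nonneg ζ
  rw [one_div, inv_mul_le_iff₀ (by positivity)]
  linarith

lemma re_aux (α : ℝ) (ζ : ℂ) (x : ℝ) : |(Vz α ζ x).re| ≤ 1 + ‖ζ‖ := by
  rw [Vz_re]
  have := Complex.abs_re_le_norm ζ
  calc |1 - ζ.re| ≤ |(1:ℝ)| + |ζ.re| := abs_sub _ _
    _ ≤ 1 + ‖ζ‖ := by rw [abs_one]; linarith

lemma coerA {α : ℝ} (hα : 0 < α) (ζ : ℂ) {Y : ℝ} (hY : Y ^ α + 2 ≤ ζ.im) :
    ∃ w, Coer (Vz α ζ) w (dl ζ) (Icc 0 Y) := by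
  apply coer_aux (dl_pos ζ) (m := 1 + ‖ζ‖) (ε := -1) (by positivity) (dl_aux ζ) (by norm_num)
  · intro x _
    exact re_aux α ζ x
  · intro x hx
    rw [Vz_im, abs_of_nonneg hx.1]
    have := Real.rpow_le_rpow hx.1 hx.2 hα.le
    linarith

lemma coerB {α : ℝ} (ζ : ℂ) (hz : ζ.re ≤ 0) :
    ∃ w, Coer (Vz α ζ) w (dl ζ) univ := by
  have h8 := dl_le ζ
  refine ⟨1, dl_pos ζ, ?_, ?_, ?_⟩
  · rw [Complex.one_re]; linarith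
  · rw [norm_one]
  · intro x _
    rw [one_mul, Vz_re]
    linarith

lemma coerC {α : ℝ} (ζ : ℂ) (hz : ζ.im ≤ 0) :
    ∃ w, Coer (Vz α ζ) w (dl ζ) univ := by
  apply coer_aux (dl_pos ζ) (m := 1 + ‖ζ‖) (ε := 1) (by positivity) (dl_aux ζ) (by norm_num)
  · intro x _
    exact re_aux α ζ x
  · intro x _
    rw [Vz_im]
    have : 0 ≤ |x| ^ α := Real.rpow_nonneg (abs_nonneg x) α
    linarith

/-- the constant `CK K / δ` -/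
noncomputable def BB (ζ : ℂ) : ℝ := CK (3 * (1 + ‖ζ‖)) / dl ζ

lemma BB_nonneg (ζ : ℂ) : 0 ≤ BB ζ := by
  unfold BB CK
  have := dl_pos ζ
  positivity

lemma BB_le (ζ : ℂ) : BB ζ ≤ 64 * (1 + ‖ζ‖) ^ 2 := by
  unfold BB CK dl
  have h := norm_nonneg ζ
  rw [div_div_eq_mul_div, div_one]
  nlinarith

lemma two_div_dl (ζ : ℂ) : 2 / dl ζ = 16 * (1 + ‖ζ‖) := by
  unfold dl
  rw [div_div_eq_mul_div, div_one]
  ring

lemma pack_wronsk {α : ℝ} (P : Pack α) (ζ : ℂ) (x : ℝ) :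
    P.χ ζ x * P.φ' ζ x - P.χ' ζ x * P.φ ζ x = 1 := by
  rw [(P.solχ ζ).wronsk (P.solφ ζ) x 0, P.χ0, P.φ0', P.χ0', P.φ0]
  rcases P.hp with ⟨h0, h1⟩ | ⟨h0, h1⟩
  · rw [h0, h1]; simp
  · rw [h0, h1]; simp

lemma JJ_phi_zero {α : ℝ} (P : Pack α) (ζ w : ℂ) : JJ w (P.φ ζ) (P.φ' ζ) 0 = 0 := by
  unfold JJ
  rw [P.φ0, P.φ0']
  rcases P.hp with ⟨h0, h1⟩ | ⟨h0, h1⟩
  · rw [h0, h1]; simp
  · rw [h0, h1]; simp

/-- everything about `φ` on `[0,y]` -/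
lemma phi_bounds {α : ℝ} (hα : 0 < α) (P : Pack α) (ζ w : ℂ) {y : ℝ} (hy : 1 ≤ y)
    (hyz : y ^ α ≤ ‖ζ‖) (hc : Coer (Vz α ζ) w (dl ζ) (Icc 0 y)) :
    P.φ ζ y ≠ 0 ∧ (∫ x in (0:ℝ)..y, en (P.φ ζ) (P.φ' ζ) x) ≤ (BB ζ) ^ 2 * ‖P.φ ζ y‖ ^ 2 ∧
      dl ζ / 2 * ‖P.φ ζ y‖ ^ 2 ≤ JJ w (P.φ ζ) (P.φ' ζ) y := by
  have h := left_bounds hy (Vz_cont hα ζ) (P.solφ ζ) hc (by positivity)
    (Vz_left hα ζ hy hyz) (JJ_phi_zero P ζ w).ge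
  refine ⟨?_, h.1, h.2⟩
  intro h0
  have h1 := h.1
  rw [h0, norm_zero] at h1
  have h2 : 0 < ∫ x in (0:ℝ)..y, en (P.φ ζ) (P.φ' ζ) x := by
    apply intervalIntegral.integral_pos (by linarith) (en_cont (P.solφ ζ)).continuousOn
      (fun x _ => en_nonneg _ _ _)
    refine ⟨0, ⟨le_rfl, by linarith⟩, ?_⟩
    unfold en
    rw [P.φ0, P.φ0']
    rcases P.hp with ⟨h0, h1⟩ | ⟨h0, h1⟩
    · rw [h0, h1]; simp
    · rw [h0, h1]; simp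
  nlinarith

/-- value at `0` of a right solution -/
lemma init_bound {α : ℝ} (P : Pack α) {δ : ℝ} {w : ℂ} (hδ : 0 < δ) (hδ1 : δ ≤ 1) (hw : ‖w‖ ≤ 1)
    {ψ ψ' : ℝ → ℂ} (hW : ψ 0 * P.p1 - ψ' 0 * P.p0 = 1)
    (hJ : JJ w ψ ψ' 0 ≤ -(δ / 2 * ‖ψ 0‖ ^ 2)) : ‖ψ 0‖ ≤ 2 / δ := by
  rw [le_div_iff₀ hδ]
  rcases P.hp with ⟨h0, h1⟩ | ⟨h0, h1⟩
  · rw [h0, h1] at hW
    have : ψ 0 = 1 := by simpa using hW
    rw [this, norm_one]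
    linarith
  · rw [h0, h1] at hW
    have h2 : ψ' 0 = -1 := by
      have : -ψ' 0 = 1 := by simpa using hW
      rw [← this, neg_neg]
    have h3 := abs_JJ_le hw ψ ψ' 0
    rw [h2, norm_neg, norm_one, mul_one] at h3
    have h4 := neg_abs_le (JJ w ψ ψ' 0)
    have h5 : δ / 2 * ‖ψ 0‖ ^ 2 ≤ ‖ψ 0‖ := by linarith
    by_cases hz : ‖ψ 0‖ = 0
    · rw [hz]; norm_num
    · have hpos : 0 < ‖ψ 0‖ := lt_of_le_of_ne (norm_nonneg _) (Ne.symm hz)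
      have : (‖ψ 0‖ * δ) * ‖ψ 0‖ ≤ 2 * ‖ψ 0‖ := by nlinarith
      exact le_of_mul_le_mul_right this hpos

/-- comparison of the transform by an arbitrary normalised solution with the truncated one -/
lemma core_diff {α : ℝ} (hα : 0 < α) (P : Pack α) {g : ℝ → ℂ}
    (hg : MemLp g 2 (volume.restrict (Ioi (0:ℝ)))) (ζ w : ℂ) {y : ℝ} (hy : 1 ≤ y)
    (hyz : y ^ α ≤ ‖ζ‖) (hc : Coer (Vz α ζ) w (dl ζ) (Icc 0 y)) {ψ ψ' : ℝ → ℂ}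
    (hψ : IsSol (Vz α ζ) ψ ψ') (hW : ψ 0 * P.p1 - ψ' 0 * P.p0 = 1)
    (hJ : JJ w ψ ψ' y ≤ 0) (tail : ℂ) (htail : ‖tail‖ ≤ GN g * (BB ζ * ‖ψ y‖)) :
    ‖((∫ x in (0:ℝ)..y, g x * ψ x) + tail) - Fy P g y ζ‖ * ‖P.φ ζ y‖ ≤
      2 * (GN g * BB ζ * (2 / dl ζ)) := by
  obtain ⟨hφ0, hE, hJφ⟩ := phi_bounds hα P ζ w hy hyz hc
  have hWx : ∀ x, ψ x * P.φ' ζ x - ψ' x * P.φ ζ x = 1 := by
    intro x
    rw [hψ.wronsk (P.solφ ζ) x 0, P.φ0, P.φ0']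
    exact hW
  have hprod : ‖P.φ ζ y‖ * ‖ψ y‖ ≤ 2 / dl ζ :=
    prod_bound (dl_pos ζ) hc.le (hWx y) hJφ hJ
  -- representation of ψ
  have hrep : ∀ x, ψ x = P.χ ζ x - (P.χ ζ y / P.φ ζ y) * P.φ ζ x +
      (ψ y / P.φ ζ y) * P.φ ζ x := by
    have hD : IsSol (Vz α ζ) (fun x => 1 * P.χ ζ x + (ψ y / P.φ ζ y - P.χ ζ y / P.φ ζ y) * P.φ ζ x)
        (fun x => 1 * P.χ' ζ x + (ψ y / P.φ ζ y - P.χ ζ y / P.φ ζ y) * P.φ' ζ x) :=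
      (P.solχ ζ).comb (P.solφ ζ) _ _
    intro x
    have hu := (hψ.unique (Vz_cont hα ζ) hD (X := y) (by field_simp; ring) (by
      have e1 := hWx y
      have e2 := pack_wronsk P ζ y
      field_simp
      linear_combination e2 - e1) x).1
    rw [hu]
    ring
  have hIψ := CSint hg hψ le_rfl (by linarith : (0:ℝ) ≤ y)
  have hIφ := CSint hg (P.solφ ζ) le_rfl (by linarith : (0:ℝ) ≤ y)
  have hIχ := CSint hg (P.solχ ζ) le_rfl (by linarith : (0:ℝ) ≤ y)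
  have hint : (∫ x in (0:ℝ)..y, g x * ψ x) = Fy P g y ζ +
      (ψ y / P.φ ζ y) * ∫ x in (0:ℝ)..y, g x * P.φ ζ x := by
    have e1 : ∀ x, g x * ψ x = g x * P.χ ζ x +
        (ψ y / P.φ ζ y - P.χ ζ y / P.φ ζ y) * (g x * P.φ ζ x) := by
      intro x
      conv_lhs => rw [hrep x]
      ring
    have e2 : (∫ x in (0:ℝ)..y, g x * ψ x) = (∫ x in (0:ℝ)..y, g x * P.χ ζ x) +
        (ψ y / P.φ ζ y - P.χ ζ y / P.φ ζ y) * ∫ x in (0:ℝ)..y, g x * P.φ ζ x := by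
      rw [← intervalIntegral.integral_const_mul, ← intervalIntegral.integral_add hIχ.1
        (hIφ.1.const_mul _)]
      exact intervalIntegral.integral_congr (fun x _ => e1 x)
    rw [e2]
    unfold Fy
    ring
  rw [hint]
  have e3 : Fy P g y ζ + (ψ y / P.φ ζ y) * (∫ x in (0:ℝ)..y, g x * P.φ ζ x) + tail - Fy P g y ζ =
      (ψ y / P.φ ζ y) * (∫ x in (0:ℝ)..y, g x * P.φ ζ x) + tail := by ring
  rw [e3]
  have hφpos : 0 < ‖P.φ ζ y‖ := norm_pos_iff.2 hφ0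
  have hG := GN_nonneg g
  have hB := BB_nonneg ζ
  have hE' : Real.sqrt (∫ x in (0:ℝ)..y, en (P.φ ζ) (P.φ' ζ) x) ≤ BB ζ * ‖P.φ ζ y‖ := by
    rw [← Real.sqrt_sq (by positivity : 0 ≤ BB ζ * ‖P.φ ζ y‖), mul_pow]
    exact Real.sqrt_le_sqrt hE
  have h1 : ‖∫ x in (0:ℝ)..y, g x * P.φ ζ x‖ ≤ GN g * (BB ζ * ‖P.φ ζ y‖) :=
    hIφ.2.trans (mul_le_mul_of_nonneg_left hE' hG)
  calc ‖(ψ y / P.φ ζ y) * (∫ x in (0:ℝ)..y, g x * P.φ ζ x) + tail‖ * ‖P.φ ζ y‖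
      ≤ (‖ψ y‖ / ‖P.φ ζ y‖ * (GN g * (BB ζ * ‖P.φ ζ y‖)) + GN g * (BB ζ * ‖ψ y‖)) * ‖P.φ ζ y‖ := by
        apply mul_le_mul_of_nonneg_right _ hφpos.le
        have h2 : ‖(ψ y / P.φ ζ y) * (∫ x in (0:ℝ)..y, g x * P.φ ζ x)‖ ≤
            ‖ψ y‖ / ‖P.φ ζ y‖ * (GN g * (BB ζ * ‖P.φ ζ y‖)) := by
          rw [norm_mul, norm_div]
          exact mul_le_mul_of_nonneg_left h1 (by positivity)
        exact (norm_add_le _ _).trans (add_le_add h2 htail)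
    _ = 2 * (GN g * BB ζ * (‖P.φ ζ y‖ * ‖ψ y‖)) := by
        field_simp
        ring
    _ ≤ 2 * (GN g * BB ζ * (2 / dl ζ)) := by
        apply mul_le_mul_of_nonneg_left _ (by norm_num)
        exact mul_le_mul_of_nonneg_left hprod (by positivity)

/-- the final numerical bound -/
lemma num_bound (g : ℝ → ℂ) (ζ : ℂ) :
    2 * (GN g * BB ζ * (2 / dl ζ)) ≤ (2048 * GN g + 1) * (1 + ‖ζ‖) ^ 3 := by
  have hG := GN_nonneg g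
  have hB := BB_nonneg ζ
  have hB2 := BB_le ζ
  have h := norm_nonneg ζ
  rw [two_div_dl]
  have h1 : GN g * BB ζ ≤ GN g * (64 * (1 + ‖ζ‖) ^ 2) := mul_le_mul_of_nonneg_left hB2 hG
  have h2 : GN g * BB ζ * (16 * (1 + ‖ζ‖)) ≤ GN g * (64 * (1 + ‖ζ‖) ^ 2) * (16 * (1 + ‖ζ‖)) :=
    mul_le_mul_of_nonneg_right h1 (by positivity)
  have h3 : 0 ≤ (1 + ‖ζ‖) ^ 3 := by positivity
  nlinarith

lemma num_bound1 (g : ℝ → ℂ) (ζ : ℂ) :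
    GN g * BB ζ * (2 / dl ζ) ≤ (2048 * GN g + 1) * (1 + ‖ζ‖) ^ 3 := by
  have h1 := num_bound g ζ
  have hG := GN_nonneg g
  have hB := BB_nonneg ζ
  have hd : 0 ≤ 2 / dl ζ := by have := dl_pos ζ; positivity
  have h2 : 0 ≤ GN g * BB ζ * (2 / dl ζ) := by positivity
  linarith

/-- the truncated solution -/
lemma psiY {α : ℝ} (P : Pack α) (ζ : ℂ) {Y : ℝ} (h0 : P.φ ζ Y ≠ 0) :
    ∃ ψ ψ' : ℝ → ℂ, IsSol (Vz α ζ) ψ ψ' ∧ ψ Y = 0 ∧ ψ 0 * P.p1 - ψ' 0 * P.p0 = 1 ∧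
      ∀ x, ψ x = P.χ ζ x - (P.χ ζ Y / P.φ ζ Y) * P.φ ζ x := by
  refine ⟨fun x => 1 * P.χ ζ x + (-(P.χ ζ Y / P.φ ζ Y)) * P.φ ζ x,
    fun x => 1 * P.χ' ζ x + (-(P.χ ζ Y / P.φ ζ Y)) * P.φ' ζ x,
    (P.solχ ζ).comb (P.solφ ζ) _ _, ?_, ?_, ?_⟩
  · field_simp
    ring
  · show (1 * P.χ ζ 0 + (-(P.χ ζ Y / P.φ ζ Y)) * P.φ ζ 0) * P.p1 -
      (1 * P.χ' ζ 0 + (-(P.χ ζ Y / P.φ ζ Y)) * P.φ' ζ 0) * P.p0 = 1
    have e := pack_wronsk P ζ 0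
    rw [P.χ0, P.φ0', P.χ0', P.φ0] at e ⊢
    linear_combination e
  · intro x
    ring

lemma Fy_eq {α : ℝ} (P : Pack α) {g : ℝ → ℂ} (hg : MemLp g 2 (volume.restrict (Ioi (0:ℝ))))
    (ζ : ℂ) {Y : ℝ} (hY : 0 ≤ Y) {ψ : ℝ → ℂ}
    (h : ∀ x, ψ x = P.χ ζ x - (P.χ ζ Y / P.φ ζ Y) * P.φ ζ x) :
    Fy P g Y ζ = ∫ x in (0:ℝ)..Y, g x * ψ x := by
  have hIφ := CSint hg (P.solφ ζ) le_rfl hY
  have hIχ := CSint hg (P.solχ ζ) le_rfl hY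
  unfold Fy
  rw [← intervalIntegral.integral_const_mul, ← intervalIntegral.integral_sub hIχ.1
        (hIφ.1.const_mul _)]
  apply intervalIntegral.integral_congr
  intro x _
  show g x * P.χ ζ x - P.χ ζ Y / P.φ ζ Y * (g x * P.φ ζ x) = g x * ψ x
  rw [h x]
  ring

end TruncAux

/-- bounds for the truncated transforms, and comparison with the full one when `Re ζ ≤ 0` -/
theorem trunc (α : ℝ) (hα : 0 < α) (hα1 : α < 1) (P : Pack α) (g : ℝ → ℂ)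
    (hg : MemLp g 2 (volume.restrict (Ioi (0:ℝ)))) :
    ∃ (C : ℝ) (N : ℕ), 0 < C ∧
      (∀ (ζ : ℂ) (y : ℝ), 1 ≤ y → y ^ α + 2 ≤ ζ.im →
        P.φ ζ y ≠ 0 ∧ ‖Fy P g y ζ‖ ≤ C * (1 + ‖ζ‖) ^ N) ∧
      (∀ (ζ : ℂ) (y Y : ℝ), 1 ≤ y → y + 1 ≤ Y → Y ^ α + 2 ≤ ζ.im →
        ‖Fy P g Y ζ - Fy P g y ζ‖ * ‖P.φ ζ y‖ ≤ C * (1 + ‖ζ‖) ^ N) ∧
      (∀ (ζ : ℂ) (y : ℝ) (ψ ψ' : ℝ → ℂ), 1 ≤ y → y ^ α ≤ ‖ζ‖ → ζ.re ≤ 0 → IsWeyl P ζ ψ ψ' →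
        P.φ ζ y ≠ 0 ∧ ‖(∫ x in Ioi (0:ℝ), g x * ψ x) - Fy P g y ζ‖ * ‖P.φ ζ y‖ ≤ C * (1 + ‖ζ‖) ^ N) := by
  refine ⟨2048 * GN g + 1, 3, by have := GN_nonneg g; positivity, ?_, ?_, ?_⟩
  · intro ζ y hy hyz
    obtain ⟨w, hc⟩ := coerA hα ζ hyz
    have him := Complex.abs_im_le_norm ζ
    have him' := le_abs_self ζ.im
    have hyz' : y ^ α ≤ ‖ζ‖ := by linarith
    obtain ⟨hφ0, hE, hJφ⟩ := phi_bounds hα P ζ w hy hyz' hc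
    refine ⟨hφ0, ?_⟩
    obtain ⟨ψ, ψ', hψ, hψY, hW, hrep⟩ := psiY P ζ hφ0
    rw [Fy_eq P hg ζ (by linarith) hrep]
    have h0z : (0:ℝ) ^ α ≤ ‖ζ‖ := by rw [Real.zero_rpow hα.ne']; exact norm_nonneg ζ
    have hJY : JJ w ψ ψ' y ≤ 0 := by
      unfold JJ
      rw [hψY]; simp
    have hr := right_bounds (y := 0) (Y := y) (K := 3 * (1 + ‖ζ‖)) (by linarith) (Vz_cont hα ζ) hψ hc
      (by positivity) (Vz_right hα hα1 ζ le_rfl h0z) hJY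
    have hi := init_bound P (dl_pos ζ) (by have := dl_le ζ; linarith) hc.le hW hr.2.1
    have hI := CSint hg hψ le_rfl (by linarith : (0:ℝ) ≤ y)
    have hG := GN_nonneg g
    have hB := BB_nonneg ζ
    have hE' : Real.sqrt (∫ x in (0:ℝ)..y, en ψ ψ' x) ≤ BB ζ * ‖ψ 0‖ := by
      rw [← Real.sqrt_sq (by positivity : 0 ≤ BB ζ * ‖ψ 0‖), mul_pow]
      exact Real.sqrt_le_sqrt hr.1
    calc ‖∫ x in (0:ℝ)..y, g x * ψ x‖ ≤ GN g * Real.sqrt (∫ x in (0:ℝ)..y, en ψ ψ' x) := hI.2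
      _ ≤ GN g * (BB ζ * ‖ψ 0‖) := mul_le_mul_of_nonneg_left hE' hG
      _ ≤ GN g * (BB ζ * (2 / dl ζ)) :=
          mul_le_mul_of_nonneg_left (mul_le_mul_of_nonneg_left hi hB) hG
      _ = GN g * BB ζ * (2 / dl ζ) := by ring
      _ ≤ _ := num_bound1 g ζ
  · intro ζ y Y hy hyY hYz
    obtain ⟨w, hc⟩ := coerA hα ζ hYz
    have him := Complex.abs_im_le_norm ζ
    have him' := le_abs_self ζ.im
    have hYz' : Y ^ α ≤ ‖ζ‖ := by linarith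
    have hyz' : y ^ α ≤ ‖ζ‖ :=
      (Real.rpow_le_rpow (by linarith) (by linarith) hα.le).trans hYz'
    obtain ⟨hφY, -, -⟩ := phi_bounds hα P ζ w (by linarith) hYz' hc
    obtain ⟨ψ, ψ', hψ, hψY, hW, hrep⟩ := psiY P ζ hφY
    rw [Fy_eq P hg ζ (by linarith) hrep]
    have hJY : JJ w ψ ψ' Y ≤ 0 := by
      unfold JJ
      rw [hψY]; simp
    have hc1 : Coer (Vz α ζ) w (dl ζ) (Icc y Y) := hc.mono (Icc_subset_Icc (by linarith) le_rfl)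
    have hc2 : Coer (Vz α ζ) w (dl ζ) (Icc 0 y) := hc.mono (Icc_subset_Icc le_rfl (by linarith))
    have hr := right_bounds (y := y) (Y := Y) (K := 3 * (1 + ‖ζ‖)) hyY (Vz_cont hα ζ) hψ hc1
      (by positivity) (Vz_right hα hα1 ζ (by linarith) hyz') hJY
    have hI := CSint hg hψ (by linarith : (0:ℝ) ≤ y) (by linarith : y ≤ Y)
    have hI0 := CSint hg hψ le_rfl (by linarith : (0:ℝ) ≤ y)
    have hG := GN_nonneg g
    have hB := BB_nonneg ζ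
    have hE' : Real.sqrt (∫ x in y..Y, en ψ ψ' x) ≤ BB ζ * ‖ψ y‖ := by
      rw [← Real.sqrt_sq (by positivity : 0 ≤ BB ζ * ‖ψ y‖), mul_pow]
      exact Real.sqrt_le_sqrt hr.1
    have hJy : JJ w ψ ψ' y ≤ 0 := by
      have h1 := hr.2.1
      have h2 : 0 ≤ dl ζ / 2 * ‖ψ y‖ ^ 2 := by have := dl_pos ζ; positivity
      linarith
    have hcd := core_diff hα P hg ζ w hy hyz' hc2 hψ hW hJy (∫ x in y..Y, g x * ψ x)
      (hI.2.trans (mul_le_mul_of_nonneg_left hE' hG))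
    rw [intervalIntegral.integral_add_adjacent_intervals hI0.1 hI.1] at hcd
    exact hcd.trans (num_bound g ζ)
  · intro ζ y ψ ψ' hy hyz hre hweyl
    obtain ⟨hψ, hint, hW⟩ := hweyl
    obtain ⟨w, hc⟩ := coerB (α := α) ζ hre
    have hc0 : Coer (Vz α ζ) w (dl ζ) (Icc 0 y) := hc.mono (subset_univ _)
    obtain ⟨hφ0, -, -⟩ := phi_bounds hα P ζ w hy hyz hc0
    refine ⟨hφ0, ?_⟩
    have hinty : IntegrableOn (en ψ ψ') (Ioi y) :=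
      hint.mono_set (Ioi_subset_Ioi (by linarith))
    have hr := right_bounds_inf (y := y) (K := 3 * (1 + ‖ζ‖)) (Vz_cont hα ζ) hψ
      (hc.mono (subset_univ _)) (by positivity) (Vz_right hα hα1 ζ (by linarith) hyz) hinty
    have hG := GN_nonneg g
    have hB := BB_nonneg ζ
    have hE' : Real.sqrt (∫ x in Ioi y, en ψ ψ' x) ≤ BB ζ * ‖ψ y‖ := by
      rw [← Real.sqrt_sq (by positivity : 0 ≤ BB ζ * ‖ψ y‖), mul_pow]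
      exact Real.sqrt_le_sqrt hr.1
    have hI := CSset hg (s := Ioi y) (Ioi_subset_Ioi (by linarith)) hψ.cont hinty
    have hI0 := CSset hg (s := Ioi 0) (subset_refl _) hψ.cont hint
    have hJy : JJ w ψ ψ' y ≤ 0 := by
      have h1 := hr.2.1
      have h2 : 0 ≤ dl ζ / 2 * ‖ψ y‖ ^ 2 := by have := dl_pos ζ; positivity
      linarith
    have hcd := core_diff hα P hg ζ w hy hyz hc0 hψ hW hJy (∫ x in Ioi y, g x * ψ x)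
      (hI.2.trans (mul_le_mul_of_nonneg_left hE' hG))
    rw [intervalIntegral.integral_interval_add_Ioi hI0.1 hI.1] at hcd
    exact hcd.trans (num_bound g ζ)

/-- polynomial bound outside the open first quadrant -/
theorem outside (α : ℝ) (hα : 0 < α) (hα1 : α < 1) (P : Pack α) (g : ℝ → ℂ)
    (hg : MemLp g 2 (volume.restrict (Ioi (0:ℝ)))) :
    ∃ (C : ℝ) (N : ℕ), 0 < C ∧ ∀ (ζ : ℂ) (ψ ψ' : ℝ → ℂ), (ζ.re ≤ 0 ∨ ζ.im ≤ 0) → IsWeyl P ζ ψ ψ' →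
      ‖∫ x in Ioi (0:ℝ), g x * ψ x‖ ≤ C * (1 + ‖ζ‖) ^ N := by
  refine ⟨2048 * GN g + 1, 3, by have := GN_nonneg g; positivity, ?_⟩
  intro ζ ψ ψ' hz hweyl
  obtain ⟨hψ, hint, hW⟩ := hweyl
  obtain ⟨w, hc⟩ : ∃ w, Coer (Vz α ζ) w (dl ζ) univ := by
    rcases hz with h | h
    · exact coerB ζ h
    · exact coerC ζ h
  have h0z : (0:ℝ) ^ α ≤ ‖ζ‖ := by rw [Real.zero_rpow hα.ne']; exact norm_nonneg ζ
  have hr := right_bounds_inf (y := 0) (K := 3 * (1 + ‖ζ‖)) (Vz_cont hα ζ) hψ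
    (hc.mono (subset_univ _)) (by positivity) (Vz_right hα hα1 ζ le_rfl h0z) hint
  have hi := init_bound P (dl_pos ζ) (by have := dl_le ζ; linarith) hc.le hW hr.2.1
  have hI := CSset hg (s := Ioi 0) (subset_refl _) hψ.cont hint
  have hG := GN_nonneg g
  have hB := BB_nonneg ζ
  have hE' : Real.sqrt (∫ x in Ioi 0, en ψ ψ' x) ≤ BB ζ * ‖ψ 0‖ := by
    rw [← Real.sqrt_sq (by positivity : 0 ≤ BB ζ * ‖ψ 0‖), mul_pow]
    exact Real.sqrt_le_sqrt hr.1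
  calc ‖∫ x in Ioi (0:ℝ), g x * ψ x‖ ≤ GN g * Real.sqrt (∫ x in Ioi (0:ℝ), en ψ ψ' x) := hI.2
    _ ≤ GN g * (BB ζ * ‖ψ 0‖) := mul_le_mul_of_nonneg_left hE' hG
    _ ≤ GN g * (BB ζ * (2 / dl ζ)) :=
        mul_le_mul_of_nonneg_left (mul_le_mul_of_nonneg_left hi hB) hG
    _ = GN g * BB ζ * (2 / dl ζ) := by ring
    _ ≤ _ := num_bound1 g ζ

end Pool.Agent.Helper209.AC.Trunc
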