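import Mathlib

set_option autoImplicit false

namespace Pool.Agent.Helper209.AC.WeylFam

open MeasureTheory Set

/-- `ψ' ' = V ψ` on the whole line (`ψ'` is the derivative of `ψ`). -/
def IsSol (V ψ ψ' : ℝ → ℂ) : Prop :=
  ∀ x, HasDerivAt ψ (ψ' x) x ∧ HasDerivAt ψ' (V x * ψ x) x

/-- Cauchy-Schwarz on a unit interval. -/
theorem cs_unit (f : ℝ → ℝ) (hf : Continuous f) (a : ℝ) :
    (∫ t in a..(a+1), f t) ^ 2 ≤ ∫ t in a..(a+1), f t ^ 2 := by
  set c := ∫ t in a..(a+1), f t with hc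
  have h0 : 0 ≤ ∫ t in a..(a+1), (f t - c) ^ 2 := by
    apply intervalIntegral.integral_nonneg (by linarith)
    intro u _
    positivity
  have h1 : ∫ t in a..(a+1), (f t - c) ^ 2 =
      (∫ t in a..(a+1), f t ^ 2) - 2 * c * (∫ t in a..(a+1), f t) + c ^ 2 := by
    have : (fun t => (f t - c) ^ 2) = fun t => (f t ^ 2 - 2 * c * f t) + c ^ 2 := by
      funext t; ring
    rw [this, intervalIntegral.integral_add, intervalIntegral.integral_sub,
      intervalIntegral.integral_const_mul, intervalIntegral.integral_const]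
    · simp
    · exact (by fun_prop : Continuous _).intervalIntegrable _ _
    · exact (by fun_prop : Continuous _).intervalIntegrable _ _
    · exact (by fun_prop : Continuous _).intervalIntegrable _ _
    · exact (by fun_prop : Continuous _).intervalIntegrable _ _
  rw [h1, ← hc] at h0
  nlinarith [h0]

/-- trace inequality -/
theorem trace (f g : ℝ → ℂ) (hg : Continuous g) (hfg : ∀ t, HasDerivAt f (g t) t) (x : ℝ) :
    ‖f x‖ ≤ (∫ t in x..(x+1), ‖f t‖) + ∫ t in x..(x+1), ‖g t‖ := by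
  have hf : Continuous f := continuous_iff_continuousAt.2 fun t => (hfg t).continuousAt
  have hpt : ∀ t ∈ Icc x (x+1), ‖f x‖ ≤ ‖f t‖ + ∫ t in x..(x+1), ‖g t‖ := by
    intro t ht
    have h1 : f t - f x = ∫ s in x..t, g s :=
      (intervalIntegral.integral_eq_sub_of_hasDerivAt (fun s _ => hfg s)
        (hg.intervalIntegrable _ _)).symm
    have h2 : ‖f t - f x‖ ≤ ∫ s in x..t, ‖g s‖ := by
      rw [h1]
      exact intervalIntegral.norm_integral_le_integral_norm ht.1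
    have h3 : (∫ s in x..t, ‖g s‖) ≤ ∫ s in x..(x+1), ‖g s‖ := by
      apply intervalIntegral.integral_mono_interval le_rfl ht.1 ht.2
      · exact Filter.Eventually.of_forall fun s => norm_nonneg _
      · exact hg.norm.intervalIntegrable _ _
    have h4 : ‖f x‖ ≤ ‖f t‖ + ‖f t - f x‖ := by
      have : f x = f t - (f t - f x) := by ring
      calc ‖f x‖ = ‖f t - (f t - f x)‖ := by rw [← this]
        _ ≤ _ := norm_sub_le _ _
    linarith
  have h5 : (∫ t in x..(x+1), ‖f x‖) ≤ ∫ t in x..(x+1), (‖f t‖ + ∫ t in x..(x+1), ‖g t‖) := by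
    apply intervalIntegral.integral_mono_on (by linarith)
    · exact continuous_const.intervalIntegrable _ _
    · exact (by fun_prop : Continuous _).intervalIntegrable _ _
    · exact hpt
  rw [intervalIntegral.integral_add (hf.norm.intervalIntegrable _ _)
    (continuous_const.intervalIntegrable _ _), intervalIntegral.integral_const,
    intervalIntegral.integral_const] at h5
  simpa using h5

section
variable {V ψ ψ' : ℝ → ℂ}

theorem IsSol.cont (h : IsSol V ψ ψ') : Continuous ψ :=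
  continuous_iff_continuousAt.2 fun t => (h t).1.continuousAt

theorem IsSol.cont' (h : IsSol V ψ ψ') : Continuous ψ' :=
  continuous_iff_continuousAt.2 fun t => (h t).2.continuousAt

/-- energy density -/
noncomputable def en (ψ ψ' : ℝ → ℂ) (x : ℝ) : ℝ := ‖ψ x‖ ^ 2 + ‖ψ' x‖ ^ 2

theorem IsSol.cont_en (h : IsSol V ψ ψ') : Continuous (en ψ ψ') := by
  unfold en
  have h1 := h.cont
  have h2 := h.cont'
  fun_prop

theorem en_nonneg (ψ ψ' : ℝ → ℂ) (x : ℝ) : 0 ≤ en ψ ψ' x := by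
  unfold en; positivity

/-- flux -/
noncomputable def Jf (w : ℂ) (ψ ψ' : ℝ → ℂ) (x : ℝ) : ℝ := (w * ((starRingEnd ℂ) (ψ x) * ψ' x)).re

theorem Jf_le (w : ℂ) (hw : ‖w‖ ≤ 1) (ψ ψ' : ℝ → ℂ) (x : ℝ) : |Jf w ψ ψ' x| ≤ en ψ ψ' x / 2 := by
  have h1 : |Jf w ψ ψ' x| ≤ ‖w * ((starRingEnd ℂ) (ψ x) * ψ' x)‖ := Complex.abs_re_le_norm _
  have h2 : ‖w * ((starRingEnd ℂ) (ψ x) * ψ' x)‖ = ‖w‖ * (‖ψ x‖ * ‖ψ' x‖) := by
    rw [norm_mul, norm_mul, RCLike.norm_conj]
  have h3 : ‖w‖ * (‖ψ x‖ * ‖ψ' x‖) ≤ 1 * (‖ψ x‖ * ‖ψ' x‖) :=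
    mul_le_mul_of_nonneg_right hw (by positivity)
  unfold en
  nlinarith [sq_nonneg (‖ψ x‖ - ‖ψ' x‖)]

theorem IsSol.hasDeriv_J (h : IsSol V ψ ψ') (w : ℂ) (x : ℝ) :
    HasDerivAt (Jf w ψ ψ') (w.re * ‖ψ' x‖ ^ 2 + (w * V x).re * ‖ψ x‖ ^ 2) x := by
  have h1 : HasDerivAt (fun y => (starRingEnd ℂ) (ψ y)) ((starRingEnd ℂ) (ψ' x)) x := (h x).1.star
  have h2 := (h1.mul (h x).2).const_mul w
  have h3 := (Complex.reCLM.hasFDerivAt (x := w * ((starRingEnd ℂ) (ψ x) * ψ' x))).comp_hasDerivAt x h2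
  have h4 : Complex.reCLM (w * ((starRingEnd ℂ) (ψ' x) * ψ' x + (starRingEnd ℂ) (ψ x) * (V x * ψ x)))
      = w.re * ‖ψ' x‖ ^ 2 + (w * V x).re * ‖ψ x‖ ^ 2 := by
    have e1 : (starRingEnd ℂ) (ψ' x) * ψ' x = ((‖ψ' x‖ ^ 2 : ℝ) : ℂ) := by
      rw [mul_comm, Complex.mul_conj, Complex.normSq_eq_norm_sq]
    have e2 : w * ((starRingEnd ℂ) (ψ x) * (V x * ψ x)) = (w * V x) * ((‖ψ x‖ ^ 2 : ℝ) : ℂ) := by
      have : ψ x * (starRingEnd ℂ) (ψ x) = ((‖ψ x‖ ^ 2 : ℝ) : ℂ) := by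
        rw [Complex.mul_conj, Complex.normSq_eq_norm_sq]
      calc w * ((starRingEnd ℂ) (ψ x) * (V x * ψ x)) = (w * V x) * (ψ x * (starRingEnd ℂ) (ψ x)) := by ring
        _ = _ := by rw [this]
    rw [mul_add, e1, e2]
    simp only [Complex.reCLM_apply, Complex.add_re, Complex.re_mul_ofReal]
  rw [h4] at h3
  exact h3

theorem IsSol.J_sub (h : IsSol V ψ ψ') (hV : Continuous V) (w : ℂ) (X δ : ℝ) (hw : δ ≤ w.re)
    (hcoer : ∀ x, X ≤ x → δ ≤ (w * V x).re) (a b : ℝ) (ha : X ≤ a) (hab : a ≤ b) :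
    δ * (∫ t in a..b, en ψ ψ' t) ≤ Jf w ψ ψ' b - Jf w ψ ψ' a := by
  have hc1 := h.cont
  have hc2 := h.cont'
  have hcd : Continuous fun x => (w.re * ‖ψ' x‖ ^ 2 + (w * V x).re * ‖ψ x‖ ^ 2) := by fun_prop
  have h1 := intervalIntegral.integral_eq_sub_of_hasDerivAt (a := a) (b := b)
    (fun s _ => h.hasDeriv_J w s) (hcd.intervalIntegrable _ _)
  rw [← h1, ← intervalIntegral.integral_const_mul]
  apply intervalIntegral.integral_mono_on hab
  · exact (h.cont_en.const_mul δ |>.intervalIntegrable _ _)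
  · exact hcd.intervalIntegrable _ _
  · intro x hx
    have e1 := hcoer x (ha.trans hx.1)
    unfold en
    nlinarith [sq_nonneg ‖ψ x‖, sq_nonneg ‖ψ' x‖, mul_le_mul_of_nonneg_right e1 (sq_nonneg ‖ψ x‖),
      mul_le_mul_of_nonneg_right hw (sq_nonneg ‖ψ' x‖)]

theorem IsSol.trace0 (h : IsSol V ψ ψ') (x : ℝ) :
    ‖ψ x‖ ^ 2 ≤ 2 * ∫ t in x..(x+1), en ψ ψ' t := by
  have hc1 := h.cont
  have hc2 := h.cont'
  have h1 := trace ψ ψ' hc2 (fun t => (h t).1) x
  have h2 := cs_unit (fun t => ‖ψ t‖) hc1.norm x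
  have h3 := cs_unit (fun t => ‖ψ' t‖) hc2.norm x
  have h4 : ∫ t in x..(x+1), en ψ ψ' t = (∫ t in x..(x+1), ‖ψ t‖ ^ 2) + ∫ t in x..(x+1), ‖ψ' t‖ ^ 2 := by
    unfold en
    exact intervalIntegral.integral_add ((by fun_prop : Continuous _).intervalIntegrable _ _)
      ((by fun_prop : Continuous _).intervalIntegrable _ _)
  rw [h4]
  set A := ∫ t in x..(x+1), ‖ψ t‖
  set B := ∫ t in x..(x+1), ‖ψ' t‖
  have h5 : ‖ψ x‖ ^ 2 ≤ (A + B) ^ 2 := pow_le_pow_left₀ (norm_nonneg _) h1 2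
  nlinarith [sq_nonneg (A - B)]

theorem IsSol.trace1 (h : IsSol V ψ ψ') (hV : Continuous V) (K : ℝ) (hK : 0 ≤ K) (x : ℝ)
    (hVK : ∀ t ∈ Icc x (x + 1), ‖V t‖ ≤ K) :
    ‖ψ' x‖ ^ 2 ≤ (1 + K) ^ 2 * ∫ t in x..(x+1), en ψ ψ' t := by
  have hc1 := h.cont
  have hc2 := h.cont'
  have h1 := trace ψ' (fun t => V t * ψ t) (by fun_prop) (fun t => (h t).2) x
  have h2 := cs_unit (fun t => ‖ψ t‖) hc1.norm x
  have h3 := cs_unit (fun t => ‖ψ' t‖) hc2.norm x
  have h4 : ∫ t in x..(x+1), en ψ ψ' t = (∫ t in x..(x+1), ‖ψ t‖ ^ 2) + ∫ t in x..(x+1), ‖ψ' t‖ ^ 2 := by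
    unfold en
    exact intervalIntegral.integral_add ((by fun_prop : Continuous _).intervalIntegrable _ _)
      ((by fun_prop : Continuous _).intervalIntegrable _ _)
  have h6 : (∫ t in x..(x+1), ‖V t * ψ t‖) ≤ K * ∫ t in x..(x+1), ‖ψ t‖ := by
    rw [← intervalIntegral.integral_const_mul]
    apply intervalIntegral.integral_mono_on (by linarith)
    · exact (by fun_prop : Continuous _).intervalIntegrable _ _
    · exact (by fun_prop : Continuous _).intervalIntegrable _ _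
    · intro t ht
      rw [norm_mul]
      exact mul_le_mul_of_nonneg_right (hVK t ht) (norm_nonneg _)
  rw [h4]
  have hA0 : 0 ≤ ∫ t in x..(x+1), ‖ψ t‖ :=
    intervalIntegral.integral_nonneg (by linarith) fun _ _ => norm_nonneg _
  have hB0 : 0 ≤ ∫ t in x..(x+1), ‖ψ' t‖ :=
    intervalIntegral.integral_nonneg (by linarith) fun _ _ => norm_nonneg _
  set A := ∫ t in x..(x+1), ‖ψ t‖
  set B := ∫ t in x..(x+1), ‖ψ' t‖
  have h7 : ‖ψ' x‖ ≤ B + K * A := h1.trans (by linarith)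
  have h5 : ‖ψ' x‖ ^ 2 ≤ (B + K * A) ^ 2 := pow_le_pow_left₀ (norm_nonneg _) h7 2
  have h8 : (B + K * A) ^ 2 ≤ (1 + K) ^ 2 * (A ^ 2 + B ^ 2) := by
    have : (1 + K) ^ 2 * (A ^ 2 + B ^ 2) - (B + K * A) ^ 2 = A ^ 2 + (2 * K) * (A^2 - A * B + B ^2) + K ^ 2 * B ^ 2 := by ring
    have h9 : 0 ≤ A^2 - A * B + B ^2 := by nlinarith [sq_nonneg (A - B), mul_nonneg hA0 hB0]
    have h10 : 0 ≤ (2 * K) * (A^2 - A * B + B ^2) := by positivity
    have h11 : 0 ≤ K ^ 2 * B ^ 2 := by positivity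
    nlinarith [sq_nonneg A]
  have h12 : (1 + K) ^ 2 * (A ^ 2 + B ^ 2) ≤ (1 + K) ^ 2 * ((∫ t in x..(x+1), ‖ψ t‖ ^ 2) + ∫ t in x..(x+1), ‖ψ' t‖ ^ 2) :=
    mul_le_mul_of_nonneg_left (by linarith) (by positivity)
  linarith

theorem IsSol.add_mul {φ φ' : ℝ → ℂ} (h : IsSol V ψ ψ') (h' : IsSol V φ φ') (m : ℂ) :
    IsSol V (fun x => ψ x + m * φ x) (fun x => ψ' x + m * φ' x) := by
  intro x
  refine ⟨(h x).1.add ((h' x).1.const_mul m), ?_⟩
  have h3 := (h x).2.add ((h' x).2.const_mul m)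
  have h4 : V x * (ψ x + m * φ x) = V x * ψ x + m * (V x * φ x) := by ring
  show HasDerivAt _ (V x * (ψ x + m * φ x)) x
  rw [h4]
  exact h3

end

/-- monotonicity of the energy integral in the endpoint -/
theorem en_mono {ψ ψ' : ℝ → ℂ} (hc : Continuous (en ψ ψ')) (a b c : ℝ) (hab : a ≤ b) (hbc : b ≤ c) :
    (∫ t in a..b, en ψ ψ' t) ≤ ∫ t in a..c, en ψ ψ' t :=
  intervalIntegral.integral_mono_interval le_rfl hab hbc
    (Filter.Eventually.of_forall fun _ => en_nonneg _ _ _) (hc.intervalIntegrable _ _)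

/-- Growth of the energy: if `G' ≥ 2 δ G` -/
theorem growth (e : ℝ → ℝ) (he : Continuous e) (X δ : ℝ)
    (h : ∀ x, X ≤ x → 2 * δ * (∫ t in X..x, e t) ≤ e x) (a b : ℝ) (ha : X ≤ a) (hab : a ≤ b) :
    (∫ t in X..a, e t) * Real.exp (2 * δ * (b - a)) ≤ ∫ t in X..b, e t := by
  have hG : ∀ x, HasDerivAt (fun y => ∫ t in X..y, e t) (e x) x := fun x =>
    intervalIntegral.integral_hasDerivAt_right (he.intervalIntegrable _ _)
      (he.stronglyMeasurableAtFilter _ _) he.continuousAt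
  have hexp : ∀ x, HasDerivAt (fun y => Real.exp (-(2 * δ) * y)) (Real.exp (-(2 * δ) * x) * (-(2 * δ))) x := by
    intro x
    have := ((hasDerivAt_id x).const_mul (-(2 * δ))).exp
    simpa using this
  have hmul : ∀ x, HasDerivAt (fun y => (∫ t in X..y, e t) * Real.exp (-(2 * δ) * y))
      (e x * Real.exp (-(2 * δ) * x) + (∫ t in X..x, e t) * (Real.exp (-(2 * δ) * x) * (-(2 * δ)))) x :=
    fun x => (hG x).mul (hexp x)
  have hmono : MonotoneOn (fun y => (∫ t in X..y, e t) * Real.exp (-(2 * δ) * y)) (Ici X) := by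
    apply monotoneOn_of_deriv_nonneg (convex_Ici X)
    · exact fun x _ => (hmul x).continuousAt.continuousWithinAt
    · exact fun x _ => (hmul x).differentiableAt.differentiableWithinAt
    · intro x hx
      rw [interior_Ici] at hx
      rw [(hmul x).deriv]
      have h1 := h x (le_of_lt hx)
      have h2 : e x * Real.exp (-(2 * δ) * x) + (∫ t in X..x, e t) * (Real.exp (-(2 * δ) * x) * (-(2 * δ)))
        = (e x - 2 * δ * (∫ t in X..x, e t)) * Real.exp (-(2 * δ) * x) := by ring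
      rw [h2]
      exact mul_nonneg (by linarith) (Real.exp_pos _).le
  have h1 := hmono (a := a) (b := b) ha (ha.trans hab) hab
  simp only at h1
  have h2 : Real.exp (2 * δ * (b - a)) = Real.exp (-(2 * δ) * a) * Real.exp (2 * δ * b) := by
    rw [← Real.exp_add]; congr 1; ring
  have h3 : Real.exp (-(2 * δ) * b) * Real.exp (2 * δ * b) = 1 := by
    rw [← Real.exp_add]; simp
  calc (∫ t in X..a, e t) * Real.exp (2 * δ * (b - a))
      = ((∫ t in X..a, e t) * Real.exp (-(2 * δ) * a)) * Real.exp (2 * δ * b) := by rw [h2]; ring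
    _ ≤ ((∫ t in X..b, e t) * Real.exp (-(2 * δ) * b)) * Real.exp (2 * δ * b) :=
        mul_le_mul_of_nonneg_right h1 (Real.exp_pos _).le
    _ = ∫ t in X..b, e t := by rw [mul_assoc, h3, mul_one]

/-- Final decay of a finite energy solution. -/
theorem decay {V ψ ψ' : ℝ → ℂ} (h : IsSol V ψ ψ') (hV : Continuous V) (w : ℂ) (X δ : ℝ) (hδ : 0 < δ)
    (hw : δ ≤ w.re) (hw1 : ‖w‖ ≤ 1)
    (hcoer : ∀ x, X ≤ x → δ ≤ (w * V x).re) (B : ℝ) (hB : ∀ L, X ≤ L → (∫ t in X..L, en ψ ψ' t) ≤ B)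
    (m : ℝ) (hm : -Jf w ψ ψ' X ≤ m) (x : ℝ) (hx : X ≤ x) :
    ‖ψ x‖ ^ 2 ≤ 2 / δ * m * Real.exp (-(2 * δ) * (x - X)) := by
  -- J ≤ 0
  have hJ0 : ∀ y, X ≤ y → Jf w ψ ψ' y ≤ 0 := by
    intro y hy
    by_contra hpos
    push Not at hpos
    set c := Jf w ψ ψ' y with hc
    have h1 : ∀ t, y ≤ t → 2 * c ≤ en ψ ψ' t := by
      intro t ht
      have h2 := h.J_sub hV w X δ hw hcoer y t hy ht
      have h3 : 0 ≤ ∫ s in y..t, en ψ ψ' s := intervalIntegral.integral_nonneg ht fun _ _ => en_nonneg _ _ _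
      have h4 := (abs_le.1 (Jf_le w hw1 ψ ψ' t)).2
      have h5 : 0 ≤ δ * ∫ s in y..t, en ψ ψ' s := mul_nonneg hδ.le h3
      linarith
    set L := y + (B + 1) / (2 * c) with hL
    have hBn : 0 ≤ B := by
      have := hB X le_rfl
      simpa using this
    have hyL : y ≤ L := by
      have : 0 ≤ (B + 1) / (2 * c) := by positivity
      linarith
    have h6 : (∫ t in y..L, (2 * c)) ≤ ∫ t in y..L, en ψ ψ' t := by
      apply intervalIntegral.integral_mono_on hyL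
      · exact continuous_const.intervalIntegrable _ _
      · exact h.cont_en.intervalIntegrable _ _
      · intro t ht; exact h1 t ht.1
    rw [intervalIntegral.integral_const] at h6
    have h7 : (∫ t in X..L, en ψ ψ' t) = (∫ t in X..y, en ψ ψ' t) + ∫ t in y..L, en ψ ψ' t :=
      (intervalIntegral.integral_add_adjacent_intervals (h.cont_en.intervalIntegrable _ _)
        (h.cont_en.intervalIntegrable _ _)).symm
    have h8 : 0 ≤ ∫ t in X..y, en ψ ψ' t := intervalIntegral.integral_nonneg hy fun _ _ => en_nonneg _ _ _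
    have h9 := hB L (hy.trans hyL)
    have h10 : (L - y) • (2 * c) = B + 1 := by
      rw [hL, smul_eq_mul]; field_simp; ring
    linarith
  -- decay of -J
  have hdec : -Jf w ψ ψ' x ≤ m * Real.exp (-(2 * δ) * (x - X)) := by
    have hexp : ∀ x, HasDerivAt (fun y => Real.exp ((2 * δ) * y)) (Real.exp ((2 * δ) * x) * (2 * δ)) x := by
      intro x
      have := ((hasDerivAt_id x).const_mul (2 * δ)).exp
      simpa using this
    have hmul : ∀ x, HasDerivAt (fun y => Jf w ψ ψ' y * Real.exp ((2 * δ) * y))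
      ((w.re * ‖ψ' x‖ ^ 2 + (w * V x).re * ‖ψ x‖ ^ 2) * Real.exp ((2 * δ) * x)
        + Jf w ψ ψ' x * (Real.exp ((2 * δ) * x) * (2 * δ))) x :=
      fun x => (h.hasDeriv_J w x).mul (hexp x)
    have hmono : MonotoneOn (fun y => Jf w ψ ψ' y * Real.exp ((2 * δ) * y)) (Ici X) := by
      apply monotoneOn_of_deriv_nonneg (convex_Ici X)
      · exact fun x _ => (hmul x).continuousAt.continuousWithinAt
      · exact fun x _ => (hmul x).differentiableAt.differentiableWithinAt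
      · intro y hy
        rw [interior_Ici] at hy
        rw [(hmul y).deriv]
        have h1 := hcoer y (le_of_lt hy)
        have h2 := (abs_le.1 (Jf_le w hw1 ψ ψ' y)).1
        have h3 : δ * en ψ ψ' y ≤ w.re * ‖ψ' y‖ ^ 2 + (w * V y).re * ‖ψ y‖ ^ 2 := by
          unfold en
          nlinarith [mul_le_mul_of_nonneg_right h1 (sq_nonneg ‖ψ y‖),
            mul_le_mul_of_nonneg_right hw (sq_nonneg ‖ψ' y‖)]
        have h4 : 0 ≤ (w.re * ‖ψ' y‖ ^ 2 + (w * V y).re * ‖ψ y‖ ^ 2) + 2 * δ * Jf w ψ ψ' y := by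
          nlinarith
        have h5 : (w.re * ‖ψ' y‖ ^ 2 + (w * V y).re * ‖ψ y‖ ^ 2) * Real.exp ((2 * δ) * y)
            + Jf w ψ ψ' y * (Real.exp ((2 * δ) * y) * (2 * δ)) =
            ((w.re * ‖ψ' y‖ ^ 2 + (w * V y).re * ‖ψ y‖ ^ 2) + 2 * δ * Jf w ψ ψ' y) * Real.exp ((2 * δ) * y) := by
          ring
        rw [h5]
        exact mul_nonneg h4 (Real.exp_pos _).le
    have h1 := hmono (a := X) (b := x) self_mem_Ici hx hx
    simp only at h1
    have h2 : Real.exp (-(2 * δ) * (x - X)) = Real.exp ((2 * δ) * X) * Real.exp (-(2 * δ) * x) := by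
      rw [← Real.exp_add]; congr 1; ring
    have h3 : Real.exp ((2 * δ) * x) * Real.exp (-(2 * δ) * x) = 1 := by
      rw [← Real.exp_add]; simp
    have h4 : Jf w ψ ψ' X * Real.exp (-(2 * δ) * (x - X)) ≤ Jf w ψ ψ' x := by
      calc Jf w ψ ψ' X * Real.exp (-(2 * δ) * (x - X))
          = (Jf w ψ ψ' X * Real.exp ((2 * δ) * X)) * Real.exp (-(2 * δ) * x) := by rw [h2]; ring
        _ ≤ (Jf w ψ ψ' x * Real.exp ((2 * δ) * x)) * Real.exp (-(2 * δ) * x) :=
          mul_le_mul_of_nonneg_right h1 (Real.exp_pos _).le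
        _ = _ := by rw [mul_assoc, h3, mul_one]
    have h5 := mul_le_mul_of_nonneg_right hm (Real.exp_pos (-(2 * δ) * (x - X))).le
    linarith
  have h1 := h.trace0 x
  have h2 := h.J_sub hV w X δ hw hcoer x (x + 1) hx (by linarith)
  have h3 := hJ0 (x + 1) (by linarith)
  have h4 : (∫ t in x..(x+1), en ψ ψ' t) ≤ (m * Real.exp (-(2 * δ) * (x - X))) / δ := by
    rw [le_div_iff₀ hδ]
    linarith
  calc ‖ψ x‖ ^ 2 ≤ 2 * ∫ t in x..(x+1), en ψ ψ' t := h1
    _ ≤ 2 * ((m * Real.exp (-(2 * δ) * (x - X))) / δ) := by linarith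
    _ = _ := by ring

/-- Holomorphic Weyl solutions: for a holomorphic family of potentials which is uniformly coercive on
`[X, ∞)` there is a holomorphic choice of the coefficient `M z` such that `S₁ + M S₂` decays. -/
theorem weyl_family (U : Set ℂ) (hU : IsOpen U) (V : ℂ → ℝ → ℂ) (S₁ T₁ S₂ T₂ : ℂ → ℝ → ℂ)
    (X δ K : ℝ) (w : ℂ) (hδ : 0 < δ) (hK : 0 ≤ K) (hw : δ ≤ w.re) (hw1 : ‖w‖ ≤ 1)
    (hV : ∀ z ∈ U, Continuous (V z))
    (hcoer : ∀ z ∈ U, ∀ x, X ≤ x → δ ≤ (w * V z x).re)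
    (hVK : ∀ z ∈ U, ∀ x ∈ Icc X (X + 1), ‖V z x‖ ≤ K)
    (h1 : ∀ z ∈ U, IsSol (V z) (S₁ z) (T₁ z) ∧ S₁ z X = 1 ∧ T₁ z X = 0)
    (h2 : ∀ z ∈ U, IsSol (V z) (S₂ z) (T₂ z) ∧ S₂ z X = 0 ∧ T₂ z X = 1)
    (d1 : ∀ x, DifferentiableOn ℂ (fun z => S₁ z x) U) (d2 : ∀ x, DifferentiableOn ℂ (fun z => S₂ z x) U) :
    ∃ (M : ℂ → ℂ) (C : ℝ), 0 < C ∧ DifferentiableOn ℂ M U ∧ ∀ z ∈ U, ‖M z‖ ≤ C ∧
      IntegrableOn (fun x => ‖S₁ z x + M z * S₂ z x‖ ^ 2 + ‖T₁ z x + M z * T₂ z x‖ ^ 2) (Ioi X) ∧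
      ∀ x, X ≤ x → ‖S₁ z x + M z * S₂ z x‖ ≤ C * Real.exp (-δ * (x - X)) := by
  -- energy of S₂
  have hJX : ∀ z ∈ U, Jf w (S₂ z) (T₂ z) X = 0 := by
    intro z hz
    simp [Jf, (h2 z hz).2.1]
  have hJG : ∀ z ∈ U, ∀ x, X ≤ x → δ * (∫ t in X..x, en (S₂ z) (T₂ z) t) ≤ Jf w (S₂ z) (T₂ z) x := by
    intro z hz x hx
    have := (h2 z hz).1.J_sub (hV z hz) w X δ hw (hcoer z hz) X x le_rfl hx
    rw [hJX z hz] at this
    linarith
  have hG1 : ∀ z ∈ U, 1 / (1 + K) ^ 2 ≤ ∫ t in X..(X+1), en (S₂ z) (T₂ z) t := by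
    intro z hz
    have := (h2 z hz).1.trace1 (hV z hz) K hK X (hVK z hz)
    rw [(h2 z hz).2.2] at this
    rw [div_le_iff₀ (by positivity)]
    simp at this
    linarith
  have hGgrow : ∀ z ∈ U, ∀ x, X + 1 ≤ x →
      1 / (1 + K) ^ 2 * Real.exp (2 * δ * (x - (X + 1))) ≤ ∫ t in X..x, en (S₂ z) (T₂ z) t := by
    intro z hz x hx
    have := growth (en (S₂ z) (T₂ z)) (h2 z hz).1.cont_en X δ (fun y hy => by
      have e1 := hJG z hz y hy
      have e2 := (abs_le.1 (Jf_le w hw1 (S₂ z) (T₂ z) y)).2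
      linarith) (X + 1) x (by linarith) hx
    refine le_trans ?_ this
    exact mul_le_mul_of_nonneg_right (hG1 z hz) (Real.exp_pos _).le
  have hS2ne : ∀ z ∈ U, ∀ x, X + 1 ≤ x → S₂ z x ≠ 0 := by
    intro z hz x hx h0
    have e1 := hJG z hz x (by linarith)
    have e2 := hGgrow z hz x hx
    have e3 : Jf w (S₂ z) (T₂ z) x = 0 := by simp [Jf, h0]
    rw [e3] at e1
    have e4 : 0 < 1 / (1 + K) ^ 2 * Real.exp (2 * δ * (x - (X + 1))) := by positivity
    have e5 : 0 < δ * (∫ t in X..x, en (S₂ z) (T₂ z) t) := mul_pos hδ (by linarith)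
    linarith
  -- truncated coefficients
  set N : ℕ → ℝ := fun n => X + 1 + n with hN
  set Mn : ℕ → ℂ → ℂ := fun n z => -(S₁ z (N n)) / S₂ z (N n) with hMn
  have hNX : ∀ n, X + 1 ≤ N n := fun n => by
    have : (0:ℝ) ≤ n := Nat.cast_nonneg n
    simp only [hN]; linarith
  have hMnd : ∀ n, DifferentiableOn ℂ (Mn n) U := fun n =>
    ((d1 (N n)).neg).div (d2 (N n)) (fun z hz => hS2ne z hz _ (hNX n))
  set D : ℝ := (1 + K) ^ 2 with hD
  have hD0 : 0 < D := by positivity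
  have hsol : ∀ z ∈ U, ∀ m : ℂ, IsSol (V z) (fun x => S₁ z x + m * S₂ z x) (fun x => T₁ z x + m * T₂ z x) :=
    fun z hz m => (h1 z hz).1.add_mul (h2 z hz).1 m
  have hJm : ∀ z ∈ U, ∀ m : ℂ, Jf w (fun x => S₁ z x + m * S₂ z x) (fun x => T₁ z x + m * T₂ z x) X = (w * m).re := by
    intro z hz m
    simp only [Jf, (h1 z hz).2.1, (h1 z hz).2.2, (h2 z hz).2.1, (h2 z hz).2.2]
    simp
  have hwm : ∀ m : ℂ, -(w * m).re ≤ ‖m‖ := by
    intro m
    have e1 : |(w * m).re| ≤ ‖w * m‖ := Complex.abs_re_le_norm _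
    rw [norm_mul] at e1
    have e2 : ‖w‖ * ‖m‖ ≤ 1 * ‖m‖ := mul_le_mul_of_nonneg_right hw1 (norm_nonneg _)
    have e3 := (abs_le.1 e1).1
    linarith
  have hbound : ∀ z ∈ U, ∀ n, ‖Mn n z‖ ≤ D / δ ∧
      (∫ t in X..(N n), en (fun x => S₁ z x + Mn n z * S₂ z x) (fun x => T₁ z x + Mn n z * T₂ z x) t) ≤ D / δ ^ 2 := by
    intro z hz n
    set m := Mn n z with hm
    have hs := hsol z hz m
    have e0 : (fun x => S₁ z x + m * S₂ z x) (N n) = 0 := by
      simp only [hm, hMn]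
      rw [div_mul_cancel₀ _ (hS2ne z hz _ (hNX n))]
      ring
    have e1 : Jf w (fun x => S₁ z x + m * S₂ z x) (fun x => T₁ z x + m * T₂ z x) (N n) = 0 := by
      unfold Jf
      rw [e0]
      simp
    have e2 := hs.J_sub (hV z hz) w X δ hw (hcoer z hz) X (N n) le_rfl (by linarith [hNX n])
    rw [e1, hJm z hz m] at e2
    have e3 := hs.trace1 (hV z hz) K hK X (hVK z hz)
    have e4 : T₁ z X + m * T₂ z X = m := by
      simp [(h1 z hz).2.2, (h2 z hz).2.2]
    rw [e4] at e3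
    have e5 := en_mono hs.cont_en X (X+1) (N n) (by linarith) (hNX n)
    set E := ∫ t in X..(N n), en (fun x => S₁ z x + m * S₂ z x) (fun x => T₁ z x + m * T₂ z x) t
    have e6 : δ * E ≤ ‖m‖ := by linarith [hwm m]
    have e7 : ‖m‖ ^ 2 ≤ D * E := e3.trans (mul_le_mul_of_nonneg_left e5 hD0.le)
    have e8 : ‖m‖ ^ 2 ≤ D * (‖m‖ / δ) := e7.trans
      (mul_le_mul_of_nonneg_left (by rw [le_div_iff₀ hδ]; linarith) hD0.le)
    have e9 : ‖m‖ ≤ D / δ := by
      rcases (norm_nonneg m).eq_or_lt with h0 | h0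
      · rw [← h0]; positivity
      · have : ‖m‖ * ‖m‖ ≤ (D / δ) * ‖m‖ := by
          calc ‖m‖ * ‖m‖ = ‖m‖ ^ 2 := by ring
            _ ≤ D * (‖m‖ / δ) := e8
            _ = _ := by ring
        exact le_of_mul_le_mul_right this h0
    refine ⟨e9, ?_⟩
    have e10 : δ * E ≤ D / δ := e6.trans e9
    rw [le_div_iff₀ (by positivity)]
    have e11 : δ * E * δ ≤ D / δ * δ := mul_le_mul_of_nonneg_right e10 hδ.le
    rw [div_mul_cancel₀ _ hδ.ne'] at e11
    nlinarith
  -- Cauchy estimate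
  have hcau : ∀ z ∈ U, ∀ n k, n ≤ k → ‖Mn n z - Mn k z‖ ≤ 2 * D / δ * Real.exp (-δ * n) := by
    intro z hz n k hnk
    have hNn : N n ≤ N k := by
      have : (n:ℝ) ≤ k := by exact_mod_cast hnk
      simp only [hN]; linarith
    have a1 := (hbound z hz n).2
    have a2 := (hbound z hz k).2
    have a3 := en_mono (hsol z hz (Mn k z)).cont_en X (N n) (N k) (by linarith [hNX n]) hNn
    have a4 := hGgrow z hz (N n) (hNX n)
    set m := Mn n z
    set m' := Mn k z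
    have a5 : ∀ t, ‖m - m'‖ ^ 2 * en (S₂ z) (T₂ z) t ≤
        2 * (en (fun x => S₁ z x + m * S₂ z x) (fun x => T₁ z x + m * T₂ z x) t +
          en (fun x => S₁ z x + m' * S₂ z x) (fun x => T₁ z x + m' * T₂ z x) t) := by
      intro t
      unfold en
      have b1 : ‖(m - m') * S₂ z t‖ ≤ ‖S₁ z t + m * S₂ z t‖ + ‖S₁ z t + m' * S₂ z t‖ := by
        have : (m - m') * S₂ z t = (S₁ z t + m * S₂ z t) - (S₁ z t + m' * S₂ z t) := by ring
        rw [this]; exact norm_sub_le _ _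
      have b2 : ‖(m - m') * T₂ z t‖ ≤ ‖T₁ z t + m * T₂ z t‖ + ‖T₁ z t + m' * T₂ z t‖ := by
        have : (m - m') * T₂ z t = (T₁ z t + m * T₂ z t) - (T₁ z t + m' * T₂ z t) := by ring
        rw [this]; exact norm_sub_le _ _
      have b3 := pow_le_pow_left₀ (norm_nonneg _) b1 2
      have b4 := pow_le_pow_left₀ (norm_nonneg _) b2 2
      rw [norm_mul, mul_pow] at b3 b4
      simp only
      nlinarith [sq_nonneg (‖S₁ z t + m * S₂ z t‖ - ‖S₁ z t + m' * S₂ z t‖),
        sq_nonneg (‖T₁ z t + m * T₂ z t‖ - ‖T₁ z t + m' * T₂ z t‖)]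
    have c1 := (hsol z hz m).cont_en
    have c2 := (hsol z hz m').cont_en
    have c3 := (h2 z hz).1.cont_en
    have a6 : (∫ t in X..(N n), ‖m - m'‖ ^ 2 * en (S₂ z) (T₂ z) t) ≤
        ∫ t in X..(N n), 2 * (en (fun x => S₁ z x + m * S₂ z x) (fun x => T₁ z x + m * T₂ z x) t +
          en (fun x => S₁ z x + m' * S₂ z x) (fun x => T₁ z x + m' * T₂ z x) t) := by
      apply intervalIntegral.integral_mono_on (by linarith [hNX n])
      · exact (c3.const_mul _).intervalIntegrable _ _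
      · exact ((c1.add c2).const_mul _).intervalIntegrable _ _
      · intro t _; exact a5 t
    rw [intervalIntegral.integral_const_mul, intervalIntegral.integral_const_mul,
      intervalIntegral.integral_add (c1.intervalIntegrable _ _) (c2.intervalIntegrable _ _)] at a6
    have a7 : ‖m - m'‖ ^ 2 * (1 / D * Real.exp (2 * δ * n)) ≤ 4 * (D / δ ^ 2) := by
      have b1 : N n - (X + 1) = n := by simp only [hN]; ring
      rw [b1] at a4
      calc ‖m - m'‖ ^ 2 * (1 / D * Real.exp (2 * δ * n)) ≤ ‖m - m'‖ ^ 2 * ∫ t in X..(N n), en (S₂ z) (T₂ z) t :=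
            mul_le_mul_of_nonneg_left a4 (sq_nonneg _)
        _ ≤ _ := by linarith
    have a8 : ‖m - m'‖ ^ 2 ≤ (2 * D / δ * Real.exp (-δ * n)) ^ 2 := by
      have b2 : Real.exp (2 * δ * n) * Real.exp (-δ * n) ^ 2 = 1 := by
        rw [← Real.exp_nat_mul, ← Real.exp_add]
        simp
        ring
      have b3 := mul_le_mul_of_nonneg_right a7 (by positivity : 0 ≤ D * Real.exp (-δ * n) ^ 2)
      calc ‖m - m'‖ ^ 2 = ‖m - m'‖ ^ 2 * (1 / D * Real.exp (2 * δ * n)) * (D * Real.exp (-δ * n) ^ 2) := by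
            rw [show ‖m - m'‖ ^ 2 * (1 / D * Real.exp (2 * δ * n)) * (D * Real.exp (-δ * n) ^ 2) =
              ‖m - m'‖ ^ 2 * (1 / D * D) * (Real.exp (2 * δ * n) * Real.exp (-δ * n) ^ 2) by ring, b2]
            field_simp
        _ ≤ _ := b3
        _ = _ := by field_simp; ring
    exact (pow_le_pow_iff_left₀ (norm_nonneg _) (by positivity) (two_ne_zero)).1 a8
  have hexp0 : Filter.Tendsto (fun n : ℕ => 2 * D / δ * Real.exp (-δ * n)) Filter.atTop (nhds 0) := by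
    have : Filter.Tendsto (fun n : ℕ => Real.exp (-δ * n)) Filter.atTop (nhds 0) := by
      apply Real.tendsto_exp_atBot.comp
      have : Filter.Tendsto (fun n : ℕ => (-δ) * (n:ℝ)) Filter.atTop Filter.atBot :=
        tendsto_natCast_atTop_atTop.const_mul_atTop_of_neg (by linarith)
      exact this
    simpa using this.const_mul (2 * D / δ)
  have hUC : UniformCauchySeqOn Mn Filter.atTop U := by
    rw [Metric.uniformCauchySeqOn_iff]
    intro ε hε
    obtain ⟨N0, hN0⟩ := Filter.eventually_atTop.1 (hexp0.eventually (gt_mem_nhds hε))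
    refine ⟨N0, fun m hm n hn z hz => ?_⟩
    rcases le_total m n with hmn | hmn
    · rw [dist_eq_norm]
      exact (hcau z hz m n hmn).trans_lt (hN0 m hm)
    · rw [dist_comm, dist_eq_norm]
      exact (hcau z hz n m hmn).trans_lt (hN0 n hn)
  have hlim : ∀ z, ∃ y : ℂ, z ∈ U → Filter.Tendsto (fun n => Mn n z) Filter.atTop (nhds y) := by
    intro z
    by_cases hz : z ∈ U
    · obtain ⟨y, hy⟩ := cauchySeq_tendsto_of_complete (hUC.cauchySeq hz)
      exact ⟨y, fun _ => hy⟩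
    · exact ⟨0, fun h => absurd h hz⟩
  choose M hM using hlim
  have hunif : TendstoUniformlyOn Mn M Filter.atTop U :=
    hUC.tendstoUniformlyOn_of_tendsto (fun z hz => hM z hz)
  have hMd : DifferentiableOn ℂ M U :=
    hunif.tendstoLocallyUniformlyOn.differentiableOn (Filter.Eventually.of_forall hMnd) hU
  have hMb : ∀ z ∈ U, ‖M z‖ ≤ D / δ := fun z hz =>
    le_of_tendsto (hM z hz).norm (Filter.Eventually.of_forall fun n => (hbound z hz n).1)
  have hE : ∀ z ∈ U, ∀ L, X ≤ L →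
      (∫ t in X..L, en (fun x => S₁ z x + M z * S₂ z x) (fun x => T₁ z x + M z * T₂ z x) t) ≤ D / δ ^ 2 := by
    intro z hz L hL
    have hcS1 := (h1 z hz).1.cont
    have hcT1 := (h1 z hz).1.cont'
    have hcS2 := (h2 z hz).1.cont
    have hcT2 := (h2 z hz).1.cont'
    have hcont : Continuous fun m : ℂ =>
        ∫ t in X..L, en (fun x => S₁ z x + m * S₂ z x) (fun x => T₁ z x + m * T₂ z x) t := by
      apply intervalIntegral.continuous_parametric_intervalIntegral_of_continuous'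
      unfold en Function.uncurry
      fun_prop
    have hlimE := (hcont.tendsto (M z)).comp (hM z hz)
    refine le_of_tendsto hlimE ?_
    have hlarge : ∀ᶠ n : ℕ in Filter.atTop, L ≤ N n := by
      have : Filter.Tendsto N Filter.atTop Filter.atTop :=
        Filter.tendsto_atTop_add_const_left _ _ tendsto_natCast_atTop_atTop
      exact this.eventually_ge_atTop L
    filter_upwards [hlarge] with n hn
    exact (en_mono (hsol z hz (Mn n z)).cont_en X L (N n) hL hn).trans (hbound z hz n).2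
  refine ⟨M, (D + 2 * (1 + K)) / δ, by positivity, hMd, fun z hz => ⟨?_, ?_, ?_⟩⟩
  · refine (hMb z hz).trans ?_
    rw [div_le_div_iff_of_pos_right hδ]
    linarith
  · have hs := hsol z hz (M z)
    refine integrableOn_Ioi_of_intervalIntegral_norm_bounded (D / δ ^ 2) X
      (b := fun n : ℕ => X + n) (l := Filter.atTop) ?_ ?_ ?_
    · intro n
      exact (hs.cont_en.integrableOn_Icc).mono_set Ioc_subset_Icc_self
    · exact Filter.tendsto_atTop_add_const_left _ _ tendsto_natCast_atTop_atTop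
    · refine Filter.Eventually.of_forall fun n => ?_
      have := hE z hz (X + n) (by have : (0:ℝ) ≤ n := Nat.cast_nonneg n; linarith)
      refine le_trans (le_of_eq ?_) this
      apply intervalIntegral.integral_congr
      intro t _
      simp only [Real.norm_eq_abs]
      exact abs_of_nonneg (by positivity)
  · intro x hx
    have hs := hsol z hz (M z)
    have e1 := decay hs (hV z hz) w X δ hδ hw hw1 (hcoer z hz) (D / δ ^ 2) (hE z hz) (D / δ) (by
      rw [hJm z hz (M z)]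
      exact (hwm (M z)).trans (hMb z hz)) x hx
    have e2 : 2 / δ * (D / δ) * Real.exp (-(2 * δ) * (x - X)) ≤
        ((D + 2 * (1 + K)) / δ * Real.exp (-δ * (x - X))) ^ 2 := by
      have b1 : Real.exp (-(2 * δ) * (x - X)) = Real.exp (-δ * (x - X)) ^ 2 := by
        rw [← Real.exp_nat_mul]; congr 1; push_cast; ring
      rw [b1, mul_pow]
      apply mul_le_mul_of_nonneg_right _ (by positivity)
      rw [div_pow, div_mul_div_comm, ← sq, div_le_div_iff_of_pos_right (by positivity)]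
      have : 0 ≤ D * (2 * (1 + K)) := by positivity
      nlinarith [sq_nonneg D]
    exact (pow_le_pow_iff_left₀ (norm_nonneg _) (by positivity) (two_ne_zero)).1 (e1.trans e2)

end Pool.Agent.Helper209.AC.WeylFam
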