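import Pool.Agent.Helper209.AC.Frame

set_option autoImplicit false

namespace Pool.Agent.Helper209.AC.WeylPot

open MeasureTheory Set


/-- linear ODE with holomorphic parameters (proved elsewhere) -/
def ParamStmt : Prop := ∀ (q : ℝ → ℝ), Continuous q → ∀ X : ℝ,
    ∃ S T : (ℂ × ℂ) × (ℂ × ℂ) → ℝ → ℂ,
      (∀ z, IsSol (fun x => z.1.1 * (q x : ℂ) - z.1.2) (S z) (T z) ∧ S z X = z.2.1 ∧ T z X = z.2.2) ∧
      (∀ x, Differentiable ℂ (fun z => S z x)) ∧ (∀ x, Differentiable ℂ (fun z => T z x))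

/-- holomorphic Weyl coefficient (proved elsewhere) -/
def WeylFamStmt : Prop := ∀ (U : Set ℂ), IsOpen U → ∀ (V : ℂ → ℝ → ℂ) (S₁ T₁ S₂ T₂ : ℂ → ℝ → ℂ)
    (X δ K : ℝ) (w : ℂ), 0 < δ → 0 ≤ K → δ ≤ w.re → ‖w‖ ≤ 1 → (∀ z ∈ U, Continuous (V z)) →
    (∀ z ∈ U, ∀ x, X ≤ x → δ ≤ (w * V z x).re) → (∀ z ∈ U, ∀ x ∈ Icc X (X + 1), ‖V z x‖ ≤ K) →
    (∀ z ∈ U, IsSol (V z) (S₁ z) (T₁ z) ∧ S₁ z X = 1 ∧ T₁ z X = 0) →
    (∀ z ∈ U, IsSol (V z) (S₂ z) (T₂ z) ∧ S₂ z X = 0 ∧ T₂ z X = 1) →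
    (∀ x, DifferentiableOn ℂ (fun z => S₁ z x) U) → (∀ x, DifferentiableOn ℂ (fun z => S₂ z x) U) →
    ∃ (M : ℂ → ℂ) (C : ℝ), 0 < C ∧ DifferentiableOn ℂ M U ∧ ∀ z ∈ U, ‖M z‖ ≤ C ∧
      IntegrableOn (fun x => ‖S₁ z x + M z * S₂ z x‖ ^ 2 + ‖T₁ z x + M z * T₂ z x‖ ^ 2) (Ioi X) ∧
      ∀ x, X ≤ x → ‖S₁ z x + M z * S₂ z x‖ ≤ C * Real.exp (-δ * (x - X))

/-- holomorphic families of Weyl solutions for the potentials `c|x|^α - m` -/
def WeylPotStmt (α : ℝ) : Prop := ∀ R : ℝ, 1 ≤ R → ∃ X : ℝ, 0 < X ∧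
    ∀ (U : Set ℂ), IsOpen U → ∀ (c m : ℂ → ℂ), DifferentiableOn ℂ c U → DifferentiableOn ℂ m U →
      (∀ z ∈ U, 1 / 2 ≤ (Complex.exp (-((Real.pi / 4 : ℝ) : ℂ) * Complex.I) * c z).re ∧ ‖c z‖ ≤ 2 ∧ ‖m z‖ ≤ R) →
      ∃ (Ψ Ψ' : ℂ → ℝ → ℂ) (C : ℝ), 0 < C ∧
        (∀ z ∈ U, IsSol (pot α (c z) (m z)) (Ψ z) (Ψ' z) ∧ Ψ z X = 1 ∧
          IntegrableOn (en (Ψ z) (Ψ' z)) (Ioi 0) ∧
          ∀ x, 0 ≤ x → ‖Ψ z x‖ ≤ C * Real.exp (-(1 / 2) * x)) ∧
        (∀ x, DifferentiableOn ℂ (fun z => Ψ z x) U) ∧ (∀ x, DifferentiableOn ℂ (fun z => Ψ' z x) U)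


lemma wq_re : (1 / 2 : ℝ) ≤ (Complex.exp (-((Real.pi / 4 : ℝ) : ℂ) * Complex.I)).re := by
  have e : -((Real.pi / 4 : ℝ) : ℂ) * Complex.I = ((-(Real.pi / 4) : ℝ) : ℂ) * Complex.I := by
    push_cast; ring
  rw [e, Complex.exp_ofReal_mul_I_re, Real.cos_neg, Real.cos_pi_div_four]
  have : (1 : ℝ) ≤ Real.sqrt 2 := by
    calc (1 : ℝ) = Real.sqrt 1 := Real.sqrt_one.symm
      _ ≤ Real.sqrt 2 := Real.sqrt_le_sqrt (by norm_num)
  linarith

lemma wq_norm : ‖Complex.exp (-((Real.pi / 4 : ℝ) : ℂ) * Complex.I)‖ = 1 := by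
  have e : -((Real.pi / 4 : ℝ) : ℂ) * Complex.I = ((-(Real.pi / 4) : ℝ) : ℂ) * Complex.I := by
    push_cast; ring
  rw [e, Complex.norm_exp_ofReal_mul_I]

lemma pot_norm_le {α R B x : ℝ} {c m : ℂ} (hα : 0 < α) (hc : ‖c‖ ≤ 2) (hm : ‖m‖ ≤ R)
    (hx : |x| ≤ B) : ‖pot α c m x‖ ≤ 2 * B ^ α + R := by
  have h0 : 0 ≤ |x| ^ α := Real.rpow_nonneg (abs_nonneg _) _
  have h1 : |x| ^ α ≤ B ^ α := Real.rpow_le_rpow (abs_nonneg _) hx hα.le
  unfold pot
  calc ‖c * ((|x| ^ α : ℝ) : ℂ) - m‖ ≤ ‖c * ((|x| ^ α : ℝ) : ℂ)‖ + ‖m‖ := norm_sub_le _ _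
    _ = ‖c‖ * |x| ^ α + ‖m‖ := by
        rw [norm_mul, Complex.norm_real, Real.norm_of_nonneg h0]
    _ ≤ 2 * B ^ α + R := by
        have : ‖c‖ * |x| ^ α ≤ 2 * B ^ α := mul_le_mul hc h1 h0 (by norm_num)
        linarith

theorem weyl_pot (h1 : ParamStmt) (h2 : WeylFamStmt) (α : ℝ) (hα : 0 < α) : WeylPotStmt α := by
  intro R hR
  have hb : 0 < 2 * R + 1 := by linarith
  set X : ℝ := (2 * R + 1) ^ (1 / α) with hXdef
  have hX0 : 0 < X := Real.rpow_pos_of_pos hb _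
  have hXα : X ^ α = 2 * R + 1 := by
    rw [hXdef, ← Real.rpow_mul hb.le, one_div, inv_mul_cancel₀ hα.ne', Real.rpow_one]
  refine ⟨X, hX0, ?_⟩
  intro U hU c m hcd hmd hcm
  set w : ℂ := Complex.exp (-((Real.pi / 4 : ℝ) : ℂ) * Complex.I) with hw
  have hwre : (1 / 2 : ℝ) ≤ w.re := wq_re
  have hwn : ‖w‖ = 1 := wq_norm
  have hqc : Continuous (fun x : ℝ => |x| ^ α) :=
    continuous_abs.rpow_const (fun _ => Or.inr hα.le)
  obtain ⟨S, T, hST, hSd, hTd⟩ := h1 (fun x => |x| ^ α) hqc X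
  set K : ℝ := 2 * (X + 1) ^ α + R with hK
  have hK0 : 0 ≤ K := by
    have : 0 ≤ (X + 1) ^ α := Real.rpow_nonneg (by linarith) _
    rw [hK]; linarith
  have hpair : ∀ a b : ℂ, DifferentiableOn ℂ (fun z => (((c z, m z), (a, b)) : (ℂ × ℂ) × (ℂ × ℂ))) U :=
    fun a b => (hcd.prodMk hmd).prodMk (differentiableOn_const _)
  have hSdo : ∀ (a b : ℂ) (x : ℝ), DifferentiableOn ℂ (fun z => S ((c z, m z), (a, b)) x) U :=
    fun a b x => (hSd x).comp_differentiableOn (hpair a b)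
  have hTdo : ∀ (a b : ℂ) (x : ℝ), DifferentiableOn ℂ (fun z => T ((c z, m z), (a, b)) x) U :=
    fun a b x => (hTd x).comp_differentiableOn (hpair a b)
  have hsol : ∀ (a b : ℂ) (z : ℂ), IsSol (pot α (c z) (m z)) (S ((c z, m z), (a, b)))
      (T ((c z, m z), (a, b))) := fun a b z => (hST ((c z, m z), (a, b))).1
  obtain ⟨M, C, hC, hMd, hM⟩ := h2 U hU (fun z => pot α (c z) (m z))
    (fun z => S ((c z, m z), (1, 0))) (fun z => T ((c z, m z), (1, 0)))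
    (fun z => S ((c z, m z), (0, 1))) (fun z => T ((c z, m z), (0, 1)))
    X (1 / 2) K w (by norm_num) hK0 hwre hwn.le (fun z _ => pot_cont hα _ _)
    (by
      intro z hz x hx
      obtain ⟨hc1, hc2, hm2⟩ := hcm z hz
      have hx0 : 0 ≤ x := hX0.le.trans hx
      have hxα : 2 * R + 1 ≤ |x| ^ α := by
        rw [← hXα, abs_of_nonneg hx0]
        exact Real.rpow_le_rpow hX0.le hx hα.le
      have e : w * pot α (c z) (m z) x = (w * c z) * ((|x| ^ α : ℝ) : ℂ) - w * m z := by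
        unfold pot; ring
      rw [e, Complex.sub_re, Complex.re_mul_ofReal]
      have h3 : (w * m z).re ≤ R := by
        calc (w * m z).re ≤ ‖w * m z‖ := Complex.re_le_norm _
          _ = ‖m z‖ := by rw [norm_mul, hwn, one_mul]
          _ ≤ R := hm2
      nlinarith)
    (by
      intro z hz x hx
      obtain ⟨hc1, hc2, hm2⟩ := hcm z hz
      apply pot_norm_le hα hc2 hm2
      rw [abs_of_nonneg (hX0.le.trans hx.1)]
      exact hx.2)
    (fun z _ => ⟨hsol 1 0 z, (hST ((c z, m z), (1, 0))).2⟩)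
    (fun z _ => ⟨hsol 0 1 z, (hST ((c z, m z), (0, 1))).2⟩)
    (fun x => hSdo 1 0 x) (fun x => hSdo 0 1 x)
  set K' : ℝ := 2 * X ^ α + R with hK'
  have hK'0 : 0 ≤ K' := by rw [hK', hXα]; linarith
  set D : ℝ := (1 + C ^ 2) * Real.exp ((1 + K') * X) with hD
  have hD1 : 1 ≤ D := by
    have : 1 ≤ Real.exp ((1 + K') * X) := Real.one_le_exp (by positivity)
    rw [hD]
    nlinarith [sq_nonneg C]
  refine ⟨fun z x => S ((c z, m z), (1, 0)) x + M z * S ((c z, m z), (0, 1)) x,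
    fun z x => T ((c z, m z), (1, 0)) x + M z * T ((c z, m z), (0, 1)) x,
    (C + D) * Real.exp (X / 2), by positivity, ?_, ?_, ?_⟩
  · intro z hz
    obtain ⟨hc1, hc2, hm2⟩ := hcm z hz
    obtain ⟨hMC, hMint, hMdec⟩ := hM z hz
    have hsolz : IsSol (pot α (c z) (m z))
        (fun x => S ((c z, m z), (1, 0)) x + M z * S ((c z, m z), (0, 1)) x)
        (fun x => T ((c z, m z), (1, 0)) x + M z * T ((c z, m z), (0, 1)) x) := by
      have := (hsol 1 0 z).comb (hsol 0 1 z) 1 (M z)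
      simpa only [one_mul] using this
    have v1 := (hST ((c z, m z), (1, 0))).2
    have v2 := (hST ((c z, m z), (0, 1))).2
    simp only at v1 v2
    refine ⟨hsolz, ?_, ?_, ?_⟩
    · simp only [v1.1, v2.1]; ring
    · rw [← Ioc_union_Ioi_eq_Ioi hX0.le]
      apply IntegrableOn.union
      · exact (en_cont hsolz).integrableOn_Ioc
      · exact hMint
    · intro x hx
      simp only
      by_cases hxX : X ≤ x
      · have h3 := hMdec x hxX
        calc _ ≤ C * Real.exp (-(1 / 2) * (x - X)) := h3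
          _ = C * (Real.exp (X / 2) * Real.exp (-(1 / 2) * x)) := by
              rw [← Real.exp_add]; congr 2; ring
          _ ≤ (C + D) * (Real.exp (X / 2) * Real.exp (-(1 / 2) * x)) := by
              apply mul_le_mul_of_nonneg_right _ (by positivity)
              linarith
          _ = _ := by ring
      · push Not at hxX
        have hg := hsolz.reflect.growth (X := -X) (x := -x) (K := K') (by linarith) (by
          intro t ht
          apply pot_norm_le hα hc2 hm2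
          rw [abs_neg, abs_le]
          exact ⟨by linarith [ht.1], by linarith [ht.2]⟩)
        unfold en at hg
        simp only [neg_neg, norm_neg] at hg
        rw [v1.1, v1.2, v2.1, v2.2] at hg
        simp only [mul_zero, add_zero, mul_one, zero_add, norm_one, one_pow] at hg
        set y := ‖S ((c z, m z), (1, 0)) x + M z * S ((c z, m z), (0, 1)) x‖ with hy
        have hy0 : 0 ≤ y := norm_nonneg _
        have hle : Real.exp ((1 + K') * (-x - -X)) ≤ Real.exp ((1 + K') * X) := by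
          apply Real.exp_le_exp.2
          apply mul_le_mul_of_nonneg_left _ (by linarith)
          linarith
        have hMC2 : ‖M z‖ ^ 2 ≤ C ^ 2 := pow_le_pow_left₀ (norm_nonneg _) hMC 2
        have hyD : y ^ 2 ≤ D := by
          have h4 : (1 + ‖M z‖ ^ 2) * Real.exp ((1 + K') * (-x - -X)) ≤ D := by
            rw [hD]
            apply mul_le_mul (by linarith) hle (Real.exp_pos _).le (by positivity)
          have h5 := sq_nonneg ‖T ((c z, m z), (1, 0)) x + M z * T ((c z, m z), (0, 1)) x‖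
          linarith
        have hyD2 : y ≤ D := by nlinarith
        have hee : 1 ≤ Real.exp (X / 2) * Real.exp (-(1 / 2) * x) := by
          rw [← Real.exp_add]
          apply Real.one_le_exp
          linarith
        calc y ≤ D := hyD2
          _ ≤ (C + D) * (Real.exp (X / 2) * Real.exp (-(1 / 2) * x)) := by nlinarith
          _ = _ := by ring
  · intro x
    exact (hSdo 1 0 x).add (hMd.mul (hSdo 0 1 x))
  · intro x
    exact (hTdo 1 0 x).add (hMd.mul (hTdo 0 1 x))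

end Pool.Agent.Helper209.AC.WeylPot
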