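import Mathlib

set_option autoImplicit false

namespace Pool.Agent.Helper209.AC.WkbLow

open MeasureTheory Set

/-- `ψ' ' = V ψ` on the whole line (`ψ'` is the derivative of `ψ`). -/
def IsSol (V ψ ψ' : ℝ → ℂ) : Prop :=
  ∀ x, HasDerivAt ψ (ψ' x) x ∧ HasDerivAt ψ' (V x * ψ x) x

/-- the potential `c|x|^α - μ` -/
noncomputable def pot (α : ℝ) (c μ : ℂ) (x : ℝ) : ℂ := c * ((|x| ^ α : ℝ) : ℂ) - μ

/-- `|Im √z|` -/
noncomputable def imsq (z : ℂ) : ℝ := Real.sqrt ((‖z‖ - z.re) / 2)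

theorem wl_alg (a b p g : ℂ) (lam lam' n : ℝ) (hn : 0 ≤ n) (hg : ‖g‖ ≤ n / 2)
    (hl1 : 1 / 4 ≤ lam) (hl2 : lam ≤ 8) (hl' : lam' ≤ 4 * lam * p.re - 61 * n) :
    0 ≤ 2 * ((p * a + g * (a - b)) * (starRingEnd ℂ) a).re -
      (lam' * ‖b‖ ^ 2 + lam * (2 * ((-p * b - g * (a - b)) * (starRingEnd ℂ) b).re)) -
      (2 * p.re - 6 * n) * (‖a‖ ^ 2 - lam * ‖b‖ ^ 2) := by
  have key : ∀ w : ℂ, (p * w * (starRingEnd ℂ) w).re = p.re * ‖w‖ ^ 2 := by
    intro w
    rw [mul_assoc, Complex.mul_conj, Complex.normSq_eq_norm_sq, mul_comm, Complex.re_ofReal_mul]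
    ring
  have key2 : ∀ w : ℂ, |(g * (a - b) * (starRingEnd ℂ) w).re| ≤ n / 2 * (‖a‖ + ‖b‖) * ‖w‖ := by
    intro w
    refine (Complex.abs_re_le_norm _).trans ?_
    rw [norm_mul, norm_mul, RCLike.norm_conj]
    have := norm_sub_le a b
    gcongr
  have e1 : ((p * a + g * (a - b)) * (starRingEnd ℂ) a).re =
      p.re * ‖a‖ ^ 2 + (g * (a - b) * (starRingEnd ℂ) a).re := by
    rw [add_mul, Complex.add_re, key]
  have e2 : ((-p * b - g * (a - b)) * (starRingEnd ℂ) b).re =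
      -(p.re * ‖b‖ ^ 2) - (g * (a - b) * (starRingEnd ℂ) b).re := by
    rw [sub_mul, Complex.sub_re, neg_mul, neg_mul, Complex.neg_re, key]
  rw [e1, e2]
  have k1 := (abs_le.1 (key2 a)).1
  have k2 := (abs_le.1 (key2 b)).1
  have hA := norm_nonneg a
  have hB := norm_nonneg b
  set A := ‖a‖ with hAdef
  set B := ‖b‖ with hBdef
  set u := (g * (a - b) * (starRingEnd ℂ) a).re
  set v := (g * (a - b) * (starRingEnd ℂ) b).re
  have m1 : lam' * B ^ 2 ≤ (4 * lam * p.re - 61 * n) * B ^ 2 := by gcongr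
  have m2 : lam * (n / 2 * (A + B) * B) ≥ -(lam * v) := by nlinarith
  have m3 : 0 ≤ n * (A * B) := by positivity
  have m4 : 0 ≤ n * A ^ 2 := by positivity
  have m5 : 0 ≤ n * B ^ 2 := by positivity
  have m6 : n * (2 * (A * B)) ≤ n * (A ^ 2 + B ^ 2) := by
    have : 2 * (A * B) ≤ A ^ 2 + B ^ 2 := by nlinarith [sq_nonneg (A - B)]
    gcongr
  have m7 : lam * (n * (A * B)) ≤ 8 * (n * (A * B)) := by gcongr
  have m8 : lam * (n * B ^ 2) ≤ 8 * (n * B ^ 2) := by gcongr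
  nlinarith

/-- the principal square root -/
noncomputable def sq (z : ℂ) : ℂ := Complex.exp (Complex.log z / 2)

theorem sq_sq (z : ℂ) (hz : z ≠ 0) : sq z ^ 2 = z := by
  rw [sq, ← Complex.exp_nat_mul]
  have : ((2 : ℕ) : ℂ) * (Complex.log z / 2) = Complex.log z := by push_cast; ring
  rw [this, Complex.exp_log hz]

theorem norm_sq_sq (z : ℂ) (hz : z ≠ 0) : ‖sq z‖ ^ 2 = ‖z‖ := by
  rw [← norm_pow, sq_sq z hz]

theorem sq_im (z : ℂ) (hz : 0 < z.im) : (sq z).im = imsq z := by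
  have hz0 : z ≠ 0 := by rintro rfl; simp at hz
  have h1 := sq_sq z hz0
  have h2 := norm_sq_sq z hz0
  have h3 : 0 ≤ (sq z).im := by
    rw [sq, Complex.exp_im]
    have h4 : (Complex.log z / 2).im = Complex.arg z / 2 := by
      rw [show Complex.log z / 2 = ((1 / 2 : ℝ) : ℂ) * Complex.log z by push_cast; ring,
        Complex.im_ofReal_mul, Complex.log_im]
      ring
    rw [h4]
    refine mul_nonneg (Real.exp_pos _).le (Real.sin_nonneg_of_nonneg_of_le_pi ?_ ?_)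
    · have := Complex.arg_nonneg_iff.2 hz.le
      linarith
    · have := Complex.arg_le_pi z
      have := Real.pi_pos
      linarith
  have hre : z.re = (sq z).re * (sq z).re - (sq z).im * (sq z).im := by
    rw [← Complex.mul_re, ← pow_two, h1]
  have h5 : (‖z‖ - z.re) / 2 = (sq z).im ^ 2 := by
    rw [← h2, ← Complex.normSq_eq_norm_sq, Complex.normSq_apply, hre]
    ring
  rw [imsq, h5, Real.sqrt_sq h3]

theorem imsq_lower (z : ℂ) (r κ : ℝ) (hκ : 0 < κ) (hr : 0 < r) (h1 : κ * r ≤ z.im)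
    (h2 : ‖z‖ ≤ 2 * r) (h3 : 512 / κ ^ 2 ≤ r) : 8 ≤ imsq z := by
  rw [imsq]
  apply Real.le_sqrt_of_sq_le
  have hz : 0 < ‖z‖ := by
    have : 0 < z.im := lt_of_lt_of_le (by positivity) h1
    exact lt_of_lt_of_le this ((le_abs_self _).trans (Complex.abs_im_le_norm z))
  have h4 : ‖z‖ ^ 2 = z.re ^ 2 + z.im ^ 2 := by
    rw [← Complex.normSq_eq_norm_sq, Complex.normSq_apply]; ring
  have h5 : z.re ≤ ‖z‖ := (le_abs_self _).trans (Complex.abs_re_le_norm z)
  have h5' : -‖z‖ ≤ z.re := by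
    have := Complex.abs_re_le_norm z
    exact (abs_le.1 this).1
  have h6 : (κ * r) ^ 2 ≤ z.im ^ 2 := by gcongr
  have h7 : 512 ≤ κ ^ 2 * r := by
    rw [div_le_iff₀ (by positivity)] at h3
    linarith
  -- (‖z‖ - re)(‖z‖ + re) = im^2 ≥ κ² r² ≥ 512 r, and ‖z‖ + re ≤ 4 r
  have h8 : 512 * r ≤ (‖z‖ - z.re) * (‖z‖ + z.re) := by
    have e1 : (‖z‖ - z.re) * (‖z‖ + z.re) = z.im ^ 2 := by nlinarith
    rw [e1]
    nlinarith
  have h9 : (‖z‖ - z.re) * (‖z‖ + z.re) ≤ (‖z‖ - z.re) * (4 * r) := by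
    gcongr
    linarith
  have h10 : 128 ≤ ‖z‖ - z.re := by
    have : 128 * (4 * r) ≤ (‖z‖ - z.re) * (4 * r) := by linarith
    exact le_of_mul_le_mul_right this (by positivity)
  linarith

theorem continuous_imsq : Continuous imsq := by
  unfold imsq
  exact Real.continuous_sqrt.comp ((continuous_norm.sub Complex.continuous_re).div_const 2)

/-- the weight -/
noncomputable def lamf (α A r x : ℝ) : ℝ :=
  8 - 15 / 2 * Real.exp (-x) - A / r * (1 - Real.exp (-(x ^ α)))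

set_option maxHeartbeats 2000000 in
/-- everything about the WKB quantities on `(0, y]` -/
theorem wl_main (α κ : ℝ) (hα : 0 < α) (hα1 : α < 1) (hκ : 0 < κ) (μ : ℂ) (y : ℝ)
    (φ φ' : ℝ → ℂ) (hR : 512 / κ ^ 2 + 400 / κ + 1 ≤ ‖μ‖) (hy : 1 ≤ y)
    (hμ : κ * ‖μ‖ ≤ μ.im - y ^ α) (hsol : IsSol (pot α Complex.I μ) φ φ')
    (hini : (φ 0 = 0 ∧ φ' 0 = 1) ∨ (φ 0 = 1 ∧ φ' 0 = 0)) :
    1 / 8 * Real.exp (2 * (∫ x in (0:ℝ)..y, imsq (μ - Complex.I * ((x ^ α : ℝ) : ℂ))) -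
      6 * (y ^ α / (2 * κ * ‖μ‖))) ≤ 4 * (2 * ‖μ‖) * ‖φ y‖ ^ 2 := by
  have hrpos : 0 < ‖μ‖ := by
    have : 0 < 512 / κ ^ 2 + 400 / κ + 1 := by positivity
    linarith
  set r := ‖μ‖ with hr
  have hr1 : 1 ≤ r := by
    have : 0 < 512 / κ ^ 2 + 400 / κ := by positivity
    linarith
  have hr2 : 512 / κ ^ 2 ≤ r := by
    have : 0 < 400 / κ := by positivity
    linarith
  have hr3 : 400 / κ ≤ r := by
    have : 0 < 512 / κ ^ 2 := by positivity
    linarith
  have hr3' : 400 ≤ κ * r := by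
    rw [div_le_iff₀ hκ] at hr3; linarith
  set zz : ℝ → ℂ := fun x => μ - Complex.I * ((x ^ α : ℝ) : ℂ) with hzz
  have hzim : ∀ x, (zz x).im = μ.im - x ^ α := by
    intro x; simp [hzz]
  have hmono : ∀ x, 0 ≤ x → x ≤ y → x ^ α ≤ y ^ α := fun x h0 h1 =>
    Real.rpow_le_rpow h0 h1 hα.le
  have hyα : y ^ α ≤ r := by
    have h1 : μ.im ≤ ‖μ‖ := (le_abs_self _).trans (Complex.abs_im_le_norm μ)
    have : 0 < κ * r := by positivity
    linarith
  have f1 : ∀ x, 0 ≤ x → x ≤ y → κ * r ≤ (zz x).im := by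
    intro x h0 h1
    rw [hzim]
    linarith [hmono x h0 h1]
  have f1' : ∀ x, 0 ≤ x → x ≤ y → 0 < (zz x).im := fun x h0 h1 =>
    lt_of_lt_of_le (by positivity) (f1 x h0 h1)
  have f2 : ∀ x, 0 ≤ x → x ≤ y → ‖zz x‖ ≤ 2 * r := by
    intro x h0 h1
    have h2 : ‖zz x‖ ≤ ‖μ‖ + ‖Complex.I * ((x ^ α : ℝ) : ℂ)‖ := norm_sub_le _ _
    rw [norm_mul, Complex.norm_I, one_mul, Complex.norm_real,
      Real.norm_of_nonneg (Real.rpow_nonneg h0 _)] at h2
    linarith [hmono x h0 h1]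
  have f3 : ∀ x, 0 ≤ x → x ≤ y → κ * r ≤ ‖zz x‖ := fun x h0 h1 =>
    (f1 x h0 h1).trans ((le_abs_self _).trans (Complex.abs_im_le_norm _))
  have f0 : ∀ x, 0 ≤ x → x ≤ y → zz x ≠ 0 := by
    intro x h0 h1 h
    have := f1' x h0 h1
    rw [h] at this
    simp at this
  have hzc : Continuous zz := by
    have : Continuous (fun x : ℝ => x ^ α) := Real.continuous_rpow_const hα.le
    exact continuous_const.sub (continuous_const.mul (Complex.continuous_ofReal.comp this))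
  set p : ℝ → ℂ := fun x => -Complex.I * sq (zz x) with hp
  have p1 : ∀ x, 0 ≤ x → x ≤ y → p x ^ 2 = - zz x := by
    intro x h0 h1
    simp only [hp]
    rw [mul_pow, sq_sq _ (f0 x h0 h1), neg_sq, Complex.I_sq]
    ring
  have p3 : ∀ x, 0 ≤ x → x ≤ y → (p x).re = imsq (zz x) := by
    intro x h0 h1
    rw [← sq_im _ (f1' x h0 h1)]
    simp [hp]
  have p4 : ∀ x, 0 ≤ x → x ≤ y → ‖p x‖ ^ 2 = ‖zz x‖ := by
    intro x h0 h1
    rw [← norm_pow, p1 x h0 h1, norm_neg]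
  have pne : ∀ x, 0 ≤ x → x ≤ y → p x ≠ 0 := by
    intro x h0 h1 h
    have := p1 x h0 h1
    rw [h] at this
    apply f0 x h0 h1
    have h2 : -zz x = 0 := by rw [← this]; norm_num
    simpa using h2
  have hslit : ∀ x, 0 ≤ x → x ≤ y → zz x ∈ Complex.slitPlane := fun x h0 h1 =>
    Complex.mem_slitPlane_iff.2 (Or.inr (f1' x h0 h1).ne')
  have p5 : ContinuousOn p (Icc 0 y) := by
    intro x hx
    have h1 : ContinuousAt (fun x => Complex.log (zz x)) x :=
      ContinuousAt.clog hzc.continuousAt (hslit x hx.1 hx.2)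
    have h2 : ContinuousAt p x := by
      simp only [hp, sq]
      exact continuousAt_const.mul ((h1.div_const 2).cexp)
    exact h2.continuousWithinAt
  have hzd : ∀ x, 0 < x → HasDerivAt zz (-Complex.I * ((α * x ^ (α - 1) : ℝ) : ℂ)) x := by
    intro x h0
    have h1 : HasDerivAt (fun x : ℝ => x ^ α) (α * x ^ (α - 1)) x :=
      Real.hasDerivAt_rpow_const (Or.inl h0.ne')
    have h2 := (h1.ofReal_comp.const_mul Complex.I).const_sub μ
    rw [neg_mul]
    exact h2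
  have p2 : ∀ x, 0 < x → x ≤ y → HasDerivAt p
      (p x * ((-Complex.I * ((α * x ^ (α - 1) : ℝ) : ℂ)) / (2 * zz x))) x := by
    intro x h0 h1
    have h2 := ((hzd x h0).clog_real (hslit x h0.le h1)).div_const 2
    have h3 := (h2.cexp).const_mul (-Complex.I)
    have e1 : p x * ((-Complex.I * ((α * x ^ (α - 1) : ℝ) : ℂ)) / (2 * zz x)) =
        -Complex.I * (Complex.exp (Complex.log (zz x) / 2) *
          (-Complex.I * ((α * x ^ (α - 1) : ℝ) : ℂ) / zz x / 2)) := by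
      have := f0 x h0.le h1
      simp only [hp, sq]
      field_simp
    rw [e1]
    exact h3
  -- the WKB amplitudes
  set a : ℝ → ℂ := fun x => (φ' x + p x * φ x) / 2 with ha
  set b : ℝ → ℂ := fun x => (φ' x - p x * φ x) / 2 with hb
  set g : ℝ → ℂ := fun x => (-Complex.I * ((α * x ^ (α - 1) : ℝ) : ℂ)) / (4 * zz x) with hg
  have hab : ∀ x, a x - b x = p x * φ x := by intro x; simp only [ha, hb]; ring
  have hpot : ∀ x, 0 ≤ x → pot α Complex.I μ x = - zz x := by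
    intro x h0
    simp only [pot, hzz, abs_of_nonneg h0]; ring
  have hsol' : ∀ x, 0 ≤ x → x ≤ y → HasDerivAt φ (φ' x) x ∧
      HasDerivAt φ' (p x ^ 2 * φ x) x := by
    intro x h0 h1
    have := hsol x
    rw [hpot x h0, ← p1 x h0 h1] at this
    exact this
  have ha' : ∀ x, 0 < x → x ≤ y → HasDerivAt a (p x * a x + g x * (a x - b x)) x := by
    intro x h0 h1
    obtain ⟨s1, s2⟩ := hsol' x h0.le h1
    have h2 := (s2.add ((p2 x h0 h1).mul s1)).div_const 2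
    refine h2.congr_deriv ?_
    rw [hab]
    simp only [ha, hg]
    have := f0 x h0.le h1
    field_simp
    ring
  have hb' : ∀ x, 0 < x → x ≤ y → HasDerivAt b (-p x * b x - g x * (a x - b x)) x := by
    intro x h0 h1
    obtain ⟨s1, s2⟩ := hsol' x h0.le h1
    have h2 := (s2.sub ((p2 x h0 h1).mul s1)).div_const 2
    refine h2.congr_deriv ?_
    rw [hab]
    simp only [hb, hg]
    have := f0 x h0.le h1
    field_simp
    ring
  set A : ℝ := 100 / κ with hA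
  set lam : ℝ → ℝ := lamf α A r with hlam
  set lam' : ℝ → ℝ := fun x => 15 / 2 * Real.exp (-x) -
    A / r * (Real.exp (-(x ^ α)) * (α * x ^ (α - 1))) with hlam'
  have hlamd : ∀ x, 0 < x → HasDerivAt lam (lam' x) x := by
    intro x h0
    have h1 : HasDerivAt (fun x : ℝ => x ^ α) (α * x ^ (α - 1)) x :=
      Real.hasDerivAt_rpow_const (Or.inl h0.ne')
    have h2 : HasDerivAt (fun x : ℝ => Real.exp (-x)) (Real.exp (-x) * (-1)) x :=
      ((hasDerivAt_id x).neg).exp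
    have h3 : HasDerivAt (fun x : ℝ => Real.exp (-(x ^ α)))
      (Real.exp (-(x ^ α)) * (-(α * x ^ (α - 1)))) x := h1.neg.exp
    have h4 := ((h2.const_mul (15 / 2)).const_sub 8).sub ((h3.const_sub 1).const_mul (A / r))
    refine h4.congr_deriv ?_
    simp only [hlam']
    ring
  have hAr : A / r ≤ 1 / 4 := by
    rw [hA, div_div, div_le_iff₀ (by positivity)]
    linarith
  have hAr0 : 0 < A / r := by positivity
  have hrpow0 : ∀ x : ℝ, 0 ≤ x → 0 ≤ x ^ α := fun x h0 => Real.rpow_nonneg h0 _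
  have hlam1 : ∀ x, 0 ≤ x → 1 / 4 ≤ lam x := by
    intro x h0
    have e1 : Real.exp (-x) ≤ 1 := Real.exp_le_one_iff.2 (by linarith)
    have e2 : 0 < Real.exp (-(x ^ α)) := Real.exp_pos _
    have e3 : A / r * (1 - Real.exp (-(x ^ α))) ≤ 1 / 4 * 1 := by
      have : Real.exp (-(x ^ α)) ≤ 1 := Real.exp_le_one_iff.2 (by linarith [hrpow0 x h0])
      gcongr
      linarith
    simp only [hlam, lamf]
    linarith
  have hlam2 : ∀ x, 0 ≤ x → lam x ≤ 8 := by
    intro x h0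
    have e1 : 0 < Real.exp (-x) := Real.exp_pos _
    have e3 : 0 ≤ A / r * (1 - Real.exp (-(x ^ α))) := by
      have : Real.exp (-(x ^ α)) ≤ 1 := Real.exp_le_one_iff.2 (by linarith [hrpow0 x h0])
      refine mul_nonneg hAr0.le (by linarith)
    simp only [hlam, lamf]
    linarith
  have hexp1 : Real.exp (-1) ≤ 4 / 10 := by
    have h1 : (5 : ℝ) / 2 ≤ Real.exp 1 := by
      have := Real.exp_one_gt_d9
      linarith
    rw [Real.exp_neg, inv_eq_one_div, div_le_iff₀ (Real.exp_pos 1)]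
    linarith
  have hexp1' : 36 / 100 ≤ Real.exp (-1) := by
    have h1 : Real.exp 1 ≤ 2.72 := by
      have := Real.exp_one_lt_d9
      linarith
    rw [Real.exp_neg, inv_eq_one_div, le_div_iff₀ (Real.exp_pos 1)]
    linarith
  have hlam4 : 4 ≤ lam y := by
    have e1 : Real.exp (-y) ≤ 4 / 10 := le_trans (Real.exp_le_exp.2 (by linarith)) hexp1
    have e2 : 0 < Real.exp (-(y ^ α)) := Real.exp_pos _
    have e3 : A / r * (1 - Real.exp (-(y ^ α))) ≤ 1 / 4 * 1 := by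
      have : Real.exp (-(y ^ α)) ≤ 1 :=
        Real.exp_le_one_iff.2 (by linarith [hrpow0 y (by linarith)])
      gcongr
      linarith
    simp only [hlam, lamf]
    linarith
  -- the comparison density
  set n : ℝ → ℝ := fun x => α * x ^ (α - 1) / (2 * κ * r) with hn
  have hn0 : ∀ x, 0 < x → 0 ≤ n x := by
    intro x h0
    simp only [hn]
    positivity
  have hgn : ∀ x, 0 < x → x ≤ y → ‖g x‖ ≤ n x / 2 := by
    intro x h0 h1
    simp only [hg, hn]
    have h5 : ‖-Complex.I * ((α * x ^ (α - 1) : ℝ) : ℂ)‖ = α * x ^ (α - 1) := by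
      rw [norm_mul, norm_neg, Complex.norm_I, one_mul, Complex.norm_real,
        Real.norm_of_nonneg (by positivity)]
    have h6 : ‖4 * zz x‖ = 4 * ‖zz x‖ := by rw [norm_mul]; norm_num
    rw [norm_div, h5, h6, div_div, show 2 * κ * r * 2 = 4 * (κ * r) by ring]
    have := f3 x h0.le h1
    gcongr
  have himsq : ∀ x, 0 ≤ x → x ≤ y → 8 ≤ (p x).re := by
    intro x h0 h1
    rw [p3 x h0 h1]
    exact imsq_lower (zz x) r κ hκ hrpos (f1 x h0 h1) (f2 x h0 h1) hr2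
  have hlamle : ∀ x, 0 < x → x ≤ y → lam' x ≤ 4 * lam x * (p x).re - 61 * n x := by
    intro x h0 h1
    have e1 := himsq x h0.le h1
    have e2 := hlam1 x h0.le
    have e3 : 8 ≤ 4 * lam x * (p x).re := by nlinarith
    simp only [hlam']
    rcases le_total x 1 with hx1 | hx1
    · have e4 : Real.exp (-x) ≤ 1 := Real.exp_le_one_iff.2 (by linarith)
      have e5 : 36 / 100 ≤ Real.exp (-(x ^ α)) := by
        refine hexp1'.trans (Real.exp_le_exp.2 ?_)
        have := Real.rpow_le_one h0.le hx1 hα.le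
        linarith
      have e6 : 61 * n x ≤ A / r * (Real.exp (-(x ^ α)) * (α * x ^ (α - 1))) := by
        have e7 : 0 ≤ α * x ^ (α - 1) := by positivity
        have e8 : 61 * n x = (61 / (2 * κ * r)) * (α * x ^ (α - 1)) := by
          simp only [hn]; ring
        have e9 : A / r * (Real.exp (-(x ^ α)) * (α * x ^ (α - 1))) =
            (100 * Real.exp (-(x ^ α)) / (κ * r)) * (α * x ^ (α - 1)) := by
          rw [hA]; field_simp
        rw [e8, e9]
        refine mul_le_mul_of_nonneg_right ?_ e7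
        rw [div_le_div_iff₀ (by positivity) (by positivity)]
        have : 0 < κ * r := by positivity
        nlinarith
      linarith
    · have e4 : Real.exp (-x) ≤ 1 := Real.exp_le_one_iff.2 (by linarith)
      have e5 : 0 ≤ A / r * (Real.exp (-(x ^ α)) * (α * x ^ (α - 1))) := by positivity
      have e6 : 61 * n x ≤ 1 / 2 := by
        have e7 : x ^ (α - 1) ≤ 1 := Real.rpow_le_one_of_one_le_of_nonpos hx1 (by linarith)
        have e8 : α * x ^ (α - 1) ≤ 1 := by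
          have : 0 ≤ x ^ (α - 1) := by positivity
          nlinarith
        simp only [hn]
        rw [mul_div_assoc', div_le_iff₀ (by positivity)]
        nlinarith
      linarith
  have himsqc : Continuous fun t => imsq (zz t) := continuous_imsq.comp hzc
  set Q : ℝ → ℝ := fun x => ‖a x‖ ^ 2 - lam x * ‖b x‖ ^ 2 with hQ
  set E : ℝ → ℝ := fun x => 2 * (∫ t in (0:ℝ)..x, imsq (zz t)) - 6 * (x ^ α / (2 * κ * r)) with hE
  have hEd : ∀ x, 0 < x → HasDerivAt E (2 * imsq (zz x) - 6 * n x) x := by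
    intro x h0
    have h1 : HasDerivAt (fun x => ∫ t in (0:ℝ)..x, imsq (zz t)) (imsq (zz x)) x :=
      (himsqc.integral_hasStrictDerivAt 0 x).hasDerivAt
    have h2 : HasDerivAt (fun x : ℝ => x ^ α) (α * x ^ (α - 1)) x :=
      Real.hasDerivAt_rpow_const (Or.inl h0.ne')
    exact (h1.const_mul 2).sub ((h2.div_const (2 * κ * r)).const_mul 6)
  have hQd : ∀ x, 0 < x → x ≤ y → HasDerivAt Q
      (2 * ((p x * a x + g x * (a x - b x)) * (starRingEnd ℂ) (a x)).re -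
      (lam' x * ‖b x‖ ^ 2 + lam x * (2 * ((-p x * b x - g x * (a x - b x)) *
        (starRingEnd ℂ) (b x)).re))) x := by
    intro x h0 h1
    have h2 := (ha' x h0 h1).norm_sq
    have h3 := (hb' x h0 h1).norm_sq
    have h4 := h2.sub ((hlamd x h0).mul h3)
    rw [Complex.inner, Complex.inner] at h4
    exact h4
  set H : ℝ → ℝ := fun x => Q x * Real.exp (-E x) with hH
  have hHd : ∀ x, 0 < x → x ≤ y → ∃ D, HasDerivAt H D x ∧ 0 ≤ D := by
    intro x h0 h1
    have h2 := (hQd x h0 h1).mul ((hEd x h0).neg.exp)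
    refine ⟨_, h2, ?_⟩
    have h3 := wl_alg (a x) (b x) (p x) (g x) (lam x) (lam' x) (n x) (hn0 x h0) (hgn x h0 h1)
      (hlam1 x h0.le) (hlam2 x h0.le) (hlamle x h0 h1)
    have h4 := Real.exp_pos (-E x)
    rw [p3 x h0.le h1] at h3
    have h5 := mul_nonneg h3 h4.le
    simp only [hQ]
    simp only [Pi.neg_apply]
    nlinarith
  have hφc : Continuous φ := continuous_iff_continuousAt.2 fun x => (hsol x).1.continuousAt
  have hφ'c : Continuous φ' := continuous_iff_continuousAt.2 fun x => (hsol x).2.continuousAt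
  have hac : ContinuousOn a (Icc 0 y) :=
    (hφ'c.continuousOn.add (p5.mul hφc.continuousOn)).div_const 2
  have hbc : ContinuousOn b (Icc 0 y) :=
    (hφ'c.continuousOn.sub (p5.mul hφc.continuousOn)).div_const 2
  have hrc : Continuous (fun x : ℝ => x ^ α) := Real.continuous_rpow_const hα.le
  have hlamc : Continuous lam := by
    simp only [hlam]
    unfold lamf
    fun_prop
  have hEc : Continuous E := by
    have h1 : Continuous fun x => ∫ t in (0:ℝ)..x, imsq (zz t) :=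
      continuous_iff_continuousAt.2 fun x =>
        (himsqc.integral_hasStrictDerivAt 0 x).hasDerivAt.continuousAt
    exact (continuous_const.mul h1).sub (continuous_const.mul (hrc.div_const _))
  have hHc : ContinuousOn H (Icc 0 y) := by
    refine ContinuousOn.mul ?_ (Real.continuous_exp.comp hEc.neg).continuousOn
    exact (hac.norm.pow 2).sub (hlamc.continuousOn.mul (hbc.norm.pow 2))
  have hHmono : MonotoneOn H (Icc 0 y) := by
    refine monotoneOn_of_deriv_nonneg (convex_Icc 0 y) hHc ?_ ?_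
    · intro x hx
      rw [interior_Icc] at hx
      obtain ⟨D, hD, _⟩ := hHd x hx.1 hx.2.le
      exact hD.differentiableAt.differentiableWithinAt
    · intro x hx
      rw [interior_Icc] at hx
      obtain ⟨D, hD, hD0⟩ := hHd x hx.1 hx.2.le
      rw [hD.deriv]; exact hD0
  have hy0 : 0 ≤ y := by linarith
  have hfin := hHmono (left_mem_Icc.2 hy0) (right_mem_Icc.2 hy0) hy0
  have hE0 : E 0 = 0 := by
    simp only [hE]
    rw [intervalIntegral.integral_same, Real.zero_rpow hα.ne']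
    simp
  have hlam0 : lam 0 = 1 / 2 := by
    simp only [hlam, lamf]
    rw [Real.zero_rpow hα.ne']
    norm_num
  have hp0 : 1 ≤ ‖p 0‖ ^ 2 := by
    rw [p4 0 le_rfl hy0]
    have : zz 0 = μ := by simp [hzz, Real.zero_rpow hα.ne']
    rw [this]; exact hr1
  have hQ0 : 1 / 8 ≤ Q 0 := by
    simp only [hQ, ha, hb]
    rw [hlam0]
    rcases hini with ⟨h1, h2⟩ | ⟨h1, h2⟩
    · rw [h1, h2, mul_zero, add_zero, sub_zero]
      norm_num
    · rw [h1, h2, mul_one, zero_add, zero_sub, norm_div, norm_div, norm_neg]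
      have : ‖(2 : ℂ)‖ = 2 := by norm_num
      rw [this, div_pow]
      nlinarith
  have hQy : 1 / 8 * Real.exp (E y) ≤ Q y := by
    have h1 : H 0 = Q 0 := by simp only [hH]; rw [hE0]; simp
    rw [h1] at hfin
    have h2 : 1 / 8 ≤ Q y * Real.exp (-E y) := hQ0.trans hfin
    have h3 : Q y * Real.exp (-E y) * Real.exp (E y) = Q y := by
      rw [mul_assoc, ← Real.exp_add]; simp
    rw [← h3]
    have := Real.exp_pos (E y)
    gcongr
  have hQpos : 0 < Q y := lt_of_lt_of_le (by positivity) hQy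
  have hb2 : 4 * ‖b y‖ ^ 2 ≤ ‖a y‖ ^ 2 := by
    have h1 : 4 * ‖b y‖ ^ 2 ≤ lam y * ‖b y‖ ^ 2 := by gcongr
    simp only [hQ] at hQpos
    linarith
  have hb3 : ‖b y‖ ≤ ‖a y‖ / 2 := by
    apply (sq_le_sq₀ (norm_nonneg _) (by positivity)).1
    nlinarith
  have hb4 : ‖a y‖ / 2 ≤ ‖p y‖ * ‖φ y‖ := by
    rw [← norm_mul, ← hab]
    have := norm_sub_norm_le (a y) (b y)
    linarith
  have hb5 : ‖a y‖ ^ 2 ≤ 4 * (‖p y‖ ^ 2 * ‖φ y‖ ^ 2) := by
    have h1 : (‖a y‖ / 2) ^ 2 ≤ (‖p y‖ * ‖φ y‖) ^ 2 := by gcongr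
    rw [mul_pow] at h1
    linarith
  have hb6 : ‖p y‖ ^ 2 ≤ 2 * r := by
    rw [p4 y hy0 le_rfl]; exact f2 y hy0 le_rfl
  have hb7 : Q y ≤ ‖a y‖ ^ 2 := by
    simp only [hQ]
    have : 0 ≤ lam y * ‖b y‖ ^ 2 := by
      have := hlam1 y hy0
      positivity
    linarith
  calc 1 / 8 * Real.exp (2 * (∫ x in (0:ℝ)..y, imsq (μ - Complex.I * ((x ^ α : ℝ) : ℂ))) -
      6 * (y ^ α / (2 * κ * r))) = 1 / 8 * Real.exp (E y) := rfl
    _ ≤ Q y := hQy
    _ ≤ ‖a y‖ ^ 2 := hb7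
    _ ≤ 4 * (‖p y‖ ^ 2 * ‖φ y‖ ^ 2) := hb5
    _ ≤ 4 * (2 * r * ‖φ y‖ ^ 2) := by gcongr
    _ = 4 * (2 * r) * ‖φ y‖ ^ 2 := by ring

/-- WKB lower bound (exponential scale) for the solution with Dirichlet or Neumann data at `0`, on an
interval where `Im (i x^α - μ)` is negative and comparable with `‖μ‖`. -/
theorem wkb_lower (α κ : ℝ) (hα : 0 < α) (hα1 : α < 1) (hκ : 0 < κ) :
    ∃ R C : ℝ, 0 < R ∧ 0 < C ∧ ∀ (μ : ℂ) (y : ℝ) (φ φ' : ℝ → ℂ), R ≤ ‖μ‖ → 1 ≤ y →
      κ * ‖μ‖ ≤ μ.im - y ^ α → IsSol (pot α Complex.I μ) φ φ' →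
      ((φ 0 = 0 ∧ φ' 0 = 1) ∨ (φ 0 = 1 ∧ φ' 0 = 0)) →
      Real.exp (∫ x in (0:ℝ)..y, imsq (μ - Complex.I * ((x ^ α : ℝ) : ℂ))) ≤ C * ‖μ‖ * ‖φ y‖ := by
  refine ⟨512 / κ ^ 2 + 400 / κ + 1, 8 * Real.exp (3 / (2 * κ)), by positivity, by positivity, ?_⟩
  intro μ y φ φ' hR hy hμ hsol hini
  have hmain := wl_main α κ hα hα1 hκ μ y φ φ' hR hy hμ hsol hini
  set I := ∫ x in (0:ℝ)..y, imsq (μ - Complex.I * ((x ^ α : ℝ) : ℂ)) with hI
  have hr1 : 1 ≤ ‖μ‖ := by
    have : 0 < 512 / κ ^ 2 + 400 / κ := by positivity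
    linarith
  have hyα : y ^ α ≤ ‖μ‖ := by
    have h1 : μ.im ≤ ‖μ‖ := (le_abs_self _).trans (Complex.abs_im_le_norm μ)
    have : 0 < κ * ‖μ‖ := by positivity
    linarith
  have h1 : 6 * (y ^ α / (2 * κ * ‖μ‖)) ≤ 2 * (3 / (2 * κ)) := by
    have e1 : y ^ α / (2 * κ * ‖μ‖) ≤ ‖μ‖ / (2 * κ * ‖μ‖) := by gcongr
    have e2 : ‖μ‖ / (2 * κ * ‖μ‖) = 1 / (2 * κ) := by field_simp
    rw [e2] at e1
    calc 6 * (y ^ α / (2 * κ * ‖μ‖)) ≤ 6 * (1 / (2 * κ)) := by gcongr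
      _ = 2 * (3 / (2 * κ)) := by ring
  have h2 : 1 / 8 * Real.exp (2 * I - 2 * (3 / (2 * κ))) ≤ 4 * (2 * ‖μ‖) * ‖φ y‖ ^ 2 := by
    refine le_trans ?_ hmain
    gcongr
  have h3 : Real.exp (2 * I - 2 * (3 / (2 * κ))) = (Real.exp I / Real.exp (3 / (2 * κ))) ^ 2 := by
    rw [← Real.exp_sub, ← Real.exp_nat_mul]
    congr 1
    push_cast; ring
  rw [h3] at h2
  have h4 : (Real.exp I / Real.exp (3 / (2 * κ))) ^ 2 ≤ (8 * ‖μ‖ * ‖φ y‖) ^ 2 := by
    have : 64 * ‖μ‖ * ‖φ y‖ ^ 2 ≤ 64 * ‖μ‖ ^ 2 * ‖φ y‖ ^ 2 := by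
      have : ‖μ‖ ≤ ‖μ‖ ^ 2 := by nlinarith
      gcongr
    nlinarith
  have h5 : Real.exp I / Real.exp (3 / (2 * κ)) ≤ 8 * ‖μ‖ * ‖φ y‖ :=
    (sq_le_sq₀ (by positivity) (by positivity)).1 h4
  rw [div_le_iff₀ (Real.exp_pos _)] at h5
  linarith

end Pool.Agent.Helper209.AC.WkbLow
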