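import Mathlib

set_option autoImplicit false

namespace Pool.Agent.Helper209.AC.WkbUp

open MeasureTheory Set

/-- `ψ' ' = V ψ` on the whole line (`ψ'` is the derivative of `ψ`). -/
def IsSol (V ψ ψ' : ℝ → ℂ) : Prop :=
  ∀ x, HasDerivAt ψ (ψ' x) x ∧ HasDerivAt ψ' (V x * ψ x) x

/-- the potential `c|x|^α - μ` -/
noncomputable def pot (α : ℝ) (c μ : ℂ) (x : ℝ) : ℂ := c * ((|x| ^ α : ℝ) : ℂ) - μ

/-- `|Im √z|` -/
noncomputable def imsq (z : ℂ) : ℝ := Real.sqrt ((‖z‖ - z.re) / 2)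

theorem imsq_eq {s z : ℂ} (h : s ^ 2 = z) : imsq z = |s.im| := by
  unfold imsq
  have h1 : ‖z‖ = s.re ^ 2 + s.im ^ 2 := by
    rw [← h, norm_pow, ← Complex.normSq_eq_norm_sq, Complex.normSq_apply]; ring
  have h2 : z.re = s.re ^ 2 - s.im ^ 2 := by
    rw [← h, pow_two, Complex.mul_re]; ring
  rw [h1, h2, ← Real.sqrt_sq_eq_abs]
  congr 1
  ring

theorem inner_ineq (a b p c : ℂ) :
    2 * inner ℝ a (p * a + c * (a - b)) + 2 * inner ℝ b (-p * b - c * (a - b)) ≤
      (2 * |p.re| + 4 * ‖c‖) * (‖a‖ ^ 2 + ‖b‖ ^ 2) := by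
  have h1 : 2 * inner ℝ a (p * a + c * (a - b)) + 2 * inner ℝ b (-p * b - c * (a - b)) =
      2 * p.re * (‖a‖ ^ 2 - ‖b‖ ^ 2) + 2 * c.re * ‖a - b‖ ^ 2 := by
    rw [Complex.inner, Complex.inner, ← Complex.normSq_eq_norm_sq, ← Complex.normSq_eq_norm_sq,
      ← Complex.normSq_eq_norm_sq, Complex.normSq_apply, Complex.normSq_apply, Complex.normSq_apply]
    simp
    ring
  rw [h1]
  have h2 : ‖a - b‖ ^ 2 ≤ 2 * (‖a‖ ^ 2 + ‖b‖ ^ 2) := by
    have := norm_sub_le a b
    have := norm_nonneg (a - b)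
    nlinarith [sq_nonneg (‖a‖ - ‖b‖)]
  have h3 : 2 * p.re * (‖a‖ ^ 2 - ‖b‖ ^ 2) ≤ 2 * |p.re| * (‖a‖ ^ 2 + ‖b‖ ^ 2) := by
    have h4 := le_abs_self p.re
    have h5 := neg_abs_le p.re
    nlinarith [sq_nonneg ‖a‖, sq_nonneg ‖b‖]
  have h4 : 2 * c.re * ‖a - b‖ ^ 2 ≤ 4 * ‖c‖ * (‖a‖ ^ 2 + ‖b‖ ^ 2) := by
    have h5 : c.re ≤ ‖c‖ := (le_abs_self _).trans (Complex.abs_re_le_norm c)
    have h6 := norm_nonneg c
    calc 2 * c.re * ‖a - b‖ ^ 2 ≤ 2 * ‖c‖ * ‖a - b‖ ^ 2 := by
          have := sq_nonneg ‖a - b‖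
          nlinarith
      _ ≤ 2 * ‖c‖ * (2 * (‖a‖ ^ 2 + ‖b‖ ^ 2)) := mul_le_mul_of_nonneg_left h2 (by positivity)
      _ = _ := by ring
  linarith

/-- WKB upper bound (exponential scale) when `Re μ` is comparable with `‖μ‖`. -/
theorem wkb_upper (α κ : ℝ) (hα : 0 < α) (hα1 : α < 1) (hκ : 0 < κ) :
    ∃ C : ℝ, 0 < C ∧ ∀ (μ : ℂ) (x₁ : ℝ) (φ φ' : ℝ → ℂ), 1 ≤ ‖μ‖ → 0 ≤ x₁ →
      κ * ‖μ‖ ≤ μ.re → x₁ ^ α ≤ 4 * ‖μ‖ → IsSol (pot α Complex.I μ) φ φ' →
      ‖φ 0‖ ≤ 1 → ‖φ' 0‖ ≤ 1 → ∀ x ∈ Icc 0 x₁,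
      ‖φ x‖ ≤ C * ‖μ‖ * Real.exp (∫ t in (0:ℝ)..x, imsq (μ - Complex.I * ((t ^ α : ℝ) : ℂ))) ∧
      ‖φ' x‖ ≤ C * ‖μ‖ * Real.exp (∫ t in (0:ℝ)..x, imsq (μ - Complex.I * ((t ^ α : ℝ) : ℂ))) := by
  refine ⟨2 * Real.exp (2 / κ) * (1 + 1 / Real.sqrt κ), by positivity, ?_⟩
  intro μ x₁ φ φ' hμ hx₁ hκμ hx₁α hsol hφ0 hφ'0 x hx
  set r : ℝ := ‖μ‖ with hr
  have hr0 : 0 < r := by linarith
  have hκr : 0 < κ * r := by positivity
  set z : ℝ → ℂ := fun t => μ - Complex.I * ((t ^ α : ℝ) : ℂ) with hz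
  have hzre : ∀ t, (z t).re = μ.re := by
    intro t
    simp [hz]
  have hzslit : ∀ t, z t ∈ Complex.slitPlane := by
    intro t
    rw [Complex.mem_slitPlane_iff]
    left
    rw [hzre]; linarith
  have hz0 : ∀ t, z t ≠ 0 := fun t => Complex.slitPlane_ne_zero (hzslit t)
  have hrc : Continuous (fun t : ℝ => t ^ α) := Real.continuous_rpow_const hα.le
  have hzc : Continuous z := by
    simp only [hz]
    exact continuous_const.sub (continuous_const.mul (Complex.continuous_ofReal.comp hrc))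
  set s : ℝ → ℂ := fun t => (z t) ^ (1 / 2 : ℂ) with hs
  have hs2 : ∀ t, s t ^ 2 = z t := by
    intro t
    simp only [hs]
    rw [← Complex.cpow_nat_mul]
    norm_num
  have hsc : Continuous s := by
    simp only [hs]
    exact Continuous.cpow hzc continuous_const hzslit
  set p : ℝ → ℂ := fun t => -Complex.I * s t with hp
  have hpc : Continuous p := continuous_const.mul hsc
  have hp2 : ∀ t, p t * p t = - z t := by
    intro t
    simp only [hp]
    rw [← hs2 t]
    linear_combination (s t ^ 2) * Complex.I_sq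
  have hpre : ∀ t, |(p t).re| = imsq (z t) := by
    intro t
    rw [imsq_eq (hs2 t)]
    simp [hp]
  have hp0 : ∀ t, p t ≠ 0 := by
    intro t h
    have := hp2 t
    rw [h, mul_zero] at this
    exact hz0 t (neg_eq_zero.1 this.symm)
  have hpn : ∀ t, ‖p t‖ ^ 2 = ‖z t‖ := by
    intro t
    rw [pow_two, ← norm_mul, hp2, norm_neg]
  have hzn : ∀ t, κ * r ≤ ‖z t‖ := by
    intro t
    refine hκμ.trans ?_
    rw [← hzre t]
    exact (le_abs_self _).trans (Complex.abs_re_le_norm _)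
  have hV : ∀ t, 0 ≤ t → pot α Complex.I μ t = - z t := by
    intro t ht
    simp only [pot, hz, abs_of_nonneg ht]
    ring
  -- derivative of p
  have hpd : ∀ t, 0 < t → ∃ q : ℂ, HasDerivAt p q t ∧ 2 * p t * q = Complex.I * ((α * t ^ (α - 1) : ℝ) : ℂ) := by
    intro t ht
    have h1 : HasDerivAt (fun y : ℝ => y ^ α) (α * t ^ (α - 1)) t :=
      Real.hasDerivAt_rpow_const (Or.inl ht.ne')
    have h2 : HasDerivAt z (-(Complex.I * ((α * t ^ (α - 1) : ℝ) : ℂ))) t := by
      simp only [hz]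
      exact (h1.ofReal_comp.const_mul Complex.I).const_sub μ
    have h3 : HasDerivAt (fun w : ℂ => w ^ (1 / 2 : ℂ)) ((1 / 2 : ℂ) * (z t) ^ ((1 / 2 : ℂ) - 1) * 1) (z t) :=
      (hasDerivAt_id (z t)).cpow_const (hzslit t)
    obtain ⟨q, h4⟩ : ∃ q, HasDerivAt p q t := ⟨_, (h3.scomp t h2).const_mul (-Complex.I)⟩
    refine ⟨q, h4, ?_⟩
    have h5 := h4.mul h4
    have h6 : HasDerivAt (fun t => p t * p t) (-(-(Complex.I * ((α * t ^ (α - 1) : ℝ) : ℂ)))) t := by
      have : (fun t => p t * p t) = fun t => - z t := by funext t; exact hp2 t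
      rw [this]
      exact h2.neg
    have h7 := h5.unique h6
    rw [neg_neg] at h7
    linear_combination h7
  set a : ℝ → ℂ := fun t => (φ' t + p t * φ t) / 2 with ha
  set b : ℝ → ℂ := fun t => (φ' t - p t * φ t) / 2 with hb
  have hφc : Continuous φ := continuous_iff_continuousAt.2 fun t => (hsol t).1.continuousAt
  have hφ'c : Continuous φ' := continuous_iff_continuousAt.2 fun t => (hsol t).2.continuousAt
  have hac : Continuous a := by
    simp only [ha]
    exact (hφ'c.add (hpc.mul hφc)).div_const _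
  have hbc : Continuous b := by
    simp only [hb]
    exact (hφ'c.sub (hpc.mul hφc)).div_const _
  set S : ℝ → ℝ := fun t => ‖a t‖ ^ 2 + ‖b t‖ ^ 2 with hS
  have hSc : Continuous S := by
    simp only [hS]
    exact (hac.norm.pow 2).add (hbc.norm.pow 2)
  have hic : Continuous (fun t : ℝ => imsq (z t)) := by
    simp only [imsq]
    exact Real.continuous_sqrt.comp (((hzc.norm).sub (Complex.continuous_re.comp hzc)).div_const 2)
  set W : ℝ → ℝ := fun t => 2 * (∫ y in (0 : ℝ)..t, imsq (z y)) + t ^ α / (κ * r) with hW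
  have hWd : ∀ t, 0 < t → HasDerivAt W (2 * imsq (z t) + α * t ^ (α - 1) / (κ * r)) t := by
    intro t ht
    have h1 : HasDerivAt (fun u => ∫ y in (0 : ℝ)..u, imsq (z y)) (imsq (z t)) t :=
      (hic.integral_hasStrictDerivAt 0 t).hasDerivAt
    have h2 : HasDerivAt (fun y : ℝ => y ^ α) (α * t ^ (α - 1)) t :=
      Real.hasDerivAt_rpow_const (Or.inl ht.ne')
    exact (h1.const_mul 2).add (h2.div_const _)
  have hWc : Continuous W := by
    simp only [hW]
    refine (continuous_const.mul ?_).add (hrc.div_const _)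
    exact continuous_iff_continuousAt.2 fun t => (hic.integral_hasStrictDerivAt 0 t).hasDerivAt.continuousAt
  have hSd : ∀ t, 0 < t → ∃ S' : ℝ, HasDerivAt S S' t ∧
      S' ≤ (2 * imsq (z t) + α * t ^ (α - 1) / (κ * r)) * S t := by
    intro t ht
    obtain ⟨q, hq1, hq2⟩ := hpd t ht
    have hd1 := (hsol t).1
    have hd2 := (hsol t).2
    rw [hV t ht.le] at hd2
    have hzp : - z t = p t * p t := (hp2 t).symm
    rw [hzp] at hd2
    set c : ℂ := q / (2 * p t) with hc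
    have hpt := hp0 t
    have hq : q = c * (2 * p t) := by rw [hc]; field_simp
    have hab : p t * φ t = a t - b t := by simp only [ha, hb]; ring
    have hda : HasDerivAt a (p t * a t + c * (a t - b t)) t := by
      have h1 := (hd2.add (hq1.mul hd1)).div_const 2
      refine h1.congr_deriv ?_
      rw [← hab, hq]
      simp only [ha]
      ring
    have hdb : HasDerivAt b (-p t * b t - c * (a t - b t)) t := by
      have h1 := (hd2.sub (hq1.mul hd1)).div_const 2
      refine h1.congr_deriv ?_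
      rw [← hab, hq]
      simp only [hb]
      ring
    refine ⟨_, hda.norm_sq.add hdb.norm_sq, ?_⟩
    refine (inner_ineq (a t) (b t) (p t) c).trans ?_
    have hS0 : 0 ≤ S t := by simp only [hS]; positivity
    refine mul_le_mul_of_nonneg_right ?_ hS0
    rw [hpre]
    have hcn : 4 * ‖c‖ ≤ α * t ^ (α - 1) / (κ * r) := by
      have h1 : 4 * c * (p t * p t) = Complex.I * ((α * t ^ (α - 1) : ℝ) : ℂ) := by
        rw [← hq2, hq]; ring
      have h2 := congrArg norm h1
      have htp : 0 ≤ α * t ^ (α - 1) := by positivity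
      rw [norm_mul, norm_mul, hp2, norm_neg, norm_mul, Complex.norm_I, one_mul, Complex.norm_real,
        Real.norm_eq_abs, abs_of_nonneg htp] at h2
      rw [le_div_iff₀ hκr, ← h2]
      have h4 : ‖(4 : ℂ)‖ = 4 := by simp
      rw [h4]
      exact mul_le_mul_of_nonneg_left (hzn t) (by positivity)
    linarith
  -- the decreasing function
  set Gf : ℝ → ℝ := fun t => S t * Real.exp (-W t) with hGf
  have hGanti : AntitoneOn Gf (Icc 0 x₁) := by
    have hGc : Continuous Gf := hSc.mul (Real.continuous_exp.comp hWc.neg)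
    have hGd : ∀ t, 0 < t → ∃ G', HasDerivAt Gf G' t ∧ G' ≤ 0 := by
      intro t ht
      obtain ⟨S', h1, h2⟩ := hSd t ht
      refine ⟨_, h1.mul ((hWd t ht).neg.exp), ?_⟩
      have h3 := Real.exp_pos (-W t)
      have h4 : S' * Real.exp (-W t) + S t * (Real.exp (-W t) * -(2 * imsq (z t) + α * t ^ (α - 1) / (κ * r)))
          = (S' - (2 * imsq (z t) + α * t ^ (α - 1) / (κ * r)) * S t) * Real.exp (-W t) := by ring
      have h5 : S' * Real.exp (-W t) + S t * (Real.exp (-W t) * -(2 * imsq (z t) + α * t ^ (α - 1) / (κ * r))) ≤ 0 := by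
        rw [h4]
        exact mul_nonpos_of_nonpos_of_nonneg (by linarith) h3.le
      exact h5
    refine antitoneOn_of_deriv_nonpos (convex_Icc 0 x₁) hGc.continuousOn ?_ ?_
    · intro t ht
      rw [interior_Icc] at ht
      obtain ⟨G', h1, -⟩ := hGd t ht.1
      exact h1.differentiableAt.differentiableWithinAt
    · intro t ht
      rw [interior_Icc] at ht
      obtain ⟨G', h1, h2⟩ := hGd t ht.1
      rw [h1.deriv]; exact h2
  have hmain := hGanti (left_mem_Icc.2 hx₁) hx hx.1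
  have hW0 : W 0 = 0 := by
    simp only [hW]
    rw [intervalIntegral.integral_same, Real.zero_rpow hα.ne']
    simp
  have hS0le : S 0 ≤ 2 * r := by
    have h1 : ‖p 0‖ ^ 2 = r := by
      rw [hpn]
      simp only [hz]
      rw [Real.zero_rpow hα.ne']
      simp [hr]
    have h2 : ‖a 0‖ ≤ (1 + ‖p 0‖) / 2 := by
      simp only [ha]
      rw [norm_div, Complex.norm_ofNat]
      refine div_le_div_of_nonneg_right ?_ (by norm_num)
      refine (norm_add_le _ _).trans ?_
      rw [norm_mul]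
      have := norm_nonneg (p 0)
      nlinarith
    have h3 : ‖b 0‖ ≤ (1 + ‖p 0‖) / 2 := by
      simp only [hb]
      rw [norm_div, Complex.norm_ofNat]
      refine div_le_div_of_nonneg_right ?_ (by norm_num)
      refine (norm_sub_le _ _).trans ?_
      rw [norm_mul]
      have := norm_nonneg (p 0)
      nlinarith
    have h4 := norm_nonneg (a 0)
    have h5 := norm_nonneg (b 0)
    have h6 := norm_nonneg (p 0)
    simp only [hS]
    nlinarith [sq_nonneg (‖p 0‖ - 1)]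
  simp only [hGf] at hmain
  rw [hW0, neg_zero, Real.exp_zero, mul_one] at hmain
  set Ix : ℝ := ∫ t in (0 : ℝ)..x, imsq (z t) with hIx
  have hSx : S x ≤ 2 * r * Real.exp (2 * Ix + 4 / κ) := by
    have h1 : S x = (S x * Real.exp (-W x)) * Real.exp (W x) := by
      rw [mul_assoc, ← Real.exp_add]; simp
    rw [h1]
    have h2 : W x ≤ 2 * Ix + 4 / κ := by
      simp only [hW]
      have h3 : x ^ α ≤ 4 * r := (Real.rpow_le_rpow hx.1 hx.2 hα.le).trans hx₁α
      have h4 : x ^ α / (κ * r) ≤ 4 / κ := by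
        rw [div_le_div_iff₀ hκr hκ]
        nlinarith
      linarith
    calc (S x * Real.exp (-W x)) * Real.exp (W x) ≤ (2 * r) * Real.exp (W x) :=
          mul_le_mul_of_nonneg_right (hmain.trans hS0le) (Real.exp_pos _).le
      _ ≤ 2 * r * Real.exp (2 * Ix + 4 / κ) :=
          mul_le_mul_of_nonneg_left (Real.exp_le_exp.2 h2) (by positivity)
  have hT : ‖a x‖ + ‖b x‖ ≤ 2 * r * Real.exp (2 / κ) * Real.exp Ix := by
    refine abs_le_of_sq_le_sq' ?_ (by positivity) |>.2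
    have h1 : (2 * r * Real.exp (2 / κ) * Real.exp Ix) ^ 2 = 4 * r ^ 2 * Real.exp (2 * Ix + 4 / κ) := by
      have : Real.exp (2 * Ix + 4 / κ) = (Real.exp (2 / κ) * Real.exp Ix) ^ 2 := by
        rw [← Real.exp_add, ← Real.exp_nat_mul]
        congr 1
        push_cast
        ring
      rw [this]; ring
    rw [h1]
    have h2 : (‖a x‖ + ‖b x‖) ^ 2 ≤ 2 * S x := by
      simp only [hS]
      nlinarith [sq_nonneg (‖a x‖ - ‖b x‖)]
    have h3 : 4 * r * Real.exp (2 * Ix + 4 / κ) ≤ 4 * r ^ 2 * Real.exp (2 * Ix + 4 / κ) := by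
      refine mul_le_mul_of_nonneg_right ?_ (Real.exp_pos _).le
      nlinarith
    linarith
  have hsk : 0 < Real.sqrt κ := Real.sqrt_pos.2 hκ
  constructor
  · have h1 : ‖φ x‖ * ‖p x‖ ≤ ‖a x‖ + ‖b x‖ := by
      have h2 : p x * φ x = a x - b x := by simp only [ha, hb]; ring
      rw [mul_comm, ← norm_mul, h2]
      exact norm_sub_le _ _
    have h2 : Real.sqrt κ ≤ ‖p x‖ := by
      rw [← Real.sqrt_sq (norm_nonneg (p x)), hpn]
      refine Real.sqrt_le_sqrt ?_
      refine le_trans ?_ (hzn x)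
      nlinarith
    have h3 : ‖φ x‖ * Real.sqrt κ ≤ 2 * r * Real.exp (2 / κ) * Real.exp Ix :=
      (mul_le_mul_of_nonneg_left h2 (norm_nonneg _)).trans (h1.trans hT)
    have h4 : ‖φ x‖ ≤ (2 * r * Real.exp (2 / κ) * Real.exp Ix) * (1 / Real.sqrt κ) := by
      rw [mul_one_div, le_div_iff₀ hsk]; exact h3
    have h5 : 0 ≤ 2 * r * Real.exp (2 / κ) * Real.exp Ix := by positivity
    calc ‖φ x‖ ≤ (2 * r * Real.exp (2 / κ) * Real.exp Ix) * (1 / Real.sqrt κ) := h4
      _ ≤ (2 * r * Real.exp (2 / κ) * Real.exp Ix) * (1 + 1 / Real.sqrt κ) :=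
          mul_le_mul_of_nonneg_left (by linarith) h5
      _ = _ := by ring
  · have h1 : φ' x = a x + b x := by simp only [ha, hb]; ring
    have h2 : ‖φ' x‖ ≤ 2 * r * Real.exp (2 / κ) * Real.exp Ix := by
      rw [h1]; exact (norm_add_le _ _).trans hT
    have h5 : 0 ≤ 2 * r * Real.exp (2 / κ) * Real.exp Ix := by positivity
    have h6 : 0 < 1 / Real.sqrt κ := by positivity
    calc ‖φ' x‖ ≤ (2 * r * Real.exp (2 / κ) * Real.exp Ix) * 1 := by rw [mul_one]; exact h2
      _ ≤ (2 * r * Real.exp (2 / κ) * Real.exp Ix) * (1 + 1 / Real.sqrt κ) :=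
          mul_le_mul_of_nonneg_left (by linarith) h5
      _ = _ := by ring

end Pool.Agent.Helper209.AC.WkbUp
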