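import Pool.Agent.Helper209.AC.AlmostPL
import Pool.Agent.Helper209.AC.EntireF
import Pool.Agent.Helper209.AC.GrowthF
import Pool.Agent.Helper209.AC.KCalc
import Pool.Agent.Helper209.AC.KKScale
import Pool.Agent.Helper209.AC.LowerP2
import Pool.Agent.Helper209.AC.MBound
import Pool.Agent.Helper209.AC.ParamODE
import Pool.Agent.Helper209.AC.SectorFinal
import Pool.Agent.Helper209.AC.TrigCmp
import Pool.Agent.Helper209.AC.Trunc
import Pool.Agent.Helper209.AC.UpperP1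
import Pool.Agent.Helper209.AC.WeylFam
import Pool.Agent.Helper209.AC.WeylPot
import Pool.Agent.Helper209.AC.WkbLow
import Pool.Agent.Helper209.AC.WkbUp

set_option autoImplicit false

namespace Pool.Agent.Helper209.AC

open MeasureTheory Set

theorem weylPotStmt (α : ℝ) (hα : 0 < α) : EntireF.WeylPotStmt α := by
  have h1 : WeylPot.ParamStmt := fun q hq X => ParamODE.exists_sol_param q hq X
  have h2 : WeylPot.WeylFamStmt := fun U hU V S₁ T₁ S₂ T₂ X δ K w hδ hK hw hw1 hV hc hVK a1 a2 d1 d2 =>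
    WeylFam.weyl_family U hU V S₁ T₁ S₂ T₂ X δ K w hδ hK hw hw1 hV hc hVK a1 a2 d1 d2
  exact WeylPot.weyl_pot h1 h2 α hα

theorem mStmt (α : ℝ) (hα : 0 < α) (hα1 : α < 1) : EntireF.MStmt α :=
  MBound.mbound α hα hα1 (weylPotStmt α hα)

theorem wkbUpStmt (α : ℝ) (hα : 0 < α) (hα1 : α < 1) : UpperP1.WkbUpStmt α :=
  fun κ hκ => WkbUp.wkb_upper α κ hα hα1 hκ

theorem wkbLowStmt (α : ℝ) (hα : 0 < α) (hα1 : α < 1) : LowerP2.WkbLowStmt α :=
  fun κ hκ => WkbLow.wkb_lower α κ hα hα1 hκ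

theorem crudeStmt (α : ℝ) (hα : 0 < α) (hα1 : α < 1) : GrowthF.CrudeStmt α :=
  LowerP2.crude α hα hα1

theorem removeLineStmt : GrowthF.RemoveLineStmt :=
  fun F hF ρ C θ b hρ h => SectorFinal.remove_line F hF ρ C θ b hρ h

/-- the exponent `k(θ)` -/
noncomputable def kk (α θ : ℝ) : ℝ := KCalc.kk α θ

theorem exists_weyl' (α : ℝ) (hα : 0 < α) (hα1 : α < 1) (P : Pack α) (ζ : ℂ)
    (hζ : dray α (ζ - 1 - Complex.I) ≠ 0 ∨ ζ.re ≤ 0 ∨ ζ.im ≤ 0) : ∃ ψ ψ', IsWeyl P ζ ψ ψ' :=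
  EntireF.exists_weyl α hα hα1 (weylPotStmt α hα) (mStmt α hα hα1) P ζ hζ

theorem int_diff {α : ℝ} (hα : 0 < α) {Φ Φ' : ℂ → ℝ → ℂ} (hsol : ∀ ζ, IsSol (Vz α ζ) (Φ ζ) (Φ' ζ))
    (hini : ∀ ζ, en (Φ ζ) (Φ' ζ) 0 ≤ 1) (hd : ∀ x, Differentiable ℂ (fun ζ => Φ ζ x))
    {g : ℝ → ℂ} (hg : MemLp g 2 (volume.restrict (Ioi (0:ℝ)))) {y : ℝ} (hy : 0 ≤ y) :
    Differentiable ℂ (fun ζ => ∫ x in (0:ℝ)..y, g x * Φ ζ x) := by
  intro ζ0
  set U := Metric.ball ζ0 1 with hU
  set K : ℝ := y ^ α + (‖ζ0‖ + 1) + 2 with hK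
  have hK0 : 0 ≤ K := by positivity
  set g' : ℝ → ℂ := (Ioc 0 y).indicator (fun x => g x * ((Real.exp ((1 / 2) * x) : ℝ) : ℂ)) with hg'
  set Ψ : ℂ → ℝ → ℂ := fun z x => Φ z (min x y) * ((Real.exp (-(1 / 2) * x) : ℝ) : ℂ) with hΨ
  have hgL : MemLp g' 2 (volume.restrict (Ioi (0:ℝ))) := by
    have h1 : MemLp (fun x => ‖g x‖ * Real.exp ((1 / 2) * y)) 2 (volume.restrict (Ioi (0:ℝ))) := by
      exact (hg.norm).mul_const _
    apply h1.mono
    · rw [hg']
      apply AEStronglyMeasurable.indicator _ measurableSet_Ioc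
      exact hg.1.mul (Continuous.aestronglyMeasurable (by fun_prop))
    · refine Filter.Eventually.of_forall fun x => ?_
      rw [Real.norm_of_nonneg (by positivity)]
      rw [hg', norm_indicator_eq_indicator_norm]
      by_cases hx : x ∈ Ioc 0 y
      · rw [indicator_of_mem hx, norm_mul, Complex.norm_real, Real.norm_of_nonneg (Real.exp_pos _).le]
        apply mul_le_mul_of_nonneg_left _ (norm_nonneg _)
        apply Real.exp_le_exp.2
        linarith [hx.2]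
      · rw [indicator_of_notMem hx]
        positivity
  have hbd : ∀ z ∈ U, ∀ x, 0 ≤ x → ‖Φ z (min x y)‖ ≤ Real.exp ((1 + K) * y) := by
    intro z hz x hx
    have hm : 0 ≤ min x y := le_min hx hy
    have hV : ∀ t ∈ Icc 0 (min x y), ‖Vz α z t‖ ≤ K := by
      intro t ht
      unfold Vz pot
      have e1 : ‖Complex.I * ((|t| ^ α : ℝ) : ℂ)‖ ≤ y ^ α := by
        rw [norm_mul, Complex.norm_I, one_mul, Complex.norm_real, Real.norm_of_nonneg (by positivity),
          abs_of_nonneg ht.1]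
        exact Real.rpow_le_rpow ht.1 (ht.2.trans (min_le_right _ _)) hα.le
      have e2 : ‖z - 1 - Complex.I‖ ≤ (‖ζ0‖ + 1) + 2 := by
        have h1 : ‖z‖ ≤ ‖ζ0‖ + 1 := by
          have : ‖z - ζ0‖ < 1 := by rw [hU, Metric.mem_ball, dist_eq_norm] at hz; exact hz
          have h3 : ‖z‖ ≤ ‖z - ζ0‖ + ‖ζ0‖ := by
            have := norm_add_le (z - ζ0) ζ0
            rwa [sub_add_cancel] at this
          linarith
        have h2 : ‖z - 1 - Complex.I‖ ≤ ‖z‖ + ‖(1:ℂ)‖ + ‖Complex.I‖ :=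
          (norm_sub_le _ _).trans (by gcongr; exact norm_sub_le _ _)
        rw [norm_one, Complex.norm_I] at h2
        linarith
      calc _ ≤ ‖Complex.I * ((|t| ^ α : ℝ) : ℂ)‖ + ‖z - 1 - Complex.I‖ := norm_sub_le _ _
        _ ≤ _ := by rw [hK]; linarith
    have h1 := (hsol z).growth hm hV
    have h2 : en (Φ z) (Φ' z) 0 * Real.exp ((1 + K) * (min x y - 0)) ≤ Real.exp ((1 + K) * y) := by
      have : Real.exp ((1 + K) * (min x y - 0)) ≤ Real.exp ((1 + K) * y) := by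
        apply Real.exp_le_exp.2
        have := min_le_right x y
        have h5 : 0 ≤ 1 + K := by linarith
        nlinarith
      calc _ ≤ 1 * Real.exp ((1 + K) * (min x y - 0)) :=
            mul_le_mul_of_nonneg_right (hini z) (Real.exp_pos _).le
        _ ≤ _ := by rw [one_mul]; exact this
    have h3 : ‖Φ z (min x y)‖ ^ 2 ≤ Real.exp ((1 + K) * y) := by
      have : ‖Φ z (min x y)‖ ^ 2 ≤ en (Φ z) (Φ' z) (min x y) := by
        unfold en; nlinarith [sq_nonneg ‖Φ' z (min x y)‖]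
      linarith
    have h4 : 1 ≤ Real.exp ((1 + K) * y) := by
      apply Real.one_le_exp; positivity
    nlinarith [norm_nonneg (Φ z (min x y))]
  have key := EntireF.diff_integral (U := U) Metric.isOpen_ball (Ψ := Ψ) (C := Real.exp ((1 + K) * y))
    (by
      intro z hz
      have h1 := (hsol z).cont
      exact (h1.comp (continuous_id.min continuous_const)).mul (by fun_prop))
    (by
      intro z hz x hx
      simp only [hΨ]
      rw [norm_mul, Complex.norm_real, Real.norm_of_nonneg (Real.exp_pos _).le]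
      exact mul_le_mul_of_nonneg_right (hbd z hz x hx) (Real.exp_pos _).le)
    (by
      intro x
      exact ((hd (min x y)).mul_const _).differentiableOn) hgL
  have hEq : (fun z => ∫ x in Ioi (0:ℝ), g' x * Ψ z x) = (fun ζ => ∫ x in (0:ℝ)..y, g x * Φ ζ x) := by
    funext z
    rw [intervalIntegral.integral_of_le hy]
    have h1 : (fun x => g' x * Ψ z x) = (Ioc 0 y).indicator (fun x => g x * Φ z x) := by
      funext x
      by_cases hx : x ∈ Ioc 0 y
      · rw [indicator_of_mem hx, hg', indicator_of_mem hx, hΨ]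
        simp only [min_eq_left hx.2]
        have : ((Real.exp ((1 / 2) * x) : ℝ) : ℂ) * ((Real.exp (-(1 / 2) * x) : ℝ) : ℂ) = 1 := by
          rw [← Complex.ofReal_mul, ← Real.exp_add]; ring_nf; simp
        linear_combination (g x * Φ z x) * this
      · rw [indicator_of_notMem hx, hg', indicator_of_notMem hx, zero_mul]
    rw [h1, setIntegral_indicator measurableSet_Ioc]
    congr 2
    ext x; simp only [mem_inter_iff, mem_Ioi, mem_Ioc]; tauto
  rw [← hEq]
  exact key.differentiableAt (Metric.isOpen_ball.mem_nhds (Metric.mem_ball_self one_pos))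

theorem Pack.en_phi {α : ℝ} (P : Pack α) (ζ : ℂ) : en (P.φ ζ) (P.φ' ζ) 0 ≤ 1 := by
  rcases P.hp with ⟨h0, h1⟩ | ⟨h0, h1⟩ <;> simp [en, P.φ0, P.φ0', h0, h1]

theorem Pack.en_chi {α : ℝ} (P : Pack α) (ζ : ℂ) : en (P.χ ζ) (P.χ' ζ) 0 ≤ 1 := by
  rcases P.hp with ⟨h0, h1⟩ | ⟨h0, h1⟩ <;> simp [en, P.χ0, P.χ0', h0, h1]

theorem Fy_diff {α : ℝ} (hα : 0 < α) (P : Pack α) {g : ℝ → ℂ}
    (hg : MemLp g 2 (volume.restrict (Ioi (0:ℝ)))) {y : ℝ} (hy : 0 ≤ y) {S : Set ℂ}
    (h0 : ∀ ζ ∈ S, P.φ ζ y ≠ 0) : DifferentiableOn ℂ (Fy P g y) S := by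
  unfold Fy
  have h1 := int_diff hα P.solφ P.en_phi P.dφ hg hy
  have h2 := int_diff hα P.solχ P.en_chi P.dχ hg hy
  exact h2.differentiableOn.sub
    (((P.dχ y).differentiableOn.div (P.dφ y).differentiableOn h0).mul h1.differentiableOn)

end Pool.Agent.Helper209.AC
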