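import Pool.Agent.Helper209.AC.ODE

set_option autoImplicit false

namespace Pool.Agent.Helper209.AC

open MeasureTheory Set

variable {V ψ ψ' χ χ' φ φ' : ℝ → ℂ}

lemma sq_integral_le {h : ℝ → ℝ} (hc : Continuous h) (a : ℝ) :
    (∫ x in a..(a + 1), h x) ^ 2 ≤ ∫ x in a..(a + 1), h x ^ 2 := by
  set m := ∫ x in a..(a + 1), h x with hm
  have h0 : 0 ≤ ∫ x in a..(a + 1), (h x - m) ^ 2 :=
    intervalIntegral.integral_nonneg (by linarith) (fun _ _ => sq_nonneg _)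
  have e : (∫ x in a..(a + 1), (h x - m) ^ 2)
      = (∫ x in a..(a + 1), h x ^ 2) - m ^ 2 := by
    have : ∀ x, (h x - m) ^ 2 = h x ^ 2 - (2 * m) * h x + m ^ 2 := fun x => by ring
    simp_rw [this]
    rw [intervalIntegral.integral_add, intervalIntegral.integral_sub,
      intervalIntegral.integral_const_mul, intervalIntegral.integral_const, ← hm]
    · simp; ring
    · exact (hc.pow 2).intervalIntegrable _ _
    · exact (hc.const_mul _).intervalIntegrable _ _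
    · exact ((hc.pow 2).sub (hc.const_mul _)).intervalIntegrable _ _
    · exact intervalIntegrable_const
  linarith

/-- trace inequality on a unit interval -/
lemma trace0 {f f' : ℝ → ℂ} (hf : ∀ x, HasDerivAt f (f' x) x) (hf' : Continuous f') {a b : ℝ}
    (hb : b ∈ Icc a (a + 1)) :
    ‖f b‖ ^ 2 ≤ 2 * ∫ x in a..(a + 1), (‖f x‖ ^ 2 + ‖f' x‖ ^ 2) := by
  have hfc : Continuous f := continuous_iff_continuousAt.2 fun x => (hf x).continuousAt
  set m := ∫ x in a..(a + 1), ‖f' x‖ with hm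
  have h1 : ∀ x ∈ Icc a (a + 1), ‖f b‖ ≤ ‖f x‖ + m := by
    intro x hx
    have e : f b - f x = ∫ t in x..b, f' t := by
      rw [intervalIntegral.integral_eq_sub_of_hasDerivAt (fun t _ => hf t) (hf'.intervalIntegrable _ _)]
    have e2 : ‖f b - f x‖ ≤ m := by
      rw [e]
      calc ‖∫ t in x..b, f' t‖ ≤ |∫ t in x..b, ‖f' t‖| := intervalIntegral.norm_integral_le_abs_integral_norm
        _ ≤ |∫ t in a..(a + 1), ‖f' t‖| := by
            apply intervalIntegral.abs_integral_mono_interval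
            · intro t ht
              rw [mem_uIoc] at ht
              rw [uIoc_of_le (by linarith)]
              rcases ht with ht | ht
              · exact ⟨lt_of_le_of_lt hx.1 ht.1, ht.2.trans hb.2⟩
              · exact ⟨lt_of_le_of_lt hb.1 ht.1, ht.2.trans hx.2⟩
            · exact Filter.Eventually.of_forall fun _ => norm_nonneg _
            · exact hf'.norm.intervalIntegrable _ _
        _ = m := abs_of_nonneg (intervalIntegral.integral_nonneg (by linarith) fun _ _ => norm_nonneg _)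
    calc ‖f b‖ = ‖(f b - f x) + f x‖ := by simp
      _ ≤ ‖f b - f x‖ + ‖f x‖ := norm_add_le _ _
      _ ≤ _ := by linarith
  have h2 : ∀ x ∈ Icc a (a + 1), ‖f b‖ ^ 2 ≤ 2 * ‖f x‖ ^ 2 + 2 * m ^ 2 := by
    intro x hx
    have := h1 x hx
    have h3 : ‖f b‖ ^ 2 ≤ (‖f x‖ + m) ^ 2 := by
      apply pow_le_pow_left₀ (norm_nonneg _) this
    nlinarith [sq_nonneg (‖f x‖ - m)]
  have h4 : ∫ x in a..(a + 1), ‖f b‖ ^ 2 ≤ ∫ x in a..(a + 1), (2 * ‖f x‖ ^ 2 + 2 * m ^ 2) := by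
    apply intervalIntegral.integral_mono_on (by linarith)
    · exact intervalIntegrable_const
    · exact (((hfc.norm.pow 2).const_mul _).add continuous_const).intervalIntegrable _ _
    · exact h2
  have h5 : m ^ 2 ≤ ∫ x in a..(a + 1), ‖f' x‖ ^ 2 := sq_integral_le hf'.norm a
  have e1 : (∫ x in a..(a + 1), ‖f b‖ ^ 2) = ‖f b‖ ^ 2 := by simp
  have e2 : (∫ x in a..(a + 1), (2 * ‖f x‖ ^ 2 + 2 * m ^ 2))
      = 2 * (∫ x in a..(a + 1), ‖f x‖ ^ 2) + 2 * m ^ 2 := by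
    rw [intervalIntegral.integral_add, intervalIntegral.integral_const_mul]
    · simp
    · exact ((hfc.norm.pow 2).const_mul _).intervalIntegrable _ _
    · exact intervalIntegrable_const
  have e3 : (∫ x in a..(a + 1), (‖f x‖ ^ 2 + ‖f' x‖ ^ 2))
      = (∫ x in a..(a + 1), ‖f x‖ ^ 2) + ∫ x in a..(a + 1), ‖f' x‖ ^ 2 := by
    rw [intervalIntegral.integral_add]
    · exact (hfc.norm.pow 2).intervalIntegrable _ _
    · exact (hf'.norm.pow 2).intervalIntegrable _ _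
  rw [e1, e2] at h4
  rw [e3]
  linarith

lemma IsSol.trace (h : IsSol V ψ ψ') {a b : ℝ} (hb : b ∈ Icc a (a + 1)) :
    ‖ψ b‖ ^ 2 ≤ 2 * ∫ x in a..(a + 1), en ψ ψ' x :=
  trace0 (fun x => (h x).1) h.cont' hb

lemma IsSol.trace' (hV : Continuous V) (h : IsSol V ψ ψ') {a b K : ℝ} (hb : b ∈ Icc a (a + 1))
    (hK : ∀ x ∈ Icc a (a + 1), ‖V x‖ ≤ K) :
    ‖ψ' b‖ ^ 2 ≤ 2 * (1 + K ^ 2) * ∫ x in a..(a + 1), en ψ ψ' x := by
  have h1 := trace0 (fun x => (h x).2) (hV.mul h.cont) hb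
  refine h1.trans ?_
  rw [mul_assoc]
  apply mul_le_mul_of_nonneg_left _ (by norm_num)
  rw [← intervalIntegral.integral_const_mul]
  apply intervalIntegral.integral_mono_on (by linarith)
  · exact ((h.cont'.norm.pow 2).add ((hV.mul h.cont).norm.pow 2)).intervalIntegrable _ _
  · exact ((en_cont h).const_mul _).intervalIntegrable _ _
  · intro x hx
    have := hK x hx
    have h2 : ‖V x * ψ x‖ ^ 2 ≤ K ^ 2 * ‖ψ x‖ ^ 2 := by
      rw [norm_mul, mul_pow]
      apply mul_le_mul_of_nonneg_right _ (by positivity)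
      exact pow_le_pow_left₀ (norm_nonneg _) this 2
    unfold en
    nlinarith [sq_nonneg ‖ψ x‖, mul_nonneg (sq_nonneg K) (sq_nonneg ‖ψ' x‖)]

/-- the energy current -/
noncomputable def JJ (w : ℂ) (ψ ψ' : ℝ → ℂ) (x : ℝ) : ℝ := (w * (starRingEnd ℂ (ψ x) * ψ' x)).re

lemma hasDerivAt_JJ (h : IsSol V ψ ψ') (w : ℂ) (x : ℝ) :
    HasDerivAt (JJ w ψ ψ') (w.re * ‖ψ' x‖ ^ 2 + (w * V x).re * ‖ψ x‖ ^ 2) x := by
  have h1 : HasDerivAt (fun x => starRingEnd ℂ (ψ x)) (starRingEnd ℂ (ψ' x)) x := by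
    have := (Complex.conjCLE.toContinuousLinearMap.hasFDerivAt (x := ψ x)).comp_hasDerivAt x (h x).1
    exact this
  have h2 := ((h1.mul (h x).2).const_mul w)
  have h3 := (Complex.reCLM.hasFDerivAt (x := w * (starRingEnd ℂ (ψ x) * ψ' x))).comp_hasDerivAt x h2
  refine h3.congr_deriv ?_
  simp only [Complex.reCLM_apply]
  have e1 : starRingEnd ℂ (ψ' x) * ψ' x = ((‖ψ' x‖ ^ 2 : ℝ) : ℂ) := by
    rw [mul_comm, Complex.mul_conj, Complex.normSq_eq_norm_sq]
  have e2 : starRingEnd ℂ (ψ x) * (V x * ψ x) = V x * ((‖ψ x‖ ^ 2 : ℝ) : ℂ) := by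
    have : starRingEnd ℂ (ψ x) * ψ x = ((‖ψ x‖ ^ 2 : ℝ) : ℂ) := by
      rw [mul_comm, Complex.mul_conj, Complex.normSq_eq_norm_sq]
    rw [← this]; ring
  rw [e1, e2, mul_add, Complex.add_re, Complex.re_mul_ofReal, ← mul_assoc, Complex.re_mul_ofReal]

lemma JJ_cont (h : IsSol V ψ ψ') (w : ℂ) : Continuous (JJ w ψ ψ') :=
  continuous_iff_continuousAt.2 fun x => (hasDerivAt_JJ h w x).continuousAt

lemma abs_JJ_le {w : ℂ} (hw : ‖w‖ ≤ 1) (ψ ψ' : ℝ → ℂ) (x : ℝ) : |JJ w ψ ψ' x| ≤ ‖ψ x‖ * ‖ψ' x‖ := by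
  unfold JJ
  calc |(w * (starRingEnd ℂ (ψ x) * ψ' x)).re| ≤ ‖w * (starRingEnd ℂ (ψ x) * ψ' x)‖ := Complex.abs_re_le_norm _
    _ = ‖w‖ * (‖ψ x‖ * ‖ψ' x‖) := by rw [norm_mul, norm_mul, RCLike.norm_conj]
    _ ≤ 1 * (‖ψ x‖ * ‖ψ' x‖) := by apply mul_le_mul_of_nonneg_right hw; positivity
    _ = _ := one_mul _

/-- coercivity of `V` on `s` -/
structure Coer (V : ℝ → ℂ) (w : ℂ) (δ : ℝ) (s : Set ℝ) : Prop where
  pos : 0 < δ
  re : δ ≤ w.re
  le : ‖w‖ ≤ 1
  coer : ∀ x ∈ s, δ ≤ (w * V x).re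

lemma Coer.mono {w : ℂ} {δ : ℝ} {s t : Set ℝ} (h : Coer V w δ s) (hst : t ⊆ s) : Coer V w δ t :=
  ⟨h.pos, h.re, h.le, fun x hx => h.coer x (hst hx)⟩

lemma Coer.le_one {w : ℂ} {δ : ℝ} {s : Set ℝ} (h : Coer V w δ s) : δ ≤ 1 :=
  h.re.trans ((Complex.re_le_norm w).trans h.le)

/-- the fundamental monotonicity -/
lemma JJ_mono {w : ℂ} {δ a b : ℝ} (h : IsSol V ψ ψ') (hab : a ≤ b) (hc : Coer V w δ (Icc a b)) :
    δ * ∫ x in a..b, en ψ ψ' x ≤ JJ w ψ ψ' b - JJ w ψ ψ' a := by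
  have hder : ∀ x, HasDerivAt (fun x => JJ w ψ ψ' x - δ * ∫ t in a..x, en ψ ψ' t)
      ((w.re * ‖ψ' x‖ ^ 2 + (w * V x).re * ‖ψ x‖ ^ 2) - δ * en ψ ψ' x) x := by
    intro x
    apply (hasDerivAt_JJ h w x).sub
    apply HasDerivAt.const_mul
    exact intervalIntegral.integral_hasDerivAt_right ((en_cont h).intervalIntegrable _ _)
      ((en_cont h).stronglyMeasurableAtFilter _ _) (en_cont h).continuousAt
  have hm : MonotoneOn (fun x => JJ w ψ ψ' x - δ * ∫ t in a..x, en ψ ψ' t) (Icc a b) := by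
    apply monotoneOn_of_deriv_nonneg (convex_Icc a b)
    · exact (continuous_iff_continuousAt.2 fun x => (hder x).continuousAt).continuousOn
    · exact fun x _ => (hder x).differentiableAt.differentiableWithinAt
    · intro x hx
      rw [interior_Icc] at hx
      rw [(hder x).deriv]
      have h1 := hc.coer x ⟨hx.1.le, hx.2.le⟩
      have h2 := hc.re
      unfold en
      nlinarith [sq_nonneg ‖ψ x‖, sq_nonneg ‖ψ' x‖]
  have := hm (left_mem_Icc.2 hab) (right_mem_Icc.2 hab) hab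
  simp only [intervalIntegral.integral_same, mul_zero, sub_zero] at this
  linarith

end Pool.Agent.Helper209.AC
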