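import Pool.Agent.Helper209.AC.Line

set_option autoImplicit false

namespace Pool.Agent.Helper209.AC

open MeasureTheory Set

theorem conj_orth {m : Measure ℝ} {ψ : ℝ → ℂ} (hψ : MemLp ψ 2 m) (f : Lp ℂ 2 m)
    (h1 : inner ℂ (hψ.toLp ψ) f = 0) : ∫ x, (starRingEnd ℂ) (f x) * ψ x ∂m = 0 := by
  rw [L2.inner_def] at h1
  have h2 : ∫ x, (starRingEnd ℂ) ((starRingEnd ℂ) (f x) * ψ x) ∂m = 0 := by
    rw [← h1]
    apply integral_congr_ae
    filter_upwards [hψ.coeFn_toLp] with x hx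
    rw [hx, RCLike.inner_apply, map_mul, RingHomCompTriple.comp_apply, RingHom.id_apply]
  rw [integral_conj] at h2
  exact (map_eq_zero _).1 h2

theorem complete_of {m : Measure ℝ} (S : Set (Lp ℂ 2 m)) (T : Set (ℝ → ℂ))
    (hT : ∀ ψ ∈ T, ∀ hψ : MemLp ψ 2 m, hψ.toLp ψ ≠ 0 → hψ.toLp ψ ∈ S)
    (hTm : ∀ ψ ∈ T, MemLp ψ 2 m)
    (hz : ∀ g : ℝ → ℂ, MemLp g 2 m → (∀ ψ ∈ T, ∫ x, g x * ψ x ∂m = 0) → g =ᵐ[m] 0) :
    (Submodule.span ℂ S).topologicalClosure = ⊤ := by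
  rw [Submodule.topologicalClosure_eq_top_iff, Submodule.eq_bot_iff]
  intro f hf
  rw [Submodule.mem_orthogonal] at hf
  have hfm : MemLp (⇑f) 2 m := Lp.memLp f
  have hgm : MemLp (fun x => (starRingEnd ℂ) (f x)) 2 m := by
    have := hfm.star
    exact this
  have hzero := hz _ hgm (by
    intro ψ hψT
    have hψ := hTm ψ hψT
    apply conj_orth hψ f
    by_cases h0 : hψ.toLp ψ = 0
    · rw [h0, inner_zero_left]
    · exact hf _ (Submodule.subset_span (hT ψ hψT hψ h0)))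
  rw [Lp.eq_zero_iff_ae_eq_zero]
  filter_upwards [hzero] with x hx
  have : (starRingEnd ℂ) (f x) = 0 := hx
  exact (map_eq_zero _).1 this

end Pool.Agent.Helper209.AC
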