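import Pool.Agent.Helper209.AC.Frame

set_option autoImplicit false

namespace Pool.Agent.Helper209.AC.Concl

open MeasureTheory Set


/-- an entire function of exponential type which is polynomially bounded outside the first
quadrant and tends to `0` along the negative axis vanishes -/
theorem j1673_zero (u : ℂ → ℂ) (hu : Differentiable ℂ u) (C B : ℝ)
    (hexp : ∀ ζ, ‖u ζ‖ ≤ C * Real.exp (B * ‖ζ‖)) (C2 : ℝ) (N : ℕ)
    (hpoly : ∀ ζ : ℂ, (ζ.re ≤ 0 ∨ ζ.im ≤ 0) → ‖u ζ‖ ≤ C2 * (1 + ‖ζ‖) ^ N)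
    (hlim : Filter.Tendsto (fun r : ℝ => u (-(r : ℂ))) Filter.atTop (nhds 0)) (ζ : ℂ) :
    u ζ = 0 := by
  have hC2 : 0 ≤ C2 := by
    have h := hpoly 0 (Or.inl (by simp))
    have h2 := (norm_nonneg _).trans h
    simpa using h2
  -- the first quadrant
  have hlow : ∀ z : ℂ, 0 ≤ z.re → 0 ≤ z.im → (1 + ‖z‖) / 2 ≤ ‖z + 1‖ := by
    intro z hz _
    have h1 : ‖z + 1‖ ^ 2 = ‖z‖ ^ 2 + 2 * z.re + 1 := by
      rw [← Complex.normSq_eq_norm_sq, ← Complex.normSq_eq_norm_sq, Complex.normSq_apply,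
        Complex.normSq_apply]
      simp
      ring
    have h2 : ((1 + ‖z‖) / 2) ^ 2 ≤ ‖z + 1‖ ^ 2 := by
      rw [h1]
      nlinarith [norm_nonneg z, sq_nonneg (‖z‖ - 1)]
    exact le_of_sq_le_sq' h2 (norm_nonneg _)
  have hquad : ∀ z : ℂ, 0 ≤ z.re → 0 ≤ z.im → ‖u z‖ ≤ (C2 * 2 ^ N) * (1 + ‖z‖) ^ N := by
    intro z hz1 hz2
    have hne : ∀ z : ℂ, 0 ≤ z.re → z + 1 ≠ 0 := by
      intro z hz h
      have := congrArg Complex.re h
      simp at this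
      linarith
    have hpow : ∀ z : ℂ, 0 ≤ z.re → 0 ≤ z.im → ‖u z‖ ≤ C2 * (1 + ‖z‖) ^ N →
        ‖u z / (z + 1) ^ N‖ ≤ C2 * 2 ^ N := by
      intro z h1 h2 h3
      have h4 := hlow z h1 h2
      have h5 : (0 : ℝ) < (1 + ‖z‖) / 2 := by positivity
      rw [norm_div, norm_pow, div_le_iff₀ (pow_pos (h5.trans_le h4) N)]
      calc ‖u z‖ ≤ C2 * (1 + ‖z‖) ^ N := h3
        _ = C2 * 2 ^ N * ((1 + ‖z‖) / 2) ^ N := by
          rw [div_pow]
          field_simp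
        _ ≤ C2 * 2 ^ N * ‖z + 1‖ ^ N :=
          mul_le_mul_of_nonneg_left (pow_le_pow_left₀ h5.le h4 N) (by positivity)
    have hd : DiffContOnCl ℂ (fun z => u z / (z + 1) ^ N) (Ioi 0 ×ℂ Ioi 0) := by
      have hsub : closure (Ioi (0 : ℝ) ×ℂ Ioi (0 : ℝ)) = Ici 0 ×ℂ Ici 0 := by
        rw [Complex.closure_reProdIm, closure_Ioi]
      have hdo : ∀ z : ℂ, 0 ≤ z.re → DifferentiableAt ℂ (fun z => u z / (z + 1) ^ N) z := by
        intro z hz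
        exact (hu z).div (((differentiableAt_id).add_const 1).pow N) (pow_ne_zero N (hne z hz))
      refine ⟨?_, ?_⟩
      · intro z hz
        rw [Complex.mem_reProdIm] at hz
        exact (hdo z (le_of_lt hz.1)).differentiableWithinAt
      · rw [hsub]
        intro z hz
        rw [Complex.mem_reProdIm] at hz
        exact (hdo z hz.1).continuousAt.continuousWithinAt
    have key := PhragmenLindelof.quadrant_I (f := fun z => u z / (z + 1) ^ N) (C := C2 * 2 ^ N)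
      hd ⟨1, by norm_num, B, ?_⟩ ?_ ?_ hz1 hz2
    · have h5 := hne z hz1
      have h6 : 0 < ‖z + 1‖ ^ N := pow_pos (norm_pos_iff.2 h5) N
      rw [norm_div, norm_pow, div_le_iff₀ h6] at key
      refine key.trans ?_
      apply mul_le_mul_of_nonneg_left _ (by positivity)
      apply pow_le_pow_left₀ (norm_nonneg _)
      have := norm_add_le z 1
      rw [norm_one] at this
      linarith
    · apply Asymptotics.IsBigO.of_bound C
      rw [Filter.eventually_inf_principal]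
      refine Filter.Eventually.of_forall fun z hz => ?_
      rw [Complex.mem_reProdIm] at hz
      have h1 : 1 ≤ ‖z + 1‖ := by
        have := Complex.re_le_norm (z + 1)
        have h2 : 0 < z.re := hz.1
        simp at this
        linarith
      rw [norm_div, norm_pow, Real.rpow_one, Real.norm_eq_abs, abs_of_pos (Real.exp_pos _)]
      refine le_trans ?_ (hexp z)
      exact div_le_self (norm_nonneg _) (one_le_pow₀ h1)
    · intro x hx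
      exact hpow x (by simpa using hx) (by simp) (hpoly x (Or.inr (by simp)))
    · intro x hx
      exact hpow (x * Complex.I) (by simp) (by simpa using hx) (hpoly _ (Or.inl (by simp)))
  have hall : ∀ z : ℂ, ‖u z‖ ≤ (C2 * 2 ^ N) * (1 + ‖z‖) ^ N := by
    intro z
    by_cases h : z.re ≤ 0 ∨ z.im ≤ 0
    · refine (hpoly z h).trans ?_
      apply mul_le_mul_of_nonneg_right _ (by positivity)
      have : (1 : ℝ) ≤ 2 ^ N := one_le_pow₀ (by norm_num)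
      nlinarith
    · rw [not_or, not_le, not_le] at h
      exact hquad z h.1.le h.2.le
  -- `u` is a polynomial
  have hder : ∀ n, N < n → iteratedDeriv n u 0 = 0 := by
    intro n hn
    have h1 : ∀ R : ℝ, 1 ≤ R → ‖iteratedDeriv n u 0‖ ≤
        (n.factorial * (C2 * 2 ^ N * 2 ^ N)) * (1 / R) := by
      intro R hR
      have hR0 : 0 < R := by linarith
      have h2 := Complex.norm_iteratedDeriv_le_of_forall_mem_sphere_norm_le (c := 0) (R := R)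
        (C := C2 * 2 ^ N * (1 + R) ^ N) n hR0 (hu.diffContOnCl) (by
          intro z hz
          rw [mem_sphere_zero_iff_norm] at hz
          have := hall z
          rwa [hz] at this)
      refine h2.trans ?_
      have h3 : (1 + R) ^ N ≤ 2 ^ N * R ^ N := by
        rw [← mul_pow]
        exact pow_le_pow_left₀ (by positivity) (by linarith) N
      have h4 : R ^ N * R ≤ R ^ n := by
        rw [← pow_succ]
        exact pow_le_pow_right₀ hR hn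
      rw [div_le_iff₀ (pow_pos hR0 n)]
      have h5 : R ^ N ≤ 1 / R * R ^ n := by
        rw [one_div, inv_mul_eq_div, le_div_iff₀ hR0]
        exact h4
      calc (n.factorial : ℝ) * (C2 * 2 ^ N * (1 + R) ^ N)
          ≤ (n.factorial : ℝ) * (C2 * 2 ^ N * (2 ^ N * R ^ N)) := by gcongr
        _ ≤ (n.factorial : ℝ) * (C2 * 2 ^ N * (2 ^ N * (1 / R * R ^ n))) := by gcongr
        _ = _ := by ring
    have h2 : Filter.Tendsto (fun R : ℝ => (n.factorial * (C2 * 2 ^ N * 2 ^ N)) * (1 / R))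
        Filter.atTop (nhds ((n.factorial * (C2 * 2 ^ N * 2 ^ N)) * 0)) := by
      refine Filter.Tendsto.const_mul _ ?_
      have h9 : Filter.Tendsto (fun R : ℝ => R⁻¹) Filter.atTop (nhds 0) := tendsto_inv_atTop_zero
      refine h9.congr (fun R => ?_)
      rw [one_div]
    rw [mul_zero] at h2
    have h3 : ‖iteratedDeriv n u 0‖ ≤ 0 := by
      apply ge_of_tendsto h2
      filter_upwards [Filter.eventually_ge_atTop 1] with R hR using h1 R hR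
    exact norm_le_zero_iff.1 h3
  have htay : ∀ z : ℂ, u z = (∑ n ∈ Finset.range (N + 1),
      Polynomial.C ((n.factorial : ℂ)⁻¹ * iteratedDeriv n u 0) * Polynomial.X ^ n).eval z := by
    intro z
    have h1 := Complex.taylorSeries_eq_of_entire' (c := 0) (z := z) hu
    rw [← h1, tsum_eq_sum (s := Finset.range (N + 1))]
    · rw [Polynomial.eval_finsetSum]
      apply Finset.sum_congr rfl
      intro n _
      simp
    · intro n hn
      rw [Finset.mem_range, not_lt] at hn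
      rw [hder n (by omega)]
      simp
  set p : Polynomial ℂ := ∑ n ∈ Finset.range (N + 1),
      Polynomial.C ((n.factorial : ℂ)⁻¹ * iteratedDeriv n u 0) * Polynomial.X ^ n with hp
  have hdeg : ¬ 0 < p.degree := by
    intro hd
    have h1 : Filter.Tendsto (fun r : ℝ => ‖p.eval (-(r : ℂ))‖) Filter.atTop Filter.atTop := by
      apply Polynomial.tendsto_norm_atTop p hd
      have : (fun r : ℝ => ‖(-(r : ℂ))‖) = fun r : ℝ => |r| := by
        funext r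
        simp
      rw [this]
      exact Filter.tendsto_abs_atTop_atTop
    have h2 : Filter.Tendsto (fun r : ℝ => ‖p.eval (-(r : ℂ))‖) Filter.atTop (nhds 0) := by
      have := hlim.norm
      rw [norm_zero] at this
      simpa only [htay] using this
    exact not_tendsto_nhds_of_tendsto_atTop h1 0 h2
  have hconst := Polynomial.eq_C_of_degree_le_zero (not_lt.1 hdeg)
  have h0 : p.coeff 0 = 0 := by
    have h2 : Filter.Tendsto (fun r : ℝ => u (-(r : ℂ))) Filter.atTop (nhds (p.coeff 0)) := by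
      have : (fun r : ℝ => u (-(r : ℂ))) = fun _ => p.coeff 0 := by
        funext r
        rw [htay, hconst]
        simp
      rw [this]
      exact tendsto_const_nhds
    exact tendsto_nhds_unique h2 hlim
  rw [htay, hconst, h0]
  simp
where
  le_of_sq_le_sq' {x y : ℝ} (h : x ^ 2 ≤ y ^ 2) (hy : 0 ≤ y) : x ≤ y := by
    nlinarith [abs_le_of_sq_le_sq h hy, le_abs_self x]

/-- holomorphy of a parametric integral -/
theorem j1673_entire (x : ℝ) (hx : 0 ≤ x) (g : ℝ → ℂ) (hg : IntervalIntegrable g volume 0 x)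
    (Φ : ℂ → ℝ → ℂ) (hΦc : ∀ ζ, Continuous (Φ ζ)) (hΦd : ∀ t, Differentiable ℂ (fun ζ => Φ ζ t))
    (hb : ∀ R : ℝ, ∃ K : ℝ, ∀ ζ, ‖ζ‖ ≤ R → ∀ t ∈ Icc 0 x, ‖Φ ζ t‖ ≤ K) :
    Differentiable ℂ (fun ζ => ∫ t in (0:ℝ)..x, g t * Φ ζ t) := by
  intro ζ0
  obtain ⟨K, hK⟩ := hb (‖ζ0‖ + 2)
  have hderiv : ∀ t ∈ Icc 0 x, ∀ ζ ∈ Metric.ball ζ0 1, ‖deriv (fun ζ => Φ ζ t) ζ‖ ≤ K := by
    intro t ht ζ hζ
    have := Complex.norm_deriv_le_of_forall_mem_sphere_norm_le (c := ζ) (R := 1) (C := K)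
      (f := fun ζ => Φ ζ t) one_pos (hΦd t).diffContOnCl (by
        intro z hz
        apply hK z _ t ht
        rw [mem_sphere_iff_norm] at hz
        rw [Metric.mem_ball, dist_eq_norm] at hζ
        have h1 : ‖z‖ ≤ ‖z - ζ‖ + ‖ζ - ζ0‖ + ‖ζ0‖ := by
          calc ‖z‖ = ‖(z - ζ) + (ζ - ζ0) + ζ0‖ := by congr 1; ring
            _ ≤ _ := norm_add₃_le
        linarith)
    rwa [div_one] at this
  have hmeas : AEStronglyMeasurable (fun t => deriv (fun ζ => Φ ζ t) ζ0) volume := by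
    apply Measurable.aestronglyMeasurable
    apply measurable_of_tendsto_metrizable (f := fun (n : ℕ) (t : ℝ) =>
      ((1 / ((n : ℝ) + 1) : ℝ) : ℂ)⁻¹ • (Φ (ζ0 + ((1 / ((n : ℝ) + 1) : ℝ) : ℂ)) t - Φ ζ0 t))
    · intro n
      have hc : Continuous (fun t : ℝ => Φ (ζ0 + ((1 / ((n : ℝ) + 1) : ℝ) : ℂ)) t - Φ ζ0 t) :=
        (hΦc _).sub (hΦc _)
      have hc2 : Continuous (fun t : ℝ => ((1 / ((n : ℝ) + 1) : ℝ) : ℂ)⁻¹ •
        (Φ (ζ0 + ((1 / ((n : ℝ) + 1) : ℝ) : ℂ)) t - Φ ζ0 t)) := by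
        simp only [smul_eq_mul]
        exact hc.const_mul _
      exact hc2.measurable
    · rw [tendsto_pi_nhds]
      intro t
      have h1 := (hΦd t ζ0).hasDerivAt.tendsto_slope_zero
      have h2 : Filter.Tendsto (fun n : ℕ => ((1 / ((n : ℝ) + 1) : ℝ) : ℂ)) Filter.atTop
          (nhdsWithin 0 {0}ᶜ) := by
        rw [tendsto_nhdsWithin_iff]
        constructor
        · have h3 := tendsto_one_div_add_atTop_nhds_zero_nat (𝕜 := ℝ)
          have h4 := (Complex.continuous_ofReal.tendsto 0).comp h3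
          rw [Complex.ofReal_zero] at h4
          exact h4
        · refine Filter.Eventually.of_forall fun n => ?_
          simp only [mem_compl_iff, mem_singleton_iff]
          have : (1 / ((n : ℝ) + 1) : ℝ) ≠ 0 := by positivity
          exact_mod_cast this
      exact h1.comp h2
  have hgm : AEStronglyMeasurable g (volume.restrict (uIoc 0 x)) := by
    rw [intervalIntegrable_iff] at hg
    exact hg.aestronglyMeasurable
  have key := intervalIntegral.hasDerivAt_integral_of_dominated_loc_of_deriv_le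
    (μ := volume) (a := 0) (b := x) (F := fun ζ t => g t * Φ ζ t)
    (F' := fun ζ t => g t * deriv (fun ζ => Φ ζ t) ζ) (x₀ := ζ0) (s := Metric.ball ζ0 1)
    (bound := fun t => ‖g t‖ * K) (Metric.ball_mem_nhds ζ0 one_pos)
    (Filter.Eventually.of_forall fun ζ =>
      hgm.mul (hΦc ζ).aestronglyMeasurable)
    (hg.mul_continuousOn (hΦc ζ0).continuousOn)
    (hgm.mul hmeas.restrict)
    (Filter.Eventually.of_forall fun t ht ζ hζ => by
      rw [norm_mul]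
      apply mul_le_mul_of_nonneg_left _ (norm_nonneg _)
      apply hderiv t _ ζ hζ
      rw [uIoc_of_le hx] at ht
      exact ⟨ht.1.le, ht.2⟩)
    (hg.norm.mul_const K)
    (Filter.Eventually.of_forall fun t _ ζ _ => ((hΦd t ζ).hasDerivAt.const_mul (g t)))
  exact key.2.differentiableAt


/-- Cauchy-Schwarz on a subset of the half line -/
theorem j1673_cs (g h : ℝ → ℂ) (hg : MemLp g 2 (volume.restrict (Ioi (0:ℝ)))) (hh : Continuous h)
    (s : Set ℝ) (_hs : MeasurableSet s) (hs0 : s ⊆ Ioi 0)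
    (hint : IntegrableOn (fun t => ‖h t‖ ^ 2) s) :
    ‖∫ t in s, g t * h t‖ ≤ Real.sqrt (∫ t in Ioi (0:ℝ), ‖g t‖ ^ 2) *
      Real.sqrt (∫ t in s, ‖h t‖ ^ 2) := by
  have hgs : MemLp g 2 (volume.restrict s) := hg.mono_measure (Measure.restrict_mono hs0 le_rfl)
  have hhs : MemLp h 2 (volume.restrict s) :=
    (memLp_two_iff_integrable_sq_norm hh.aestronglyMeasurable).2 hint
  have h1 : ‖∫ t in s, g t * h t‖ ≤ ∫ t in s, ‖g t‖ * ‖h t‖ := by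
    refine (norm_integral_le_integral_norm _).trans_eq ?_
    congr 1
    funext t
    rw [norm_mul]
  have e2 : ENNReal.ofReal 2 = 2 := by norm_num
  have h2 := integral_mul_norm_le_Lp_mul_Lq (μ := volume.restrict s) (f := g) (g := h)
    (p := 2) (q := 2) (Real.HolderConjugate.two_two) (by rw [e2]; exact hgs) (by rw [e2]; exact hhs)
  have h3 : (∫ t in s, ‖g t‖ ^ 2) ≤ ∫ t in Ioi (0:ℝ), ‖g t‖ ^ 2 := by
    apply setIntegral_mono_set
    · exact (memLp_two_iff_integrable_sq_norm hg.1).1 hg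
    · exact Filter.Eventually.of_forall fun _ => by positivity
    · exact hs0.eventuallyLE
  refine h1.trans (h2.trans ?_)
  simp only [Real.rpow_two, ← Real.sqrt_eq_rpow]
  exact mul_le_mul_of_nonneg_right (Real.sqrt_le_sqrt h3) (Real.sqrt_nonneg _)

/-- weighted version of the monotonicity of the current -/
theorem j1673_JJ {V ψ ψ' : ℝ → ℂ} {w : ℂ} {c a b : ℝ} (h : IsSol V ψ ψ') (hab : a ≤ b)
    (hw : 0 ≤ w.re) (hc : ∀ t, c ≤ (w * V t).re) :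
    c * ∫ x in a..b, ‖ψ x‖ ^ 2 ≤ JJ w ψ ψ' b - JJ w ψ ψ' a := by
  have hcont : Continuous (fun t => ‖ψ t‖ ^ 2) := h.cont.norm.pow 2
  have hder : ∀ x, HasDerivAt (fun x => JJ w ψ ψ' x - c * ∫ t in a..x, ‖ψ t‖ ^ 2)
      ((w.re * ‖ψ' x‖ ^ 2 + (w * V x).re * ‖ψ x‖ ^ 2) - c * ‖ψ x‖ ^ 2) x := by
    intro x
    apply (hasDerivAt_JJ h w x).sub
    apply HasDerivAt.const_mul
    exact intervalIntegral.integral_hasDerivAt_right (hcont.intervalIntegrable _ _)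
      (hcont.stronglyMeasurableAtFilter _ _) hcont.continuousAt
  have hm : MonotoneOn (fun x => JJ w ψ ψ' x - c * ∫ t in a..x, ‖ψ t‖ ^ 2) (Icc a b) := by
    apply monotoneOn_of_deriv_nonneg (convex_Icc a b)
    · exact (continuous_iff_continuousAt.2 fun x => (hder x).continuousAt).continuousOn
    · exact fun x _ => (hder x).differentiableAt.differentiableWithinAt
    · intro x hx
      rw [(hder x).deriv]
      have h1 := hc x
      nlinarith [sq_nonneg ‖ψ x‖, mul_nonneg hw (sq_nonneg ‖ψ' x‖)]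
  have := hm (left_mem_Icc.2 hab) (right_mem_Icc.2 hab) hab
  simp only [intervalIntegral.integral_same, mul_zero, sub_zero] at this
  linarith

/-- the identity for the currents -/
theorem j1673_ident {ψ ψ' φ φ' : ℝ → ℂ} {w : ℂ} {y : ℝ} (hw : ‖w‖ ≤ 1)
    (hW : ψ y * φ' y - ψ' y * φ y = 1) :
    JJ w φ φ' y * ‖ψ y‖ ^ 2 - JJ w ψ ψ' y * ‖φ y‖ ^ 2 ≤ ‖φ y‖ * ‖ψ y‖ := by
  have e : JJ w φ φ' y * ‖ψ y‖ ^ 2 - JJ w ψ ψ' y * ‖φ y‖ ^ 2 =
      (w * starRingEnd ℂ (φ y * ψ y)).re := by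
    have e1 : ((‖ψ y‖ ^ 2 : ℝ) : ℂ) = starRingEnd ℂ (ψ y) * ψ y := by
      rw [mul_comm, Complex.mul_conj, Complex.normSq_eq_norm_sq]
    have e2 : ((‖φ y‖ ^ 2 : ℝ) : ℂ) = starRingEnd ℂ (φ y) * φ y := by
      rw [mul_comm, Complex.mul_conj, Complex.normSq_eq_norm_sq]
    unfold JJ
    rw [← Complex.re_mul_ofReal, ← Complex.re_mul_ofReal, ← Complex.sub_re, e1, e2]
    congr 1
    have : w * starRingEnd ℂ (φ y * ψ y) = w * starRingEnd ℂ (φ y * ψ y) * 1 := by ring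
    rw [this, ← hW, map_mul]
    ring
  rw [e]
  calc (w * starRingEnd ℂ (φ y * ψ y)).re ≤ ‖w * starRingEnd ℂ (φ y * ψ y)‖ :=
        Complex.re_le_norm _
    _ = ‖w‖ * (‖φ y‖ * ‖ψ y‖) := by rw [norm_mul, RCLike.norm_conj, norm_mul]
    _ ≤ 1 * (‖φ y‖ * ‖ψ y‖) := by apply mul_le_mul_of_nonneg_right hw; positivity
    _ = _ := one_mul _

/-- the key estimate -/
theorem j1673_key {V ψ ψ' φ φ' : ℝ → ℂ} {w : ℂ} {δ c : ℝ} (hV : Continuous V)
    (hψ : IsSol V ψ ψ') (hφ : IsSol V φ φ') (hc : Coer V w δ univ)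
    (hcc : ∀ t, c ≤ (w * V t).re) (hc0 : 0 < c) (hint : IntegrableOn (en ψ ψ') (Ioi 0))
    (hJ0 : 0 ≤ JJ w φ φ' 0) (hW : ∀ x, ψ x * φ' x - ψ' x * φ x = 1) (g : ℝ → ℂ)
    (hg : MemLp g 2 (volume.restrict (Ioi (0:ℝ)))) (x : ℝ) (hx : 0 ≤ x) :
    ‖φ x‖ * ‖∫ t in Ioi x, g t * ψ t‖ + ‖ψ x‖ * ‖∫ t in (0:ℝ)..x, g t * φ t‖ ≤
      2 * (Real.sqrt (∫ t in Ioi (0:ℝ), ‖g t‖ ^ 2) * Real.sqrt (2 / (δ * c))) := by
  have hδ := hc.pos
  have hwre : 0 ≤ w.re := hδ.le.trans hc.re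
  set G := Real.sqrt (∫ t in Ioi (0:ℝ), ‖g t‖ ^ 2) with hG
  have hG0 : 0 ≤ G := Real.sqrt_nonneg _
  have hintx : IntegrableOn (en ψ ψ') (Ioi x) := hint.mono_set (Ioi_subset_Ioi hx)
  have hψsq : IntegrableOn (fun t => ‖ψ t‖ ^ 2) (Ioi x) := by
    have hcm : Continuous (fun t => ‖ψ t‖ ^ 2) := hψ.cont.norm.pow 2
    refine Integrable.mono' hintx hcm.aestronglyMeasurable ?_
    refine Filter.Eventually.of_forall fun t => ?_
    rw [Real.norm_of_nonneg (by positivity)]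
    unfold en
    nlinarith [sq_nonneg ‖ψ' t‖]
  have hJψ : ∀ y, x ≤ y → JJ w ψ ψ' y ≤ 0 := fun y hy =>
    JJ_nonpos hψ (hc.mono (subset_univ (Ici x))) hintx hy
  have hJφ : 0 ≤ JJ w φ φ' x ∧ c * ∫ t in (0:ℝ)..x, ‖φ t‖ ^ 2 ≤ JJ w φ φ' x := by
    have h1 := j1673_JJ hφ hx hwre hcc
    have h2 : 0 ≤ ∫ t in (0:ℝ)..x, ‖φ t‖ ^ 2 :=
      intervalIntegral.integral_nonneg hx fun _ _ => by positivity
    constructor
    · nlinarith
    · linarith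
  -- lower bound for the current of `ψ`
  obtain ⟨K, hK⟩ := (isCompact_Icc (a := x) (b := x + 1)).exists_bound_of_continuousOn
    hV.continuousOn
  have hK0 : 0 ≤ K := (norm_nonneg _).trans (hK x ⟨le_rfl, by linarith⟩)
  have hr := (right_bounds_inf hV hψ (hc.mono (subset_univ (Ici x))) hK0 hK hintx).2.1
  have hψint : c * ∫ t in Ioi x, ‖ψ t‖ ^ 2 ≤ -JJ w ψ ψ' x := by
    have ht := (intervalIntegral_tendsto_integral_Ioi x hψsq Filter.tendsto_id).const_mul c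
    apply le_of_tendsto ht
    filter_upwards [Filter.eventually_ge_atTop x] with Y hY
    have h1 := j1673_JJ hψ hY hwre hcc
    have h2 := hJψ Y hY
    simp only [id]
    linarith
  have hid := j1673_ident (w := w) (y := x) hc.le (hW x)
  set P := ‖φ x‖ * ‖ψ x‖ with hP
  have hP0 : 0 ≤ P := by positivity
  have hP2 : P ≤ 2 / δ := by
    rw [le_div_iff₀ hδ]
    have h4 : δ / 2 * P ^ 2 ≤ P := by
      have a1 : 0 ≤ JJ w φ φ' x * ‖ψ x‖ ^ 2 := mul_nonneg hJφ.1 (by positivity)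
      have a2 : JJ w ψ ψ' x * ‖φ x‖ ^ 2 ≤ -(δ / 2 * ‖ψ x‖ ^ 2) * ‖φ x‖ ^ 2 :=
        mul_le_mul_of_nonneg_right hr (by positivity)
      have a3 : δ / 2 * P ^ 2 = δ / 2 * ‖ψ x‖ ^ 2 * ‖φ x‖ ^ 2 := by rw [hP]; ring
      linarith
    by_cases hz : P = 0
    · rw [hz]; norm_num
    · have hpos : 0 < P := lt_of_le_of_ne hP0 (Ne.symm hz)
      have : (P * δ) * P ≤ 2 * P := by nlinarith
      exact le_of_mul_le_mul_right this hpos
  have hb1 : ‖φ x‖ ^ 2 * ∫ t in Ioi x, ‖ψ t‖ ^ 2 ≤ 2 / (δ * c) := by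
    rw [le_div_iff₀ (by positivity)]
    have a1 : ‖φ x‖ ^ 2 * (c * ∫ t in Ioi x, ‖ψ t‖ ^ 2) ≤ ‖φ x‖ ^ 2 * (-JJ w ψ ψ' x) :=
      mul_le_mul_of_nonneg_left hψint (by positivity)
    have a2 : 0 ≤ JJ w φ φ' x * ‖ψ x‖ ^ 2 := mul_nonneg hJφ.1 (by positivity)
    have a3 : ‖φ x‖ ^ 2 * (c * ∫ t in Ioi x, ‖ψ t‖ ^ 2) ≤ 2 / δ := by linarith
    rw [le_div_iff₀ hδ] at a3
    linarith
  have hb2 : ‖ψ x‖ ^ 2 * ∫ t in (0:ℝ)..x, ‖φ t‖ ^ 2 ≤ 2 / (δ * c) := by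
    rw [le_div_iff₀ (by positivity)]
    have a1 : ‖ψ x‖ ^ 2 * (c * ∫ t in (0:ℝ)..x, ‖φ t‖ ^ 2) ≤ ‖ψ x‖ ^ 2 * (JJ w φ φ' x) :=
      mul_le_mul_of_nonneg_left hJφ.2 (by positivity)
    have a2 : JJ w ψ ψ' x * ‖φ x‖ ^ 2 ≤ 0 :=
      mul_nonpos_of_nonpos_of_nonneg (hJψ x le_rfl) (by positivity)
    have a3 : ‖ψ x‖ ^ 2 * (c * ∫ t in (0:ℝ)..x, ‖φ t‖ ^ 2) ≤ 2 / δ := by linarith
    rw [le_div_iff₀ hδ] at a3
    linarith
  have hs1 : ‖φ x‖ * Real.sqrt (∫ t in Ioi x, ‖ψ t‖ ^ 2) ≤ Real.sqrt (2 / (δ * c)) := by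
    rw [← Real.sqrt_sq (norm_nonneg (φ x)), ← Real.sqrt_mul (by positivity)]
    exact Real.sqrt_le_sqrt hb1
  have hs2 : ‖ψ x‖ * Real.sqrt (∫ t in (0:ℝ)..x, ‖φ t‖ ^ 2) ≤ Real.sqrt (2 / (δ * c)) := by
    rw [← Real.sqrt_sq (norm_nonneg (ψ x)), ← Real.sqrt_mul (by positivity)]
    exact Real.sqrt_le_sqrt hb2
  have hcs1 := j1673_cs g ψ hg hψ.cont (Ioi x) measurableSet_Ioi (Ioi_subset_Ioi hx) hψsq
  have hφsq : IntegrableOn (fun t => ‖φ t‖ ^ 2) (Ioc 0 x) :=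
    ((hφ.cont.norm.pow 2).integrableOn_Icc).mono_set Ioc_subset_Icc_self
  have hcs2 := j1673_cs g φ hg hφ.cont (Ioc 0 x) measurableSet_Ioc (fun t ht => ht.1) hφsq
  rw [← intervalIntegral.integral_of_le hx, ← intervalIntegral.integral_of_le hx] at hcs2
  have f1 : ‖φ x‖ * ‖∫ t in Ioi x, g t * ψ t‖ ≤ G * Real.sqrt (2 / (δ * c)) := by
    calc ‖φ x‖ * ‖∫ t in Ioi x, g t * ψ t‖
        ≤ ‖φ x‖ * (G * Real.sqrt (∫ t in Ioi x, ‖ψ t‖ ^ 2)) :=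
          mul_le_mul_of_nonneg_left hcs1 (norm_nonneg _)
      _ = G * (‖φ x‖ * Real.sqrt (∫ t in Ioi x, ‖ψ t‖ ^ 2)) := by ring
      _ ≤ G * Real.sqrt (2 / (δ * c)) := mul_le_mul_of_nonneg_left hs1 hG0
  have f2 : ‖ψ x‖ * ‖∫ t in (0:ℝ)..x, g t * φ t‖ ≤ G * Real.sqrt (2 / (δ * c)) := by
    calc ‖ψ x‖ * ‖∫ t in (0:ℝ)..x, g t * φ t‖
        ≤ ‖ψ x‖ * (G * Real.sqrt (∫ t in (0:ℝ)..x, ‖φ t‖ ^ 2)) :=
          mul_le_mul_of_nonneg_left hcs2 (norm_nonneg _)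
      _ = G * (‖ψ x‖ * Real.sqrt (∫ t in (0:ℝ)..x, ‖φ t‖ ^ 2)) := by ring
      _ ≤ G * Real.sqrt (2 / (δ * c)) := mul_le_mul_of_nonneg_left hs2 hG0
  linarith

section j1673pack

variable {α : ℝ} (P : Pack α)

theorem j1673_Vz_cont (hα : 0 < α) (ζ : ℂ) : Continuous (Vz α ζ) := by
  unfold Vz
  exact pot_cont hα _ _

theorem j1673_W (ζ : ℂ) (x : ℝ) : P.χ ζ x * P.φ' ζ x - P.χ' ζ x * P.φ ζ x = 1 := by
  rw [(P.solχ ζ).wronsk (P.solφ ζ) x 0, P.χ0, P.φ0', P.χ0', P.φ0]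
  rcases P.hp with ⟨h0, h1⟩ | ⟨h0, h1⟩ <;> rw [h0, h1] <;> simp

theorem j1673_JJ0 (w ζ : ℂ) : JJ w (P.φ ζ) (P.φ' ζ) 0 = 0 := by
  unfold JJ
  rw [P.φ0, P.φ0']
  rcases P.hp with ⟨h0, h1⟩ | ⟨h0, h1⟩ <;> rw [h0, h1] <;> simp

theorem j1673_weylW {ζ : ℂ} {ψ ψ' : ℝ → ℂ} (h : IsWeyl P ζ ψ ψ') (x : ℝ) :
    ψ x * P.φ' ζ x - ψ' x * P.φ ζ x = 1 := by
  rw [h.1.wronsk (P.solφ ζ) x 0, P.φ0', P.φ0]
  exact h.2.2

theorem j1673_weyl_eq (hα : 0 < α) {ζ : ℂ} {ψ ψ' : ℝ → ℂ} (h : IsWeyl P ζ ψ ψ') :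
    ∃ M : ℂ, ∀ x, ψ x = P.χ ζ x + M * P.φ ζ x := by
  refine ⟨ψ 0 * P.p0 + ψ' 0 * P.p1, fun x => ?_⟩
  have hcomb := (P.solχ ζ).comb (P.solφ ζ) 1 (ψ 0 * P.p0 + ψ' 0 * P.p1)
  have h3 := h.2.2
  have := IsSol.unique (j1673_Vz_cont hα ζ) h.1 hcomb (X := 0) (by
    simp only [P.χ0, P.φ0]
    rcases P.hp with ⟨h0, h1⟩ | ⟨h0, h1⟩
    · rw [h0, h1] at h3 ⊢
      simp at h3 ⊢
      exact h3
    · rw [h0, h1]
      simp) (by
    simp only [P.χ0', P.φ0']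
    rcases P.hp with ⟨h0, h1⟩ | ⟨h0, h1⟩
    · rw [h0, h1]
      simp
    · rw [h0, h1] at h3 ⊢
      simp at h3 ⊢
      linear_combination -h3) x
  rw [this.1]
  ring

/-- the resolvent-like function -/
noncomputable def j1673u (g : ℝ → ℂ) (F : ℂ → ℂ) (x : ℝ) (ζ : ℂ) : ℂ :=
  P.φ ζ x * (F ζ - ∫ t in (0:ℝ)..x, g t * P.χ ζ t) + P.χ ζ x * ∫ t in (0:ℝ)..x, g t * P.φ ζ t

theorem j1673_gint (g : ℝ → ℂ) (hg : MemLp g 2 (volume.restrict (Ioi (0:ℝ)))) (x : ℝ)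
    (hx : 0 ≤ x) : IntervalIntegrable g volume 0 x := by
  rw [intervalIntegrable_iff_integrableOn_Ioc_of_le hx]
  have h1 : MemLp g 2 (volume.restrict (Ioc 0 x)) :=
    hg.mono_measure (Measure.restrict_mono (fun t ht => ht.1) le_rfl)
  exact h1.integrable (by norm_num)

theorem j1673_rep (hα : 0 < α) (g : ℝ → ℂ) (hg : MemLp g 2 (volume.restrict (Ioi (0:ℝ))))
    (F : ℂ → ℂ) {ζ : ℂ} {ψ ψ' : ℝ → ℂ} (h : IsWeyl P ζ ψ ψ')
    (hF : F ζ = ∫ x in Ioi (0:ℝ), g x * ψ x) (x : ℝ) (hx : 0 ≤ x) :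
    j1673u P g F x ζ = P.φ ζ x * (∫ t in Ioi x, g t * ψ t) +
      ψ x * ∫ t in (0:ℝ)..x, g t * P.φ ζ t := by
  obtain ⟨M, hM⟩ := j1673_weyl_eq P hα h
  have hψsq : IntegrableOn (fun t => ‖ψ t‖ ^ 2) (Ioi 0) := by
    have hcm : Continuous (fun t => ‖ψ t‖ ^ 2) := h.1.cont.norm.pow 2
    refine Integrable.mono' h.2.1 hcm.aestronglyMeasurable ?_
    refine Filter.Eventually.of_forall fun t => ?_
    rw [Real.norm_of_nonneg (by positivity)]
    unfold en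
    nlinarith [sq_nonneg ‖ψ' t‖]
  have hψm : MemLp ψ 2 (volume.restrict (Ioi (0:ℝ))) :=
    (memLp_two_iff_integrable_sq_norm h.1.cont.aestronglyMeasurable).2 hψsq
  have hgψ : IntegrableOn (fun t => g t * ψ t) (Ioi 0) := hg.integrable_mul hψm
  have hsplit := intervalIntegral.integral_interval_add_Ioi hgψ
    (hgψ.mono_set (Ioi_subset_Ioi hx))
  have hgi := j1673_gint g hg x hx
  have hχi : IntervalIntegrable (fun t => g t * P.χ ζ t) volume 0 x :=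
    hgi.mul_continuousOn (P.solχ ζ).cont.continuousOn
  have hφi : IntervalIntegrable (fun t => g t * P.φ ζ t) volume 0 x :=
    hgi.mul_continuousOn (P.solφ ζ).cont.continuousOn
  have h1 : (∫ t in (0:ℝ)..x, g t * ψ t) = (∫ t in (0:ℝ)..x, g t * P.χ ζ t) +
      M * ∫ t in (0:ℝ)..x, g t * P.φ ζ t := by
    rw [← intervalIntegral.integral_const_mul, ← intervalIntegral.integral_add hχi
      (hφi.const_mul M)]
    congr 1
    funext t
    rw [hM t]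
    ring
  unfold j1673u
  rw [hF, ← hsplit, h1, hM x]
  ring

theorem j1673_Vnorm (hα : 0 < α) (ζ : ℂ) (x t : ℝ) (ht : t ∈ Icc 0 x) :
    ‖Vz α ζ t‖ ≤ x ^ α + ‖ζ‖ + 2 := by
  unfold Vz pot
  have h1 : ‖Complex.I * ((|t| ^ α : ℝ) : ℂ)‖ ≤ x ^ α := by
    rw [norm_mul, Complex.norm_I, one_mul, Complex.norm_real, Real.norm_eq_abs,
      abs_of_nonneg (by positivity), abs_of_nonneg ht.1]
    exact Real.rpow_le_rpow ht.1 ht.2 hα.le
  have h2 : ‖ζ - 1 - Complex.I‖ ≤ ‖ζ‖ + 2 := by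
    have a1 := norm_sub_le (ζ - 1) Complex.I
    have a2 := norm_sub_le ζ 1
    rw [Complex.norm_I] at a1
    rw [norm_one] at a2
    linarith
  have h3 := norm_sub_le (Complex.I * ((|t| ^ α : ℝ) : ℂ)) (ζ - 1 - Complex.I)
  linarith

theorem j1673_growth (hα : 0 < α) (ζ : ℂ) {ψ ψ' : ℝ → ℂ} (h : IsSol (Vz α ζ) ψ ψ')
    (h0 : en ψ ψ' 0 = 1) (x t : ℝ) (ht : t ∈ Icc 0 x) :
    ‖ψ t‖ ≤ Real.exp ((x ^ α + ‖ζ‖ + 3) * x) := by
  have hx : 0 ≤ x := ht.1.trans ht.2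
  have hK0 : 0 ≤ x ^ α := Real.rpow_nonneg hx α
  have h1 := h.growth ht.1 (K := x ^ α + ‖ζ‖ + 2) (fun s hs =>
    j1673_Vnorm hα ζ x s ⟨hs.1, hs.2.trans ht.2⟩)
  rw [h0, one_mul, sub_zero] at h1
  have h2 : Real.exp ((1 + (x ^ α + ‖ζ‖ + 2)) * t) ≤ Real.exp ((x ^ α + ‖ζ‖ + 3) * x) := by
    apply Real.exp_le_exp.2
    have : (1 + (x ^ α + ‖ζ‖ + 2)) = (x ^ α + ‖ζ‖ + 3) := by ring
    rw [this]
    exact mul_le_mul_of_nonneg_left ht.2 (by positivity)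
  have h3 : ‖ψ t‖ ^ 2 ≤ Real.exp ((x ^ α + ‖ζ‖ + 3) * x) := by
    have : ‖ψ t‖ ^ 2 ≤ en ψ ψ' t := by
      unfold en
      nlinarith [sq_nonneg ‖ψ' t‖]
    linarith
  have h4 : 1 ≤ Real.exp ((x ^ α + ‖ζ‖ + 3) * x) := Real.one_le_exp (by positivity)
  nlinarith [norm_nonneg (ψ t)]

theorem j1673_enφ (ζ : ℂ) : en (P.φ ζ) (P.φ' ζ) 0 = 1 := by
  unfold en
  rw [P.φ0, P.φ0']
  rcases P.hp with ⟨h0, h1⟩ | ⟨h0, h1⟩ <;> rw [h0, h1] <;> simp

theorem j1673_enχ (ζ : ℂ) : en (P.χ ζ) (P.χ' ζ) 0 = 1 := by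
  unfold en
  rw [P.χ0, P.χ0']
  rcases P.hp with ⟨h0, h1⟩ | ⟨h0, h1⟩ <;> rw [h0, h1] <;> simp

theorem j1673_int_le (g : ℝ → ℂ) (x : ℝ) (hx : 0 ≤ x) (hg : IntervalIntegrable g volume 0 x)
    (h : ℝ → ℂ) (K : ℝ) (hK : ∀ t ∈ Icc 0 x, ‖h t‖ ≤ K) :
    ‖∫ t in (0:ℝ)..x, g t * h t‖ ≤ (∫ t in (0:ℝ)..x, ‖g t‖) * K := by
  have h1 : ‖∫ t in (0:ℝ)..x, g t * h t‖ ≤ ∫ t in (0:ℝ)..x, ‖g t‖ * K := by
    apply intervalIntegral.norm_integral_le_of_norm_le hx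
    · refine Filter.Eventually.of_forall fun t ht => ?_
      rw [norm_mul]
      exact mul_le_mul_of_nonneg_left (hK t ⟨ht.1.le, ht.2⟩) (norm_nonneg _)
    · exact hg.norm.mul_const K
  rw [intervalIntegral.integral_mul_const] at h1
  exact h1

theorem j1673_u_growth (hα : 0 < α) (g : ℝ → ℂ)
    (hg : MemLp g 2 (volume.restrict (Ioi (0:ℝ)))) (F : ℂ → ℂ)
    (hb : ∃ (C : ℝ) (N : ℕ), ∀ ζ, ‖F ζ‖ ≤ C * (1 + ‖ζ‖) ^ N) (x : ℝ) (hx : 0 ≤ x) :
    ∃ C B : ℝ, ∀ ζ, ‖j1673u P g F x ζ‖ ≤ C * Real.exp (B * ‖ζ‖) := by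
  obtain ⟨C, N, hC⟩ := hb
  have hC0 : 0 ≤ C := by
    have := (norm_nonneg _).trans (hC 0)
    simpa using this
  have hgi := j1673_gint g hg x hx
  set g1 := ∫ t in (0:ℝ)..x, ‖g t‖ with hg1
  have hg10 : 0 ≤ g1 := intervalIntegral.integral_nonneg hx fun _ _ => norm_nonneg _
  set A := (x ^ α + 3) * x with hA
  refine ⟨Real.exp A * (C * (N.factorial * Real.exp 1)) + 2 * g1 * (Real.exp A * Real.exp A),
    2 * x + 1, fun ζ => ?_⟩
  set E := Real.exp ((x ^ α + ‖ζ‖ + 3) * x) with hE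
  have hEA : E = Real.exp A * Real.exp (x * ‖ζ‖) := by
    rw [hE, hA, ← Real.exp_add]
    congr 1
    ring
  have hE0 : 0 < E := Real.exp_pos _
  have hφ : ∀ t ∈ Icc 0 x, ‖P.φ ζ t‖ ≤ E := fun t ht =>
    j1673_growth hα ζ (P.solφ ζ) (j1673_enφ P ζ) x t ht
  have hχ : ∀ t ∈ Icc 0 x, ‖P.χ ζ t‖ ≤ E := fun t ht =>
    j1673_growth hα ζ (P.solχ ζ) (j1673_enχ P ζ) x t ht
  have h1 := j1673_int_le g x hx hgi (P.φ ζ) E hφ
  have h2 := j1673_int_le g x hx hgi (P.χ ζ) E hχ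
  have hxx : x ∈ Icc 0 x := ⟨hx, le_rfl⟩
  have h3 : ‖j1673u P g F x ζ‖ ≤ E * (‖F ζ‖ + g1 * E) + E * (g1 * E) := by
    unfold j1673u
    refine (norm_add_le _ _).trans ?_
    rw [norm_mul, norm_mul]
    apply add_le_add
    · apply mul_le_mul (hφ x hxx) _ (norm_nonneg _) hE0.le
      exact (norm_sub_le _ _).trans (by linarith)
    · exact mul_le_mul (hχ x hxx) h1 (norm_nonneg _) hE0.le
  have h4 : (1 + ‖ζ‖) ^ N ≤ N.factorial * Real.exp 1 * Real.exp ‖ζ‖ := by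
    have := Real.pow_div_factorial_le_exp (1 + ‖ζ‖) (by positivity) N
    rw [div_le_iff₀ (by positivity), Real.exp_add] at this
    linarith
  have h5 : ‖F ζ‖ ≤ C * (N.factorial * Real.exp 1) * Real.exp ‖ζ‖ := by
    calc ‖F ζ‖ ≤ C * (1 + ‖ζ‖) ^ N := hC ζ
      _ ≤ C * (N.factorial * Real.exp 1 * Real.exp ‖ζ‖) := mul_le_mul_of_nonneg_left h4 hC0
      _ = _ := by ring
  have hr : 0 ≤ ‖ζ‖ := norm_nonneg ζ
  have h6 : E * ‖F ζ‖ ≤ Real.exp A * (C * (N.factorial * Real.exp 1)) *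
      Real.exp ((2 * x + 1) * ‖ζ‖) := by
    have a1 : Real.exp (x * ‖ζ‖) * Real.exp ‖ζ‖ ≤ Real.exp ((2 * x + 1) * ‖ζ‖) := by
      rw [← Real.exp_add]
      apply Real.exp_le_exp.2
      nlinarith
    calc E * ‖F ζ‖ ≤ E * (C * (N.factorial * Real.exp 1) * Real.exp ‖ζ‖) :=
          mul_le_mul_of_nonneg_left h5 hE0.le
      _ = Real.exp A * (C * (N.factorial * Real.exp 1)) *
          (Real.exp (x * ‖ζ‖) * Real.exp ‖ζ‖) := by rw [hEA]; ring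
      _ ≤ _ := mul_le_mul_of_nonneg_left a1 (by positivity)
  have h7 : E * E ≤ (Real.exp A * Real.exp A) * Real.exp ((2 * x + 1) * ‖ζ‖) := by
    have a1 : Real.exp (x * ‖ζ‖) * Real.exp (x * ‖ζ‖) ≤ Real.exp ((2 * x + 1) * ‖ζ‖) := by
      rw [← Real.exp_add]
      apply Real.exp_le_exp.2
      nlinarith
    calc E * E = (Real.exp A * Real.exp A) * (Real.exp (x * ‖ζ‖) * Real.exp (x * ‖ζ‖)) := by
          rw [hEA]; ring
      _ ≤ _ := mul_le_mul_of_nonneg_left a1 (by positivity)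
  have h8 : 2 * g1 * (E * E) ≤ 2 * g1 * ((Real.exp A * Real.exp A) *
      Real.exp ((2 * x + 1) * ‖ζ‖)) := mul_le_mul_of_nonneg_left h7 (by positivity)
  calc ‖j1673u P g F x ζ‖ ≤ E * (‖F ζ‖ + g1 * E) + E * (g1 * E) := h3
    _ = E * ‖F ζ‖ + 2 * g1 * (E * E) := by ring
    _ ≤ _ := by rw [add_mul]; linarith

theorem j1673_u_entire (hα : 0 < α) (g : ℝ → ℂ)
    (hg : MemLp g 2 (volume.restrict (Ioi (0:ℝ)))) (F : ℂ → ℂ) (hF : Differentiable ℂ F)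
    (x : ℝ) (hx : 0 ≤ x) : Differentiable ℂ (j1673u P g F x) := by
  have hgi := j1673_gint g hg x hx
  have hbφ : ∀ R : ℝ, ∃ K : ℝ, ∀ ζ, ‖ζ‖ ≤ R → ∀ t ∈ Icc 0 x, ‖P.φ ζ t‖ ≤ K := by
    intro R
    refine ⟨Real.exp ((x ^ α + R + 3) * x), fun ζ hζ t ht => ?_⟩
    refine (j1673_growth hα ζ (P.solφ ζ) (j1673_enφ P ζ) x t ht).trans ?_
    apply Real.exp_le_exp.2
    exact mul_le_mul_of_nonneg_right (by linarith) hx
  have hbχ : ∀ R : ℝ, ∃ K : ℝ, ∀ ζ, ‖ζ‖ ≤ R → ∀ t ∈ Icc 0 x, ‖P.χ ζ t‖ ≤ K := by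
    intro R
    refine ⟨Real.exp ((x ^ α + R + 3) * x), fun ζ hζ t ht => ?_⟩
    refine (j1673_growth hα ζ (P.solχ ζ) (j1673_enχ P ζ) x t ht).trans ?_
    apply Real.exp_le_exp.2
    exact mul_le_mul_of_nonneg_right (by linarith) hx
  have d1 := j1673_entire x hx g hgi P.φ (fun ζ => (P.solφ ζ).cont) P.dφ hbφ
  have d2 := j1673_entire x hx g hgi P.χ (fun ζ => (P.solχ ζ).cont) P.dχ hbχ
  exact ((P.dφ x).mul (hF.sub d2)).add ((P.dχ x).mul d1)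

/-- coercivity outside the open first quadrant -/
theorem j1673_coer (hα : 0 < α) (ζ : ℂ) (hζ : ζ.re ≤ 0 ∨ ζ.im ≤ 0) :
    ∃ (w : ℂ) (δ : ℝ), Coer (Vz α ζ) w δ univ ∧ 1 / δ ≤ 16 * (1 + ‖ζ‖) := by
  have hVre : ∀ x, (Vz α ζ x).re = 1 - ζ.re := by
    intro x
    unfold Vz pot
    simp
  have hVim : ∀ x, (Vz α ζ x).im = |x| ^ α + 1 - ζ.im := by
    intro x
    unfold Vz pot
    simp
    ring
  have hn : 0 ≤ ‖ζ‖ := norm_nonneg ζ
  rcases hζ with h | h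
  · refine ⟨1, 1, ⟨one_pos, by simp, by simp, fun x _ => ?_⟩, ?_⟩
    · rw [one_mul, hVre]
      linarith
    · norm_num
      linarith
  · set δ : ℝ := 1 / (16 * (1 + ‖ζ‖)) with hδ
    have hδ0 : 0 < δ := by positivity
    have hδ1 : δ ≤ 1 / 16 := by
      rw [hδ]
      apply one_div_le_one_div_of_le (by norm_num)
      linarith
    have hδζ : δ * (1 + ‖ζ‖) = 1 / 16 := by
      rw [hδ]
      field_simp
    set r := Real.sqrt (1 - δ ^ 2) with hr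
    have hr0 : 0 ≤ r := Real.sqrt_nonneg _
    have hδ2 : δ ^ 2 ≤ 1 / 256 := by nlinarith
    have hr2 : r ^ 2 = 1 - δ ^ 2 := Real.sq_sqrt (by linarith)
    have hr1 : 1 / 2 ≤ r := by nlinarith
    refine ⟨⟨δ, -r⟩, δ, ⟨hδ0, le_rfl, ?_, fun x _ => ?_⟩, ?_⟩
    · rw [Complex.norm_def, Complex.normSq_mk]
      have : δ * δ + -r * -r = 1 := by nlinarith
      rw [this, Real.sqrt_one]
    · rw [Complex.mul_re, hVre, hVim]
      have h1 : 0 ≤ |x| ^ α := by positivity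
      have h2 : -‖ζ‖ ≤ -ζ.re := by
        have := Complex.re_le_norm ζ
        linarith
      simp only
      nlinarith
    · rw [hδ, one_div_one_div]

theorem j1673_u_poly (hα : 0 < α) (g : ℝ → ℂ)
    (hg : MemLp g 2 (volume.restrict (Ioi (0:ℝ)))) (F : ℂ → ℂ)
    (hFe : ∀ ζ ψ ψ', IsWeyl P ζ ψ ψ' → F ζ = ∫ x in Ioi (0:ℝ), g x * ψ x)
    (hex : ∀ ζ : ℂ, ζ.re ≤ 0 ∨ ζ.im ≤ 0 → ∃ ψ ψ', IsWeyl P ζ ψ ψ') (x : ℝ) (hx : 0 ≤ x)
    (ζ : ℂ) (hζ : ζ.re ≤ 0 ∨ ζ.im ≤ 0) :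
    ‖j1673u P g F x ζ‖ ≤ (2 * (Real.sqrt (∫ t in Ioi (0:ℝ), ‖g t‖ ^ 2) * 32)) *
      (1 + ‖ζ‖) ^ 1 := by
  obtain ⟨w, δ, hc, hδ⟩ := j1673_coer hα ζ hζ
  obtain ⟨ψ, ψ', hψ⟩ := hex ζ hζ
  have hδ0 := hc.pos
  have hkey := j1673_key (j1673_Vz_cont hα ζ) hψ.1 (P.solφ ζ) hc (c := δ)
    (fun t => hc.coer t (mem_univ t)) hδ0 hψ.2.1 (j1673_JJ0 P w ζ).ge
    (fun x => j1673_weylW P hψ x) g hg x hx
  rw [j1673_rep P hα g hg F hψ (hFe ζ ψ ψ' hψ) x hx]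
  refine (norm_add_le _ _).trans ?_
  rw [norm_mul, norm_mul]
  refine hkey.trans ?_
  have h1 : Real.sqrt (2 / (δ * δ)) ≤ 32 * (1 + ‖ζ‖) := by
    rw [Real.sqrt_le_left (by positivity)]
    have h2 : 2 / (δ * δ) = 2 * (1 / δ) ^ 2 := by
      field_simp
    rw [h2]
    have h3 : (1 / δ) ^ 2 ≤ (16 * (1 + ‖ζ‖)) ^ 2 := pow_le_pow_left₀ (by positivity) hδ 2
    nlinarith [sq_nonneg (1 + ‖ζ‖)]
  have hG : 0 ≤ Real.sqrt (∫ t in Ioi (0:ℝ), ‖g t‖ ^ 2) := Real.sqrt_nonneg _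
  have h4 := mul_le_mul_of_nonneg_left h1 hG
  rw [pow_one]
  linarith

theorem j1673_u_lim (hα : 0 < α) (g : ℝ → ℂ)
    (hg : MemLp g 2 (volume.restrict (Ioi (0:ℝ)))) (F : ℂ → ℂ)
    (hFe : ∀ ζ ψ ψ', IsWeyl P ζ ψ ψ' → F ζ = ∫ x in Ioi (0:ℝ), g x * ψ x)
    (hex : ∀ ζ : ℂ, ζ.re ≤ 0 ∨ ζ.im ≤ 0 → ∃ ψ ψ', IsWeyl P ζ ψ ψ') (x : ℝ) (hx : 0 ≤ x) :
    Filter.Tendsto (fun r : ℝ => j1673u P g F x (-(r : ℂ))) Filter.atTop (nhds 0) := by
  set G := Real.sqrt (∫ t in Ioi (0:ℝ), ‖g t‖ ^ 2) with hG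
  have hG0 : 0 ≤ G := Real.sqrt_nonneg _
  have hlim : Filter.Tendsto (fun r : ℝ => 2 * (G * Real.sqrt (2 / (1 + r)))) Filter.atTop
      (nhds 0) := by
    have h1 : Filter.Tendsto (fun r : ℝ => 2 / (1 + r)) Filter.atTop (nhds 0) :=
      Filter.Tendsto.const_div_atTop (Filter.tendsto_atTop_add_const_left _ 1 Filter.tendsto_id) 2
    have h2 := (Real.continuous_sqrt.tendsto 0).comp h1
    rw [Real.sqrt_zero] at h2
    have h3 := (h2.const_mul G).const_mul 2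
    simpa using h3
  apply squeeze_zero_norm' _ hlim
  filter_upwards [Filter.eventually_ge_atTop 0] with r hr
  have hζ : (-(r : ℂ)).re ≤ 0 ∨ (-(r : ℂ)).im ≤ 0 := Or.inl (by simpa using hr)
  obtain ⟨ψ, ψ', hψ⟩ := hex _ hζ
  have hVre : ∀ x, (Vz α (-(r : ℂ)) x).re = 1 + r := by
    intro x
    unfold Vz pot
    simp
  have hc : Coer (Vz α (-(r : ℂ))) 1 1 univ :=
    ⟨one_pos, by simp, by simp, fun x _ => by rw [one_mul, hVre]; linarith⟩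
  have hkey := j1673_key (j1673_Vz_cont hα _) hψ.1 (P.solφ _) hc (c := 1 + r)
    (fun t => by rw [one_mul, hVre]) (by linarith) hψ.2.1 (j1673_JJ0 P 1 _).ge
    (fun x => j1673_weylW P hψ x) g hg x hx
  rw [j1673_rep P hα g hg F hψ (hFe _ ψ ψ' hψ) x hx]
  refine (norm_add_le _ _).trans ?_
  rw [norm_mul, norm_mul]
  rw [one_mul] at hkey
  exact hkey

end j1673pack


section j1673final

theorem j1673_aederiv (f : ℝ → ℂ) (hf : ∀ x, 0 ≤ x → IntervalIntegrable f volume 0 x) :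
    ∀ᵐ x, x ∈ Ioi (0:ℝ) → HasDerivAt (fun x => ∫ t in (0:ℝ)..x, f t) (f x) x := by
  have h1 : ∀ n : ℕ, ∀ᵐ x, x ∈ uIcc (0:ℝ) (n:ℝ) → ∀ c ∈ uIcc (0:ℝ) (n:ℝ),
      HasDerivAt (fun x => ∫ (t : ℝ) in c..x, f t) (f x) x := fun n =>
    (hf n (Nat.cast_nonneg n)).ae_hasDerivAt_integral
  have h2 := ae_all_iff.2 h1
  filter_upwards [h2] with x hx hx0
  obtain ⟨n, hn⟩ := exists_nat_ge x
  have hx0' : (0:ℝ) < x := hx0
  have hmem : x ∈ uIcc (0:ℝ) (n:ℝ) := by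
    rw [uIcc_of_le (Nat.cast_nonneg n)]
    exact ⟨hx0'.le, hn⟩
  exact hx n hmem 0 left_mem_uIcc

theorem j1673_primcont (f : ℝ → ℂ) (hf : ∀ x, 0 ≤ x → IntervalIntegrable f volume 0 x) :
    ContinuousOn (fun x => ∫ t in (0:ℝ)..x, f t) (Ioi 0) := by
  intro x hx
  have hx0 : (0:ℝ) < x := hx
  have h1 := intervalIntegral.continuousOn_primitive_interval' (hf (x + 1) (by linarith))
    (left_mem_uIcc)
  rw [uIcc_of_le (by linarith)] at h1
  exact (h1.continuousAt (Icc_mem_nhds hx0 (by linarith))).continuousWithinAt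

/-- final ODE step -/
theorem j1673_final (g φ φ' χ χ' : ℝ → ℂ) (hφ : ∀ x, HasDerivAt φ (φ' x) x)
    (hχ : ∀ x, HasDerivAt χ (χ' x) x) (W : ∀ x, χ x * φ' x - χ' x * φ x = 1)
    (hg : ∀ x, 0 ≤ x → IntervalIntegrable g volume 0 x) (F0 : ℂ)
    (h : ∀ x, 0 ≤ x → φ x * (F0 - ∫ t in (0:ℝ)..x, g t * χ t) +
      χ x * ∫ t in (0:ℝ)..x, g t * φ t = 0) :
    g =ᵐ[volume.restrict (Ioi (0:ℝ))] 0 := by
  have hφc : Continuous φ := continuous_iff_continuousAt.2 fun x => (hφ x).continuousAt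
  have hχc : Continuous χ := continuous_iff_continuousAt.2 fun x => (hχ x).continuousAt
  have h1 : ∀ x, 0 ≤ x → IntervalIntegrable (fun t => g t * χ t) volume 0 x := fun x hx =>
    (hg x hx).mul_continuousOn hχc.continuousOn
  have h2 : ∀ x, 0 ≤ x → IntervalIntegrable (fun t => g t * φ t) volume 0 x := fun x hx =>
    (hg x hx).mul_continuousOn hφc.continuousOn
  have d1 := j1673_aederiv _ h1
  have d2 := j1673_aederiv _ h2
  have c1 := j1673_primcont _ h1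
  have c2 := j1673_primcont _ h2
  have hAB : ∀ᵐ x, x ∈ Ioi (0:ℝ) → (F0 - ∫ t in (0:ℝ)..x, g t * χ t) = 0 ∧
      (∫ t in (0:ℝ)..x, g t * φ t) = 0 := by
    filter_upwards [d1, d2] with x e1 e2 hx
    have hx0 : (0:ℝ) < x := hx
    have e3 := ((hφ x).mul ((e1 hx).const_sub F0)).add ((hχ x).mul (e2 hx))
    have e4 : HasDerivAt (fun y => φ y * (F0 - ∫ t in (0:ℝ)..y, g t * χ t) +
      χ y * ∫ t in (0:ℝ)..y, g t * φ t) 0 x := by
      apply (hasDerivAt_const x (0:ℂ)).congr_of_eventuallyEq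
      filter_upwards [Ioi_mem_nhds hx0] with y hy
      exact h y (le_of_lt hy)
    have e5 := e3.unique e4
    have e6 := h x hx0.le
    have e7 := W x
    constructor
    · linear_combination (-(F0 - ∫ t in (0:ℝ)..x, g t * χ t)) * e7 + χ x * e5 - χ' x * e6
    · linear_combination (-(∫ t in (0:ℝ)..x, g t * φ t)) * e7 + φ' x * e6 - φ x * e5
  have hA : EqOn (fun x => ∫ t in (0:ℝ)..x, g t * χ t) (fun _ => F0) (Ioi 0) := by
    apply Measure.eqOn_open_of_ae_eq (μ := volume) _ isOpen_Ioi c1 continuousOn_const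
    rw [Filter.EventuallyEq, ae_restrict_iff' measurableSet_Ioi]
    filter_upwards [hAB] with x hx hx0
    have := (hx hx0).1
    linear_combination -this
  have hB : EqOn (fun x => ∫ t in (0:ℝ)..x, g t * φ t) (fun _ => 0) (Ioi 0) := by
    apply Measure.eqOn_open_of_ae_eq (μ := volume) _ isOpen_Ioi c2 continuousOn_const
    rw [Filter.EventuallyEq, ae_restrict_iff' measurableSet_Ioi]
    filter_upwards [hAB] with x hx hx0
    exact (hx hx0).2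
  rw [Filter.EventuallyEq, ae_restrict_iff' measurableSet_Ioi]
  filter_upwards [d1, d2] with x e1 e2 hx
  have hx0 : (0:ℝ) < x := hx
  have f1 : g x * χ x = 0 := by
    refine (e1 hx).unique ((hasDerivAt_const x F0).congr_of_eventuallyEq ?_)
    filter_upwards [Ioi_mem_nhds hx0] with y hy
    exact hA hy
  have f2 : g x * φ x = 0 := by
    refine (e2 hx).unique ((hasDerivAt_const x 0).congr_of_eventuallyEq ?_)
    filter_upwards [Ioi_mem_nhds hx0] with y hy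
    exact hB hy
  have e7 := W x
  simp only [Pi.zero_apply]
  linear_combination (-(g x)) * e7 + φ' x * f1 - χ' x * f2

theorem j1673_u_zero {α : ℝ} (P : Pack α) (hα : 0 < α) (g : ℝ → ℂ)
    (hg : MemLp g 2 (volume.restrict (Ioi (0:ℝ)))) (F : ℂ → ℂ) (hF : Differentiable ℂ F)
    (hFe : ∀ ζ ψ ψ', IsWeyl P ζ ψ ψ' → F ζ = ∫ x in Ioi (0:ℝ), g x * ψ x)
    (hex : ∀ ζ : ℂ, ζ.re ≤ 0 ∨ ζ.im ≤ 0 → ∃ ψ ψ', IsWeyl P ζ ψ ψ')
    (hb : ∃ (C : ℝ) (N : ℕ), ∀ ζ, ‖F ζ‖ ≤ C * (1 + ‖ζ‖) ^ N) (x : ℝ) (hx : 0 ≤ x) (ζ : ℂ) :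
    j1673u P g F x ζ = 0 := by
  obtain ⟨C, B, h1⟩ := j1673_u_growth P hα g hg F hb x hx
  exact j1673_zero _ (j1673_u_entire P hα g hg F hF x hx) C B h1 _ 1
    (fun ζ hζ => j1673_u_poly P hα g hg F hFe hex x hx ζ hζ)
    (j1673_u_lim P hα g hg F hFe hex x hx) ζ

end j1673final

/-- conclusion: if the entire function `F` is polynomially bounded then `g = 0` -/
theorem concl (α : ℝ) (hα : 0 < α) (hα1 : α < 1) (P : Pack α) (g : ℝ → ℂ)
    (hg : MemLp g 2 (volume.restrict (Ioi (0:ℝ)))) (F : ℂ → ℂ) (hF : Differentiable ℂ F)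
    (hFe : ∀ ζ ψ ψ', IsWeyl P ζ ψ ψ' → F ζ = ∫ x in Ioi (0:ℝ), g x * ψ x)
    (hex : ∀ ζ : ℂ, ζ.re ≤ 0 ∨ ζ.im ≤ 0 → ∃ ψ ψ', IsWeyl P ζ ψ ψ')
    (hb : ∃ (C : ℝ) (N : ℕ), ∀ ζ, ‖F ζ‖ ≤ C * (1 + ‖ζ‖) ^ N) :
    g =ᵐ[volume.restrict (Ioi (0:ℝ))] 0 := by
  refine j1673_final g (P.φ 0) (P.φ' 0) (P.χ 0) (P.χ' 0) (fun x => (P.solφ 0 x).1)
    (fun x => (P.solχ 0 x).1) (j1673_W P 0) (fun x hx => j1673_gint g hg x hx) (F 0) ?_
  intro x hx
  exact j1673_u_zero P hα g hg F hF hFe hex hb x hx 0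

end Pool.Agent.Helper209.AC.Concl
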