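import Mathlib

set_option autoImplicit false

/-!
# Completeness of eigenfunctions of `-d²/dx² + i|x|^α`, `0 < α ≤ 2/3`: basic definitions
-/

namespace Pool.Agent.Helper209.AC

open MeasureTheory Set

/-- `ψ' ' = V ψ` on the whole line (`ψ'` is the derivative of `ψ`). -/
def IsSol (V ψ ψ' : ℝ → ℂ) : Prop :=
  ∀ x, HasDerivAt ψ (ψ' x) x ∧ HasDerivAt ψ' (V x * ψ x) x

/-- the potential `c|x|^α - μ` -/
noncomputable def pot (α : ℝ) (c μ : ℂ) (x : ℝ) : ℂ := c * ((|x| ^ α : ℝ) : ℂ) - μ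

/-- `|Im √z|` -/
noncomputable def imsq (z : ℂ) : ℝ := Real.sqrt ((‖z‖ - z.re) / 2)

/-- local energy density -/
noncomputable def en (ψ ψ' : ℝ → ℂ) (x : ℝ) : ℝ := ‖ψ x‖ ^ 2 + ‖ψ' x‖ ^ 2

end Pool.Agent.Helper209.AC
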