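import Pool.Agent.Helper209.AC.Bnd

set_option autoImplicit false

namespace Pool.Agent.Helper209.AC

open MeasureTheory Set

/-- the potential in the shifted variable `ζ = μ + 1 + i` -/
noncomputable def Vz (α : ℝ) (ζ : ℂ) (x : ℝ) : ℂ := pot α Complex.I (ζ - 1 - Complex.I) x

/-- Half-line solution package: `(p0, p1) = (0, 1)` is the Dirichlet, `(1, 0)` the Neumann problem.
`φ` satisfies the boundary condition at `0`, `χ` is a second solution, Wronskian `χ φ' - χ' φ = 1`. -/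
structure Pack (α : ℝ) where
  p0 : ℝ
  p1 : ℝ
  hp : (p0 = 0 ∧ p1 = 1) ∨ (p0 = 1 ∧ p1 = 0)
  φ : ℂ → ℝ → ℂ
  φ' : ℂ → ℝ → ℂ
  χ : ℂ → ℝ → ℂ
  χ' : ℂ → ℝ → ℂ
  solφ : ∀ ζ, IsSol (Vz α ζ) (φ ζ) (φ' ζ)
  solχ : ∀ ζ, IsSol (Vz α ζ) (χ ζ) (χ' ζ)
  φ0 : ∀ ζ, φ ζ 0 = p0
  φ0' : ∀ ζ, φ' ζ 0 = p1
  χ0 : ∀ ζ, χ ζ 0 = p1
  χ0' : ∀ ζ, χ' ζ 0 = -p0
  dφ : ∀ x, Differentiable ℂ (fun ζ => φ ζ x)
  dχ : ∀ x, Differentiable ℂ (fun ζ => χ ζ x)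

/-- `ψ` is the decaying (`H¹`) solution normalised by `W(ψ, φ) = 1` -/
def IsWeyl {α : ℝ} (P : Pack α) (ζ : ℂ) (ψ ψ' : ℝ → ℂ) : Prop :=
  IsSol (Vz α ζ) ψ ψ' ∧ IntegrableOn (en ψ ψ') (Ioi 0) ∧ ψ 0 * P.p1 - ψ' 0 * P.p0 = 1

/-- truncated transform on `[0, y]` (Dirichlet condition at `y`) -/
noncomputable def Fy {α : ℝ} (P : Pack α) (g : ℝ → ℂ) (y : ℝ) (ζ : ℂ) : ℂ :=
  (∫ x in (0:ℝ)..y, g x * P.χ ζ x) - (P.χ ζ y / P.φ ζ y) * ∫ x in (0:ℝ)..y, g x * P.φ ζ x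

/-- exponent function -/
noncomputable def KK (α : ℝ) (ζ : ℂ) : ℝ :=
  ∫ t in (0:ℝ)..(ζ.im) ^ (1 / α), imsq (ζ - Complex.I * ((t ^ α : ℝ) : ℂ))

/-- distance-like function to the eigenvalue ray `arg μ = π/(2+α)` -/
noncomputable def dray (α : ℝ) (μ : ℂ) : ℝ :=
  min 1 |(μ * Complex.exp (-((Real.pi / (2 + α) : ℝ) : ℂ) * Complex.I)).im|

end Pool.Agent.Helper209.AC
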