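import Pool.Agent.Helper209.AC.Iter3

set_option autoImplicit false

namespace Pool.Agent.Helper209.AC

open Set

theorem kk_nonneg (α θ : ℝ) (h0 : 0 ≤ θ) (h1 : θ ≤ Real.pi) : 0 ≤ kk α θ := by
  unfold kk KCalc.kk
  apply intervalIntegral.integral_nonneg
  · exact Real.rpow_nonneg (Real.sin_nonneg_of_nonneg_of_le_pi h0 h1) _
  · intro t _
    exact Real.sqrt_nonneg _

theorem exists_kdata (α : ℝ) (hα : 0 < α) (hα2 : α ≤ 2 / 3) :
    ∃ (δ ε : ℝ) (k1 : ℝ → ℝ) (Kb : ℝ), KData α (1 / α + 1 / 2) δ ε (kk α) k1 Kb := by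
  obtain ⟨hcont, hmono, k1, hk1c, hk1n, hder⟩ := KCalc.kk_main α hα hα2
  have hpi := Real.pi_pos
  set ρ := 1 / α + 1 / 2 with hρ
  have hα3 : (3:ℝ) / 2 ≤ 1 / α := by
    rw [le_div_iff₀ hα]; linarith
  have hρ2 : 2 ≤ ρ := by rw [hρ]; linarith
  set a := Real.pi / ρ with ha
  have ha0 : 0 < a := by positivity
  have ha1 : a ≤ Real.pi / 2 := div_le_div_of_nonneg_left hpi.le (by norm_num) hρ2
  have hcont' : ContinuousOn (kk α) (Icc 0 (Real.pi / 2)) := hcont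
  have hmono' : StrictMonoOn (kk α) (Icc 0 (Real.pi / 2)) := hmono
  have hkm : MonotoneOn (kk α) (Icc 0 (Real.pi / 2)) := hmono'.monotoneOn
  -- the minimum
  obtain ⟨θ0, hθ0, hmin⟩ := (isCompact_Icc (a := a / 2) (b := Real.pi / 2)).exists_isMinOn
    (nonempty_Icc.2 (by linarith)) (f := fun θ => kk α θ - kk α (θ - a / 2)) (by
      apply ContinuousOn.sub
      · exact hcont'.mono (Icc_subset_Icc (by linarith) le_rfl)
      · apply hcont'.comp (by fun_prop)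
        intro x hx
        exact ⟨by linarith [hx.1], by linarith [hx.2]⟩)
  set m0 := kk α θ0 - kk α (θ0 - a / 2) with hm0
  have hm0p : 0 < m0 := by
    have := hmono' (a := θ0 - a / 2) (b := θ0) ⟨by linarith [hθ0.1], by linarith [hθ0.2]⟩
      ⟨by linarith [hθ0.1], hθ0.2⟩ (by linarith)
    linarith
  have hm : ∀ θ ∈ Icc (a / 2) (Real.pi / 2), m0 ≤ kk α θ - kk α (θ - a / 2) := fun θ hθ => hmin hθ
  obtain ⟨B1, hB1⟩ := (isCompact_Icc (a := (0:ℝ)) (b := Real.pi / 2)).exists_bound_of_continuousOn hk1c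
  set Kb := max (kk α (Real.pi / 2)) B1 with hKb
  have hkπ : 0 ≤ kk α (Real.pi / 2) := kk_nonneg _ _ (by linarith) (by linarith)
  have hKb0 : 0 ≤ Kb := hkπ.trans (le_max_left _ _)
  set δ := min (a / 8) (m0 / (16 * ρ ^ 2 * (Kb + 1))) with hδ
  have hδ0 : 0 < δ := lt_min (by linarith) (by positivity)
  have hδa : δ ≤ a / 8 := min_le_left _ _
  have hδm : δ * (16 * ρ ^ 2 * (Kb + 1)) ≤ m0 := by
    have : δ ≤ m0 / (16 * ρ ^ 2 * (Kb + 1)) := min_le_right _ _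
    rwa [le_div_iff₀ (by positivity)] at this
  have hδ1 : δ ≤ 1 := by linarith [Real.pi_le_four]
  have hcos : (1 - Real.cos (2 * ρ * δ)) * Kb ≤ m0 / 8 := by
    have h1 : 1 - (2 * ρ * δ) ^ 2 / 2 ≤ Real.cos (2 * ρ * δ) := Real.one_sub_sq_div_two_le_cos
    have h2 : (1 - Real.cos (2 * ρ * δ)) ≤ 2 * ρ ^ 2 * δ := by
      have h3 : δ * δ ≤ δ := by nlinarith
      have h4 : 0 ≤ ρ ^ 2 := by positivity
      nlinarith
    have h5 : (1 - Real.cos (2 * ρ * δ)) * Kb ≤ 2 * ρ ^ 2 * δ * Kb := mul_le_mul_of_nonneg_right h2 hKb0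
    have h6 : 0 ≤ ρ ^ 2 * δ := by positivity
    nlinarith
  have hsδ : 0 < Real.sin (δ / 2) := Real.sin_pos_of_pos_of_lt_pi (by linarith) (by linarith)
  set s0 := Real.sin (δ / 2) ^ (1 / α - 1) with hs0
  have hs0p : 0 < s0 := Real.rpow_pos_of_pos hsδ _
  have hkad : 0 < kk α (a - δ) := by
    have h1 := hmono' (a := 0) (b := a - δ) ⟨le_rfl, by linarith⟩ ⟨by linarith, by linarith⟩ (by linarith)
    have h2 := kk_nonneg α 0 le_rfl (by linarith)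
    linarith
  set ε := min (min (m0 / 4) (1 / (2 * α) * s0 / ρ ^ 2)) (kk α (a - δ) / 2) with hε
  have hε0 : 0 < ε := by
    apply lt_min (lt_min _ _) _ <;> positivity
  have hε1 : ε ≤ m0 / 4 := (min_le_left _ _).trans (min_le_left _ _)
  have hε2 : ρ ^ 2 * ε ≤ 1 / (2 * α) * s0 := by
    have : ε ≤ 1 / (2 * α) * s0 / ρ ^ 2 := (min_le_left _ _).trans (min_le_right _ _)
    rw [le_div_iff₀ (by positivity)] at this
    linarith
  have hε3 : 2 * ε ≤ kk α (a - δ) := by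
    have : ε ≤ kk α (a - δ) / 2 := min_le_right _ _
    linarith
  refine ⟨δ, ε, k1, Kb, ?_⟩
  refine ⟨hρ2, hδ0, hδa, hε0, hKb0, ?_, ?_, ?_, ?_, ?_, ?_, ?_⟩
  · intro θ hθ
    refine ⟨kk_nonneg _ _ hθ.1 (by linarith [hθ.2]), ?_⟩
    exact (hkm hθ ⟨by linarith, le_rfl⟩ hθ.2).trans (le_max_left _ _)
  · intro θ hθ
    refine ⟨hk1n θ hθ, ?_⟩
    exact ((le_abs_self _).trans (hB1 θ hθ)).trans (le_max_right _ _)
  · apply TrigCmp.trig_cmp ρ ε (δ / 2) (kk α) k1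
      (fun θ => (1 / (2 * α)) * (Real.sin θ) ^ (1 / α - 1) / Real.sqrt (Real.cos θ)) hρ2 hcont' hk1c hder
      (by linarith)
    intro θ hθ
    have hcp : 0 < Real.cos θ := Real.cos_pos_of_mem_Ioo ⟨by linarith [hθ.1], hθ.2⟩
    have hsq : 0 < Real.sqrt (Real.cos θ) := Real.sqrt_pos.2 hcp
    have hsq1 : Real.sqrt (Real.cos θ) ≤ 1 := Real.sqrt_le_one.2 (Real.cos_le_one _)
    have hsm : Real.sin (δ / 2) ≤ Real.sin θ :=
      Real.sin_le_sin_of_le_of_le_pi_div_two (by linarith) hθ.2.le hθ.1.le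
    have hpw : s0 ≤ Real.sin θ ^ (1 / α - 1) := Real.rpow_le_rpow hsδ.le hsm (by linarith)
    show ρ ^ 2 * ε ≤ (1 / (2 * α)) * (Real.sin θ) ^ (1 / α - 1) / Real.sqrt (Real.cos θ)
    rw [le_div_iff₀ hsq]
    have h1 : 1 / (2 * α) * s0 ≤ 1 / (2 * α) * Real.sin θ ^ (1 / α - 1) :=
      mul_le_mul_of_nonneg_left hpw (by positivity)
    have h2 : ρ ^ 2 * ε * Real.sqrt (Real.cos θ) ≤ ρ ^ 2 * ε * 1 :=
      mul_le_mul_of_nonneg_left hsq1 (by positivity)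
    linarith
  · intro θ hθ
    exact hε3.trans (hkm ⟨by linarith, by linarith⟩ ⟨by linarith [hθ.1], hθ.2⟩ hθ.1)
  · intro θt hθt θ h1 h2
    have g1 := hm θt ⟨by linarith [hθt.1], hθt.2⟩
    have g2 : kk α θ ≤ kk α (θt - a / 2) :=
      hkm ⟨by linarith, by linarith [hθt.2]⟩ ⟨by linarith [hθt.1], by linarith [hθt.2]⟩ h2
    have g3 : kk α θt ≤ Kb := (hkm ⟨by linarith [hθt.1], hθt.2⟩ ⟨by linarith, le_rfl⟩ hθt.2).trans (le_max_left _ _)
    have g4 := Real.cos_le_one (2 * ρ * δ)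
    have g5 : (kk α θt - ε) * (1 - Real.cos (2 * ρ * δ)) ≤ Kb * (1 - Real.cos (2 * ρ * δ)) :=
      mul_le_mul_of_nonneg_right (by linarith) (by linarith)
    linarith
  · intro ζ h1 h2
    exact KKScale.KK_arg α hα ζ h1 h2
  · intro ζ h1 h2
    exact KKScale.KK_neg α hα ζ h1 h2

end Pool.Agent.Helper209.AC
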