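import Pool.Agent.Helper209.AC.Iter4
import Pool.Agent.Helper209.AC.KD
import Pool.Agent.Helper209.AC.Concl

set_option autoImplicit false

namespace Pool.Agent.Helper209.AC

open MeasureTheory Set

theorem weyl_of_arg {α : ℝ} (hα : 0 < α) (hα1 : α < 1) (P : Pack α) {κ θ₂ : ℝ} (hκ : 0 < κ)
    (hθ : θ₂ < Real.pi / (2 + α)) : ∃ R : ℝ, 0 < R ∧ ∀ ζ : ℂ, κ * ‖ζ‖ ≤ ζ.im → ζ.arg ≤ θ₂ → R ≤ ‖ζ‖ →
      ∃ ψ ψ', IsWeyl P ζ ψ ψ' := by
  have hpi := Real.pi_pos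
  set θα := Real.pi / (2 + α) with hθα
  have hθα2 : θα ≤ Real.pi / 2 := by
    rw [hθα]; apply div_le_div_of_nonneg_left hpi.le (by norm_num) (by linarith)
  set β := min (θα - θ₂) (Real.pi / 2) with hβ
  have hβ0 : 0 < β := lt_min (by linarith) (by linarith)
  have hsβ : 0 < Real.sin β :=
    Real.sin_pos_of_pos_of_lt_pi hβ0 (by have := min_le_right (θα - θ₂) (Real.pi / 2); linarith)
  refine ⟨3 / Real.sin β, by positivity, ?_⟩
  intro ζ h1 h2 h3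
  apply exists_weyl' α hα hα1 P ζ
  left
  rw [div_le_iff₀ hsβ] at h3
  have him0 : 0 ≤ ζ.im := le_trans (by positivity) h1
  have harg0 : 0 ≤ ζ.arg := Complex.arg_nonneg_iff.2 him0
  have hs : Real.sin β ≤ Real.sin (θα - ζ.arg) := by
    apply Real.sin_le_sin_of_le_of_le_pi_div_two (by linarith) (by linarith)
    have := min_le_left (θα - θ₂) (Real.pi / 2)
    linarith
  have e1 : (ζ * Complex.exp (-((θα : ℝ) : ℂ) * Complex.I)).im = ‖ζ‖ * Real.sin (ζ.arg - θα) := by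
    have : ζ * Complex.exp (-((θα : ℝ) : ℂ) * Complex.I)
        = ((‖ζ‖ : ℝ) : ℂ) * Complex.exp (((ζ.arg - θα : ℝ) : ℂ) * Complex.I) := by
      conv_lhs => rw [← Complex.norm_mul_exp_arg_mul_I ζ]
      rw [mul_assoc, ← Complex.exp_add]
      congr 2
      push_cast; ring
    rw [this, Complex.exp_mul_I, ← Complex.ofReal_cos, ← Complex.ofReal_sin, Complex.im_ofReal_mul,
      Complex.add_im, Complex.ofReal_im, Complex.im_ofReal_mul, Complex.I_im]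
    ring
  have e2 : |((1 + Complex.I) * Complex.exp (-((θα : ℝ) : ℂ) * Complex.I)).im| ≤ 2 := by
    refine (Complex.abs_im_le_norm _).trans ?_
    rw [norm_mul, ← Complex.ofReal_neg, Complex.norm_exp_ofReal_mul_I, mul_one]
    refine (norm_add_le _ _).trans ?_
    rw [norm_one, Complex.norm_I]; norm_num
  have e3 : ((ζ - 1 - Complex.I) * Complex.exp (-((θα : ℝ) : ℂ) * Complex.I)).im
      = ‖ζ‖ * Real.sin (ζ.arg - θα) - ((1 + Complex.I) * Complex.exp (-((θα : ℝ) : ℂ) * Complex.I)).im := by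
    rw [← e1, ← Complex.sub_im]
    congr 1; ring
  have e4 : Real.sin (ζ.arg - θα) = -Real.sin (θα - ζ.arg) := by
    rw [← Real.sin_neg]; congr 1; ring
  have e5 := (abs_le.1 e2).1
  have e6 := mul_le_mul_of_nonneg_left hs (norm_nonneg ζ)
  have e7 : ((ζ - 1 - Complex.I) * Complex.exp (-((θα : ℝ) : ℂ) * Complex.I)).im < 0 := by
    rw [e3, e4]; linarith
  unfold dray
  have e8 : 0 < |((ζ - 1 - Complex.I) * Complex.exp (-((θα : ℝ) : ℂ) * Complex.I)).im| :=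
    abs_pos.2 e7.ne
  exact (lt_min one_pos e8).ne'

theorem half_line (α : ℝ) (hα : 0 < α) (hα2 : α ≤ 2 / 3) (P : Pack α) (g : ℝ → ℂ)
    (hg : MemLp g 2 (volume.restrict (Ioi (0:ℝ))))
    (horth : ∀ (μ : ℂ) (ψ ψ' : ℝ → ℂ), IsSol (pot α Complex.I μ) ψ ψ' → IntegrableOn (en ψ ψ') (Ioi 0) →
      ψ 0 * P.p1 - ψ' 0 * P.p0 = 0 → ∫ x in Ioi (0:ℝ), g x * ψ x = 0) :
    g =ᵐ[volume.restrict (Ioi (0:ℝ))] 0 := by
  have hα1 : α < 1 := by linarith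
  obtain ⟨F, hF, hFe⟩ := EntireF.entireF α hα hα1 (weylPotStmt α hα) (mStmt α hα hα1) P g hg horth
  obtain ⟨Ct, Nt, hCt, t1, t2, t3⟩ := Trunc.trunc α hα hα1 P g hg
  obtain ⟨Co, No, hCo, ho⟩ := Trunc.outside α hα hα1 P g hg
  obtain ⟨Cg, hCg⟩ := GrowthF.growthF α hα hα1 (mStmt α hα hα1) (crudeStmt α hα hα1) removeLineStmt P g hg
    F hF hFe (fun ζ hζ => exists_weyl' α hα hα1 P ζ (Or.inl hζ))
  set C := Ct + Co + |Cg| with hC
  set N := max Nt No with hN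
  have hC0 : 0 < C := by positivity
  have hpt : ∀ ζ : ℂ, Ct * (1 + ‖ζ‖) ^ Nt ≤ C * (1 + ‖ζ‖) ^ N := by
    intro ζ
    apply mul_le_mul (by rw [hC]; linarith [abs_nonneg Cg])
      (pow_le_pow_right₀ (by linarith [norm_nonneg ζ]) (le_max_left _ _)) (by positivity) hC0.le
  have hpo : ∀ ζ : ℂ, Co * (1 + ‖ζ‖) ^ No ≤ C * (1 + ‖ζ‖) ^ N := by
    intro ζ
    apply mul_le_mul (by rw [hC]; linarith [abs_nonneg Cg])
      (pow_le_pow_right₀ (by linarith [norm_nonneg ζ]) (le_max_right _ _)) (by positivity) hC0.le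
  have hID : IData α F (Fy P g) (fun ζ y => ‖P.φ ζ y‖) C N := by
    refine ⟨hα, hα2, hC0, hF, ?_, ?_, ?_, ?_, ?_, ?_, ?_, ?_⟩
    · intro ζ
      refine (hCg ζ).trans ?_
      have h1 : Cg ≤ C := by rw [hC]; linarith [le_abs_self Cg]
      have u3 : 0 ≤ ‖ζ‖ ^ (1 / α + 1 / 2) := Real.rpow_nonneg (norm_nonneg _) _
      exact mul_le_mul h1 (Real.exp_le_exp.2 (mul_le_mul_of_nonneg_right h1 u3)) (Real.exp_pos _).le hC0.le
    · intro ζ hζ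
      obtain ⟨ψ, ψ', hw⟩ := exists_weyl' α hα hα1 P ζ (Or.inr hζ)
      rw [hFe ζ ψ ψ' hw]
      exact (ho ζ ψ ψ' hζ hw).trans (hpo ζ)
    · intro y hy
      apply Fy_diff hα P hg (by linarith)
      intro ζ hζ
      exact (t1 ζ y hy (le_of_lt hζ)).1
    · intro y ζ hy hζ
      exact (t1 ζ y hy hζ).2.trans (hpt ζ)
    · intro y Y ζ h1 h2 h3
      exact (t2 ζ y Y h1 h2 h3).trans (hpt ζ)
    · intro y ζ h1 h2 h3
      obtain ⟨ψ, ψ', hw⟩ := exists_weyl' α hα hα1 P ζ (Or.inr (Or.inl h3))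
      rw [hFe ζ ψ ψ' hw]
      exact (t3 ζ y ψ ψ' h1 h2 h3 hw).2.trans (hpt ζ)
    · intro κ θ₂ ε hκ hθ hε
      obtain ⟨C1, hC1, R0, hR0, hup⟩ := UpperP1.upperP1 α hα hα1 (mStmt α hα hα1) (wkbUpStmt α hα hα1) P g hg
        κ θ₂ ε hκ hθ hε
      obtain ⟨R1, hR1, hw⟩ := weyl_of_arg hα hα1 P hκ hθ
      refine ⟨C1, hC1, max R0 R1, ?_⟩
      intro ζ h1 h2 h3
      obtain ⟨ψ, ψ', hw'⟩ := hw ζ h1 h2 ((le_max_right _ _).trans h3)
      rw [hFe ζ ψ ψ' hw']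
      exact hup ζ ψ ψ' h1 h2 ((le_max_left _ _).trans h3) hw'
    · intro κ ε hκ hε
      exact LowerP2.lowerP2 α hα hα1 (wkbLowStmt α hα hα1) P κ ε hκ hε
  obtain ⟨δ, ε, k1, Kb, hk⟩ := exists_kdata α hα hα2
  have hpi := Real.pi_pos
  have hκ : 0 < Real.sin (δ / 2) := Real.sin_pos_of_pos_of_lt_pi (by linarith [hk.hδ])
    (by linarith [hk.hδa, hk.a_le])
  obtain ⟨η, hη, hη4, R, hR, hlow⟩ := hID.low (Real.sin (δ / 2)) (ε / 8) hκ (by linarith [hk.hε])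
  have hb := poly_of_claim hID hk rfl hη hη4 (fun ζ y h1 h2 h3 h4 h5 => hlow ζ y h1 h2 h3 h4 h5)
  exact Concl.concl α hα hα1 P g hg F hF hFe (fun ζ hζ => exists_weyl' α hα hα1 P ζ (Or.inr hζ)) hb

theorem exists_pack (α : ℝ) (hα : 0 < α) (p0 p1 : ℝ) (hp : (p0 = 0 ∧ p1 = 1) ∨ (p0 = 1 ∧ p1 = 0)) :
    ∃ P : Pack α, P.p0 = p0 ∧ P.p1 = p1 := by
  obtain ⟨S, T, h1, h2, h3⟩ := ParamODE.exists_sol_param (fun x => |x| ^ α)
    (continuous_abs.rpow_const (fun _ => Or.inr hα.le)) 0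
  refine ⟨⟨p0, p1, hp, fun ζ => S ((Complex.I, ζ - 1 - Complex.I), ((p0 : ℂ), (p1 : ℂ))),
    fun ζ => T ((Complex.I, ζ - 1 - Complex.I), ((p0 : ℂ), (p1 : ℂ))),
    fun ζ => S ((Complex.I, ζ - 1 - Complex.I), ((p1 : ℂ), -(p0 : ℂ))),
    fun ζ => T ((Complex.I, ζ - 1 - Complex.I), ((p1 : ℂ), -(p0 : ℂ))), ?_, ?_, ?_, ?_, ?_, ?_, ?_, ?_⟩, rfl, rfl⟩
  · intro ζ; exact (h1 _).1
  · intro ζ; exact (h1 _).1
  · intro ζ; exact (h1 _).2.1
  · intro ζ; exact (h1 _).2.2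
  · intro ζ; exact (h1 _).2.1
  · intro ζ; exact (h1 _).2.2
  · intro x
    exact (h2 x).comp (by fun_prop : Differentiable ℂ (fun ζ : ℂ =>
      ((Complex.I, ζ - 1 - Complex.I), ((p0 : ℂ), (p1 : ℂ)))))
  · intro x
    exact (h2 x).comp (by fun_prop : Differentiable ℂ (fun ζ : ℂ =>
      ((Complex.I, ζ - 1 - Complex.I), ((p1 : ℂ), -(p0 : ℂ)))))

end Pool.Agent.Helper209.AC
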