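import Pool.Agent.Helper209.AC.Bridge

set_option autoImplicit false

namespace Pool.Agent.Helper209.AC

open Set

/-- polynomials are absorbed by exponentials of powers -/
theorem poly_absorb (C : ℝ) (N : ℕ) (c ρ : ℝ) (hC : 0 ≤ C) (hc : 0 < c) (hρ : 1 ≤ ρ) :
    ∃ C' : ℝ, 0 < C' ∧ ∀ r : ℝ, 0 ≤ r → C * (1 + r) ^ N ≤ C' * Real.exp (c * r ^ ρ) := by
  refine ⟨(C + 1) * (N.factorial / c ^ N) * Real.exp (2 * c), by positivity, ?_⟩
  intro r hr
  have h1 : (c * (1 + r)) ^ N / N.factorial ≤ Real.exp (c * (1 + r)) :=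
    Real.pow_div_factorial_le_exp _ (by positivity) N
  have h2 : r ≤ 1 + r ^ ρ := by
    rcases le_total r 1 with h | h
    · have := Real.rpow_nonneg hr ρ; linarith
    · have := Real.rpow_le_rpow_of_exponent_le h hρ
      rw [Real.rpow_one] at this; linarith
  have h3 : Real.exp (c * (1 + r)) ≤ Real.exp (2 * c) * Real.exp (c * r ^ ρ) := by
    rw [← Real.exp_add]; apply Real.exp_le_exp.2; nlinarith
  have h4 : (1 + r) ^ N ≤ (N.factorial / c ^ N) * (Real.exp (2 * c) * Real.exp (c * r ^ ρ)) := by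
    have h5 : (1 + r) ^ N = (N.factorial / c ^ N) * ((c * (1 + r)) ^ N / N.factorial) := by
      rw [mul_pow]; field_simp
    rw [h5]
    apply mul_le_mul_of_nonneg_left (h1.trans h3)
    positivity
  calc C * (1 + r) ^ N ≤ (C + 1) * (1 + r) ^ N := by
        apply mul_le_mul_of_nonneg_right (by linarith); positivity
    _ ≤ (C + 1) * ((N.factorial / c ^ N) * (Real.exp (2 * c) * Real.exp (c * r ^ ρ))) :=
        mul_le_mul_of_nonneg_left h4 (by positivity)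
    _ = _ := by ring

/-- `L r^ρ - c r^ρ'` is bounded above -/
theorem rpow_sub_bdd (L c ρ ρ' : ℝ) (hL : 0 ≤ L) (hc : 0 < c) (hρ : 0 < ρ) (hρ' : ρ < ρ') :
    ∃ M : ℝ, ∀ r : ℝ, 0 < r → L * r ^ ρ - c * r ^ ρ' ≤ M := by
  set s : ℝ := (L / c) ^ (1 / (ρ' - ρ)) with hs
  have hs0 : 0 ≤ s := by positivity
  refine ⟨L * s ^ ρ, ?_⟩
  intro r hr
  have hr' : 0 < r ^ ρ' := Real.rpow_pos_of_pos hr _
  rcases le_total r s with h | h
  · have : r ^ ρ ≤ s ^ ρ := Real.rpow_le_rpow hr.le h hρ.le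
    nlinarith
  · have h1 : L / c ≤ r ^ (ρ' - ρ) := by
      have h2 : s ^ (ρ' - ρ) ≤ r ^ (ρ' - ρ) := Real.rpow_le_rpow hs0 h (by linarith)
      have h3 : s ^ (ρ' - ρ) = L / c := by
        rw [hs, ← Real.rpow_mul (by positivity), one_div_mul_cancel (by linarith), Real.rpow_one]
      linarith
    have h4 : r ^ ρ' = r ^ ρ * r ^ (ρ' - ρ) := by
      rw [← Real.rpow_add hr]; ring_nf
    have h5 : L ≤ c * r ^ (ρ' - ρ) := by rwa [div_le_iff₀' hc] at h1
    have h6 : 0 < r ^ ρ := Real.rpow_pos_of_pos hr _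
    have h7 : 0 ≤ L * s ^ ρ := by positivity
    rw [h4]
    nlinarith

noncomputable def yy (α η s : ℝ) : ℝ := ((1 - η) * s) ^ (1 / α)

theorem yy_pow {α η s : ℝ} (hα : 0 < α) (hη : η ≤ 1) (hs : 0 ≤ s) : (yy α η s) ^ α = (1 - η) * s := by
  unfold yy
  rw [← Real.rpow_mul (mul_nonneg (by linarith) hs), one_div_mul_cancel hα.ne', Real.rpow_one]

theorem yy_nonneg {α η s : ℝ} (hη : η ≤ 1) (hs : 0 ≤ s) : 0 ≤ yy α η s :=
  Real.rpow_nonneg (mul_nonneg (by linarith) hs) _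

theorem one_le_yy {α η s : ℝ} (hα : 0 < α) (hs : 1 ≤ (1 - η) * s) : 1 ≤ yy α η s :=
  Real.one_le_rpow hs (by positivity)

theorem yy_add_one_le {α η s η' s' : ℝ} (hα : 0 < α) (hα1 : α ≤ 1) (hη : η ≤ 1) (hs : 0 ≤ s)
    (hη' : η' ≤ 1) (hs' : 0 ≤ s')
    (h : (1 - η) * s + 1 ≤ (1 - η') * s') : yy α η s + 1 ≤ yy α η' s' := by
  have h0 := yy_nonneg (α := α) hη hs
  have h1 : (yy α η s + 1) ^ α ≤ (yy α η' s') ^ α := by
    rw [yy_pow hα hη' hs']
    have h2 : (yy α η s + 1) ^ α ≤ (yy α η s) ^ α + 1 ^ α :=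
      Real.rpow_add_le_add_rpow h0 zero_le_one hα.le hα1
    rw [yy_pow hα hη hs, Real.one_rpow] at h2
    linarith
  exact (Real.rpow_le_rpow_iff (by linarith) (yy_nonneg hη' hs') hα).1 h1

/-- holomorphic exponent -/
noncomputable def hE (p θ0 : ℝ) (c ζ : ℂ) : ℂ :=
  c * Complex.exp ((p : ℂ) * (Complex.log ζ - (θ0 : ℂ) * Complex.I))

theorem hE_re (p θ0 a b : ℝ) {ζ : ℂ} (hζ : ζ ≠ 0) :
    (hE p θ0 ((a : ℂ) - (b : ℂ) * Complex.I) ζ).re
      = ‖ζ‖ ^ p * (a * Real.cos (p * (ζ.arg - θ0)) + b * Real.sin (p * (ζ.arg - θ0))) := by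
  unfold hE
  have hpos : 0 < ‖ζ‖ := norm_pos_iff.2 hζ
  have h1 : (p : ℂ) * (Complex.log ζ - (θ0 : ℂ) * Complex.I)
      = ((Real.log ‖ζ‖ * p : ℝ) : ℂ) + ((p * (ζ.arg - θ0) : ℝ) : ℂ) * Complex.I := by
    apply Complex.ext
    · simp [Complex.log_re, mul_comm]
    · simp [Complex.log_im]
  rw [h1, Complex.exp_add, Complex.exp_mul_I, ← Complex.ofReal_exp, ← Complex.ofReal_cos,
    ← Complex.ofReal_sin, Real.rpow_def_of_pos hpos]
  simp only [Complex.mul_re, Complex.sub_re, Complex.ofReal_re, Complex.ofReal_im, Complex.I_re,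
    Complex.I_im, Complex.sub_im, Complex.mul_im, Complex.add_re, Complex.add_im]
  ring

theorem hE_diff (p θ0 : ℝ) (c : ℂ) : DifferentiableOn ℂ (hE p θ0 c) {ζ | 0 < ζ.im} := by
  intro ζ hζ
  apply DifferentiableAt.differentiableWithinAt
  unfold hE
  have h1 : DifferentiableAt ℂ Complex.log ζ :=
    Complex.differentiableAt_log (Or.inr (ne_of_gt hζ))
  exact (((h1.sub_const _).const_mul _).cexp).const_mul _

/-- imaginary part from the argument -/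
theorem im_ge_of_arg {ζ : ℂ} {β : ℝ} (hβ0 : 0 ≤ β) (hβ : β ≤ Real.pi / 2) (h1 : β ≤ ζ.arg)
    (h2 : ζ.arg ≤ Real.pi - β) : Real.sin β * ‖ζ‖ ≤ ζ.im := by
  have h3 : ζ.im = ‖ζ‖ * Real.sin ζ.arg := by
    rw [Complex.norm_mul_sin_arg]
  rw [h3, mul_comm]
  apply mul_le_mul_of_nonneg_left _ (norm_nonneg _)
  rcases le_total ζ.arg (Real.pi / 2) with h | h
  · exact Real.sin_le_sin_of_le_of_le_pi_div_two (by linarith) h h1
  · rw [← Real.sin_pi_sub ζ.arg]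
    exact Real.sin_le_sin_of_le_of_le_pi_div_two (by linarith) (by linarith) (by linarith)

theorem KK_nonneg (α : ℝ) (ζ : ℂ) (h : 0 ≤ ζ.im) : 0 ≤ KK α ζ := by
  unfold KK
  apply intervalIntegral.integral_nonneg (by positivity)
  intro t _
  exact Real.sqrt_nonneg _

end Pool.Agent.Helper209.AC
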