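import Pool.Agent.Helper209.AC.Iter1

set_option autoImplicit false

namespace Pool.Agent.Helper209.AC

open Set

/-- data for the iteration -/
structure IData (α : ℝ) (F : ℂ → ℂ) (G : ℝ → ℂ → ℂ) (ph : ℂ → ℝ → ℝ) (C : ℝ) (N : ℕ) : Prop where
  hα : 0 < α
  hα2 : α ≤ 2 / 3
  hC : 0 < C
  F_diff : Differentiable ℂ F
  grow : ∀ ζ, ‖F ζ‖ ≤ C * Real.exp (C * ‖ζ‖ ^ (1 / α + 1 / 2))
  out : ∀ ζ : ℂ, (ζ.re ≤ 0 ∨ ζ.im ≤ 0) → ‖F ζ‖ ≤ C * (1 + ‖ζ‖) ^ N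
  G_diff : ∀ y, 1 ≤ y → DifferentiableOn ℂ (G y) {ζ | y ^ α + 2 < ζ.im}
  G_bd : ∀ (y : ℝ) (ζ : ℂ), 1 ≤ y → y ^ α + 2 ≤ ζ.im → ‖G y ζ‖ ≤ C * (1 + ‖ζ‖) ^ N
  G_cmp : ∀ (y Y : ℝ) (ζ : ℂ), 1 ≤ y → y + 1 ≤ Y → Y ^ α + 2 ≤ ζ.im →
    ‖G Y ζ - G y ζ‖ * ph ζ y ≤ C * (1 + ‖ζ‖) ^ N
  F_cmp : ∀ (y : ℝ) (ζ : ℂ), 1 ≤ y → y ^ α ≤ ‖ζ‖ → ζ.re ≤ 0 →
    ‖F ζ - G y ζ‖ * ph ζ y ≤ C * (1 + ‖ζ‖) ^ N
  up : ∀ κ θ₂ ε : ℝ, 0 < κ → θ₂ < Real.pi / (2 + α) → 0 < ε → ∃ C', 0 < C' ∧ ∃ R0 : ℝ, ∀ ζ : ℂ,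
    κ * ‖ζ‖ ≤ ζ.im → ζ.arg ≤ θ₂ → R0 ≤ ‖ζ‖ → ‖F ζ‖ ≤ C' * Real.exp (KK α ζ + ε * ‖ζ‖ ^ (1 / α + 1 / 2))
  low : ∀ κ ε : ℝ, 0 < κ → 0 < ε → ∃ η : ℝ, 0 < η ∧ η < 1 / 4 ∧ ∃ R : ℝ, 1 ≤ R ∧
    ∀ (ζ : ℂ) (y : ℝ), R ≤ ‖ζ‖ → κ * ‖ζ‖ ≤ ζ.im → 0 ≤ y → (1 - 2 * η) * ζ.im ≤ y ^ α →
    y ^ α ≤ (1 - η / 2) * ζ.im → Real.exp (KK α ζ - ε * ‖ζ‖ ^ (1 / α + 1 / 2)) ≤ ph ζ y

/-- the almost holomorphic function -/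
noncomputable def Bf (α η : ℝ) (F : ℂ → ℂ) (G : ℝ → ℂ → ℂ) (ζ : ℂ) : ℂ :=
  F ζ - G (yy α η ζ.im) ζ

/-- lower bound on `φ` near the turning point; the conclusion of `low` -/
def Low (α κ ε η R : ℝ) (ph : ℂ → ℝ → ℝ) : Prop :=
    ∀ (ζ : ℂ) (y : ℝ), R ≤ ‖ζ‖ → κ * ‖ζ‖ ≤ ζ.im → 0 ≤ y → (1 - 2 * η) * ζ.im ≤ y ^ α →
    y ^ α ≤ (1 - η / 2) * ζ.im → Real.exp (KK α ζ - ε * ‖ζ‖ ^ (1 / α + 1 / 2)) ≤ ph ζ y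

section
variable {α : ℝ} {F : ℂ → ℂ} {G : ℝ → ℂ → ℂ} {ph : ℂ → ℝ → ℝ} {C : ℝ} {N : ℕ}

theorem IData.rho_ge (h : IData α F G ph C N) : 2 ≤ 1 / α + 1 / 2 := by
  have h1 : (3:ℝ) / 2 ≤ 1 / α := by
    rw [le_div_iff₀ h.hα]
    have := h.hα2; linarith
  linarith

theorem div_bound {x p D K e P : ℝ} (hx : 0 ≤ x) (h1 : x * p ≤ D) (h2 : Real.exp (K - e) ≤ p)
    (h3 : D ≤ P * Real.exp e) : x ≤ P * Real.exp (-(K - 2 * e)) := by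
  have hp : 0 < Real.exp (K - e) := Real.exp_pos _
  have h4 : x * Real.exp (K - e) ≤ P * Real.exp e :=
    ((mul_le_mul_of_nonneg_left h2 hx).trans h1).trans h3
  have h5 : x ≤ P * Real.exp e / Real.exp (K - e) := by rwa [le_div_iff₀ hp]
  rw [mul_div_assoc, ← Real.exp_sub] at h5
  convert h5 using 3
  ring

theorem IData.comp (h : IData α F G ph C N) {κ ε η R : ℝ} (hκ : 0 < κ) (hε : 0 < ε) (hη : 0 < η)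
    (hη4 : η < 1 / 4) (hlow : Low α κ ε η R ph) :
    ∃ (C0 R' : ℝ), 0 < C0 ∧ ∀ ζ0 ζ : ℂ, R' ≤ ‖ζ0‖ → κ * ‖ζ0‖ ≤ ζ0.im → κ * ‖ζ‖ ≤ ζ.im → ‖ζ - ζ0‖ ≤ 1 →
      ‖G (yy α η ζ.im) ζ - G (yy α η ζ0.im) ζ‖
        ≤ C0 * Real.exp (-(KK α ζ - 2 * (ε * ‖ζ‖ ^ (1 / α + 1 / 2)))) := by
  obtain ⟨P, hP, hPb⟩ := poly_absorb C N ε (1 / α + 1 / 2) h.hC.le hε (by linarith [h.rho_ge])
  refine ⟨P + P, max (R + 1) (12 / (η * κ)), by positivity, ?_⟩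
  intro ζ0 ζ hR hζ0 hζ hd
  have hα := h.hα
  have hα1 : α ≤ 1 := by linarith [h.hα2]
  have e1 : 12 / (η * κ) ≤ ‖ζ0‖ := (le_max_right _ _).trans hR
  have e2 : 12 ≤ η * ζ0.im := by
    rw [div_le_iff₀ (by positivity)] at e1
    nlinarith
  have e3 : ζ0.im - 1 ≤ ζ.im := by
    have := (abs_le.1 ((Complex.abs_im_le_norm (ζ - ζ0)).trans hd)).1
    rw [Complex.sub_im] at this; linarith
  have e4 : ζ.im ≤ ζ0.im + 1 := by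
    have := (abs_le.1 ((Complex.abs_im_le_norm (ζ - ζ0)).trans hd)).2
    rw [Complex.sub_im] at this; linarith
  have e5 : 48 ≤ ζ0.im := by nlinarith
  have e6 : R ≤ ‖ζ‖ := by
    have h1 : R + 1 ≤ ‖ζ0‖ := (le_max_left _ _).trans hR
    have h2 : ‖ζ0‖ ≤ ‖ζ‖ + ‖ζ - ζ0‖ := by
      have := norm_sub_le ζ (ζ - ζ0)
      rwa [sub_sub_cancel] at this
    linarith
  set Y := yy α (η / 4) ζ0.im with hY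
  have hYp : Y ^ α = (1 - η / 4) * ζ0.im := yy_pow hα (by linarith) (by linarith)
  have hY2 : Y ^ α + 2 ≤ ζ.im := by rw [hYp]; nlinarith
  have a1 : 1 ≤ yy α η ζ.im := one_le_yy hα (by nlinarith)
  have a2 : 1 ≤ yy α η ζ0.im := one_le_yy hα (by nlinarith)
  have a3 : yy α η ζ.im + 1 ≤ Y :=
    yy_add_one_le hα hα1 (by linarith) (by linarith) (by linarith) (by linarith) (by nlinarith)
  have a4 : yy α η ζ0.im + 1 ≤ Y :=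
    yy_add_one_le hα hα1 (by linarith) (by linarith) (by linarith) (by linarith) (by nlinarith)
  have p1 : (yy α η ζ.im) ^ α = (1 - η) * ζ.im := yy_pow hα (by linarith) (by linarith)
  have p2 : (yy α η ζ0.im) ^ α = (1 - η) * ζ0.im := yy_pow hα (by linarith) (by linarith)
  have l1 := hlow ζ (yy α η ζ.im) e6 hζ (by linarith) (by rw [p1]; nlinarith) (by rw [p1]; nlinarith)
  have l2 := hlow ζ (yy α η ζ0.im) e6 hζ (by linarith) (by rw [p2]; nlinarith) (by rw [p2]; nlinarith)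
  have c1 := h.G_cmp _ Y ζ a1 a3 hY2
  have c2 := h.G_cmp _ Y ζ a2 a4 hY2
  have hr := hPb ‖ζ‖ (norm_nonneg _)
  have d1 := div_bound (norm_nonneg _) c1 l1 hr
  have d2 := div_bound (norm_nonneg _) c2 l2 hr
  have e : G (yy α η ζ.im) ζ - G (yy α η ζ0.im) ζ
      = (G Y ζ - G (yy α η ζ0.im) ζ) - (G Y ζ - G (yy α η ζ.im) ζ) := by ring
  rw [e]
  refine (norm_sub_le _ _).trans ?_
  rw [add_mul]
  linarith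

theorem IData.left (h : IData α F G ph C N) {κ ε η R : ℝ} (hκ : 0 < κ) (hε : 0 < ε) (hη : 0 < η)
    (hη4 : η < 1 / 4) (hlow : Low α κ ε η R ph) :
    ∃ (C0 R' : ℝ), 0 < C0 ∧ ∀ ζ : ℂ, R' ≤ ‖ζ‖ → κ * ‖ζ‖ ≤ ζ.im → ζ.re ≤ 0 →
      ‖Bf α η F G ζ‖ ≤ C0 * Real.exp (-(KK α ζ - 2 * (ε * ‖ζ‖ ^ (1 / α + 1 / 2)))) := by
  obtain ⟨P, hP, hPb⟩ := poly_absorb C N ε (1 / α + 1 / 2) h.hC.le hε (by linarith [h.rho_ge])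
  refine ⟨P, max R (12 / (η * κ)), hP, ?_⟩
  intro ζ hR hζ hre
  have hα := h.hα
  have e1 : 12 / (η * κ) ≤ ‖ζ‖ := (le_max_right _ _).trans hR
  have e2 : 12 ≤ η * ζ.im := by
    rw [div_le_iff₀ (by positivity)] at e1
    nlinarith
  have e5 : 48 ≤ ζ.im := by nlinarith
  have e6 : R ≤ ‖ζ‖ := (le_max_left _ _).trans hR
  have a1 : 1 ≤ yy α η ζ.im := one_le_yy hα (by nlinarith)
  have p1 : (yy α η ζ.im) ^ α = (1 - η) * ζ.im := yy_pow hα (by linarith) (by linarith)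
  have l1 := hlow ζ (yy α η ζ.im) e6 hζ (by linarith) (by rw [p1]; nlinarith) (by rw [p1]; nlinarith)
  have hni : ζ.im ≤ ‖ζ‖ := Complex.im_le_norm ζ
  have c1 := h.F_cmp (yy α η ζ.im) ζ a1 (by rw [p1]; nlinarith) hre
  exact div_bound (norm_nonneg _) c1 l1 (hPb ‖ζ‖ (norm_nonneg _))

theorem IData.bottom (h : IData α F G ph C N) {κ ε η θ₂ : ℝ} (hκ : 0 < κ) (hε : 0 < ε) (hη : 0 < η)
    (hη4 : η < 1 / 4) (hθ : θ₂ < Real.pi / (2 + α)) :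
    ∃ (C0 R' : ℝ), 0 < C0 ∧ ∀ ζ : ℂ, R' ≤ ‖ζ‖ → κ * ‖ζ‖ ≤ ζ.im → ζ.arg ≤ θ₂ →
      ‖Bf α η F G ζ‖ ≤ C0 * Real.exp (KK α ζ + ε * ‖ζ‖ ^ (1 / α + 1 / 2)) := by
  obtain ⟨P, hP, hPb⟩ := poly_absorb C N ε (1 / α + 1 / 2) h.hC.le hε (by linarith [h.rho_ge])
  obtain ⟨C1, hC1, R1, hup⟩ := h.up κ θ₂ ε hκ hθ hε
  refine ⟨C1 + P, max R1 (12 / (η * κ)), by positivity, ?_⟩
  intro ζ hR hζ harg
  have hα := h.hα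
  have e1 : 12 / (η * κ) ≤ ‖ζ‖ := (le_max_right _ _).trans hR
  have e2 : 12 ≤ η * ζ.im := by
    rw [div_le_iff₀ (by positivity)] at e1
    nlinarith
  have e5 : 48 ≤ ζ.im := by nlinarith
  have a1 : 1 ≤ yy α η ζ.im := one_le_yy hα (by nlinarith)
  have p1 : (yy α η ζ.im) ^ α = (1 - η) * ζ.im := yy_pow hα (by linarith) (by linarith)
  have b1 := hup ζ hζ harg ((le_max_left _ _).trans hR)
  have b2 := h.G_bd (yy α η ζ.im) ζ a1 (by rw [p1]; nlinarith)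
  have b3 := hPb ‖ζ‖ (norm_nonneg _)
  have b4 : Real.exp (ε * ‖ζ‖ ^ (1 / α + 1 / 2)) ≤ Real.exp (KK α ζ + ε * ‖ζ‖ ^ (1 / α + 1 / 2)) := by
    apply Real.exp_le_exp.2
    have := KK_nonneg α ζ (by linarith)
    linarith
  unfold Bf
  refine (norm_sub_le _ _).trans ?_
  rw [add_mul]
  have := mul_le_mul_of_nonneg_left b4 hP.le
  linarith

end

end Pool.Agent.Helper209.AC
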