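import Pool.Agent.Helper209.AC.Iter2

set_option autoImplicit false

namespace Pool.Agent.Helper209.AC

open Set

/-- the exponent of the harmonic comparison function -/
noncomputable def QQ (ρ ε : ℝ) (k k1 : ℝ → ℝ) (θt : ℝ) (ζ : ℂ) : ℝ :=
  ‖ζ‖ ^ ρ * ((k θt - ε) * Real.cos (ρ * (ζ.arg - θt)) + (k1 θt / ρ) * Real.sin (ρ * (ζ.arg - θt)))

structure KData (α ρ δ ε : ℝ) (k k1 : ℝ → ℝ) (Kb : ℝ) : Prop where
  hρ2 : 2 ≤ ρ
  hδ : 0 < δ
  hδa : δ ≤ Real.pi / ρ / 8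
  hε : 0 < ε
  hKb : 0 ≤ Kb
  kb : ∀ θ ∈ Icc 0 (Real.pi / 2), 0 ≤ k θ ∧ k θ ≤ Kb
  k1b : ∀ θ ∈ Icc 0 (Real.pi / 2), 0 ≤ k1 θ ∧ k1 θ ≤ Kb
  trig : ∀ θt ∈ Icc (δ / 2) (Real.pi / 2), ∀ θ ∈ Icc (δ / 2) (Real.pi / 2), |θ - θt| ≤ Real.pi / ρ →
    (k θt - ε) * Real.cos (ρ * (θ - θt)) + (k1 θt / ρ) * Real.sin (ρ * (θ - θt)) ≤ k θ - ε
  kge : ∀ θ ∈ Icc (Real.pi / ρ - δ) (Real.pi / 2), 2 * ε ≤ k θ
  bot : ∀ θt ∈ Icc (Real.pi / ρ - δ) (Real.pi / 2), ∀ θ, δ / 2 ≤ θ → θ ≤ θt - Real.pi / ρ / 2 →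
    k θ + 2 * ε ≤ (k θt - ε) * Real.cos (2 * ρ * δ)
  karg : ∀ ζ : ℂ, 0 ≤ ζ.re → 0 < ζ.im → KK α ζ = ‖ζ‖ ^ ρ * k ζ.arg
  kneg : ∀ ζ : ℂ, ζ.re ≤ 0 → 0 < ζ.im → ζ.im ^ ρ * k (Real.pi / 2) ≤ KK α ζ

section
variable {α ρ δ ε : ℝ} {k k1 : ℝ → ℝ} {Kb : ℝ}

theorem KData.a_le (h : KData α ρ δ ε k k1 Kb) : Real.pi / ρ ≤ Real.pi / 2 :=
  div_le_div_of_nonneg_left Real.pi_pos.le (by norm_num) h.hρ2

theorem KData.a_pos (h : KData α ρ δ ε k k1 Kb) : 0 < Real.pi / ρ :=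
  div_pos Real.pi_pos (by linarith [h.hρ2])

theorem KData.rho_a (h : KData α ρ δ ε k k1 Kb) : ρ * (Real.pi / ρ) = Real.pi := by
  have := h.hρ2; field_simp

theorem abs_cos_sub_cos_le (x y : ℝ) : |Real.cos x - Real.cos y| ≤ |x - y| := by
  rw [Real.cos_sub_cos, abs_mul, abs_mul]
  have h1 : |Real.sin ((x + y) / 2)| ≤ 1 := Real.abs_sin_le_one _
  have h2 : |Real.sin ((x - y) / 2)| ≤ |(x - y) / 2| := Real.abs_sin_le_abs
  rw [abs_div, abs_of_pos (show (0:ℝ) < 2 by norm_num)] at h2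
  rw [show |(-2:ℝ)| = 2 by norm_num]
  have h3 := abs_nonneg (Real.sin ((x - y) / 2))
  nlinarith [abs_nonneg (x - y)]

theorem abs_sin_sub_sin_le (x y : ℝ) : |Real.sin x - Real.sin y| ≤ |x - y| := by
  rw [Real.sin_sub_sin, abs_mul, abs_mul]
  have h1 : |Real.cos ((x + y) / 2)| ≤ 1 := Real.abs_cos_le_one _
  have h2 : |Real.sin ((x - y) / 2)| ≤ |(x - y) / 2| := Real.abs_sin_le_abs
  rw [abs_div, abs_of_pos (show (0:ℝ) < 2 by norm_num)] at h2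
  rw [abs_of_pos (show (0:ℝ) < 2 by norm_num)]
  have h3 := abs_nonneg (Real.sin ((x - y) / 2))
  nlinarith [abs_nonneg (x - y)]

theorem KData.cmp (h : KData α ρ δ ε k k1 Kb) : ∃ R : ℝ, 1 ≤ R ∧ ∀ θt ∈ Icc (Real.pi / ρ - δ) (Real.pi / 2),
    ∀ ζ : ℂ, R ≤ ‖ζ‖ → -1 ≤ ζ.re → δ / 2 ≤ ζ.arg → ζ.arg ≤ θt + 3 * δ / 4 → θt - Real.pi / ρ ≤ ζ.arg →
      QQ ρ ε k k1 θt ζ ≤ KK α ζ - 3 / 4 * ε * ‖ζ‖ ^ ρ := by
  have hpi := Real.pi_pos
  have ha := h.a_le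
  have ha0 := h.a_pos
  have hδ := h.hδ
  have hδa := h.hδa
  have hρ2 := h.hρ2
  have hε := h.hε
  have hKb := h.hKb
  refine ⟨1 + 16 * (2 * Kb + ε) * ρ / ε, by have : 0 ≤ 16 * (2 * Kb + ε) * ρ / ε := by positivity
                                            linarith, ?_⟩
  intro θt hθt ζ hR hre harg1 harg2 harg3
  have hr0 : 0 < ‖ζ‖ := by
    have : 0 ≤ 16 * (2 * Kb + ε) * ρ / ε := by positivity
    linarith
  have hζ0 : ζ ≠ 0 := norm_pos_iff.1 hr0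
  have him : 0 < ζ.im := by
    have h1 := im_ge_of_arg (ζ := ζ) (β := δ / 2) (by linarith) (by linarith) harg1
      (by linarith [hθt.2])
    have h2 : 0 < Real.sin (δ / 2) := Real.sin_pos_of_pos_of_lt_pi (by linarith) (by linarith)
    have := mul_pos h2 hr0
    linarith
  have hθt' : θt ∈ Icc (δ / 2) (Real.pi / 2) := ⟨by linarith [hθt.1], hθt.2⟩
  have hrp : 0 < ‖ζ‖ ^ ρ := Real.rpow_pos_of_pos hr0 _
  rcases le_total 0 ζ.re with hre0 | hre0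
  · have hle : ζ.arg ≤ Real.pi / 2 := (abs_le.1 (Complex.abs_arg_le_pi_div_two_iff.2 hre0)).2
    have h1 := h.trig θt hθt' ζ.arg ⟨harg1, hle⟩ (by rw [abs_le]; constructor <;> linarith)
    rw [h.karg ζ hre0 him]
    unfold QQ
    have h2 := mul_le_mul_of_nonneg_left h1 hrp.le
    linarith [mul_pos hε hrp]
  · have hge : Real.pi / 2 ≤ ζ.arg := by
      by_contra hcon
      push Not at hcon
      have h1 : 0 < Real.cos ζ.arg := Real.cos_pos_of_mem_Ioo ⟨by linarith, hcon⟩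
      have h2 : ζ.re = ‖ζ‖ * Real.cos ζ.arg := by rw [Complex.norm_mul_cos_arg]
      have := mul_pos hr0 h1
      linarith
    set β := ζ.arg - Real.pi / 2 with hβ
    have hβ0 : 0 ≤ β := by linarith
    have hβ1 : β ≤ Real.pi / 2 := by linarith [hθt.2]
    have hsin : Real.sin β * ‖ζ‖ ≤ 1 := by
      have h2 : ζ.re = ‖ζ‖ * Real.cos ζ.arg := by rw [Complex.norm_mul_cos_arg]
      have h3 : Real.sin β = -Real.cos ζ.arg := by rw [hβ, Real.sin_sub_pi_div_two]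
      rw [h3]; nlinarith
    have hβs : β ≤ 2 * Real.sin β := by
      have := Real.mul_le_sin hβ0 hβ1
      have h4 : 2 / Real.pi * β * Real.pi = 2 * β := by field_simp
      have h5 : 2 * β ≤ Real.sin β * Real.pi := by rw [← h4]; exact mul_le_mul_of_nonneg_right this hpi.le
      have h6 : 0 ≤ Real.sin β := Real.sin_nonneg_of_nonneg_of_le_pi hβ0 (by linarith)
      nlinarith [Real.pi_le_four]
    have hβr : β * ‖ζ‖ ≤ 2 := by
      have := mul_le_mul_of_nonneg_right hβs hr0.le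
      linarith
    have hRb : 16 * (2 * Kb + ε) * ρ / ε ≤ ‖ζ‖ := by linarith
    rw [div_le_iff₀ hε] at hRb
    -- comparison at π/2
    have h1 := h.trig θt hθt' (Real.pi / 2) ⟨by linarith, le_rfl⟩ (by rw [abs_le]; constructor <;> linarith [hθt.2])
    have hk1 := h.k1b θt ⟨by linarith [hθt'.1], hθt'.2⟩
    have hk0 := h.kb θt ⟨by linarith [hθt'.1], hθt'.2⟩
    have hkπ := h.kb (Real.pi / 2) ⟨by linarith, le_rfl⟩
    have hx : |ρ * (ζ.arg - θt) - ρ * (Real.pi / 2 - θt)| = ρ * β := by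
      rw [← mul_sub, show ζ.arg - θt - (Real.pi / 2 - θt) = β by rw [hβ]; ring, abs_of_nonneg (by positivity)]
    have c1 := abs_cos_sub_cos_le (ρ * (ζ.arg - θt)) (ρ * (Real.pi / 2 - θt))
    have c2 := abs_sin_sub_sin_le (ρ * (ζ.arg - θt)) (ρ * (Real.pi / 2 - θt))
    rw [hx] at c1 c2
    have hB0 : 0 ≤ k1 θt / ρ := div_nonneg hk1.1 (by linarith)
    have hB1 : k1 θt / ρ ≤ Kb := by
      rw [div_le_iff₀ (by linarith)]; nlinarith [hk1.2]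
    have hA : |k θt - ε| ≤ Kb + ε := by rw [abs_le]; constructor <;> linarith [hk0.1, hk0.2]
    have d1 : (k θt - ε) * Real.cos (ρ * (ζ.arg - θt)) ≤
        (k θt - ε) * Real.cos (ρ * (Real.pi / 2 - θt)) + (Kb + ε) * (ρ * β) := by
      have h3 : (k θt - ε) * (Real.cos (ρ * (ζ.arg - θt)) - Real.cos (ρ * (Real.pi / 2 - θt)))
          ≤ (Kb + ε) * (ρ * β) := by
        refine (le_abs_self _).trans ?_
        rw [abs_mul]
        exact mul_le_mul hA c1 (abs_nonneg _) (by positivity)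
      linarith
    have d2 : (k1 θt / ρ) * Real.sin (ρ * (ζ.arg - θt)) ≤
        (k1 θt / ρ) * Real.sin (ρ * (Real.pi / 2 - θt)) + Kb * (ρ * β) := by
      have h3 : (k1 θt / ρ) * (Real.sin (ρ * (ζ.arg - θt)) - Real.sin (ρ * (Real.pi / 2 - θt)))
          ≤ Kb * (ρ * β) := by
        refine (le_abs_self _).trans ?_
        rw [abs_mul]
        apply mul_le_mul _ c2 (abs_nonneg _) (by positivity)
        rw [abs_of_nonneg hB0]; exact hB1
      linarith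
    have d3 : (2 * Kb + ε) * (ρ * β) ≤ ε / 8 := by
      by_contra hcon
      push Not at hcon
      have e1 : ε / 8 * ‖ζ‖ < (2 * Kb + ε) * (ρ * β) * ‖ζ‖ := mul_lt_mul_of_pos_right hcon hr0
      have e2 : (2 * Kb + ε) * (ρ * β) * ‖ζ‖ ≤ (2 * Kb + ε) * ρ * 2 := by
        have : (2 * Kb + ε) * (ρ * β) * ‖ζ‖ = (2 * Kb + ε) * ρ * (β * ‖ζ‖) := by ring
        rw [this]
        exact mul_le_mul_of_nonneg_left hβr (by positivity)
      linarith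
    have e1 : QQ ρ ε k k1 θt ζ ≤ ‖ζ‖ ^ ρ * (k (Real.pi / 2) - ε + ε / 8) := by
      unfold QQ
      apply mul_le_mul_of_nonneg_left _ hrp.le
      linarith
    have e2 : ‖ζ‖ ^ ρ * (k (Real.pi / 2) - ε / 8) ≤ KK α ζ := by
      refine le_trans ?_ (h.kneg ζ hre0 him)
      have f1 : ‖ζ‖ - 1 ≤ ζ.im := by
        have := Complex.norm_le_abs_re_add_abs_im ζ
        rw [abs_of_nonpos hre0, abs_of_pos him] at this
        linarith
      have hr1 : 1 ≤ ‖ζ‖ := by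
        have : 0 ≤ 16 * (2 * Kb + ε) * ρ / ε := by positivity
        linarith
      have f2 : ‖ζ‖ ^ ρ * (1 - ρ / ‖ζ‖) ≤ ζ.im ^ ρ := by
        have g1 : 1 + ρ * (-(1 / ‖ζ‖)) ≤ (1 + -(1 / ‖ζ‖)) ^ ρ := by
          apply one_add_mul_self_le_rpow_one_add _ (by linarith)
          have : 1 / ‖ζ‖ ≤ 1 := by rw [div_le_one hr0]; exact hr1
          linarith
        have g2 : (‖ζ‖ * (1 + -(1 / ‖ζ‖))) ^ ρ ≤ ζ.im ^ ρ := by
          have g3 : ‖ζ‖ * (1 + -(1 / ‖ζ‖)) = ‖ζ‖ - 1 := by field_simp; ring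
          rw [g3]
          exact Real.rpow_le_rpow (by linarith) f1 (by linarith)
        rw [Real.mul_rpow hr0.le (by
          have : 1 / ‖ζ‖ ≤ 1 := by rw [div_le_one hr0]; exact hr1
          linarith)] at g2
        have g4 : 1 - ρ / ‖ζ‖ = 1 + ρ * (-(1 / ‖ζ‖)) := by ring
        rw [g4]
        exact (mul_le_mul_of_nonneg_left g1 hrp.le).trans g2
      have f3 : k (Real.pi / 2) * (ρ / ‖ζ‖) ≤ ε / 8 := by
        have g5 : k (Real.pi / 2) * (ρ / ‖ζ‖) = k (Real.pi / 2) * ρ / ‖ζ‖ := by ring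
        rw [g5, div_le_iff₀ hr0]
        have g6 : k (Real.pi / 2) * ρ ≤ Kb * ρ := mul_le_mul_of_nonneg_right hkπ.2 (by linarith)
        have g7 : 0 ≤ ε * ρ := by positivity
        have g8 : 0 ≤ Kb * ρ := by positivity
        linarith
      have f4 := mul_le_mul_of_nonneg_right f2 hkπ.1
      have f5 := mul_le_mul_of_nonneg_left f3 hrp.le
      linarith
    linarith [mul_pos hε hrp]

theorem KData.bottomQ (h : KData α ρ δ ε k k1 Kb) {θt : ℝ} (hθt : θt ∈ Icc (Real.pi / ρ - δ) (Real.pi / 2))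
    {ζ : ℂ} (h1 : θt - (Real.pi / ρ - 2 * δ) - δ / 4 ≤ ζ.arg) (h2 : ζ.arg ≤ θt - (Real.pi / ρ - 2 * δ)) :
    QQ ρ ε k k1 θt ζ ≤ -(‖ζ‖ ^ ρ * (k ζ.arg + 2 * ε)) := by
  have hpi := Real.pi_pos
  have ha := h.a_le
  have ha0 := h.a_pos
  have hδ := h.hδ
  have hδa := h.hδa
  have hρ2 := h.hρ2
  have hε := h.hε
  set s := ζ.arg - θt + Real.pi / ρ with hs
  have hs1 : 7 * δ / 4 ≤ s := by linarith
  have hs2 : s ≤ 2 * δ := by linarith
  have hρa := h.rho_a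
  have e1 : ρ * (ζ.arg - θt) = ρ * s - Real.pi := by rw [hs]; linear_combination -hρa
  have hkt := h.kge θt hθt
  have hk1 := h.k1b θt ⟨by linarith [hθt.1], hθt.2⟩
  have hb := h.bot θt hθt ζ.arg (by linarith [hθt.1]) (by linarith)
  have hρδ : ρ * (2 * δ) ≤ Real.pi / 4 := by
    have : ρ * δ ≤ ρ * (Real.pi / ρ / 8) := mul_le_mul_of_nonneg_left hδa (by linarith)
    have h3 : ρ * (Real.pi / ρ / 8) = Real.pi / 8 := by rw [← mul_div_assoc, hρa]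
    linarith
  have c1 : Real.cos (2 * ρ * δ) ≤ Real.cos (ρ * s) := by
    apply Real.cos_le_cos_of_nonneg_of_le_pi
    · have : 0 ≤ s := by linarith
      positivity
    · nlinarith
    · nlinarith
  have c2 : 0 ≤ Real.sin (ρ * s) := by
    apply Real.sin_nonneg_of_nonneg_of_le_pi
    · have : 0 ≤ s := by linarith
      positivity
    · nlinarith
  unfold QQ
  rw [e1, Real.cos_sub_pi, Real.sin_sub_pi, ← mul_neg]
  apply mul_le_mul_of_nonneg_left _ (Real.rpow_nonneg (norm_nonneg _) _)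
  have hB0 : 0 ≤ k1 θt / ρ := div_nonneg hk1.1 (by linarith)
  have d1 := mul_le_mul_of_nonneg_left c1 (show 0 ≤ k θt - ε by linarith)
  have d2 := mul_nonneg hB0 c2
  linarith

/-- crude bound -/
theorem KData.crudeQ (h : KData α ρ δ ε k k1 Kb) {θt : ℝ} (hθt : θt ∈ Icc (Real.pi / ρ - δ) (Real.pi / 2))
    (ζ : ℂ) : QQ ρ ε k k1 θt ζ ≤ 2 * Kb * ‖ζ‖ ^ ρ := by
  have hpi := Real.pi_pos
  have ha0 := h.a_pos
  have hδ := h.hδ
  have hδa := h.hδa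
  have hρ2 := h.hρ2
  have hε := h.hε
  have hk1 := h.k1b θt ⟨by linarith [hθt.1], hθt.2⟩
  have hk0 := h.kb θt ⟨by linarith [hθt.1], hθt.2⟩
  have hkt := h.kge θt hθt
  have hB0 : 0 ≤ k1 θt / ρ := div_nonneg hk1.1 (by linarith)
  have hB1 : k1 θt / ρ ≤ Kb := by
    rw [div_le_iff₀ (by linarith)]; nlinarith [hk1.2, h.hKb]
  unfold QQ
  rw [mul_comm (2 * Kb)]
  apply mul_le_mul_of_nonneg_left _ (Real.rpow_nonneg (norm_nonneg _) _)
  have c1 := Real.cos_le_one (ρ * (ζ.arg - θt))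
  have c2 := Real.sin_le_one (ρ * (ζ.arg - θt))
  nlinarith

end

end Pool.Agent.Helper209.AC
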