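import Pool.Agent.Helper209.AC.Iter3

set_option autoImplicit false

namespace Pool.Agent.Helper209.AC

open Set

/-- the inductive claim -/
def Claim (α ρ ε η : ℝ) (k : ℝ → ℝ) (F : ℂ → ℂ) (G : ℝ → ℂ → ℂ) (θx : ℝ) : Prop :=
  ∃ C R : ℝ, 0 < C ∧ ∀ ζ : ℂ, R ≤ ‖ζ‖ → 0 ≤ ζ.re → θx ≤ ζ.arg →
    ‖Bf α η F G ζ‖ ≤ C * Real.exp (-(‖ζ‖ ^ ρ * (k ζ.arg - ε) + ε / 4 * ‖ζ‖ ^ 2))

/-- the weight -/
noncomputable def ww (ρ ρ' ε : ℝ) (k k1 : ℝ → ℝ) (θt θm e3 : ℝ) (ζ : ℂ) : ℝ :=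
  QQ ρ ε k k1 θt ζ + ε / 4 * ‖ζ‖ ^ 2 - e3 * (‖ζ‖ ^ ρ' * Real.cos (ρ' * (ζ.arg - θm)))

/-- local holomorphic version of the weight -/
noncomputable def hh (ρ ρ' ε : ℝ) (k k1 : ℝ → ℝ) (θt θm e3 : ℝ) (ζ0 ζ : ℂ) : ℂ :=
  hE ρ θt (((k θt - ε : ℝ) : ℂ) - ((k1 θt / ρ : ℝ) : ℂ) * Complex.I) ζ
    + ((ε / 4 : ℝ) : ℂ) * (((‖ζ0‖ ^ 2 : ℝ) : ℂ) + 2 * (starRingEnd ℂ ζ0) * (ζ - ζ0))
    - (e3 : ℂ) * hE ρ' θm (((1 : ℝ) : ℂ) - ((0 : ℝ) : ℂ) * Complex.I) ζ

theorem hh_re (ρ ρ' ε : ℝ) (k k1 : ℝ → ℝ) (θt θm e3 : ℝ) (ζ0 ζ : ℂ) (hζ : ζ ≠ 0) :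
    (hh ρ ρ' ε k k1 θt θm e3 ζ0 ζ).re = ww ρ ρ' ε k k1 θt θm e3 ζ - ε / 4 * ‖ζ - ζ0‖ ^ 2 := by
  unfold hh ww QQ
  rw [Complex.sub_re, Complex.add_re, hE_re _ _ _ _ hζ, Complex.re_ofReal_mul, Complex.re_ofReal_mul,
    hE_re _ _ _ _ hζ]
  have e1 : (((‖ζ0‖ ^ 2 : ℝ) : ℂ) + 2 * (starRingEnd ℂ ζ0) * (ζ - ζ0)).re = ‖ζ‖ ^ 2 - ‖ζ - ζ0‖ ^ 2 := by
    rw [Complex.add_re, Complex.ofReal_re, ← Complex.normSq_eq_norm_sq, ← Complex.normSq_eq_norm_sq,
      ← Complex.normSq_eq_norm_sq, Complex.normSq_apply, Complex.normSq_apply, Complex.normSq_apply]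
    simp only [Complex.mul_re, Complex.mul_im, Complex.sub_re, Complex.sub_im, Complex.conj_re,
      Complex.conj_im, Complex.re_ofNat, Complex.im_ofNat]
    ring
  rw [e1]
  ring

theorem hh_diff (ρ ρ' ε : ℝ) (k k1 : ℝ → ℝ) (θt θm e3 : ℝ) (ζ0 : ℂ) :
    DifferentiableOn ℂ (hh ρ ρ' ε k k1 θt θm e3 ζ0) {ζ | 0 < ζ.im} := by
  unfold hh
  have h1 := hE_diff ρ θt (((k θt - ε : ℝ) : ℂ) - ((k1 θt / ρ : ℝ) : ℂ) * Complex.I)
  have h2 := hE_diff ρ' θm (((1 : ℝ) : ℂ) - ((0 : ℝ) : ℂ) * Complex.I)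
  have h3 : DifferentiableOn ℂ (fun ζ : ℂ => ((ε / 4 : ℝ) : ℂ) * (((‖ζ0‖ ^ 2 : ℝ) : ℂ) +
      2 * (starRingEnd ℂ ζ0) * (ζ - ζ0))) {ζ | 0 < ζ.im} := by
    fun_prop
  exact (h1.add h3).sub (h2.const_mul _)

theorem aux48 {η x : ℝ} (hη : 0 < η) (hη4 : η < 1 / 4) (h : 12 ≤ η * x) : 48 ≤ x := by
  by_contra hc
  push Not at hc
  rcases le_or_gt x 0 with h0 | h0
  · have := mul_nonneg_of_nonpos_of_nonpos (by linarith : -η ≤ 0) h0
    linarith
  · have h1 : η * x < 1 / 4 * x := mul_lt_mul_of_pos_right hη4 h0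
    linarith

theorem aux_one {η x : ℝ} (hη4 : η < 1 / 4) (h : 48 ≤ x) : 1 ≤ (1 - η) * x := by
  have : 0 ≤ (1 / 4 - η) * x := mul_nonneg (by linarith) (by linarith)
  linarith

theorem exists_im_of_norm {κ R : ℝ} (hκ : 0 < κ) (_hR : 0 ≤ R) {ζ : ℂ} (h1 : κ * ‖ζ‖ ≤ ζ.im)
    (h2 : R / κ ≤ ‖ζ‖) : R ≤ ζ.im := by
  rw [div_le_iff₀ hκ] at h2
  linarith

section
variable {α ρ δ ε : ℝ} {k k1 : ℝ → ℝ} {Kb : ℝ} {F : ℂ → ℂ} {G : ℝ → ℂ → ℂ} {ph : ℂ → ℝ → ℝ}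
  {C : ℝ} {N : ℕ}

set_option maxHeartbeats 4000000 in
theorem core (h : IData α F G ph C N) (hk : KData α ρ δ ε k k1 Kb) (hρ : 1 / α + 1 / 2 = ρ) {η Rl : ℝ}
    (hη : 0 < η) (hη4 : η < 1 / 4) (hlow : Low α (Real.sin (δ / 2)) (ε / 8) η Rl ph) {θx : ℝ}
    (hθx1 : Real.pi / ρ - δ / 2 ≤ θx) (hθx2 : θx ≤ Real.pi / 2) (hcl : Claim α ρ ε η k F G θx) :
    ∃ D R1 : ℝ, 0 < D ∧ ∀ θt ∈ Icc (θx - δ / 2) θx, ∀ e3 : ℝ, 0 < e3 → e3 ≤ 1 → ∀ ζ : ℂ, R1 < ‖ζ‖ →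
      θt - (Real.pi / ρ - 2 * δ) < ζ.arg → ζ.arg < θx →
      ‖Bf α η F G ζ‖ ≤ D * Real.exp (-ww ρ (Real.pi / (Real.pi / ρ - δ)) ε k k1 θt
        ((θt - (Real.pi / ρ - 2 * δ) + θx) / 2) e3 ζ) := by
  have hpi := Real.pi_pos
  have ha := hk.a_le
  have ha0 := hk.a_pos
  have hδ := hk.hδ
  have hδa := hk.hδa
  have hρ2 := hk.hρ2
  have hε := hk.hε
  have hKb := hk.hKb
  have hCpos := h.hC
  set a := Real.pi / ρ with hadef
  set κ := Real.sin (δ / 2) with hκdef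
  have hκ : 0 < κ := Real.sin_pos_of_pos_of_lt_pi (by linarith) (by linarith)
  obtain ⟨C0, Rc0, hC0, hcomp⟩ := h.comp hκ (by linarith : (0:ℝ) < ε / 8) hη hη4 hlow
  obtain ⟨C2, Rc2, hC2, hleft⟩ := h.left hκ (by linarith : (0:ℝ) < ε / 8) hη hη4 hlow
  have hθ2 : Real.pi / 2 - (a - 2 * δ) < Real.pi / (2 + α) := by
    -- π/(2+α) = π/2 - a/4
    have hα := h.hα
    have : Real.pi / (2 + α) = Real.pi / 2 - a / 4 := by
      rw [hadef, ← hρ]; field_simp; ring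
    rw [this]; linarith
  obtain ⟨C3, Rc3, hC3, hbottom⟩ := h.bottom (η := η) hκ hε hη hη4 hθ2
  obtain ⟨Rcmp, hRcmp, hcmp⟩ := hk.cmp
  obtain ⟨Rcl, hRcl, hclose⟩ := AlmostPL.arg_close (δ / 4) (by linarith)
  obtain ⟨Cc, Rcc, hCc, hclaim⟩ := hcl
  rw [hρ] at hcomp hleft hbottom
  set R2 := max (max (max Rc0 Rc2) (max Rc3 Rcmp)) (max (max Rcl Rcc) (12 / (η * κ) / κ)) with hR2
  have r0 : Rc0 ≤ R2 := (le_max_left _ _).trans ((le_max_left _ _).trans (le_max_left _ _))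
  have r2 : Rc2 ≤ R2 := (le_max_right _ _).trans ((le_max_left _ _).trans (le_max_left _ _))
  have r3 : Rc3 ≤ R2 := (le_max_left _ _).trans ((le_max_right _ _).trans (le_max_left _ _))
  have r4 : Rcmp ≤ R2 := (le_max_right _ _).trans ((le_max_right _ _).trans (le_max_left _ _))
  have r5 : Rcl ≤ R2 := (le_max_left _ _).trans ((le_max_left _ _).trans (le_max_right _ _))
  have r6 : Rcc ≤ R2 := (le_max_right _ _).trans ((le_max_left _ _).trans (le_max_right _ _))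
  have r7 : 12 / (η * κ) / κ ≤ R2 := (le_max_right _ _).trans (le_max_right _ _)
  have r8 : 2 ≤ R2 := hRcl.trans r5
  set M1 := C * Real.exp (C * (R2 + 1) ^ ρ) + C * (1 + (R2 + 1)) ^ N with hM1
  set M2 := (2 * Kb + ε) * (R2 + 1) ^ ρ with hM2
  have hM1p : 0 < M1 := by positivity
  have hKbe : 0 < 2 * Kb + ε := by linarith
  set C1 := M1 * Real.exp M2 + C2 + C3 + Cc with hC1
  have hC1p : 0 < C1 := by positivity
  refine ⟨max C1 (C0 / (Real.exp (ε / 4) - 1)), R2 + 1, lt_of_lt_of_le hC1p (le_max_left _ _), ?_⟩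
  intro θt hθt e3 he3 he31
  set ρ' := Real.pi / (a - δ) with hρ'
  set θm := (θt - (a - 2 * δ) + θx) / 2 with hθm
  have had : 0 < a - δ := by linarith
  have hρρ' : ρ < ρ' := by
    rw [hρ', lt_div_iff₀ had]
    have h1 := hk.rho_a
    have h2 : 0 < ρ * δ := mul_pos (by linarith) hδ
    linarith
  have hρ'a : ρ' * (a - δ) = Real.pi := by rw [hρ']; field_simp
  have hρ'0 : 0 < ρ' := by linarith
  have hθtI : θt ∈ Icc (a - δ) (Real.pi / 2) := ⟨by linarith [hθt.1], by linarith [hθt.2]⟩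
  set w := ww ρ ρ' ε k k1 θt θm e3 with hw
  set S : Set ℂ := {ζ | R2 + 1 < ‖ζ‖ ∧ θt - (a - 2 * δ) < ζ.arg ∧ ζ.arg < θx} with hS
  set T : Set ℂ := {ζ | R2 ≤ ‖ζ‖ ∧ -1 ≤ ζ.re ∧ θt - (a - 2 * δ) - δ / 4 ≤ ζ.arg ∧ ζ.arg ≤ θx + δ / 4 ∧
    (‖ζ‖ ≤ R2 + 1 ∨ ζ.arg ≤ θt - (a - 2 * δ) ∨ θx ≤ ζ.arg)} with hT
  -- general facts
  have facts : ∀ ζ : ℂ, R2 ≤ ‖ζ‖ → -1 ≤ ζ.re → θt - (a - 2 * δ) - δ / 4 ≤ ζ.arg → ζ.arg ≤ θx + δ / 4 →
      κ * ‖ζ‖ ≤ ζ.im ∧ w ζ ≤ QQ ρ ε k k1 θt ζ + ε / 4 * ‖ζ‖ ^ 2 ∧ ‖ζ‖ ^ 2 ≤ ‖ζ‖ ^ ρ ∧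
      w ζ ≤ KK α ζ - ε / 2 * ‖ζ‖ ^ ρ := by
    intro ζ h1 h2 h3 h4
    have g1 : δ / 2 ≤ ζ.arg := by linarith [hθt.1]
    have g2 : ζ.arg ≤ θt + 3 * δ / 4 := by linarith [hθt.1]
    have g3 : θt - a ≤ ζ.arg := by linarith
    have g4 : κ * ‖ζ‖ ≤ ζ.im := im_ge_of_arg (by linarith) (by linarith) g1 (by linarith [hθt.2])
    have g5 : 0 ≤ ‖ζ‖ ^ ρ' * Real.cos (ρ' * (ζ.arg - θm)) := by
      apply mul_nonneg (Real.rpow_nonneg (norm_nonneg _) _)
      have q1 : -((a - δ) / 2) ≤ ζ.arg - θm := by rw [hθm]; linarith [hθt.1]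
      have q2 : ζ.arg - θm ≤ (a - δ) / 2 := by rw [hθm]; linarith [hθt.1]
      apply Real.cos_nonneg_of_neg_pi_div_two_le_of_le
      · have := mul_le_mul_of_nonneg_left q1 hρ'0.le
        linarith
      · have := mul_le_mul_of_nonneg_left q2 hρ'0.le
        linarith
    have g6 : w ζ ≤ QQ ρ ε k k1 θt ζ + ε / 4 * ‖ζ‖ ^ 2 := by
      rw [hw]; unfold ww
      have := mul_nonneg he3.le g5
      linarith
    have g7 : ‖ζ‖ ^ 2 ≤ ‖ζ‖ ^ ρ := by
      rw [← Real.rpow_natCast]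
      exact Real.rpow_le_rpow_of_exponent_le (by linarith) (by exact_mod_cast hρ2)
    refine ⟨g4, g6, g7, ?_⟩
    have g8 := hcmp θt hθtI ζ (r4.trans h1) h2 g1 g2 g3
    have g9 := mul_le_mul_of_nonneg_left g7 (by linarith : (0:ℝ) ≤ ε / 4)
    linarith
  have hSre : ∀ ζ ∈ S, 0 ≤ ζ.re ∧ 0 ≤ ζ.im := by
    intro ζ hζ
    obtain ⟨z1, z2, z3⟩ := hζ
    have harg0 : 0 ≤ ζ.arg := by linarith [hθt.1]
    constructor
    · rw [← Complex.abs_arg_le_pi_div_two_iff, abs_of_nonneg harg0]; linarith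
    · exact Complex.arg_nonneg_iff.1 harg0
  have hSfacts : ∀ ζ ∈ S, κ * ‖ζ‖ ≤ ζ.im ∧ w ζ ≤ QQ ρ ε k k1 θt ζ + ε / 4 * ‖ζ‖ ^ 2 ∧ ‖ζ‖ ^ 2 ≤ ‖ζ‖ ^ ρ ∧
      w ζ ≤ KK α ζ - ε / 2 * ‖ζ‖ ^ ρ := by
    intro ζ hζ
    have h1 := hSre ζ hζ
    obtain ⟨z1, z2, z3⟩ := hζ
    exact facts ζ (by linarith) (by linarith) (by linarith) (by linarith)
  have him48 : ∀ ζ : ℂ, R2 ≤ ‖ζ‖ → κ * ‖ζ‖ ≤ ζ.im → 12 ≤ η * ζ.im := by
    intro ζ h1 h2
    have h3 := exists_im_of_norm hκ (by positivity : (0:ℝ) ≤ 12 / (η * κ)) h2 (r7.trans h1)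
    have h4 : 12 / η ≤ 12 / (η * κ) := by
      apply div_le_div_of_nonneg_left (by norm_num) (by positivity)
      have : κ ≤ 1 := Real.sin_le_one _
      exact mul_le_of_le_one_right hη.le this
    have h5 : 12 / η ≤ ζ.im := h4.trans h3
    rw [div_le_iff₀ hη] at h5
    linarith
  have hBbd : ∀ ζ : ℂ, R2 ≤ ‖ζ‖ → κ * ‖ζ‖ ≤ ζ.im →
      ‖Bf α η F G ζ‖ ≤ C * Real.exp (C * ‖ζ‖ ^ ρ) + C * (1 + ‖ζ‖) ^ N := by
    intro ζ h1 h2
    have h3 := him48 ζ h1 h2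
    have h4 : 48 ≤ ζ.im := aux48 hη hη4 h3
    have a1 : 1 ≤ yy α η ζ.im := one_le_yy h.hα (aux_one hη4 h4)
    have p1 : (yy α η ζ.im) ^ α = (1 - η) * ζ.im := yy_pow h.hα (by linarith) (by linarith)
    have b2 := h.G_bd (yy α η ζ.im) ζ a1 (by rw [p1]; linarith)
    have b1 := h.grow ζ
    rw [hρ] at b1
    unfold Bf
    exact (norm_sub_le _ _).trans (by linarith)
  -- the maximum principle
  have key := AlmostPL.almost_PL S T (Bf α η F G) w (ε / 4) C0 C1 (by linarith) hC0.le hC1p.le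
    (by
      -- local
      intro ζ0 hζ0
      have s1 := hSre ζ0 hζ0
      have s2 := hSfacts ζ0 hζ0
      obtain ⟨z1, z2, z3⟩ := hζ0
      have s3 := him48 ζ0 (by linarith) s2.1
      have s4 : 48 ≤ ζ0.im := aux48 hη hη4 s3
      have a2 : 1 ≤ yy α η ζ0.im := one_le_yy h.hα (aux_one hη4 s4)
      have p2 : (yy α η ζ0.im) ^ α = (1 - η) * ζ0.im := yy_pow h.hα (by linarith) (by linarith)
      have imcl : ∀ ζ ∈ Metric.closedBall ζ0 1, ζ0.im - 1 ≤ ζ.im := by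
        intro ζ hζ
        rw [Metric.mem_closedBall, dist_eq_norm] at hζ
        have := (abs_le.1 ((Complex.abs_im_le_norm (ζ - ζ0)).trans hζ)).1
        rw [Complex.sub_im] at this; linarith
      refine ⟨fun ζ => F ζ - G (yy α η ζ0.im) ζ, hh ρ ρ' ε k k1 θt θm e3 ζ0, ?_, ?_, rfl, ?_, ?_⟩
      · have hd : DifferentiableOn ℂ (fun ζ => F ζ - G (yy α η ζ0.im) ζ)
            {ζ | (yy α η ζ0.im) ^ α + 2 < ζ.im} := h.F_diff.differentiableOn.sub (h.G_diff _ a2)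
        apply hd.diffContOnCl_ball
        intro ζ hζ
        have := imcl ζ hζ
        simp only [mem_ofPred_eq, p2]
        linarith
      · apply (hh_diff ρ ρ' ε k k1 θt θm e3 ζ0).diffContOnCl_ball
        intro ζ hζ
        have := imcl ζ hζ
        simp only [mem_ofPred_eq]
        linarith
      · have hne : ζ0 ≠ 0 := by
          intro h0; rw [h0] at s4; norm_num at s4
        rw [hh_re _ _ _ _ _ _ _ _ _ _ hne, sub_self, norm_zero]
        norm_num [hw]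
      · intro ζ hζ
        rw [mem_sphere_iff_norm] at hζ
        have t1 : ‖ζ0‖ ≤ ‖ζ‖ + 1 := by
          have := norm_sub_le ζ (ζ - ζ0)
          rw [sub_sub_cancel, hζ] at this
          exact this
        have t2 := hclose ζ0 ζ (by linarith) hζ.le s1.1 s1.2
        rw [abs_le] at t2
        have t3 : -1 ≤ ζ.re := by
          have := (abs_le.1 ((Complex.abs_re_le_norm (ζ - ζ0)).trans hζ.le)).1
          rw [Complex.sub_re] at this; linarith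
        have t4 := facts ζ (by linarith) t3 (by linarith) (by linarith)
        have hζne : ζ ≠ 0 := by
          intro h0; rw [h0, norm_zero] at t1; linarith
        refine ⟨?_, ?_, ?_⟩
        · by_cases c1 : R2 + 1 < ‖ζ‖
          · by_cases c2 : θt - (a - 2 * δ) < ζ.arg
            · by_cases c3 : ζ.arg < θx
              · exact Or.inl ⟨c1, c2, c3⟩
              · exact Or.inr ⟨by linarith, t3, by linarith, by linarith, Or.inr (Or.inr (not_lt.1 c3))⟩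
            · exact Or.inr ⟨by linarith, t3, by linarith, by linarith, Or.inr (Or.inl (not_lt.1 c2))⟩
          · exact Or.inr ⟨by linarith, t3, by linarith, by linarith, Or.inl (not_lt.1 c1)⟩
        · rw [hh_re _ _ _ _ _ _ _ _ _ _ hζne, hζ]
          norm_num [hw]
        · have u1 := hcomp ζ0 ζ (by linarith) s2.1 t4.1 hζ.le
          have u2 : (F ζ - G (yy α η ζ0.im) ζ) - Bf α η F G ζ
              = G (yy α η ζ.im) ζ - G (yy α η ζ0.im) ζ := by unfold Bf; ring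
          rw [u2]
          refine u1.trans ?_
          apply mul_le_mul_of_nonneg_left _ hC0.le
          apply Real.exp_le_exp.2
          have u3 : 0 ≤ ‖ζ‖ ^ ρ := Real.rpow_nonneg (norm_nonneg _) _
          have u4 := mul_nonneg hε.le u3
          linarith [t4.2.2.2])
    (by
      -- boundary set
      intro ζ hζ
      obtain ⟨z1, z2, z3, z4, z5⟩ := hζ
      have t4 := facts ζ z1 z2 z3 z4
      have u3 : 0 ≤ ‖ζ‖ ^ ρ := Real.rpow_nonneg (norm_nonneg _) _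
      have u4 := mul_nonneg hε.le u3
      have u5 : ε / 4 * ‖ζ‖ ^ 2 ≤ ε / 4 * ‖ζ‖ ^ ρ := mul_le_mul_of_nonneg_left t4.2.2.1 (by linarith)
      have fin : ∀ D E : ℝ, 0 < D → D ≤ C1 → ‖Bf α η F G ζ‖ ≤ D * Real.exp E → E ≤ -w ζ →
          ‖Bf α η F G ζ‖ ≤ C1 * Real.exp (-w ζ) := by
        intro D E hD hDC h1 h2
        refine h1.trans ?_
        exact mul_le_mul hDC (Real.exp_le_exp.2 h2) (Real.exp_pos _).le hC1p.le
      have hM2e : 0 < Real.exp M2 := Real.exp_pos _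
      have hMM : 0 < M1 * Real.exp M2 := mul_pos hM1p hM2e
      rcases z5 with z5 | z5 | z5
      · have b1 := hBbd ζ z1 t4.1
        have b2 : C * Real.exp (C * ‖ζ‖ ^ ρ) + C * (1 + ‖ζ‖) ^ N ≤ M1 := by
          rw [hM1]
          have e1 : ‖ζ‖ ^ ρ ≤ (R2 + 1) ^ ρ := Real.rpow_le_rpow (norm_nonneg _) z5 (by linarith)
          have e2 : (1 + ‖ζ‖) ^ N ≤ (1 + (R2 + 1)) ^ N :=
            pow_le_pow_left₀ (by positivity) (by linarith) N
          have e3 : Real.exp (C * ‖ζ‖ ^ ρ) ≤ Real.exp (C * (R2 + 1) ^ ρ) :=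
            Real.exp_le_exp.2 (mul_le_mul_of_nonneg_left e1 hCpos.le)
          have e4 := mul_le_mul_of_nonneg_left e2 hCpos.le
          have e5 := mul_le_mul_of_nonneg_left e3 hCpos.le
          linarith
        have b3 : w ζ ≤ M2 := by
          have e1 : ‖ζ‖ ^ ρ ≤ (R2 + 1) ^ ρ := Real.rpow_le_rpow (norm_nonneg _) z5 (by linarith)
          have e2 := hk.crudeQ hθtI ζ
          have e3 := t4.2.1
          have e4 := mul_le_mul_of_nonneg_left e1 hKbe.le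
          rw [hM2]
          linarith
        apply fin (M1 * Real.exp M2) (-M2) hMM (by rw [hC1]; linarith) _ (by linarith)
        have b4 : M1 * Real.exp M2 * Real.exp (-M2) = M1 := by
          rw [mul_assoc, ← Real.exp_add]; simp
        rw [b4]
        linarith
      · have b1 := hbottom ζ (by linarith) t4.1 (by linarith [hθtI.2])
        have b2 := hk.bottomQ hθtI z3 z5
        apply fin C3 _ hC3 (by rw [hC1]; linarith) b1
        have hre0 : 0 ≤ ζ.re := by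
          have harg0 : 0 ≤ ζ.arg := by linarith [hθt.1]
          rw [← Complex.abs_arg_le_pi_div_two_iff, abs_of_nonneg harg0]; linarith [hθtI.2]
        have him0 : 0 < ζ.im := by
          have := aux48 hη hη4 (him48 ζ z1 t4.1)
          linarith
        have b3 := hk.karg ζ hre0 him0
        have b4 := t4.2.1
        linarith
      · rcases le_total 0 ζ.re with hre | hre
        · have b1 := hclaim ζ (r6.trans z1) hre z5
          apply fin Cc _ hCc (by rw [hC1]; linarith) b1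
          have hle : ζ.arg ≤ Real.pi / 2 := (abs_le.1 (Complex.abs_arg_le_pi_div_two_iff.2 hre)).2
          have b2 := hk.trig θt ⟨by linarith [hθtI.1], hθtI.2⟩ ζ.arg ⟨by linarith, hle⟩
            (by rw [abs_le]; constructor <;> linarith [hθt.1, hθt.2])
          have b3 : QQ ρ ε k k1 θt ζ ≤ ‖ζ‖ ^ ρ * (k ζ.arg - ε) := by
            unfold QQ
            exact mul_le_mul_of_nonneg_left b2 u3
          have b4 := t4.2.1
          linarith
        · have b1 := hleft ζ (r2.trans z1) t4.1 hre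
          apply fin C2 _ hC2 (by rw [hC1]; linarith) b1
          linarith [t4.2.2.2])
    (by
      -- a priori bound
      obtain ⟨P, hP, hPb⟩ := poly_absorb C N 1 ρ hCpos.le one_pos (by linarith)
      have hc3 : 0 < Real.cos (ρ' * ((a - 3 / 2 * δ) / 2)) := by
        apply Real.cos_pos_of_mem_Ioo
        constructor
        · have : 0 ≤ ρ' * ((a - 3 / 2 * δ) / 2) := by
            apply mul_nonneg hρ'0.le; linarith
          linarith
        · have : ρ' * ((a - 3 / 2 * δ) / 2) < ρ' * ((a - δ) / 2) :=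
            mul_lt_mul_of_pos_left (by linarith) hρ'0
          linarith
      obtain ⟨M, hM⟩ := rpow_sub_bdd (C + 1 + (2 * Kb + ε)) (e3 * Real.cos (ρ' * ((a - 3 / 2 * δ) / 2)))
        ρ ρ' (by positivity) (by positivity) (by linarith) hρρ'
      refine ⟨(C + P) * Real.exp M, ?_⟩
      intro ζ hζ
      have s1 := hSre ζ hζ
      have s2 := hSfacts ζ hζ
      obtain ⟨z1, z2, z3⟩ := hζ
      have hr0 : 0 < ‖ζ‖ := by linarith
      have b1 := hBbd ζ (by linarith) s2.1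
      have b2 := hPb ‖ζ‖ (norm_nonneg _)
      have u3 : 0 ≤ ‖ζ‖ ^ ρ := Real.rpow_nonneg (norm_nonneg _) _
      have b3 : ‖Bf α η F G ζ‖ ≤ (C + P) * Real.exp ((C + 1) * ‖ζ‖ ^ ρ) := by
        have e1 : Real.exp (C * ‖ζ‖ ^ ρ) ≤ Real.exp ((C + 1) * ‖ζ‖ ^ ρ) :=
          Real.exp_le_exp.2 (by linarith)
        have e2 : Real.exp (1 * ‖ζ‖ ^ ρ) ≤ Real.exp ((C + 1) * ‖ζ‖ ^ ρ) :=
          Real.exp_le_exp.2 (mul_le_mul_of_nonneg_right (by linarith) u3)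
        have e3 := mul_le_mul_of_nonneg_left e1 hCpos.le
        have e4 := mul_le_mul_of_nonneg_left e2 hP.le
        rw [add_mul C P]
        linarith
      refine b3.trans ?_
      rw [mul_assoc, ← Real.exp_add]
      apply mul_le_mul_of_nonneg_left _ (by positivity)
      apply Real.exp_le_exp.2
      have c1 : Real.cos (ρ' * ((a - 3 / 2 * δ) / 2)) ≤ Real.cos (ρ' * (ζ.arg - θm)) := by
        rw [← Real.cos_abs (ρ' * (ζ.arg - θm)), abs_mul, abs_of_pos hρ'0]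
        have q1 : |ζ.arg - θm| ≤ (a - 3 / 2 * δ) / 2 := by
          rw [abs_le, hθm]; constructor <;> linarith [hθt.1]
        apply Real.cos_le_cos_of_nonneg_of_le_pi
        · positivity
        · have : ρ' * ((a - 3 / 2 * δ) / 2) ≤ ρ' * (a - δ) := by
            apply mul_le_mul_of_nonneg_left _ hρ'0.le; linarith
          linarith
        · exact mul_le_mul_of_nonneg_left q1 hρ'0.le
      have c2 := hk.crudeQ hθtI ζ
      have c3 : 0 < ‖ζ‖ ^ ρ' := Real.rpow_pos_of_pos hr0 _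
      have c4 := mul_le_mul_of_nonneg_left c1 c3.le
      have c5 := mul_le_mul_of_nonneg_left c4 he3.le
      have c6 := hM ‖ζ‖ hr0
      have c7 := mul_le_mul_of_nonneg_left s2.2.2.1 (by linarith : (0:ℝ) ≤ ε / 4)
      have c8 : w ζ = QQ ρ ε k k1 θt ζ + ε / 4 * ‖ζ‖ ^ 2 - e3 * (‖ζ‖ ^ ρ' * Real.cos (ρ' * (ζ.arg - θm))) := rfl
      have c9 := mul_nonneg hε.le u3
      linarith)
  intro ζ h1 h2 h3
  exact key ζ ⟨h1, h2, h3⟩

theorem step (h : IData α F G ph C N) (hk : KData α ρ δ ε k k1 Kb) (hρ : 1 / α + 1 / 2 = ρ) {η Rl : ℝ}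
    (hη : 0 < η) (hη4 : η < 1 / 4) (hlow : Low α (Real.sin (δ / 2)) (ε / 8) η Rl ph) {θx : ℝ}
    (hθx1 : Real.pi / ρ - δ / 2 ≤ θx) (hθx2 : θx ≤ Real.pi / 2) (hcl : Claim α ρ ε η k F G θx) :
    Claim α ρ ε η k F G (θx - δ / 2) := by
  obtain ⟨D, R1, hD, hcore⟩ := core h hk hρ hη hη4 hlow hθx1 hθx2 hcl
  obtain ⟨Cc, Rc, hCc, hclaim⟩ := hcl
  have hδ := hk.hδ
  have hδa := hk.hδa
  have ha0 := hk.a_pos
  refine ⟨D + Cc, max (R1 + 1) Rc, by positivity, ?_⟩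
  intro ζ hR hre harg
  have hexp := Real.exp_pos (-(‖ζ‖ ^ ρ * (k ζ.arg - ε) + ε / 4 * ‖ζ‖ ^ 2))
  rcases le_or_gt θx ζ.arg with hx | hx
  · have := hclaim ζ ((le_max_right _ _).trans hR) hre hx
    rw [add_mul]
    have h2 : 0 ≤ D * Real.exp (-(‖ζ‖ ^ ρ * (k ζ.arg - ε) + ε / 4 * ‖ζ‖ ^ 2)) := by positivity
    linarith
  · have hR1 : R1 < ‖ζ‖ := by
      have := (le_max_left (R1 + 1) Rc).trans hR
      linarith
    have hb : ∀ e3 : ℝ, 0 < e3 → e3 ≤ 1 → ‖Bf α η F G ζ‖ ≤ D * Real.exp (-ww ρ (Real.pi / (Real.pi / ρ - δ)) ε k k1 ζ.arg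
        ((ζ.arg - (Real.pi / ρ - 2 * δ) + θx) / 2) e3 ζ) := fun e3 he1 he2 =>
      hcore ζ.arg ⟨harg, hx.le⟩ e3 he1 he2 ζ hR1 (by linarith) hx
    have hlim : Filter.Tendsto (fun e3 : ℝ => D * Real.exp (-ww ρ (Real.pi / (Real.pi / ρ - δ)) ε k k1 ζ.arg
        ((ζ.arg - (Real.pi / ρ - 2 * δ) + θx) / 2) e3 ζ)) (nhdsWithin 0 (Ioi 0))
        (nhds (D * Real.exp (-ww ρ (Real.pi / (Real.pi / ρ - δ)) ε k k1 ζ.arg
        ((ζ.arg - (Real.pi / ρ - 2 * δ) + θx) / 2) 0 ζ))) := by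
      apply Filter.Tendsto.mono_left _ nhdsWithin_le_nhds
      apply Continuous.tendsto'
      · unfold ww; fun_prop
      · rfl
    have hle : ‖Bf α η F G ζ‖ ≤ D * Real.exp (-ww ρ (Real.pi / (Real.pi / ρ - δ)) ε k k1 ζ.arg
        ((ζ.arg - (Real.pi / ρ - 2 * δ) + θx) / 2) 0 ζ) := by
      apply ge_of_tendsto hlim
      have : Ioc (0:ℝ) 1 ∈ nhdsWithin (0:ℝ) (Ioi 0) := Ioc_mem_nhdsGT one_pos
      filter_upwards [this] with e he
      exact hb e he.1 he.2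
    have e1 : ww ρ (Real.pi / (Real.pi / ρ - δ)) ε k k1 ζ.arg
        ((ζ.arg - (Real.pi / ρ - 2 * δ) + θx) / 2) 0 ζ = ‖ζ‖ ^ ρ * (k ζ.arg - ε) + ε / 4 * ‖ζ‖ ^ 2 := by
      unfold ww QQ
      simp
    rw [e1] at hle
    rw [add_mul]
    have h2 : 0 ≤ Cc * Real.exp (-(‖ζ‖ ^ ρ * (k ζ.arg - ε) + ε / 4 * ‖ζ‖ ^ 2)) := by positivity
    linarith

/-- start of the iteration -/
theorem start (h : IData α F G ph C N) (hk : KData α ρ δ ε k k1 Kb) (hρ : 1 / α + 1 / 2 = ρ) {η Rl : ℝ}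
    (hη : 0 < η) (hη4 : η < 1 / 4) (hlow : Low α (Real.sin (δ / 2)) (ε / 8) η Rl ph) :
    Claim α ρ ε η k F G (Real.pi / 2) := by
  have hpi := Real.pi_pos
  have ha := hk.a_le
  have hδ := hk.hδ
  have hδa := hk.hδa
  have hε := hk.hε
  have hκ : 0 < Real.sin (δ / 2) := Real.sin_pos_of_pos_of_lt_pi (by linarith) (by linarith)
  obtain ⟨C2, Rc2, hC2, hleft⟩ := h.left hκ (by linarith : (0:ℝ) < ε / 8) hη hη4 hlow
  rw [hρ] at hleft
  refine ⟨C2, max Rc2 1, hC2, ?_⟩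
  intro ζ hR hre harg
  have hle : ζ.arg ≤ Real.pi / 2 := (abs_le.1 (Complex.abs_arg_le_pi_div_two_iff.2 hre)).2
  have heq : ζ.arg = Real.pi / 2 := le_antisymm hle harg
  have hr1 : 1 ≤ ‖ζ‖ := (le_max_right _ _).trans hR
  have hre0 : ζ.re = 0 := by
    have h2 : ζ.re = ‖ζ‖ * Real.cos ζ.arg := by rw [Complex.norm_mul_cos_arg]
    rw [heq, Real.cos_pi_div_two, mul_zero] at h2
    exact h2
  have him : Real.sin (δ / 2) * ‖ζ‖ ≤ ζ.im := im_ge_of_arg (by linarith) (by linarith) (by linarith) (by linarith)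
  have him0 : 0 < ζ.im := lt_of_lt_of_le (by positivity) him
  have b1 := hleft ζ ((le_max_left _ _).trans hR) him hre0.le
  refine b1.trans ?_
  apply mul_le_mul_of_nonneg_left _ hC2.le
  apply Real.exp_le_exp.2
  have b3 := hk.karg ζ hre him0
  rw [b3]
  have g7 : ‖ζ‖ ^ 2 ≤ ‖ζ‖ ^ ρ := by
    rw [← Real.rpow_natCast]
    exact Real.rpow_le_rpow_of_exponent_le (by linarith) (by exact_mod_cast hk.hρ2)
  have c7 := mul_le_mul_of_nonneg_left g7 (by linarith : (0:ℝ) ≤ ε / 4)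
  have u3 : 0 ≤ ‖ζ‖ ^ ρ := Real.rpow_nonneg (norm_nonneg _) _
  have c9 := mul_nonneg hε.le u3
  linarith

theorem iterate (h : IData α F G ph C N) (hk : KData α ρ δ ε k k1 Kb) (hρ : 1 / α + 1 / 2 = ρ) {η Rl : ℝ}
    (hη : 0 < η) (hη4 : η < 1 / 4) (hlow : Low α (Real.sin (δ / 2)) (ε / 8) η Rl ph) (n : ℕ)
    (hn : Real.pi / ρ - δ ≤ Real.pi / 2 - n * (δ / 2)) :
    Claim α ρ ε η k F G (Real.pi / 2 - n * (δ / 2)) := by
  induction n with
  | zero => simpa using start h hk hρ hη hη4 hlow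
  | succ n ih =>
    push_cast at hn
    have hδ := hk.hδ
    have h1 := ih (by linarith)
    have h2 := step h hk hρ hη hη4 hlow (θx := Real.pi / 2 - n * (δ / 2)) (by linarith) (by
      have : (0:ℝ) ≤ n * (δ / 2) := by positivity
      linarith) h1
    have e : Real.pi / 2 - ((n + 1 : ℕ) : ℝ) * (δ / 2) = Real.pi / 2 - n * (δ / 2) - δ / 2 := by
      push_cast; ring
    rw [e]; exact h2

theorem poly_of_claim (h : IData α F G ph C N) (hk : KData α ρ δ ε k k1 Kb) (hρ : 1 / α + 1 / 2 = ρ) {η Rl : ℝ}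
    (hη : 0 < η) (hη4 : η < 1 / 4) (hlow : Low α (Real.sin (δ / 2)) (ε / 8) η Rl ph) :
    ∃ (C' : ℝ) (N' : ℕ), ∀ ζ, ‖F ζ‖ ≤ C' * (1 + ‖ζ‖) ^ N' := by
  have hpi := Real.pi_pos
  have ha := hk.a_le
  have ha0 := hk.a_pos
  have hδ := hk.hδ
  have hδa := hk.hδa
  have hε := hk.hε
  have hρ2 := hk.hρ2
  have hκ : 0 < Real.sin (δ / 2) := Real.sin_pos_of_pos_of_lt_pi (by linarith) (by linarith)
  set n := ⌊(Real.pi / 2 - (Real.pi / ρ - δ)) / (δ / 2)⌋₊ with hn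
  have hq0 : 0 ≤ (Real.pi / 2 - (Real.pi / ρ - δ)) / (δ / 2) := by
    apply div_nonneg _ (by linarith); linarith
  have h1 : (n : ℝ) * (δ / 2) ≤ Real.pi / 2 - (Real.pi / ρ - δ) := by
    have := Nat.floor_le hq0
    rwa [le_div_iff₀ (by linarith)] at this
  have h2 : Real.pi / 2 - (Real.pi / ρ - δ) < ((n : ℝ) + 1) * (δ / 2) := by
    have := Nat.lt_floor_add_one ((Real.pi / 2 - (Real.pi / ρ - δ)) / (δ / 2))
    rwa [div_lt_iff₀ (by linarith)] at this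
  obtain ⟨Cc, Rc, hCc, hclaim⟩ := iterate h hk hρ hη hη4 hlow n (by linarith)
  set θf := Real.pi / 2 - n * (δ / 2) with hθf
  have hθf1 : Real.pi / ρ - δ ≤ θf := by linarith
  have hθf2 : θf < Real.pi / ρ := by
    have : θf < Real.pi / ρ - δ + δ / 2 := by rw [hθf]; linarith
    linarith
  have hθf3 : θf ≤ Real.pi / 2 := by
    have : (0:ℝ) ≤ n * (δ / 2) := by positivity
    linarith
  set Rm := max (max Rc 1) (12 / (η * Real.sin (δ / 2))) with hRm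
  -- outside of the small sector
  set D := C + Cc + C * Real.exp (C * Rm ^ ρ) with hD
  have hCpos := h.hC
  have hRm1 : 1 ≤ Rm := (le_max_right _ _).trans (le_max_left _ _)
  have hDpos : 0 < D := by positivity
  have hout : ∀ ζ : ℂ, (ζ.re ≤ 0 ∨ ζ.im ≤ 0 ∨ θf ≤ ζ.arg) → ‖F ζ‖ ≤ D * (1 + ‖ζ‖) ^ N := by
    intro ζ hζ
    have hpow : 1 ≤ (1 + ‖ζ‖) ^ N := one_le_pow₀ (by linarith [norm_nonneg ζ])
    have hpow0 : 0 < (1 + ‖ζ‖) ^ N := by positivity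
    have e0 : 0 < C * Real.exp (C * Rm ^ ρ) := by positivity
    by_cases hc : ζ.re ≤ 0 ∨ ζ.im ≤ 0
    · refine (h.out ζ hc).trans ?_
      apply mul_le_mul_of_nonneg_right _ hpow0.le
      rw [hD]; linarith
    · push Not at hc
      have harg : θf ≤ ζ.arg := by
        rcases hζ with h3 | h3 | h3
        · linarith [hc.1]
        · linarith [hc.2]
        · exact h3
      rcases le_or_gt Rm ‖ζ‖ with hR | hR
      · have hre : 0 ≤ ζ.re := hc.1.le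
        have hle : ζ.arg ≤ Real.pi / 2 := (abs_le.1 (Complex.abs_arg_le_pi_div_two_iff.2 hre)).2
        have b1 := hclaim ζ (((le_max_left _ _).trans (le_max_left _ _)).trans hR) hre harg
        have b2 : Real.exp (-(‖ζ‖ ^ ρ * (k ζ.arg - ε) + ε / 4 * ‖ζ‖ ^ 2)) ≤ 1 := by
          rw [Real.exp_le_one_iff]
          have u3 : 0 ≤ ‖ζ‖ ^ ρ := Real.rpow_nonneg (norm_nonneg _) _
          have u4 := hk.kge ζ.arg ⟨by linarith, hle⟩
          have u5 := mul_nonneg u3 (show 0 ≤ k ζ.arg - ε by linarith)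
          have u6 : 0 ≤ ε / 4 * ‖ζ‖ ^ 2 := by positivity
          linarith
        have him : Real.sin (δ / 2) * ‖ζ‖ ≤ ζ.im :=
          im_ge_of_arg (by linarith) (by linarith) (by linarith) (by linarith)
        have e1 : 12 / (η * Real.sin (δ / 2)) ≤ ‖ζ‖ := (le_max_right _ _).trans hR
        have e2 : 12 ≤ η * ζ.im := by
          rw [div_le_iff₀ (by positivity)] at e1
          have := mul_le_mul_of_nonneg_left him hη.le
          linarith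
        have e5 : 48 ≤ ζ.im := aux48 hη hη4 e2
        have a1 : 1 ≤ yy α η ζ.im := one_le_yy h.hα (aux_one hη4 e5)
        have p1 : (yy α η ζ.im) ^ α = (1 - η) * ζ.im := yy_pow h.hα (by linarith) (by linarith)
        have b3 := h.G_bd (yy α η ζ.im) ζ a1 (by rw [p1]; linarith)
        have b4 : F ζ = Bf α η F G ζ + G (yy α η ζ.im) ζ := by unfold Bf; ring
        rw [b4]
        refine (norm_add_le _ _).trans ?_
        have b5 : ‖Bf α η F G ζ‖ ≤ Cc := b1.trans (mul_le_of_le_one_right hCc.le b2)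
        have b6 : Cc + C * Real.exp (C * Rm ^ ρ) ≤ (Cc + C * Real.exp (C * Rm ^ ρ)) * (1 + ‖ζ‖) ^ N :=
          le_mul_of_one_le_right (by linarith) hpow
        rw [hD]
        linarith
      · have b1 := h.grow ζ
        rw [hρ] at b1
        have e1 : ‖ζ‖ ^ ρ ≤ Rm ^ ρ := Real.rpow_le_rpow (norm_nonneg _) hR.le (by linarith)
        have e3 : Real.exp (C * ‖ζ‖ ^ ρ) ≤ Real.exp (C * Rm ^ ρ) :=
          Real.exp_le_exp.2 (mul_le_mul_of_nonneg_left e1 hCpos.le)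
        have e5 := mul_le_mul_of_nonneg_left e3 hCpos.le
        have e6 : D ≤ D * (1 + ‖ζ‖) ^ N := le_mul_of_one_le_right hDpos.le hpow
        rw [hD] at e6 ⊢
        linarith
  have hgrow : ∀ ζ, ‖F ζ‖ ≤ D * Real.exp (D * ‖ζ‖ ^ ρ) := by
    intro ζ
    have b1 := h.grow ζ
    rw [hρ] at b1
    refine b1.trans ?_
    have hCD : C ≤ D := by
      have e0 : 0 < C * Real.exp (C * Rm ^ ρ) := by positivity
      rw [hD]; linarith
    have u3 : 0 ≤ ‖ζ‖ ^ ρ := Real.rpow_nonneg (norm_nonneg _) _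
    exact mul_le_mul hCD (Real.exp_le_exp.2 (mul_le_mul_of_nonneg_right hCD u3)) (Real.exp_pos _).le hDpos.le
  obtain ⟨C', hC'⟩ := SectorFinal.sector_final F h.F_diff ρ θf D N (by linarith) (by linarith) hθf2 hθf3 hgrow hout
  exact ⟨C', N, hC'⟩

end

end Pool.Agent.Helper209.AC
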