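import Pool.Agent.Helper209.AC.Half

set_option autoImplicit false

namespace Pool.Agent.Helper209.AC

open MeasureTheory Set

theorem IsSol.deriv_eq {V ψ ψ' : ℝ → ℂ} (h : IsSol V ψ ψ') : deriv ψ = ψ' :=
  funext fun x => (h x).1.deriv

theorem IsSol.deriv_deriv {V ψ ψ' : ℝ → ℂ} (h : IsSol V ψ ψ') (x : ℝ) : deriv (deriv ψ) x = V x * ψ x := by
  rw [h.deriv_eq]; exact (h x).2.deriv

theorem IsSol.contDiff {V ψ ψ' : ℝ → ℂ} (hV : Continuous V) (h : IsSol V ψ ψ') : ContDiff ℝ 2 ψ := by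
  have h1 : ContDiff ℝ 1 (deriv ψ) := by
    rw [contDiff_one_iff_deriv]
    rw [h.deriv_eq]
    refine ⟨fun x => (h x).2.differentiableAt, ?_⟩
    have : deriv ψ' = fun x => V x * ψ x := funext fun x => (h x).2.deriv
    rw [this]
    exact hV.mul h.cont
  have h2 : ContDiff ℝ (1 + 1) ψ := by
    rw [contDiff_succ_iff_deriv]
    exact ⟨fun x => (h x).1.differentiableAt, by simp, h1⟩
  exact h2

theorem pot_neg (α : ℝ) (c μ : ℂ) (x : ℝ) : pot α c μ (-x) = pot α c μ x := by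
  simp [pot]

/-- solutions with a vanishing boundary value have a parity -/
theorem IsSol.parity {α : ℝ} (hα : 0 < α) {μ : ℂ} {ψ ψ' : ℝ → ℂ} (h : IsSol (pot α Complex.I μ) ψ ψ')
    {s : ℝ} (hs : (s = -1 ∧ ψ 0 = 0) ∨ (s = 1 ∧ ψ' 0 = 0)) (x : ℝ) : ψ (-x) = s * ψ x := by
  have h1 : IsSol (pot α Complex.I μ) (fun x => ψ (-x)) (fun x => -ψ' (-x)) := by
    have := h.reflect
    have e : (fun x => pot α Complex.I μ (-x)) = pot α Complex.I μ := funext fun x => pot_neg _ _ _ _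
    rwa [e] at this
  have h2 := h.smul (s : ℂ)
  have h3 := h1.unique (pot_cont hα _ _) h2 (X := 0) (by
    rcases hs with ⟨h, h'⟩ | ⟨h, h'⟩
    · simp [h']
    · simp [h]) (by
    rcases hs with ⟨h, h'⟩ | ⟨h, h'⟩
    · simp [h]
    · simp [h']) x
  exact h3.1

theorem memLp_Ioi {ψ ψ' : ℝ → ℂ} (hc : Continuous ψ) (h : IntegrableOn (en ψ ψ') (Ioi 0)) :
    MemLp ψ 2 (volume.restrict (Ioi (0:ℝ))) := by
  rw [memLp_two_iff_integrable_sq_norm hc.aestronglyMeasurable]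
  refine Integrable.mono' h (hc.norm.pow 2).aestronglyMeasurable ?_
  refine Filter.Eventually.of_forall fun x => ?_
  rw [Real.norm_of_nonneg (by positivity)]
  unfold en
  nlinarith [sq_nonneg ‖ψ' x‖]

theorem memLp_line {ψ : ℝ → ℂ} (hc : Continuous ψ) {s : ℝ} (hs : |s| = 1) (hp : ∀ x, ψ (-x) = s * ψ x)
    (h : MemLp ψ 2 (volume.restrict (Ioi (0:ℝ)))) : MemLp ψ 2 volume := by
  rw [memLp_two_iff_integrable_sq_norm hc.aestronglyMeasurable] at h ⊢
  have h1 : IntegrableOn (fun x => ‖ψ x‖ ^ 2) (Ioi 0) := h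
  have h2 : IntegrableOn (fun x => ‖ψ x‖ ^ 2) (Iio 0) := by
    have e := (Measure.measurePreserving_neg (volume : Measure ℝ)).integrableOn_comp_preimage
      (Homeomorph.neg ℝ).measurableEmbedding (f := fun x => ‖ψ x‖ ^ 2) (s := Ioi 0)
    have h3 := e.2 h1
    have e1 : (Neg.neg ⁻¹' Ioi (0:ℝ)) = Iio 0 := by ext x; simp
    have e2 : ((fun x => ‖ψ x‖ ^ 2) ∘ Neg.neg) = fun x => ‖ψ x‖ ^ 2 := by
      funext x
      simp only [Function.comp, hp, norm_mul, Complex.norm_real, Real.norm_eq_abs, hs, one_mul]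
    rw [e1, e2] at h3
    exact h3
  have h4 : IntegrableOn (fun x => ‖ψ x‖ ^ 2) (Iic 0) := by
    rw [integrableOn_Iic_iff_integrableOn_Iio]; exact h2
  rw [← integrableOn_univ, ← Iic_union_Ioi (a := (0:ℝ))]
  exact h4.union h1

theorem integral_parity {g ψ : ℝ → ℂ} (hg : MemLp g 2 volume) (hψ : MemLp ψ 2 volume) {s : ℝ}
    (hp : ∀ x, ψ (-x) = s * ψ x) :
    ∫ x, g x * ψ x = ∫ x in Ioi (0:ℝ), (g x + s * g (-x)) * ψ x := by
  have hint : Integrable (fun x => g x * ψ x) := hg.integrable_mul hψ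
  have h1 : ∫ x, g x * ψ x = (∫ x in Iic (0:ℝ), g x * ψ x) + ∫ x in Ioi (0:ℝ), g x * ψ x := by
    rw [← setIntegral_univ, ← Iic_union_Ioi (a := (0:ℝ))]
    exact setIntegral_union (Iic_disjoint_Ioi le_rfl) measurableSet_Ioi hint.integrableOn hint.integrableOn
  have h2 : ∫ x in Iic (0:ℝ), g x * ψ x = ∫ x in Ioi (0:ℝ), g (-x) * ψ (-x) := by
    have := integral_comp_neg_Ioi 0 (fun x => g x * ψ x)
    rw [neg_zero] at this
    exact this.symm
  have hint2 : Integrable (fun x => g (-x) * ψ (-x)) := hint.comp_neg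
  rw [h1, h2, ← integral_add hint2.integrableOn hint.integrableOn]
  congr 1; funext x
  rw [hp]; ring

/-- an `L²` function on the line orthogonal to all eigenfunctions vanishes -/
theorem line_zero (α : ℝ) (hα : 0 < α) (hα2 : α ≤ 2 / 3) (g : ℝ → ℂ) (hg : MemLp g 2 volume)
    (horth : ∀ (μ : ℂ) (ψ ψ' : ℝ → ℂ), IsSol (pot α Complex.I μ) ψ ψ' → MemLp ψ 2 volume →
      ∫ x, g x * ψ x = 0) : g =ᵐ[volume] 0 := by
  have hgn : MemLp (fun x => g (-x)) 2 volume := by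
    have := hg.comp_measurePreserving (Measure.measurePreserving_neg (volume : Measure ℝ))
    exact this
  have key : ∀ (s p0 p1 : ℝ), (s = -1 ∧ p0 = 0 ∧ p1 = 1) ∨ (s = 1 ∧ p0 = 1 ∧ p1 = 0) →
      (fun x => g x + s * g (-x)) =ᵐ[volume.restrict (Ioi (0:ℝ))] 0 := by
    intro s p0 p1 hs
    obtain ⟨P, hP0, hP1⟩ := exists_pack α hα p0 p1 (by
      rcases hs with ⟨_, h1, h2⟩ | ⟨_, h1, h2⟩
      · exact Or.inl ⟨h1, h2⟩
      · exact Or.inr ⟨h1, h2⟩)
    have hmem : MemLp (fun x => g x + s * g (-x)) 2 volume := hg.add (hgn.const_mul _)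
    apply half_line α hα hα2 P _ (hmem.restrict _)
    intro μ ψ ψ' hsol hen hbc
    rw [hP0, hP1] at hbc
    have hpar : ∀ x, ψ (-x) = s * ψ x := by
      apply hsol.parity hα
      rcases hs with ⟨h0, h1, h2⟩ | ⟨h0, h1, h2⟩
      · left; refine ⟨h0, ?_⟩; simpa [h1, h2] using hbc
      · right; refine ⟨h0, ?_⟩; simpa [h1, h2] using hbc
    have hs1 : |s| = 1 := by
      rcases hs with ⟨h0, _, _⟩ | ⟨h0, _, _⟩ <;> rw [h0] <;> norm_num
    have hψ : MemLp ψ 2 volume := memLp_line hsol.cont hs1 hpar (memLp_Ioi hsol.cont hen)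
    rw [← integral_parity hg hψ hpar]
    exact horth μ ψ ψ' hsol hψ
  have hD := key (-1) 0 1 (Or.inl ⟨rfl, rfl, rfl⟩)
  have hN := key 1 1 0 (Or.inr ⟨rfl, rfl, rfl⟩)
  have h1 : ∀ᵐ x ∂(volume.restrict (Ioi (0:ℝ))), g x = 0 ∧ g (-x) = 0 := by
    filter_upwards [hD, hN] with x h1 h2
    simp only [Pi.zero_apply, Complex.ofReal_neg, Complex.ofReal_one] at h1 h2
    constructor
    · linear_combination (h1 + h2) / 2
    · linear_combination (h2 - h1) / 2
  rw [ae_restrict_iff' measurableSet_Ioi] at h1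
  have h2 : ∀ᵐ x ∂(volume : Measure ℝ), -x ∈ Ioi (0:ℝ) → g (-x) = 0 ∧ g (- -x) = 0 :=
    (Measure.measurePreserving_neg (volume : Measure ℝ)).quasiMeasurePreserving.ae h1
  have h3 : ∀ᵐ x ∂(volume : Measure ℝ), x ≠ 0 := by
    rw [ae_iff]; simp
  filter_upwards [h1, h2, h3] with x a1 a2 a3
  rcases lt_or_gt_of_ne a3 with h | h
  · have := (a2 (by simpa using h)).2
    simpa using this
  · exact (a1 h).1

end Pool.Agent.Helper209.AC
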