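import Pool.Agent.Helper209.AC.Defs

set_option autoImplicit false

namespace Pool.Agent.Helper209.AC

open MeasureTheory Set

variable {V ψ ψ' χ χ' φ φ' : ℝ → ℂ}

lemma IsSol.cont (h : IsSol V ψ ψ') : Continuous ψ :=
  continuous_iff_continuousAt.2 fun x => (h x).1.continuousAt

lemma IsSol.cont' (h : IsSol V ψ ψ') : Continuous ψ' :=
  continuous_iff_continuousAt.2 fun x => (h x).2.continuousAt

lemma IsSol.comb (h1 : IsSol V ψ ψ') (h2 : IsSol V χ χ') (a b : ℂ) :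
    IsSol V (fun x => a * ψ x + b * χ x) (fun x => a * ψ' x + b * χ' x) := by
  intro x
  exact ⟨((h1 x).1.const_mul a).add ((h2 x).1.const_mul b),
    (((h1 x).2.const_mul a).add ((h2 x).2.const_mul b)).congr_deriv (by ring)⟩

lemma IsSol.smul (h1 : IsSol V ψ ψ') (a : ℂ) :
    IsSol V (fun x => a * ψ x) (fun x => a * ψ' x) := by
  intro x
  exact ⟨((h1 x).1.const_mul a), ((h1 x).2.const_mul a).congr_deriv (by ring)⟩

lemma IsSol.sub (h1 : IsSol V ψ ψ') (h2 : IsSol V χ χ') :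
    IsSol V (fun x => ψ x - χ x) (fun x => ψ' x - χ' x) := by
  have := h1.comb h2 1 (-1)
  simpa [sub_eq_add_neg] using this

lemma IsSol.reflect (h : IsSol V ψ ψ') :
    IsSol (fun x => V (-x)) (fun x => ψ (-x)) (fun x => -ψ' (-x)) := by
  intro x
  have e1 := (h (-x)).1.scomp x (hasDerivAt_neg x)
  have e2 := ((h (-x)).2.scomp x (hasDerivAt_neg x)).neg
  exact ⟨e1.congr_deriv (by simp), e2.congr_deriv (by simp)⟩

/-- the Wronskian is constant -/
lemma IsSol.wronsk (h1 : IsSol V ψ ψ') (h2 : IsSol V χ χ') (x y : ℝ) :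
    ψ x * χ' x - ψ' x * χ x = ψ y * χ' y - ψ' y * χ y := by
  have hd : ∀ x, HasDerivAt (fun x => ψ x * χ' x - ψ' x * χ x) 0 x := by
    intro x
    exact (((h1 x).1.mul (h2 x).2).sub ((h1 x).2.mul (h2 x).1)).congr_deriv (by ring)
  exact is_const_of_deriv_eq_zero (fun x => (hd x).differentiableAt) (fun x => (hd x).deriv) x y

lemma hasDerivAt_normSq {f : ℝ → ℂ} {f' : ℂ} {x : ℝ} (h : HasDerivAt f f' x) :
    HasDerivAt (fun x => ‖f x‖ ^ 2) (2 * (starRingEnd ℂ (f x) * f').re) x := by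
  exact h.norm_sq.congr_deriv (by rw [Complex.inner, mul_comm f'])

lemma en_cont (h : IsSol V ψ ψ') : Continuous (en ψ ψ') := by
  unfold en
  exact (h.cont.norm.pow 2).add (h.cont'.norm.pow 2)

lemma en_nonneg (ψ ψ' : ℝ → ℂ) (x : ℝ) : 0 ≤ en ψ ψ' x := by
  unfold en; positivity

lemma two_mul_norm_le_en (ψ ψ' : ℝ → ℂ) (x : ℝ) : 2 * (‖ψ x‖ * ‖ψ' x‖) ≤ en ψ ψ' x := by
  unfold en
  nlinarith [sq_nonneg (‖ψ x‖ - ‖ψ' x‖)]

lemma re_le_mul {a b : ℂ} : (starRingEnd ℂ a * b).re ≤ ‖a‖ * ‖b‖ := by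
  calc (starRingEnd ℂ a * b).re ≤ ‖starRingEnd ℂ a * b‖ := Complex.re_le_norm _
    _ = ‖a‖ * ‖b‖ := by rw [norm_mul, RCLike.norm_conj]

lemma hasDerivAt_en (h : IsSol V ψ ψ') (x : ℝ) :
    HasDerivAt (en ψ ψ') (2 * (starRingEnd ℂ (ψ x) * ψ' x).re
      + 2 * (starRingEnd ℂ (ψ' x) * (V x * ψ x)).re) x := by
  unfold en
  exact (hasDerivAt_normSq (h x).1).add (hasDerivAt_normSq (h x).2)

/-- Gronwall growth bound -/
lemma IsSol.growth (h : IsSol V ψ ψ') {X x K : ℝ} (hx : X ≤ x) (hK : ∀ t ∈ Icc X x, ‖V t‖ ≤ K) :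
    en ψ ψ' x ≤ en ψ ψ' X * Real.exp ((1 + K) * (x - X)) := by
  have hanti : AntitoneOn (fun t => en ψ ψ' t * Real.exp (-(1 + K) * (t - X))) (Icc X x) := by
    have hd : ∀ t, HasDerivAt (fun t => en ψ ψ' t * Real.exp (-(1 + K) * (t - X)))
        ((2 * (starRingEnd ℂ (ψ t) * ψ' t).re + 2 * (starRingEnd ℂ (ψ' t) * (V t * ψ t)).re)
          * Real.exp (-(1 + K) * (t - X))
          + en ψ ψ' t * (Real.exp (-(1 + K) * (t - X)) * (-(1 + K)))) t := by
      intro t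
      have e1 : HasDerivAt (fun t : ℝ => -(1 + K) * (t - X)) (-(1 + K)) t := by
        simpa using ((hasDerivAt_id t).sub_const X).const_mul (-(1 + K))
      exact (hasDerivAt_en h t).mul e1.exp
    apply antitoneOn_of_deriv_nonpos (convex_Icc X x)
    · exact (continuous_iff_continuousAt.2 fun t => (hd t).continuousAt).continuousOn
    · exact fun t _ => (hd t).differentiableAt.differentiableWithinAt
    · intro t ht
      rw [interior_Icc] at ht
      rw [(hd t).deriv]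
      have hVt := hK t ⟨ht.1.le, ht.2.le⟩
      have h1 : (starRingEnd ℂ (ψ t) * ψ' t).re ≤ ‖ψ t‖ * ‖ψ' t‖ := re_le_mul
      have h2 : (starRingEnd ℂ (ψ' t) * (V t * ψ t)).re ≤ K * (‖ψ t‖ * ‖ψ' t‖) := by
        calc (starRingEnd ℂ (ψ' t) * (V t * ψ t)).re ≤ ‖ψ' t‖ * ‖V t * ψ t‖ := re_le_mul
          _ = ‖V t‖ * (‖ψ t‖ * ‖ψ' t‖) := by rw [norm_mul]; ring
          _ ≤ K * (‖ψ t‖ * ‖ψ' t‖) := by
            apply mul_le_mul_of_nonneg_right hVt; positivity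
      have h3 := two_mul_norm_le_en ψ ψ' t
      have hK0 : 0 ≤ K := (norm_nonneg _).trans hVt
      have hE := Real.exp_pos (-(1 + K) * (t - X))
      have : (2 * (starRingEnd ℂ (ψ t) * ψ' t).re + 2 * (starRingEnd ℂ (ψ' t) * (V t * ψ t)).re)
          ≤ (1 + K) * en ψ ψ' t := by nlinarith
      nlinarith
  have := hanti (left_mem_Icc.2 hx) (right_mem_Icc.2 hx) hx
  simp only [sub_self, mul_zero, Real.exp_zero, mul_one] at this
  have hE := Real.exp_pos ((1 + K) * (x - X))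
  calc en ψ ψ' x = (en ψ ψ' x * Real.exp (-(1 + K) * (x - X))) * Real.exp ((1 + K) * (x - X)) := by
        rw [mul_assoc, ← Real.exp_add]; ring_nf; simp
    _ ≤ _ := by apply mul_le_mul_of_nonneg_right this hE.le

lemma IsSol.zero_of_en (hV : Continuous V) (h : IsSol V ψ ψ') {X : ℝ} (h0 : en ψ ψ' X = 0) (x : ℝ) :
    en ψ ψ' x = 0 := by
  have key : ∀ {V ψ ψ' : ℝ → ℂ}, Continuous V → IsSol V ψ ψ' → ∀ {X x : ℝ}, X ≤ x →
      en ψ ψ' X = 0 → en ψ ψ' x = 0 := by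
    intro V ψ ψ' hV h X x hx h0
    obtain ⟨K, hK⟩ := (isCompact_Icc (a := X) (b := x)).exists_bound_of_continuousOn hV.continuousOn
    have := h.growth hx hK
    rw [h0, zero_mul] at this
    exact le_antisymm this (en_nonneg _ _ _)
  rcases le_total X x with hx | hx
  · exact key hV h hx h0
  · have h2 := key (hV.comp continuous_neg) h.reflect (neg_le_neg hx) (by simpa [en] using h0)
    simpa [en] using h2

lemma IsSol.unique (hV : Continuous V) (h1 : IsSol V ψ ψ') (h2 : IsSol V χ χ') {X : ℝ}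
    (e : ψ X = χ X) (e' : ψ' X = χ' X) (x : ℝ) : ψ x = χ x ∧ ψ' x = χ' x := by
  have := (h1.sub h2).zero_of_en hV (X := X) (by simp [en, e, e']) x
  simp only [en] at this
  have a1 : ‖ψ x - χ x‖ ^ 2 = 0 := by nlinarith [sq_nonneg ‖ψ x - χ x‖, sq_nonneg ‖ψ' x - χ' x‖]
  have a2 : ‖ψ' x - χ' x‖ ^ 2 = 0 := by nlinarith [sq_nonneg ‖ψ x - χ x‖, sq_nonneg ‖ψ' x - χ' x‖]
  constructor
  · have := pow_eq_zero_iff (two_ne_zero) |>.1 a1
    exact sub_eq_zero.1 (norm_eq_zero.1 this)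
  · have := pow_eq_zero_iff (two_ne_zero) |>.1 a2
    exact sub_eq_zero.1 (norm_eq_zero.1 this)

lemma pot_cont {α : ℝ} (hα : 0 < α) (c μ : ℂ) : Continuous (pot α c μ) := by
  unfold pot
  have : Continuous fun x : ℝ => |x| ^ α := continuous_abs.rpow_const (fun _ => Or.inr hα.le)
  fun_prop

end Pool.Agent.Helper209.AC
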