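import Pool.Agent.Helper209.AC.Frame

set_option autoImplicit false

namespace Pool.Agent.Helper209.AC.UpperP1

open MeasureTheory Set


/-- bound for the Weyl coefficient away from the eigenvalue ray -/
def MStmt (α : ℝ) : Prop := ∃ (C : ℝ) (N : ℕ), 0 < C ∧ ∀ (μ : ℂ) (ψ ψ' : ℝ → ℂ),
    IsSol (pot α Complex.I μ) ψ ψ' → IntegrableOn (en ψ ψ') (Ioi 0) →
      dray α μ * ‖ψ 0‖ ≤ C * (1 + ‖μ‖) ^ N * ‖ψ' 0‖ ∧ dray α μ * ‖ψ' 0‖ ≤ C * (1 + ‖μ‖) ^ N * ‖ψ 0‖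

/-- WKB upper bound (proved elsewhere) -/
def WkbUpStmt (α : ℝ) : Prop := ∀ κ : ℝ, 0 < κ →
    ∃ C : ℝ, 0 < C ∧ ∀ (μ : ℂ) (x₁ : ℝ) (φ φ' : ℝ → ℂ), 1 ≤ ‖μ‖ → 0 ≤ x₁ →
      κ * ‖μ‖ ≤ μ.re → x₁ ^ α ≤ 4 * ‖μ‖ → IsSol (pot α Complex.I μ) φ φ' →
      ‖φ 0‖ ≤ 1 → ‖φ' 0‖ ≤ 1 → ∀ x ∈ Icc 0 x₁,
      ‖φ x‖ ≤ C * ‖μ‖ * Real.exp (∫ t in (0:ℝ)..x, imsq (μ - Complex.I * ((t ^ α : ℝ) : ℂ))) ∧
      ‖φ' x‖ ≤ C * ‖μ‖ * Real.exp (∫ t in (0:ℝ)..x, imsq (μ - Complex.I * ((t ^ α : ℝ) : ℂ)))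

/-! ### auxiliary lemmas for `upperP1` -/

lemma imsq_nonneg' (z : ℂ) : 0 ≤ imsq z := Real.sqrt_nonneg _

lemma imsq_le_add (z z' : ℂ) : imsq z ≤ imsq z' + Real.sqrt ‖z - z'‖ := by
  unfold imsq
  have h1 : (‖z‖ - z.re) / 2 ≤ (‖z'‖ - z'.re) / 2 + ‖z - z'‖ := by
    have a1 : ‖z‖ ≤ ‖z'‖ + ‖z - z'‖ := by
      calc ‖z‖ = ‖z' + (z - z')‖ := by ring_nf
        _ ≤ _ := norm_add_le _ _
    have a2 : z'.re - z.re ≤ ‖z - z'‖ := by
      have h2 := Complex.abs_re_le_norm (z - z')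
      rw [Complex.sub_re] at h2
      have h3 := neg_le_abs (z.re - z'.re)
      linarith
    linarith
  have hz' : 0 ≤ (‖z'‖ - z'.re) / 2 := by
    have := Complex.re_le_norm z'
    linarith
  have hn : 0 ≤ ‖z - z'‖ := norm_nonneg _
  apply Real.sqrt_le_iff.mpr
  refine ⟨by positivity, ?_⟩
  have e1 := Real.sq_sqrt hz'
  have e2 := Real.sq_sqrt hn
  have e3 : 0 ≤ Real.sqrt ((‖z'‖ - z'.re) / 2) * Real.sqrt ‖z - z'‖ := by positivity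
  nlinarith

lemma imsq_cont' {α : ℝ} (hα : 0 < α) (z : ℂ) :
    Continuous fun t : ℝ => imsq (z - Complex.I * ((t ^ α : ℝ) : ℂ)) := by
  unfold imsq
  have := Real.continuous_rpow_const hα.le
  fun_prop

lemma phase_le {α : ℝ} (hα : 0 < α) {μ ζ : ℂ} (h : ‖μ - ζ‖ ≤ 2) {x x0 : ℝ} (hx : 0 ≤ x)
    (hx0 : x ≤ x0) :
    (∫ t in (0:ℝ)..x, imsq (μ - Complex.I * ((t ^ α : ℝ) : ℂ))) ≤
      (∫ t in (0:ℝ)..x0, imsq (ζ - Complex.I * ((t ^ α : ℝ) : ℂ))) + 2 * x0 := by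
  have h1 : (∫ t in (0:ℝ)..x, imsq (μ - Complex.I * ((t ^ α : ℝ) : ℂ))) ≤
      ∫ t in (0:ℝ)..x0, imsq (μ - Complex.I * ((t ^ α : ℝ) : ℂ)) := by
    apply intervalIntegral.integral_mono_interval le_rfl hx hx0
    · exact Filter.Eventually.of_forall fun _ => imsq_nonneg' _
    · exact (imsq_cont' hα μ).intervalIntegrable _ _
  have h2 : (∫ t in (0:ℝ)..x0, imsq (μ - Complex.I * ((t ^ α : ℝ) : ℂ))) ≤
      ∫ t in (0:ℝ)..x0, (imsq (ζ - Complex.I * ((t ^ α : ℝ) : ℂ)) + 2) := by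
    apply intervalIntegral.integral_mono_on (hx.trans hx0)
    · exact (imsq_cont' hα μ).intervalIntegrable _ _
    · exact ((imsq_cont' hα ζ).add continuous_const).intervalIntegrable _ _
    · intro t _
      refine (imsq_le_add _ (ζ - Complex.I * ((t ^ α : ℝ) : ℂ))).trans ?_
      gcongr
      have e : μ - Complex.I * ((t ^ α : ℝ) : ℂ) - (ζ - Complex.I * ((t ^ α : ℝ) : ℂ)) = μ - ζ := by
        ring
      rw [e]
      calc Real.sqrt ‖μ - ζ‖ ≤ Real.sqrt (2 ^ 2) := Real.sqrt_le_sqrt (by linarith)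
        _ = 2 := Real.sqrt_sq (by norm_num)
  rw [intervalIntegral.integral_add ((imsq_cont' hα ζ).intervalIntegrable _ _)
    (continuous_const.intervalIntegrable _ _), intervalIntegral.integral_const] at h2
  simp only [sub_zero, smul_eq_mul] at h2
  linarith

lemma KK_nonneg' {α : ℝ} {ζ : ℂ} (h : 0 ≤ ζ.im) : 0 ≤ KK α ζ :=
  intervalIntegral.integral_nonneg (Real.rpow_nonneg h _) (fun _ _ => imsq_nonneg' _)

/-- Cauchy-Schwarz -/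
lemma cs_half (g ψ : ℝ → ℂ) (hg : MemLp g 2 (volume.restrict (Ioi (0:ℝ))))
    (hψ : MemLp ψ 2 (volume.restrict (Ioi (0:ℝ)))) :
    ‖∫ x in Ioi (0:ℝ), g x * ψ x‖ ≤ Real.sqrt (∫ x in Ioi (0:ℝ), ‖g x‖ ^ 2) *
      Real.sqrt (∫ x in Ioi (0:ℝ), ‖ψ x‖ ^ 2) := by
  have h1 := norm_integral_le_integral_norm (μ := volume.restrict (Ioi (0:ℝ)))
    (fun x => g x * ψ x)
  refine h1.trans ?_
  simp only [norm_mul]
  have e2 : (ENNReal.ofReal 2) = 2 := by norm_num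
  have h2 := integral_mul_norm_le_Lp_mul_Lq (μ := volume.restrict (Ioi (0:ℝ)))
    Real.HolderConjugate.two_two (by rwa [e2] : MemLp g (ENNReal.ofReal 2) _)
    (by rwa [e2] : MemLp ψ (ENNReal.ofReal 2) _)
  refine h2.trans (le_of_eq ?_)
  rw [Real.sqrt_eq_rpow, Real.sqrt_eq_rpow]
  norm_num

/-- the tail estimate for the Weyl solution -/
lemma tail_bound {α : ℝ} (hα : 0 < α) (hα1 : α < 1) {ζ : ℂ} {ψ ψ' : ℝ → ℂ} (him : 0 < ζ.im)
    (hr : 1 ≤ ‖ζ‖) (h : IsSol (Vz α ζ) ψ ψ') (hint : IntegrableOn (en ψ ψ') (Ioi 0)) :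
    (∫ x in Ioi (ζ.im ^ (1 / α)), en ψ ψ' x) ≤
      (192 * ‖ζ‖ ^ 2) ^ 2 * ‖ψ (ζ.im ^ (1 / α))‖ ^ 2 := by
  set x0 := ζ.im ^ (1 / α) with hx0
  have hx00 : 0 < x0 := Real.rpow_pos_of_pos him _
  have hxα : x0 ^ α = ζ.im := by
    rw [hx0, ← Real.rpow_mul him.le, one_div, inv_mul_cancel₀ hα.ne', Real.rpow_one]
  set μ := ζ - 1 - Complex.I with hμ
  have hμre : μ.re = ζ.re - 1 := by simp [hμ]
  have hμim : μ.im = ζ.im - 1 := by simp [hμ]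
  have hμn : ‖μ‖ ≤ ‖ζ‖ + 2 := by
    have h1 : ‖μ‖ ≤ ‖ζ - 1‖ + ‖Complex.I‖ := norm_sub_le _ _
    have h2 : ‖ζ - 1‖ ≤ ‖ζ‖ + ‖(1:ℂ)‖ := norm_sub_le _ _
    rw [Complex.norm_I] at h1
    rw [norm_one] at h2
    linarith
  have hV : Continuous (Vz α ζ) := pot_cont hα _ _
  have hVre : ∀ x, (Vz α ζ x).re = -μ.re := by
    intro x
    simp [Vz, pot, hμ]
  have hVim : ∀ x, (Vz α ζ x).im = |x| ^ α - μ.im := by
    intro x
    simp [Vz, pot, hμ]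
  set δ : ℝ := 1 / (4 * (1 + ‖μ‖)) with hδ
  have hμ0 : 0 ≤ ‖μ‖ := norm_nonneg _
  have hδ0 : 0 < δ := by positivity
  have hδ4 : δ ≤ 1 / 4 := by
    rw [hδ]
    apply one_div_le_one_div_of_le (by norm_num)
    linarith
  have hδμ : δ * ‖μ‖ ≤ 1 / 4 := by
    rw [hδ, div_mul_eq_mul_div, one_mul, div_le_div_iff₀ (by positivity) (by norm_num)]
    linarith
  set s : ℝ := Real.sqrt (1 - δ ^ 2) with hs
  have hs2 : s ^ 2 = 1 - δ ^ 2 := Real.sq_sqrt (by nlinarith)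
  have hs0 : 0 ≤ s := Real.sqrt_nonneg _
  have hs1 : 15 / 16 ≤ s := by
    apply Real.le_sqrt_of_sq_le
    nlinarith
  let w : ℂ := ⟨δ, -s⟩
  have hw : ‖w‖ ≤ 1 := by
    have h1 : ‖w‖ ^ 2 = 1 := by
      rw [← Complex.normSq_eq_norm_sq, Complex.normSq_apply]
      show δ * δ + -s * -s = 1
      nlinarith
    nlinarith [norm_nonneg w]
  have hc : Coer (Vz α ζ) w δ (Ici x0) := by
    refine ⟨hδ0, le_rfl, hw, ?_⟩
    intro x hx
    have hx' : x0 ≤ x := hx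
    rw [Complex.mul_re, hVre, hVim, hμim]
    show δ ≤ δ * -μ.re - -s * (|x| ^ α - (ζ.im - 1))
    have h1 : ζ.im ≤ |x| ^ α := by
      rw [← hxα, abs_of_pos (hx00.trans_le hx')]
      exact Real.rpow_le_rpow hx00.le hx' hα.le
    have h2 : μ.re ≤ ‖μ‖ := Complex.re_le_norm μ
    have h3 : δ * μ.re ≤ 1 / 4 := (mul_le_mul_of_nonneg_left h2 hδ0.le).trans hδμ
    have h4 : s ≤ s * (|x| ^ α - (ζ.im - 1)) := by nlinarith
    nlinarith
  have hK : ∀ x ∈ Icc x0 (x0 + 1), ‖Vz α ζ x‖ ≤ 5 * ‖ζ‖ := by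
    intro x hx
    have h0 : 0 < x := hx00.trans_le hx.1
    have h1 : ‖Vz α ζ x‖ ≤ |x| ^ α + ‖μ‖ := by
      have h2 : Vz α ζ x = Complex.I * ((|x| ^ α : ℝ) : ℂ) - μ := rfl
      rw [h2]
      refine (norm_sub_le _ _).trans ?_
      rw [norm_mul, Complex.norm_I, one_mul, Complex.norm_real,
        Real.norm_of_nonneg (Real.rpow_nonneg (abs_nonneg _) _)]
    have h3 : |x| ^ α ≤ 2 * ‖ζ‖ := by
      rw [abs_of_pos h0]
      have h4 : x ^ α ≤ (2 * max x0 1) ^ α := by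
        apply Real.rpow_le_rpow h0.le _ hα.le
        have := hx.2
        have := le_max_left x0 1
        have := le_max_right x0 1
        linarith
      rw [Real.mul_rpow (by norm_num) (by positivity)] at h4
      have h5 : (2:ℝ) ^ α ≤ 2 := by
        calc (2:ℝ) ^ α ≤ 2 ^ (1:ℝ) := Real.rpow_le_rpow_of_exponent_le (by norm_num) hα1.le
          _ = 2 := Real.rpow_one _
      have h6 : (max x0 1) ^ α ≤ ‖ζ‖ := by
        rcases le_total x0 1 with h7 | h7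
        · rw [max_eq_right h7, Real.one_rpow]
          exact hr
        · rw [max_eq_left h7, hxα]
          exact (Complex.im_le_norm ζ)
      calc x ^ α ≤ 2 ^ α * (max x0 1) ^ α := h4
        _ ≤ 2 * ‖ζ‖ := by gcongr
    linarith
  have hb := right_bounds_inf hV h hc (by positivity) hK (hint.mono_set (Ioi_subset_Ioi hx00.le))
  refine hb.1.trans ?_
  gcongr
  · have : 0 < δ := hδ0
    unfold CK
    positivity
  · rw [hδ]
    unfold CK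
    rw [div_div_eq_mul_div, div_one]
    have : 2 * (1 + 5 * ‖ζ‖) ≤ 12 * ‖ζ‖ := by linarith
    have h8 : 4 * (1 + ‖μ‖) ≤ 16 * ‖ζ‖ := by linarith
    calc 2 * (1 + 5 * ‖ζ‖) * (4 * (1 + ‖μ‖)) ≤ (12 * ‖ζ‖) * (16 * ‖ζ‖) := by gcongr
      _ = 192 * ‖ζ‖ ^ 2 := by ring

/-- geometry of large `ζ` in the sector below the eigenvalue ray -/
lemma sector_geo {α θ : ℝ} (hα : 0 < α) (hθ0 : 0 ≤ θ) (hθ : θ < Real.pi / (2 + α)) :
    ∃ R1 κ' : ℝ, 4 ≤ R1 ∧ 0 < κ' ∧ ∀ ζ : ℂ, 0 < ζ.im → ζ.arg ≤ θ → R1 ≤ ‖ζ‖ →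
      dray α (ζ - 1 - Complex.I) = 1 ∧ κ' * ‖ζ - 1 - Complex.I‖ ≤ (ζ - 1 - Complex.I).re := by
  set β := Real.pi / (2 + α) with hβ
  have hβ2 : β < Real.pi / 2 := by
    rw [hβ]
    apply div_lt_div_of_pos_left Real.pi_pos (by norm_num) (by linarith)
  have hpi := Real.pi_pos
  have hβ0 : 0 < β := by positivity
  have hcos : 0 < Real.cos θ := Real.cos_pos_of_mem_Ioo ⟨by linarith, by linarith⟩
  have hsin : 0 < Real.sin (β - θ) := Real.sin_pos_of_pos_of_lt_pi (by linarith) (by linarith)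
  refine ⟨max 4 (max (2 / Real.cos θ) (3 / Real.sin (β - θ))), Real.cos θ / 4, le_max_left _ _,
    by positivity, ?_⟩
  intro ζ him harg hR
  have hr4 : 4 ≤ ‖ζ‖ := (le_max_left _ _).trans hR
  have hr1 : 2 ≤ ‖ζ‖ * Real.cos θ := by
    have := ((le_max_left _ _).trans (le_max_right _ _)).trans hR
    rwa [div_le_iff₀ hcos] at this
  have hr2 : 3 ≤ ‖ζ‖ * Real.sin (β - θ) := by
    have := ((le_max_right _ _).trans (le_max_right _ _)).trans hR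
    rwa [div_le_iff₀ hsin] at this
  have ha0 : 0 ≤ ζ.arg := Complex.arg_nonneg_iff.mpr him.le
  have hre : ζ.re = ‖ζ‖ * Real.cos ζ.arg := (Complex.norm_mul_cos_arg ζ).symm
  have him' : ζ.im = ‖ζ‖ * Real.sin ζ.arg := (Complex.norm_mul_sin_arg ζ).symm
  have hca : Real.cos θ ≤ Real.cos ζ.arg :=
    Real.cos_le_cos_of_nonneg_of_le_pi ha0 (by linarith) harg
  have hsa : Real.sin (β - θ) ≤ Real.sin (β - ζ.arg) :=
    Real.sin_le_sin_of_le_of_le_pi_div_two (by linarith) (by linarith) (by linarith)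
  have hr0 : 0 ≤ ‖ζ‖ := norm_nonneg _
  constructor
  · unfold dray
    have e1 : ((ζ - 1 - Complex.I) *
        Complex.exp (-((Real.pi / (2 + α) : ℝ) : ℂ) * Complex.I)).im =
        -(‖ζ‖ * Real.sin (β - ζ.arg)) + Real.sin β - Real.cos β := by
      rw [← hβ]
      have e2 : -((β : ℝ) : ℂ) * Complex.I = ((-β : ℝ) : ℂ) * Complex.I := by push_cast; ring
      rw [e2, Complex.mul_im, Complex.exp_ofReal_mul_I_re, Complex.exp_ofReal_mul_I_im,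
        Real.cos_neg, Real.sin_neg]
      simp only [Complex.sub_re, Complex.sub_im, Complex.one_re, Complex.one_im, Complex.I_re,
        Complex.I_im]
      rw [hre, him', Real.sin_sub]
      ring
    rw [e1]
    apply min_eq_left
    have h3 : ‖ζ‖ * Real.sin (β - θ) ≤ ‖ζ‖ * Real.sin (β - ζ.arg) :=
      mul_le_mul_of_nonneg_left hsa hr0
    have h4 := Real.sin_le_one β
    have h5 := Real.neg_one_le_cos β
    rw [le_abs]
    right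
    linarith
  · have hμn : ‖ζ - 1 - Complex.I‖ ≤ ‖ζ‖ + 2 := by
      have h1 : ‖ζ - 1 - Complex.I‖ ≤ ‖ζ - 1‖ + ‖Complex.I‖ := norm_sub_le _ _
      have h2 : ‖ζ - 1‖ ≤ ‖ζ‖ + ‖(1:ℂ)‖ := norm_sub_le _ _
      rw [Complex.norm_I] at h1
      rw [norm_one] at h2
      linarith
    have h3 : ‖ζ‖ * Real.cos θ ≤ ζ.re := by
      rw [hre]
      exact mul_le_mul_of_nonneg_left hca hr0
    have h4 : (ζ - 1 - Complex.I).re = ζ.re - 1 := by simp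
    rw [h4]
    have h5 : Real.cos θ / 4 * ‖ζ - 1 - Complex.I‖ ≤ Real.cos θ / 4 * (2 * ‖ζ‖) := by
      apply mul_le_mul_of_nonneg_left _ (by positivity)
      linarith
    linarith

/-- polynomial times `exp (2 r^(1/α))` against `exp (ε r^(1/α+1/2))` -/
lemma poly_exp_le {α : ℝ} (hα : 0 < α) (hα1 : α < 1) {A ε r : ℝ} (hA : 0 < A) (hε : 0 < ε) (m : ℕ)
    (hr : 1 ≤ r) (hr2 : ((|Real.log A| + m + 2) / ε) ^ 2 ≤ r) :
    A * r ^ m * Real.exp (2 * r ^ (1 / α)) ≤ Real.exp (ε * r ^ (1 / α + 1 / 2)) := by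
  have hr0 : 0 < r := by linarith
  set T := r ^ (1 / α) with hT
  have h1α : 1 ≤ 1 / α := by
    rw [le_div_iff₀ hα]
    linarith
  have hT1 : r ≤ T := by
    calc r = r ^ (1:ℝ) := (Real.rpow_one r).symm
      _ ≤ T := Real.rpow_le_rpow_of_exponent_le hr h1α
  have hT0 : 1 ≤ T := hr.trans hT1
  have e1 : A * r ^ m * Real.exp (2 * T) =
      Real.exp (Real.log A + m * Real.log r + 2 * T) := by
    rw [Real.exp_add, Real.exp_add, Real.exp_log hA, mul_comm (m : ℝ) (Real.log r),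
      Real.exp_mul (Real.log r), Real.exp_log hr0, Real.rpow_natCast]
  rw [e1, Real.exp_le_exp]
  have e2 : r ^ (1 / α + 1 / 2) = T * Real.sqrt r := by
    rw [Real.rpow_add hr0, ← Real.sqrt_eq_rpow]
  rw [e2]
  have h2 : Real.log A ≤ |Real.log A| * T := by
    calc Real.log A ≤ |Real.log A| := le_abs_self _
      _ ≤ |Real.log A| * T := le_mul_of_one_le_right (abs_nonneg _) hT0
  have h3 : (m : ℝ) * Real.log r ≤ m * T := by
    apply mul_le_mul_of_nonneg_left _ (by positivity)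
    exact (Real.log_le_self hr0.le).trans hT1
  have h4 : (|Real.log A| + m + 2) / ε ≤ Real.sqrt r := Real.le_sqrt_of_sq_le hr2
  rw [div_le_iff₀ hε] at h4
  have h5 : (|Real.log A| + m + 2) * T ≤ (Real.sqrt r * ε) * T :=
    mul_le_mul_of_nonneg_right h4 (by linarith)
  nlinarith

/-- the bound of the Weyl solution in `L²` -/
lemma weyl_l2 {α : ℝ} (hα : 0 < α) (hα1 : α < 1) {ζ : ℂ} {ψ ψ' : ℝ → ℂ} (him : 0 < ζ.im)
    (hr : 1 ≤ ‖ζ‖) (h : IsSol (Vz α ζ) ψ ψ') (hint : IntegrableOn (en ψ ψ') (Ioi 0)) {S : ℝ}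
    (hS : ∀ x ∈ Icc 0 (ζ.im ^ (1 / α)), ‖ψ x‖ ≤ S) :
    MemLp ψ 2 (volume.restrict (Ioi (0:ℝ))) ∧ Real.sqrt (∫ x in Ioi (0:ℝ), ‖ψ x‖ ^ 2) ≤
      S * (1 + ζ.im ^ (1 / α) + 192 * ‖ζ‖ ^ 2) := by
  set x0 := ζ.im ^ (1 / α) with hx0
  have hx00 : 0 < x0 := Real.rpow_pos_of_pos him _
  have hS0 : 0 ≤ S := (norm_nonneg _).trans (hS 0 ⟨le_rfl, hx00.le⟩)
  have hle : ∀ x, ‖ψ x‖ ^ 2 ≤ en ψ ψ' x := by
    intro x
    unfold en
    nlinarith [sq_nonneg ‖ψ' x‖]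
  have hI : IntegrableOn (fun x => ‖ψ x‖ ^ 2) (Ioi (0:ℝ)) := by
    apply Integrable.mono' hint (h.cont.norm.pow 2).aestronglyMeasurable
    refine Filter.Eventually.of_forall fun x => ?_
    show ‖‖ψ x‖ ^ 2‖ ≤ en ψ ψ' x
    rw [Real.norm_of_nonneg (sq_nonneg _)]
    exact hle x
  refine ⟨(memLp_two_iff_integrable_sq_norm h.cont.aestronglyMeasurable).mpr hI, ?_⟩
  have hI2 : IntegrableOn (fun x => ‖ψ x‖ ^ 2) (Ioi x0) := hI.mono_set (Ioi_subset_Ioi hx00.le)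
  have hE2 : IntegrableOn (en ψ ψ') (Ioi x0) := hint.mono_set (Ioi_subset_Ioi hx00.le)
  have e1 := intervalIntegral.integral_interval_add_Ioi hI hI2
  have h1 : (∫ x in (0:ℝ)..x0, ‖ψ x‖ ^ 2) ≤ x0 * S ^ 2 := by
    calc (∫ x in (0:ℝ)..x0, ‖ψ x‖ ^ 2) ≤ ∫ _ in (0:ℝ)..x0, S ^ 2 := by
          apply intervalIntegral.integral_mono_on hx00.le
          · exact (h.cont.norm.pow 2).intervalIntegrable _ _
          · exact intervalIntegrable_const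
          · intro x hx
            exact pow_le_pow_left₀ (norm_nonneg _) (hS x hx) 2
      _ = x0 * S ^ 2 := by
          rw [intervalIntegral.integral_const]
          simp
  have h2 : (∫ x in Ioi x0, ‖ψ x‖ ^ 2) ≤ (192 * ‖ζ‖ ^ 2) ^ 2 * S ^ 2 := by
    calc (∫ x in Ioi x0, ‖ψ x‖ ^ 2) ≤ ∫ x in Ioi x0, en ψ ψ' x :=
          integral_mono hI2 hE2 hle
      _ ≤ (192 * ‖ζ‖ ^ 2) ^ 2 * ‖ψ x0‖ ^ 2 := tail_bound hα hα1 him hr h hint
      _ ≤ _ := by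
          apply mul_le_mul_of_nonneg_left _ (by positivity)
          exact pow_le_pow_left₀ (norm_nonneg _) (hS x0 ⟨hx00.le, le_rfl⟩) 2
  apply Real.sqrt_le_iff.mpr
  refine ⟨by positivity, ?_⟩
  rw [← e1]
  have h3 : x0 + (192 * ‖ζ‖ ^ 2) ^ 2 ≤ (1 + x0 + 192 * ‖ζ‖ ^ 2) ^ 2 := by
    have : 0 ≤ 192 * ‖ζ‖ ^ 2 := by positivity
    nlinarith
  calc _ ≤ (x0 + (192 * ‖ζ‖ ^ 2) ^ 2) * S ^ 2 := by linarith
    _ ≤ (1 + x0 + 192 * ‖ζ‖ ^ 2) ^ 2 * S ^ 2 := mul_le_mul_of_nonneg_right h3 (by positivity)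
    _ = _ := by ring

/-- sharp upper bound in the sector below the eigenvalue ray -/
theorem upperP1 (α : ℝ) (hα : 0 < α) (hα1 : α < 1) (hM : MStmt α) (hU : WkbUpStmt α) (P : Pack α) (g : ℝ → ℂ)
    (hg : MemLp g 2 (volume.restrict (Ioi (0:ℝ)))) (κ θ₂ ε : ℝ) (hκ : 0 < κ)
    (hθ₂ : θ₂ < Real.pi / (2 + α)) (hε : 0 < ε) :
    ∃ C : ℝ, 0 < C ∧ ∃ R0 : ℝ, 1 ≤ R0 ∧ ∀ (ζ : ℂ) (ψ ψ' : ℝ → ℂ), κ * ‖ζ‖ ≤ ζ.im → ζ.arg ≤ θ₂ →
      R0 ≤ ‖ζ‖ → IsWeyl P ζ ψ ψ' →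
      ‖∫ x in Ioi (0:ℝ), g x * ψ x‖ ≤ C * Real.exp (KK α ζ + ε * ‖ζ‖ ^ (1 / α + 1 / 2)) := by
  obtain ⟨CM, N, hCM, hMM⟩ := hM
  have hθ : max θ₂ 0 < Real.pi / (2 + α) := max_lt hθ₂ (by have := Real.pi_pos; positivity)
  obtain ⟨R1, κ', hR1, hκ', hgeo⟩ := sector_geo hα (le_max_right θ₂ 0) hθ
  obtain ⟨CU, hCU, hUU⟩ := hU κ' hκ'
  obtain ⟨n0, hn0⟩ := exists_nat_ge (1 / α)
  set A : ℝ := 388 * (1 + CM * 3 ^ N) * CU with hA
  have hA0 : 0 < A := by positivity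
  set m : ℕ := n0 + N + 3 with hm
  set G := Real.sqrt (∫ x in Ioi (0:ℝ), ‖g x‖ ^ 2) with hG
  have hG0 : 0 ≤ G := Real.sqrt_nonneg _
  refine ⟨G + 1, by positivity, max R1 (((|Real.log A| + m + 2) / ε) ^ 2), ?_, ?_⟩
  · exact le_trans (by linarith) (le_max_left _ _)
  intro ζ ψ ψ' hκζ harg hR hW
  obtain ⟨hsol, hint, hnorm⟩ := hW
  have hRR1 : R1 ≤ ‖ζ‖ := (le_max_left _ _).trans hR
  have hRR2 : ((|Real.log A| + m + 2) / ε) ^ 2 ≤ ‖ζ‖ := (le_max_right _ _).trans hR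
  set r := ‖ζ‖ with hr
  have hr4 : 4 ≤ r := hR1.trans hRR1
  have hr1 : 1 ≤ r := by linarith
  have him : 0 < ζ.im := lt_of_lt_of_le (by positivity) hκζ
  obtain ⟨hdray, hre⟩ := hgeo ζ him (harg.trans (le_max_left _ _)) hRR1
  set μ := ζ - 1 - Complex.I with hμ
  have hμζ : ‖μ - ζ‖ ≤ 2 := by
    have e : μ - ζ = -1 - Complex.I := by rw [hμ]; ring
    rw [e]
    have h1 : ‖(-1 : ℂ) - Complex.I‖ ≤ ‖(-1:ℂ)‖ + ‖Complex.I‖ := norm_sub_le _ _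
    rw [norm_neg, norm_one, Complex.norm_I] at h1
    linarith
  have hμup : ‖μ‖ ≤ r + 2 := by
    calc ‖μ‖ = ‖ζ + (μ - ζ)‖ := by ring_nf
      _ ≤ ‖ζ‖ + ‖μ - ζ‖ := norm_add_le _ _
      _ ≤ r + 2 := by linarith
  have hμlow : r - 2 ≤ ‖μ‖ := by
    have : ‖ζ‖ ≤ ‖μ‖ + ‖μ - ζ‖ := by
      calc ‖ζ‖ = ‖μ - (μ - ζ)‖ := by ring_nf
        _ ≤ _ := norm_sub_le _ _
    linarith
  set x0 := ζ.im ^ (1 / α) with hx0
  have hx00 : 0 < x0 := Real.rpow_pos_of_pos him _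
  have hxα : x0 ^ α = ζ.im := by
    rw [hx0, ← Real.rpow_mul him.le, one_div, inv_mul_cancel₀ hα.ne', Real.rpow_one]
  have hμ0 : 0 ≤ ‖μ‖ := norm_nonneg _
  set B : ℝ := 1 + CM * (1 + ‖μ‖) ^ N with hB
  have hB1 : 1 ≤ B := by
    rw [hB]
    have : 0 ≤ CM * (1 + ‖μ‖) ^ N := by positivity
    linarith
  have hB0 : 0 < B := by linarith
  have hBM := hMM μ ψ ψ' hsol hint
  rw [hdray, one_mul, one_mul] at hBM
  have hψ0 : ‖ψ 0‖ ≤ B ∧ ‖ψ' 0‖ ≤ B := by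
    rcases P.hp with ⟨h0, h1⟩ | ⟨h0, h1⟩
    · rw [h0, h1] at hnorm
      have e : ψ 0 = 1 := by simpa using hnorm
      rw [e, norm_one, mul_one] at hBM
      refine ⟨by rw [e, norm_one]; exact hB1, ?_⟩
      linarith [hBM.2]
    · rw [h0, h1] at hnorm
      have e : ‖ψ' 0‖ = 1 := by
        have e2 : -ψ' 0 = 1 := by simpa using hnorm
        rw [← norm_neg, e2, norm_one]
      rw [e, mul_one] at hBM
      refine ⟨by linarith [hBM.1], ?_⟩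
      rw [e]
      exact hB1
  -- the WKB bound
  set S : ℝ := B * (CU * ‖μ‖ * Real.exp (KK α ζ + 2 * x0)) with hS
  have hbd : ∀ x ∈ Icc 0 x0, ‖ψ x‖ ≤ S := by
    intro x hx
    have h1 := hUU μ x0 (fun x => ((B⁻¹ : ℝ) : ℂ) * ψ x) (fun x => ((B⁻¹ : ℝ) : ℂ) * ψ' x)
      (by linarith) hx00.le hre
      (by rw [hxα]; have := Complex.im_le_norm ζ; linarith) (hsol.smul _)
      (by
        rw [norm_mul, Complex.norm_real, Real.norm_of_nonneg (by positivity),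
          inv_mul_le_iff₀ hB0, mul_one]
        exact hψ0.1)
      (by
        rw [norm_mul, Complex.norm_real, Real.norm_of_nonneg (by positivity),
          inv_mul_le_iff₀ hB0, mul_one]
        exact hψ0.2) x hx
    have h2 := h1.1
    rw [norm_mul, Complex.norm_real, Real.norm_of_nonneg (by positivity),
      inv_mul_le_iff₀ hB0] at h2
    refine h2.trans ?_
    rw [hS]
    have h3 := phase_le hα hμζ hx.1 hx.2
    gcongr
    exact h3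
  obtain ⟨hmem, hl2⟩ := weyl_l2 hα hα1 him hr1 hsol hint hbd
  have hcs := cs_half g ψ hg hmem
  rw [← hG] at hcs
  -- final estimate
  set T := r ^ (1 / α) with hT
  have hx0T : x0 ≤ T := Real.rpow_le_rpow him.le (Complex.im_le_norm ζ) (by positivity)
  have hTn : T ≤ r ^ n0 := by
    rw [← Real.rpow_natCast]
    exact Real.rpow_le_rpow_of_exponent_le hr1 hn0
  have hrn : ∀ k : ℕ, 1 ≤ r ^ k := fun k => one_le_pow₀ hr1
  have hf1 : 1 + x0 + 192 * r ^ 2 ≤ 194 * r ^ (n0 + 2) := by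
    have a1 : r ^ n0 ≤ r ^ (n0 + 2) := pow_le_pow_right₀ hr1 (by omega)
    have a2 : r ^ 2 ≤ r ^ (n0 + 2) := pow_le_pow_right₀ hr1 (by omega)
    have a3 := hrn (n0 + 2)
    linarith
  have hf2 : B ≤ (1 + CM * 3 ^ N) * r ^ N := by
    have a1 : (1 + ‖μ‖) ^ N ≤ (3 * r) ^ N := by
      apply pow_le_pow_left₀ (by positivity)
      linarith
    rw [mul_pow] at a1
    have a2 : CM * (1 + ‖μ‖) ^ N ≤ CM * (3 ^ N * r ^ N) := mul_le_mul_of_nonneg_left a1 hCM.le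
    have a3 := hrn N
    rw [hB]
    nlinarith
  have hf3 : CU * ‖μ‖ ≤ CU * (2 * r) := mul_le_mul_of_nonneg_left (by linarith) hCU.le
  have hf4 : Real.exp (KK α ζ + 2 * x0) ≤ Real.exp (KK α ζ) * Real.exp (2 * T) := by
    rw [← Real.exp_add, Real.exp_le_exp]
    linarith
  have hS1 : S * (1 + x0 + 192 * r ^ 2) ≤
      (A * r ^ m * Real.exp (2 * T)) * Real.exp (KK α ζ) := by
    have hS0 : 0 ≤ S := by positivity
    calc S * (1 + x0 + 192 * r ^ 2) ≤ (((1 + CM * 3 ^ N) * r ^ N) *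
          (CU * (2 * r) * (Real.exp (KK α ζ) * Real.exp (2 * T)))) * (194 * r ^ (n0 + 2)) := by
          rw [hS]
          gcongr
      _ = (A * r ^ m * Real.exp (2 * T)) * Real.exp (KK α ζ) := by
          rw [hA, hm]
          ring
  have hpe := poly_exp_le hα hα1 hA0 hε m hr1 hRR2
  rw [← hT] at hpe
  calc ‖∫ x in Ioi (0:ℝ), g x * ψ x‖ ≤ G * Real.sqrt (∫ x in Ioi (0:ℝ), ‖ψ x‖ ^ 2) := hcs
    _ ≤ G * (S * (1 + x0 + 192 * r ^ 2)) := mul_le_mul_of_nonneg_left hl2 hG0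
    _ ≤ G * ((A * r ^ m * Real.exp (2 * T)) * Real.exp (KK α ζ)) :=
        mul_le_mul_of_nonneg_left hS1 hG0
    _ ≤ (G + 1) * (Real.exp (ε * r ^ (1 / α + 1 / 2)) * Real.exp (KK α ζ)) := by
        gcongr
        linarith
    _ = (G + 1) * Real.exp (KK α ζ + ε * r ^ (1 / α + 1 / 2)) := by
        rw [Real.exp_add, mul_comm (Real.exp (KK α ζ))]

end Pool.Agent.Helper209.AC.UpperP1
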